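import Pool.Agent.Lib.MP_5d4057_al.VB.ConSU

/-!
# VB: `SL_n(ℂ)` is connected
-/

set_option autoImplicit false

namespace Pool.Agent.Lib.MP_5d4057_al.VB

open Matrix

variable {n : ℕ}

/-- `GL_n(ℂ)` is connected. -/
theorem gl_conn (n : ℕ) : IsPathConnected {x : Matrix (Fin n) (Fin n) ℂ | x.det ≠ 0} := by
  refine ⟨1, by simp, fun {x} hx => ?_⟩
  have hx' : x.det ≠ 0 := hx
  set p : Polynomial ℂ := (1 + (Polynomial.X : Polynomial ℂ) • (x - 1).map Polynomial.C).det with hp
  have hev : ∀ z : ℂ, p.eval z = (1 + z • (x - 1)).det := by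
    intro z
    rw [hp, ← Polynomial.coe_evalRingHom, RingHom.map_det, map_add, map_one]
    congr 2
    ext i j
    show (Polynomial.evalRingHom z) (Polynomial.X * Polynomial.C ((x - 1) i j)) = z * (x - 1) i j
    rw [map_mul, Polynomial.coe_evalRingHom, Polynomial.eval_X, Polynomial.eval_C]
  have h2 : p ≠ 0 := by
    intro h3
    have h4 := hev 0
    rw [h3, Polynomial.eval_zero, zero_smul, add_zero, Matrix.det_one] at h4
    exact zero_ne_one h4
  have h3 : Set.Finite {z : ℂ | p.IsRoot z} := Polynomial.finite_setOfPred_isRoot h2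
  have h4 : IsPathConnected ({z : ℂ | p.IsRoot z}ᶜ) :=
    h3.countable.isPathConnected_compl_of_one_lt_rank (by simp)
  have h5 := h4.image (f := fun z : ℂ => 1 + z • (x - 1)) (by fun_prop)
  refine (h5.joinedIn 1 ⟨0, ?_, by simp⟩ x ⟨1, ?_, by simp⟩).mono ?_
  · show ¬ p.eval 0 = 0
    rw [hev]; simp
  · show ¬ p.eval 1 = 0
    rw [hev]; simpa using hx'
  · rintro _ ⟨z, hz, rfl⟩
    show (1 + z • (x - 1)).det ≠ 0
    rw [← hev]
    exact hz

/-- **`SL_n(ℂ)` is connected.** -/
theorem sl_conn (n : ℕ) : IsPathConnected {x : Matrix (Fin n) (Fin n) ℂ | x.det = 1} := by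
  rcases Nat.eq_zero_or_pos n with hn | hn
  · subst hn
    have : {x : Matrix (Fin 0) (Fin 0) ℂ | x.det = 1} = {1} := by
      ext x
      constructor
      · intro _; exact Subsingleton.elim _ _
      · rintro rfl; simp
    rw [this]
    exact isPathConnected_singleton _
  set i₀ : Fin n := ⟨0, hn⟩
  have h1 := (gl_conn n).image' (f := fun x => dg i₀ (x.det)⁻¹ * x) ?_
  · convert h1 using 1
    ext x
    constructor
    · intro hd
      have hd' : x.det = 1 := hd
      refine ⟨x, by rw [Set.mem_ofPred_eq, hd']; exact one_ne_zero, ?_⟩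
      show dg i₀ (x.det)⁻¹ * x = x
      rw [hd', inv_one, dg_one, Matrix.one_mul]
    · rintro ⟨y, hy, rfl⟩
      show (dg i₀ (y.det)⁻¹ * y).det = 1
      rw [Matrix.det_mul, det_dg, inv_mul_cancel₀ hy]
  · refine ContinuousOn.mul ((continuous_dg i₀).comp_continuousOn ?_) continuousOn_id
    exact (Continuous.continuousOn (by fun_prop)).inv₀ fun x hx => hx

end Pool.Agent.Lib.MP_5d4057_al.VB
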