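import Pool.Agent.Lib.MP_5d4057_al.VB.Defs
import Pool.Agent.Lib.MP_5d4057_al.VB.ConSL

/-!
# VERB V2: products of copies of `SL_n(ℂ)` are connected
-/

set_option autoImplicit false

namespace Pool.Agent.Lib.MP_5d4057_al.VB

open Matrix Pool.Agent.Lib.MP_5d4057_al Pool.Agent.Lib.MP_5d4057_al.Hyb

instance sl_connectedSpace (n : ℕ) : ConnectedSpace (SpecialLinearGroup (Fin n) ℂ) := by
  have h := isPathConnected_iff_pathConnectedSpace.1 (sl_conn n)
  have h2 : ConnectedSpace {x : Matrix (Fin n) (Fin n) ℂ | x.det = 1} := inferInstance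
  exact h2

/-- A product of copies of `SL_n(ℂ)` is connected. -/
theorem conn_of_iso {m r N : ℕ} {H : AlgGroup N}
    (E : (Fin (r + 1) → SpecialLinearGroup (Fin (m + 1)) ℂ) ≃* H.pts) (hE : Continuous E) :
    H.Conn := by
  have h1 : (H.pts : Set (GL (Fin N) ℂ)) =
      Set.range fun x : Fin (r + 1) → SpecialLinearGroup (Fin (m + 1)) ℂ =>
        ((E x : H.pts) : GL (Fin N) ℂ) := by
    ext g
    constructor
    · intro hg
      obtain ⟨x, hx⟩ := E.surjective ⟨g, hg⟩
      exact ⟨x, congrArg Subtype.val hx⟩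
    · rintro ⟨x, rfl⟩
      exact (E x).2
  show IsConnected (H.pts : Set (GL (Fin N) ℂ))
  rw [h1]
  exact isConnected_range (continuous_subtype_val.comp hE)

end Pool.Agent.Lib.MP_5d4057_al.VB
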