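import Pool.Agent.Lib.MP_5d4057_al.VB.RealP

/-!
# VERB V2: the integral points
-/

set_option autoImplicit false

namespace Pool.Agent.Lib.MP_5d4057_al.VB

open Matrix Pool.Agent.Lib.MP_5d4057_al Pool.Agent.Lib.MP_5d4057_al.Hyb

namespace Dat

variable {m r N : ℕ} (D : Dat m r N)

/-- Two rational vectors with the same component at the place `0` are equal. -/
theorem rat_ext {x y : Fin N → ℚ}
    (h : D.X (fun k => (x k : ℂ)) 0 = D.X (fun k => (y k : ℂ)) 0) : x = y := by
  have h1 : ∑ k, (((x - y) k : ℚ) : ℂ) • D.b k 0 = 0 := by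
    simp only [Pi.sub_apply, Rat.cast_sub, sub_smul, Finset.sum_sub_distrib]
    exact sub_eq_zero.2 h
  exact sub_eq_zero.1 (D.inj _ h1)

/-- Two integral vectors with the same component at the place `0` are equal. -/
theorem int_ext {x y : Fin N → ℤ}
    (h : D.X (fun k => (x k : ℂ)) 0 = D.X (fun k => (y k : ℂ)) 0) : x = y := by
  have h1 := D.rat_ext (x := fun k => (x k : ℚ)) (y := fun k => (y k : ℚ)) (by simpa using h)
  funext k
  exact_mod_cast congrFun h1 k

/-- The involution in rational coordinates. -/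
def stQ (x : Fin N → ℚ) : Fin N → ℚ := fun k => ∑ j, x j * D.s j k

theorem st_rat (x : Fin N → ℚ) :
    D.st (fun k => (x k : ℂ)) = fun k => (D.stQ x k : ℂ) := by
  funext k
  simp [st, stQ]

/-- A rational vector whose component at the place `0` is in `SU(m,1)` is a point. -/
theorem pt_of_rat {x : Fin N → ℚ} {g : SUGroup m}
    (h : D.X (fun k => (x k : ℂ)) 0 = g.toMatrix) : D.Pt fun k => (x k : ℂ) := by
  have hg : (g.toMatrix)ᴴ * J m * g.toMatrix = J m := g.2
  have hd : g.toMatrix.det = 1 := g.1.2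
  have hs : (fun k => (starRingEnd ℂ) ((x k : ℚ) : ℂ)) = fun k => ((x k : ℚ) : ℂ) := by
    funext k
    simp
  have hY : (D.Y (fun k => (x k : ℂ)) 0)ᵀ = (g.toMatrix)ᴴ := by
    rw [Y_eq, hs, h]
    ext i j
    simp [Matrix.conjTranspose_apply]
  have h1 : D.X (D.mv (D.st fun k => (x k : ℂ)) fun k => (x k : ℂ)) 0 = 1 := by
    rw [X_mv, X_st, hY, h, Matrix.mul_assoc, Matrix.mul_assoc, ← Matrix.mul_assoc _ (D.Z 0),
      D.Z_zero, hg, Matrix.nonsing_inv_mul]
    rw [← D.Z_zero]
    exact (D.Z_det 0).isUnit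
  have h2 : D.mv (D.stQ x) x = D.u := by
    apply D.rat_ext
    have e1 : (fun k => ((D.mv (D.stQ x) x k : ℚ) : ℂ)) =
        D.mv (D.st fun k => (x k : ℂ)) fun k => (x k : ℂ) := by
      rw [st_rat]
      funext k
      exact D.mv_map (Rat.castHom ℂ) (D.stQ x) x k
    have e2 : (fun k => ((D.u k : ℚ) : ℂ)) = D.u := by
      funext k
      exact D.u_map (Rat.castHom ℂ) k
    rw [e1, e2, h1, X_u]
  have h3 : D.mv (D.st fun k => (x k : ℂ)) (fun k => (x k : ℂ)) = D.u := by
    rw [st_rat]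
    funext k
    have e1 := D.mv_map (Rat.castHom ℂ) (D.stQ x) x k
    rw [h2] at e1
    rw [D.u_map] at e1
    exact e1.symm
  intro i
  constructor
  · have h4 : D.X (D.mv (D.st fun k => (x k : ℂ)) fun k => (x k : ℂ)) i = 1 := by
      rw [h3, X_u]
    rw [X_mv, X_st] at h4
    have h5 : D.Z i * ((D.Z i)⁻¹ * (D.Y (fun k => (x k : ℂ)) i)ᵀ * D.Z i *
        D.X (fun k => (x k : ℂ)) i) = D.Z i := by
      rw [h4, Matrix.mul_one]
    rwa [← Matrix.mul_assoc, ← Matrix.mul_assoc, ← Matrix.mul_assoc,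
      Matrix.mul_nonsing_inv _ (D.Z_det i).isUnit, Matrix.one_mul] at h5
  · exact D.rat x (by rw [← hd, ← h]; rfl) i

/-- The image of the integral points is the group of unitary units. -/
theorem map_int0 {H : AlgGroup N} (hH : ∀ g : GL (Fin N) ℂ, g ∈ H.pts ↔
    ∃ x, D.Pt x ∧ (g : Matrix (Fin N) (Fin N) ℂ) = D.L x) (h0 : H.real0 = ⊤)
    {O : Subring (Matrix (Fin (m + 1)) (Fin (m + 1)) ℂ)}
    (hO : ∀ a, a ∈ O ↔ ∃ x : Fin N → ℤ, a = ∑ k, (x k : ℂ) • D.b k 0)
    (φ : H.real0 →* SUGroup m) (hφ : ∀ (g : H.real0) (x : Fin N → ℝ),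
      (((g : H.real) : GL (Fin N) ℝ) : Matrix (Fin N) (Fin N) ℝ) = D.L x →
        (φ g).toMatrix = D.XR x 0) :
    H.int0.map φ = unitPoints m O := by
  have key : ∀ g ∈ H.int0, (φ g).toMatrix ∈ O := by
    intro g hg
    obtain ⟨G, hG⟩ : ∃ G : GL (Fin N) ℤ,
        GeneralLinearGroup.map (Int.castRingHom ℝ) G = ((g : H.real) : GL (Fin N) ℝ) := hg
    obtain ⟨x, -, hx⟩ := (D.mem_real hH _).1 (g : H.real).2
    have hL : (D.L x) *ᵥ (D.u : Fin N → ℝ) = x := by
      rw [L_mulVec]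
      have h1 : D.mv (fun k => (x k : ℂ)) D.u = fun k => (x k : ℂ) := D.mv_u _
      funext k
      have h2 := D.mv_map Complex.ofRealHom x D.u k
      have h3 : (fun k => Complex.ofRealHom ((D.u : Fin N → ℝ) k)) = D.u := by
        funext k
        exact D.u_map Complex.ofRealHom k
      rw [h3] at h2
      have h4 : D.mv (fun k => Complex.ofRealHom (x k)) D.u k = (x k : ℂ) := congrFun h1 k
      rw [h4] at h2
      exact Complex.ofReal_injective h2
    rw [hφ g x hx, hO]
    refine ⟨(G : Matrix (Fin N) (Fin N) ℤ) *ᵥ D.u, ?_⟩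
    have h5 : ∀ k, x k = ((((G : Matrix (Fin N) (Fin N) ℤ) *ᵥ D.u) k : ℤ) : ℝ) := by
      intro k
      have h6 := congrFun hL k
      rw [← hx, ← hG] at h6
      rw [← h6]
      simp [mulVec, dotProduct, u]
    rw [XR, X]
    refine Finset.sum_congr rfl fun k _ => ?_
    rw [h5 k]
    simp
  ext a
  rw [Subgroup.mem_map]
  constructor
  · rintro ⟨g, hg, rfl⟩
    refine ⟨key g hg, ?_⟩
    rw [← map_inv]
    exact key _ (H.int0.inv_mem hg)
  · rintro ⟨ha, hb⟩
    obtain ⟨x, hx⟩ := (hO _).1 ha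
    obtain ⟨y, hy⟩ := (hO _).1 hb
    have hab : a.toMatrix * a⁻¹.toMatrix = 1 :=
      congrArg Subtype.val (mul_inv_cancel (a.1 : SpecialLinearGroup (Fin (m + 1)) ℂ))
    have hba : a⁻¹.toMatrix * a.toMatrix = 1 :=
      congrArg Subtype.val (inv_mul_cancel (a.1 : SpecialLinearGroup (Fin (m + 1)) ℂ))
    have hX : ∀ v w : Fin N → ℤ, D.X (fun k => ((D.mv v w k : ℤ) : ℂ)) 0 =
        D.X (fun k => (v k : ℂ)) 0 * D.X (fun k => (w k : ℂ)) 0 := by
      intro v w
      rw [← X_mv]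
      congr 1
      funext k
      exact D.mv_map (Int.castRingHom ℂ) v w k
    have hu : D.X (fun k => ((D.u k : ℤ) : ℂ)) 0 = 1 := by
      rw [← D.X_u 0]
      congr 1
    have hxy : D.mv x y = D.u := by
      apply D.int_ext
      rw [hX, hu, ← hab, hx, hy]
      rfl
    have hyx : D.mv y x = D.u := by
      apply D.int_ext
      rw [hX, hu, ← hba, hx, hy]
      rfl
    have hLL : ∀ v w : Fin N → ℤ, D.mv v w = D.u → D.L v * D.L w = 1 := by
      intro v w hvw
      have h1 : ((D.L v * D.L w : Matrix (Fin N) (Fin N) ℤ)).map (Int.castRingHom ℂ) =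
          (1 : Matrix (Fin N) (Fin N) ℤ).map (Int.castRingHom ℂ) := by
        rw [Matrix.map_mul, L_map, L_map, ← L_mv, Matrix.map_one _ (map_zero _) (map_one _),
          ← D.L_u]
        congr 1
        funext k
        have h2 := D.mv_map (Int.castRingHom ℂ) v w k
        rw [hvw, D.u_map] at h2
        exact h2.symm
      ext i j
      have h3 := congrFun (congrFun h1 i) j
      rw [Matrix.map_apply, Matrix.map_apply] at h3
      exact (Int.castRingHom ℂ).injective_int h3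
    let G : GL (Fin N) ℤ := ⟨D.L x, D.L y, hLL x y hxy, hLL y x hyx⟩
    have hpt : D.Pt fun k => ((x k : ℤ) : ℂ) := by
      have h1 := D.pt_of_rat (x := fun k => (x k : ℚ)) (g := a) (by
        rw [hx, X]
        simp)
      simpa using h1
    have hmem : GeneralLinearGroup.map (Int.castRingHom ℝ) G ∈ H.real := by
      show GeneralLinearGroup.map Complex.ofRealHom
        (GeneralLinearGroup.map (Int.castRingHom ℝ) G) ∈ H.pts
      rw [hH]
      refine ⟨_, hpt, ?_⟩
      show ((D.L x).map (Int.castRingHom ℝ)).map Complex.ofRealHom = _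
      rw [L_map, L_map]
      congr 1
    have hmem0 : (⟨_, hmem⟩ : H.real) ∈ H.real0 := by
      rw [h0]
      exact Subgroup.mem_top _
    refine ⟨⟨_, hmem0⟩, ⟨G, rfl⟩, ?_⟩
    have h7 := hφ ⟨_, hmem0⟩ (fun k => (x k : ℝ)) (by
      show (D.L x).map (Int.castRingHom ℝ) = _
      rw [L_map]
      rfl)
    have h8 : (φ ⟨_, hmem0⟩).toMatrix = a.toMatrix := by
      rw [h7, hx, XR, X]
      simp
    exact Subtype.ext (Subtype.ext h8)

end Dat

end Pool.Agent.Lib.MP_5d4057_al.VB
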