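import Pool.Agent.Lib.MP_5d4057_al.VB.Alg

/-!
# VERB V2: the complex points are a product of copies of `SL_(m+1)(ℂ)`
-/

set_option autoImplicit false

namespace Pool.Agent.Lib.MP_5d4057_al.VB

open Matrix Pool.Agent.Lib.MP_5d4057_al Pool.Agent.Lib.MP_5d4057_al.Hyb

namespace Dat

variable {m r N : ℕ} (D : Dat m r N)

/-- The inverse of `x ↦ (X x, Y x)` is linear. -/
theorem exists_lin : ∃ T : ((Fin (r + 1) → Matrix (Fin (m + 1)) (Fin (m + 1)) ℂ) ×
    (Fin (r + 1) → Matrix (Fin (m + 1)) (Fin (m + 1)) ℂ)) →ₗ[ℂ] (Fin N → ℂ),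
      ∀ p i, D.X (T p) i = p.1 i ∧ D.Y (T p) i = p.2 i := by
  have h : ∀ p : (Fin (r + 1) → Matrix (Fin (m + 1)) (Fin (m + 1)) ℂ) ×
      (Fin (r + 1) → Matrix (Fin (m + 1)) (Fin (m + 1)) ℂ), ∃ x : Fin N → ℂ,
      (∀ i, D.X x i = p.1 i) ∧ ∀ i, D.Y x i = p.2 i := fun p => (D.bij p.1 p.2).exists
  choose f hf hf' using h
  have hXa : ∀ x y i, D.X (x + y) i = D.X x i + D.X y i := by
    intro x y i
    simp only [X, Pi.add_apply, add_smul, Finset.sum_add_distrib]
  have hYa : ∀ x y i, D.Y (x + y) i = D.Y x i + D.Y y i := by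
    intro x y i
    simp only [Y, Pi.add_apply, add_smul, Finset.sum_add_distrib]
  have hXs : ∀ (c : ℂ) x i, D.X (c • x) i = c • D.X x i := by
    intro c x i
    simp only [X, Pi.smul_apply, smul_eq_mul, Finset.smul_sum, smul_smul]
  have hYs : ∀ (c : ℂ) x i, D.Y (c • x) i = c • D.Y x i := by
    intro c x i
    simp only [Y, Pi.smul_apply, smul_eq_mul, Finset.smul_sum, smul_smul]
  refine ⟨⟨⟨f, fun p q => ?_⟩, fun c p => ?_⟩, fun p i => ⟨hf p i, hf' p i⟩⟩
  · refine D.ext' (fun i => ?_) fun i => ?_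
    · rw [hf, hXa, hf, hf]
      rfl
    · rw [hf', hYa, hf', hf']
      rfl
  · refine D.ext' (fun i => ?_) fun i => ?_
    · show D.X (f (c • p)) i = D.X (c • f p) i
      rw [hf, hXs, hf]
      rfl
    · show D.Y (f (c • p)) i = D.Y (c • f p) i
      rw [hf', hYs, hf']
      rfl

/-- The complex points of the group are the product of `r + 1` copies of `SL_(m+1)(ℂ)`. -/
theorem exists_iso {H : AlgGroup N} (hH : ∀ g : GL (Fin N) ℂ, g ∈ H.pts ↔
    ∃ x, D.Pt x ∧ (g : Matrix (Fin N) (Fin N) ℂ) = D.L x) :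
    ∃ E : (Fin (r + 1) → SpecialLinearGroup (Fin (m + 1)) ℂ) ≃* H.pts,
      Continuous E ∧ Continuous E.symm := by
  obtain ⟨T, hT⟩ := D.exists_lin
  obtain ⟨P, hP⟩ : ∃ P : (Fin (r + 1) → SpecialLinearGroup (Fin (m + 1)) ℂ) → Fin N → ℂ,
      P = fun A => T (fun i => (A i).1, fun i => (D.Z i * (A i).1.adjugate * (D.Z i)⁻¹)ᵀ) :=
    ⟨_, rfl⟩
  have hX : ∀ A i, D.X (P A) i = (A i).1 := by
    intro A i
    rw [hP]
    exact (hT _ i).1
  have hY : ∀ A i, D.Y (P A) i = (D.Z i * (A i).1.adjugate * (D.Z i)⁻¹)ᵀ := by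
    intro A i
    rw [hP]
    exact (hT _ i).2
  have hinv : ∀ B : Matrix (Fin (m + 1)) (Fin (m + 1)) ℂ, B.det = 1 → B.adjugate * B = 1 := by
    intro B hB
    rw [Matrix.adjugate_mul, hB, one_smul]
  have hinv' : ∀ B : Matrix (Fin (m + 1)) (Fin (m + 1)) ℂ, B.det = 1 → B * B.adjugate = 1 := by
    intro B hB
    rw [Matrix.mul_adjugate, hB, one_smul]
  have hpt : ∀ A, D.Pt (P A) := by
    intro A i
    rw [hX, hY, Matrix.transpose_transpose]
    refine ⟨?_, (A i).2⟩
    calc D.Z i * (A i).1.adjugate * (D.Z i)⁻¹ * D.Z i * (A i).1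
        = D.Z i * (A i).1.adjugate * ((D.Z i)⁻¹ * D.Z i) * (A i).1 := by
          simp only [Matrix.mul_assoc]
      _ = D.Z i * ((A i).1.adjugate * (A i).1) := by
          rw [Matrix.nonsing_inv_mul _ (D.unitZ i), Matrix.mul_one, Matrix.mul_assoc]
      _ = D.Z i := by rw [hinv _ (A i).2, Matrix.mul_one]
  have hAB : ∀ (A B : Fin (r + 1) → SpecialLinearGroup (Fin (m + 1)) ℂ) i,
      ((A * B) i).1 = (A i).1 * (B i).1 := fun A B i => rfl
  have hmul : ∀ A B, P (A * B) = D.mv (P A) (P B) := by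
    intro A B
    refine D.ext' (fun i => ?_) fun i => ?_
    · rw [hX, X_mv, hX, hX, hAB]
    · rw [hY, Y_mv, hY, hY, ← Matrix.transpose_mul, hAB, Matrix.adjugate_mul_distrib]
      congr 1
      symm
      calc D.Z i * (B i).1.adjugate * (D.Z i)⁻¹ * (D.Z i * (A i).1.adjugate * (D.Z i)⁻¹)
          = D.Z i * (B i).1.adjugate * ((D.Z i)⁻¹ * D.Z i) * (A i).1.adjugate * (D.Z i)⁻¹ := by
            simp only [Matrix.mul_assoc]
        _ = _ := by
            rw [Matrix.nonsing_inv_mul _ (D.unitZ i), Matrix.mul_one]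
            simp only [Matrix.mul_assoc]
  have hA1 : ∀ i, ((1 : Fin (r + 1) → SpecialLinearGroup (Fin (m + 1)) ℂ) i).1 = 1 :=
    fun i => rfl
  have hone : P 1 = D.u := by
    refine D.ext' (fun i => ?_) fun i => ?_
    · rw [hX, X_u, hA1]
    · rw [hY, Y_u, hA1, Matrix.adjugate_one, Matrix.mul_one,
        Matrix.mul_nonsing_inv _ (D.unitZ i), Matrix.transpose_one]
  have hLL : ∀ A, D.L (P A) * D.L (P A⁻¹) = 1 := by
    intro A
    rw [← L_mv, ← hmul, mul_inv_cancel, hone, L_u]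
  have hLL' : ∀ A, D.L (P A⁻¹) * D.L (P A) = 1 := by
    intro A
    rw [← L_mv, ← hmul, inv_mul_cancel, hone, L_u]
  obtain ⟨G, hG⟩ : ∃ G : (Fin (r + 1) → SpecialLinearGroup (Fin (m + 1)) ℂ) → GL (Fin N) ℂ,
      ∀ A, (G A : Matrix (Fin N) (Fin N) ℂ) = D.L (P A) ∧
        ((G A)⁻¹ : GL (Fin N) ℂ) = G A⁻¹ := by
    refine ⟨fun A => ⟨D.L (P A), D.L (P A⁻¹), hLL A, hLL' A⟩, fun A => ⟨rfl, ?_⟩⟩
    exact Units.ext rfl
  have hmem : ∀ A, G A ∈ H.pts := fun A => (hH _).2 ⟨P A, hpt A, (hG A).1⟩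
  let ψ : (Fin (r + 1) → SpecialLinearGroup (Fin (m + 1)) ℂ) →* H.pts :=
    { toFun := fun A => ⟨G A, hmem A⟩
      map_one' := by
        refine Subtype.ext (Units.ext ?_)
        show (G 1 : Matrix (Fin N) (Fin N) ℂ) = 1
        rw [(hG 1).1, hone, L_u]
      map_mul' := by
        intro A B
        refine Subtype.ext (Units.ext ?_)
        show (G (A * B) : Matrix (Fin N) (Fin N) ℂ) = (G A : Matrix (Fin N) (Fin N) ℂ) * G B
        rw [(hG _).1, (hG _).1, (hG _).1, hmul, L_mv] }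
  have hψ : ∀ A, (((ψ A : H.pts) : GL (Fin N) ℂ) : Matrix (Fin N) (Fin N) ℂ) = D.L (P A) :=
    fun A => (hG A).1
  have hXψ : ∀ A i, D.X ((((ψ A : H.pts) : GL (Fin N) ℂ) : Matrix (Fin N) (Fin N) ℂ) *ᵥ D.u) i =
      (A i).1 := by
    intro A i
    rw [hψ, L_mulVec_u, hX]
  have hbij : Function.Bijective ψ := by
    constructor
    · intro A B hAB
      ext1 i
      refine Subtype.ext ?_
      rw [← hXψ A i, hAB, hXψ]
    · rintro ⟨g, hg⟩
      obtain ⟨x, hx, hgx⟩ := (hH g).1 hg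
      refine ⟨fun i => ⟨D.X x i, (hx i).2⟩, ?_⟩
      refine Subtype.ext (Units.ext ?_)
      rw [hψ]
      show D.L _ = (g : Matrix (Fin N) (Fin N) ℂ)
      rw [hgx]
      congr 1
      refine D.ext' (fun i => ?_) fun i => ?_
      · rw [hX]
      · rw [hY]
        have h1 : (D.Y x i)ᵀ = D.Z i * (D.X x i).adjugate * (D.Z i)⁻¹ := by
          calc (D.Y x i)ᵀ = (D.Y x i)ᵀ * (D.Z i * (D.X x i * (D.X x i).adjugate) * (D.Z i)⁻¹) := by
                rw [hinv' _ (hx i).2, Matrix.mul_one, Matrix.mul_nonsing_inv _ (D.unitZ i),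
                  Matrix.mul_one]
            _ = ((D.Y x i)ᵀ * D.Z i * D.X x i) * (D.X x i).adjugate * (D.Z i)⁻¹ := by
                simp only [Matrix.mul_assoc]
            _ = _ := by rw [(hx i).1]
        show (D.Z i * (D.X x i).adjugate * (D.Z i)⁻¹)ᵀ = D.Y x i
        rw [← h1, Matrix.transpose_transpose]
  have hTc : Continuous T := T.continuous_of_finiteDimensional
  have hLc : Continuous (D.L : (Fin N → ℂ) → Matrix (Fin N) (Fin N) ℂ) := by
    refine continuous_matrix fun l k => ?_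
    show Continuous fun x : Fin N → ℂ => ∑ j, x j * (D.c j k l : ℂ)
    fun_prop
  have hPc : Continuous P := by
    rw [hP]
    refine hTc.comp (Continuous.prodMk ?_ ?_)
    · exact continuous_pi fun i => continuous_subtype_val.comp (continuous_apply i)
    · refine continuous_pi fun i => Continuous.matrix_transpose ?_
      refine (continuous_const.matrix_mul ?_).matrix_mul continuous_const
      exact (continuous_subtype_val.comp (continuous_apply i)).matrix_adjugate
  refine ⟨MulEquiv.ofBijective ψ hbij, ?_, ?_⟩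
  · show Continuous ψ
    refine Continuous.subtype_mk ?_ _
    rw [Units.continuous_iff]
    constructor
    · have h1 : (Units.val ∘ G) = fun A => D.L (P A) := funext fun A => (hG A).1
      show Continuous (Units.val ∘ G)
      rw [h1]
      exact hLc.comp hPc
    · have h1 : (fun A => (((G A)⁻¹ : GL (Fin N) ℂ) : Matrix (Fin N) (Fin N) ℂ)) =
          fun A => D.L (P A⁻¹) := funext fun A => by rw [(hG A).2, (hG _).1]
      rw [h1]
      exact hLc.comp (hPc.comp continuous_inv)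
  · refine continuous_pi fun i => ?_
    have h1 : ∀ g : H.pts, ((MulEquiv.ofBijective ψ hbij).symm g i).1 =
        D.X (((g : GL (Fin N) ℂ) : Matrix (Fin N) (Fin N) ℂ) *ᵥ D.u) i := by
      intro g
      obtain ⟨A, rfl⟩ := hbij.2 g
      rw [hXψ A i]
      have h2 : (MulEquiv.ofBijective ψ hbij).symm (ψ A) = A :=
        (MulEquiv.ofBijective ψ hbij).symm_apply_apply A
      rw [h2]
    have h2 : Continuous fun g : H.pts =>
        ((g : GL (Fin N) ℂ) : Matrix (Fin N) (Fin N) ℂ) *ᵥ (D.u : Fin N → ℂ) :=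
      (Units.continuous_val.comp continuous_subtype_val).matrix_mulVec continuous_const
    have h3 : Continuous fun x : Fin N → ℂ => D.X x i := by
      show Continuous fun x : Fin N → ℂ => ∑ k, x k • D.b k i
      fun_prop
    have h4 : Continuous fun g : H.pts => ((MulEquiv.ofBijective ψ hbij).symm g i).1 :=
      (h3.comp h2).congr fun g => (h1 g).symm
    exact continuous_induced_rng.2 h4

end Dat

end Pool.Agent.Lib.MP_5d4057_al.VB
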