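import Pool.Agent.Lib.MP_5d4057_al.VB.RealC
import Pool.Agent.Lib.MP_5d4057_al.HM.BarA
import Pool.Agent.Lib.MP_5d4057_al.Hyb.Top

/-!
# VERB V2: the homomorphism to `SU(m,1)`
-/

set_option autoImplicit false

namespace Pool.Agent.Lib.MP_5d4057_al.VB

open Matrix Pool.Agent.Lib.MP_5d4057_al Pool.Agent.Lib.MP_5d4057_al.Hyb

open scoped ComplexOrder

/-- The unitary group of a positive definite Hermitian form is compact. -/
theorem isCompact_unit {n : ℕ} {Z : Matrix (Fin n) (Fin n) ℂ} (hZ : Z.PosDef) :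
    IsCompact {x : Matrix (Fin n) (Fin n) ℂ | xᴴ * Z * x = Z} := by
  obtain ⟨Q, hQ, hQZ⟩ := HM.BarAux.exists_root hZ
  set s : Matrix (Fin n) (Fin n) ℂ := Qᴴ with hs
  have hss : Z = sᴴ * s := by rw [hQZ, hs, conjTranspose_conjTranspose]
  have hsu : IsUnit s.det := by
    rw [hs, Matrix.det_conjTranspose]
    exact ((Matrix.isUnit_iff_isUnit_det _).1 hQ).star
  have hU : IsCompact {x : Matrix (Fin n) (Fin n) ℂ | xᴴ * x = 1} := by
    have h2 : IsCompact (X := Fin n → Fin n → ℂ) (Set.pi Set.univ fun _ : Fin n =>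
        Set.pi Set.univ fun _ : Fin n => Metric.closedBall (0 : ℂ) 1) :=
      isCompact_univ_pi fun _ => isCompact_univ_pi fun _ => isCompact_closedBall _ _
    refine IsCompact.of_isClosed_subset (X := Matrix (Fin n) (Fin n) ℂ) h2
      (isClosed_eq (by fun_prop) continuous_const) ?_
    intro x hx i _ j _
    rw [mem_closedBall_zero_iff]
    refine entry_norm_bound_of_unitary ?_ i j
    rw [Matrix.mem_unitaryGroup_iff', star_eq_conjTranspose]
    exact hx
  have h3 := hU.image (f := fun x => s⁻¹ * x * s) (by fun_prop)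
  refine h3.of_isClosed_subset (isClosed_eq (by fun_prop) continuous_const) ?_
  intro x hx
  refine ⟨s * x * s⁻¹, ?_, ?_⟩
  · show (s * x * s⁻¹)ᴴ * (s * x * s⁻¹) = 1
    rw [conjTranspose_mul, conjTranspose_mul]
    have hx' : xᴴ * Z * x = Z := hx
    calc s⁻¹ᴴ * (xᴴ * sᴴ) * (s * x * s⁻¹) = s⁻¹ᴴ * (xᴴ * (sᴴ * s) * x) * s⁻¹ := by
          simp only [Matrix.mul_assoc]
      _ = s⁻¹ᴴ * (sᴴ * s) * s⁻¹ := by rw [← hss, hx']
      _ = (s * s⁻¹)ᴴ * (s * s⁻¹) := by rw [conjTranspose_mul]; simp only [Matrix.mul_assoc]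
      _ = 1 := by rw [Matrix.mul_nonsing_inv _ hsu]; simp
  · show s⁻¹ * (s * x * s⁻¹) * s = x
    calc s⁻¹ * (s * x * s⁻¹) * s = (s⁻¹ * s) * x * (s⁻¹ * s) := by simp only [Matrix.mul_assoc]
      _ = x := by rw [Matrix.nonsing_inv_mul _ hsu, Matrix.one_mul, Matrix.mul_one]

namespace Dat

variable {m r N : ℕ} (D : Dat m r N)

theorem XR_mv (x y : Fin N → ℝ) (i : Fin (r + 1)) : D.XR (D.mv x y) i = D.XR x i * D.XR y i := by
  unfold XR
  rw [← X_mv]
  congr 1
  ext k
  exact D.mv_map Complex.ofRealHom x y k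

theorem XR_u (i : Fin (r + 1)) : D.XR D.u i = 1 := by
  have h : (fun k => (((D.u : Fin N → ℝ) k : ℝ) : ℂ)) = D.u :=
    funext fun k => D.u_map Complex.ofRealHom k
  unfold XR
  rw [h, X_u]

theorem XR_inj {x y : Fin N → ℝ} (h : ∀ i, D.XR x i = D.XR y i) : x = y := by
  obtain ⟨T, -, hT⟩ := D.exists_real
  rw [← hT x, ← hT y, funext h]

theorem mv_uR (x : Fin N → ℝ) : D.mv x D.u = x :=
  D.XR_inj fun i => by rw [XR_mv, XR_u, Matrix.mul_one]

theorem LR_map (x : Fin N → ℝ) : (D.L x).map Complex.ofRealHom = D.L fun k => (x k : ℂ) :=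
  D.L_map Complex.ofRealHom x

theorem LR_mv (x y : Fin N → ℝ) : D.L (D.mv x y) = D.L x * D.L y := by
  have h : (D.L (D.mv x y)).map Complex.ofRealHom = (D.L x * D.L y).map Complex.ofRealHom := by
    rw [Matrix.map_mul, LR_map, LR_map, LR_map, ← L_mv]
    exact congrArg D.L (funext fun k => D.mv_map Complex.ofRealHom x y k)
  exact Matrix.map_injective Complex.ofRealHom.injective h

theorem LR_u : D.L (D.u : Fin N → ℝ) = 1 := by
  have h : (D.L (D.u : Fin N → ℝ)).map Complex.ofRealHom = (1 : Matrix (Fin N) (Fin N) ℝ).map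
      Complex.ofRealHom := by
    rw [LR_map, Matrix.map_one _ (map_zero _) (map_one _), ← L_u D]
    exact congrArg D.L (funext fun k => D.u_map Complex.ofRealHom k)
  exact Matrix.map_injective Complex.ofRealHom.injective h

theorem LR_mulVec_u (x : Fin N → ℝ) : D.L x *ᵥ D.u = x := by
  rw [L_mulVec, mv_uR]

theorem continuous_XR (i : Fin (r + 1)) : Continuous fun x : Fin N → ℝ => D.XR x i := by
  unfold XR X
  fun_prop

theorem continuous_LR : Continuous (D.L : (Fin N → ℝ) → Matrix (Fin N) (Fin N) ℝ) := by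
  refine continuous_matrix fun l k => ?_
  unfold L
  fun_prop

/-- The inverse of an isometry. -/
theorem isom_inv {i : Fin (r + 1)} {x : Matrix (Fin (m + 1)) (Fin (m + 1)) ℂ}
    (hx : xᴴ * D.Z i * x = D.Z i) : (D.Z i)⁻¹ * xᴴ * D.Z i * x = 1 := by
  rw [Matrix.mul_assoc, Matrix.mul_assoc, ← Matrix.mul_assoc xᴴ, hx,
    Matrix.nonsing_inv_mul _ (isUnit_iff_ne_zero.2 (D.Z_det i))]

/-- The inverse of an isometry is an isometry. -/
theorem isom_inv' {i : Fin (r + 1)} {x : Matrix (Fin (m + 1)) (Fin (m + 1)) ℂ}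
    (hx : xᴴ * D.Z i * x = D.Z i) (hd : x.det = 1) :
    ((D.Z i)⁻¹ * xᴴ * D.Z i)ᴴ * D.Z i * ((D.Z i)⁻¹ * xᴴ * D.Z i) = D.Z i ∧
      ((D.Z i)⁻¹ * xᴴ * D.Z i).det = 1 := by
  set y := (D.Z i)⁻¹ * xᴴ * D.Z i with hy
  have h1 : y * x = 1 := D.isom_inv hx
  have h2 : x * y = 1 := mul_eq_one_comm.1 h1
  constructor
  · calc yᴴ * D.Z i * y = yᴴ * (xᴴ * D.Z i * x) * y := by rw [hx]
      _ = (yᴴ * xᴴ) * D.Z i * (x * y) := by simp only [Matrix.mul_assoc]
      _ = (x * y)ᴴ * D.Z i * (x * y) := by rw [conjTranspose_mul x y]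
      _ = D.Z i := by rw [h2]; simp
  · have h3 := congrArg Matrix.det h1
    rwa [Matrix.det_mul, hd, mul_one, Matrix.det_one] at h3

variable {H : AlgGroup N} (hH : ∀ g : GL (Fin N) ℂ, g ∈ H.pts ↔
    ∃ x, D.Pt x ∧ (g : Matrix (Fin N) (Fin N) ℂ) = D.L x)

/-- The matrix of `g`. -/
theorem real_eq {g : GL (Fin N) ℝ} {x : Fin N → ℝ}
    (h : (g : Matrix (Fin N) (Fin N) ℝ) = D.L x) :
    (g : Matrix (Fin N) (Fin N) ℝ) *ᵥ D.u = x := by
  rw [h, LR_mulVec_u]

include hH

theorem real_pt (g : H.real) : D.PtR (((g : GL (Fin N) ℝ) : Matrix (Fin N) (Fin N) ℝ) *ᵥ D.u) ∧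
    ((g : GL (Fin N) ℝ) : Matrix (Fin N) (Fin N) ℝ) =
      D.L (((g : GL (Fin N) ℝ) : Matrix (Fin N) (Fin N) ℝ) *ᵥ D.u) := by
  obtain ⟨x, hx, hg⟩ := (D.mem_real hH g).1 g.2
  rw [D.real_eq hg]
  exact ⟨hx, hg⟩

theorem real_ext {g g' : H.real}
    (h : ∀ i, D.XR (((g : GL (Fin N) ℝ) : Matrix (Fin N) (Fin N) ℝ) *ᵥ D.u) i =
      D.XR (((g' : GL (Fin N) ℝ) : Matrix (Fin N) (Fin N) ℝ) *ᵥ D.u) i) : g = g' := by
  refine Subtype.ext (Units.ext ?_)
  have h1 := D.XR_inj h
  have h2 := (D.real_pt hH g).2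
  rw [h1, ← (D.real_pt hH g').2] at h2
  exact h2

/-- The homomorphism on `H(ℝ)`. -/
theorem exists_phi₁ : ∃ φ : H.real →* SUGroup m, Continuous φ ∧
    ∀ g : H.real, (φ g).toMatrix =
      D.XR (((g : GL (Fin N) ℝ) : Matrix (Fin N) (Fin N) ℝ) *ᵥ D.u) 0 := by
  let f : H.real → SUGroup m := fun g =>
    ofMatrix (D.XR (((g : GL (Fin N) ℝ) : Matrix (Fin N) (Fin N) ℝ) *ᵥ D.u) 0)
      ((D.real_pt hH g).1 0).2 (by
        have h := ((D.real_pt hH g).1 0).1
        rwa [D.Z_zero] at h)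
  have hf : ∀ g : H.real, (f g).toMatrix =
      D.XR (((g : GL (Fin N) ℝ) : Matrix (Fin N) (Fin N) ℝ) *ᵥ D.u) 0 := fun _ => rfl
  refine ⟨{ toFun := f, map_one' := ?_, map_mul' := ?_ }, ?_, hf⟩
  · apply toMatrix_injective
    rw [hf, toMatrix_one]
    have h1 : (((1 : H.real) : GL (Fin N) ℝ) : Matrix (Fin N) (Fin N) ℝ) *ᵥ
        (D.u : Fin N → ℝ) = D.u := by
      rw [OneMemClass.coe_one, Units.val_one, Matrix.one_mulVec]
    rw [h1, XR_u]
  · intro g g'
    apply toMatrix_injective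
    rw [toMatrix_mul, hf, hf, hf, ← XR_mv]
    congr 1
    have h1 : (((g * g' : H.real) : GL (Fin N) ℝ) : Matrix (Fin N) (Fin N) ℝ) =
        ((g : GL (Fin N) ℝ) : Matrix (Fin N) (Fin N) ℝ) *
          ((g' : GL (Fin N) ℝ) : Matrix (Fin N) (Fin N) ℝ) := rfl
    rw [h1, ← Matrix.mulVec_mulVec]
    conv_lhs => rw [(D.real_pt hH g).2, L_mulVec]
  · show Continuous f
    rw [(isClosedEmbedding_toMatrix m).isInducing.continuous_iff]
    refine (D.continuous_XR 0).comp ?_
    have h1 : Continuous fun g : H.real => ((g : GL (Fin N) ℝ) : Matrix (Fin N) (Fin N) ℝ) :=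
      Units.continuous_val.comp continuous_subtype_val
    exact h1.matrix_mulVec continuous_const

/-- A continuous section over the product of the groups of isometries. -/
theorem exists_sec : ∃ S : {U : Fin (r + 1) → Matrix (Fin (m + 1)) (Fin (m + 1)) ℂ //
      ∀ i, (U i)ᴴ * D.Z i * U i = D.Z i ∧ (U i).det = 1} → H.real, Continuous S ∧
    ∀ U i, D.XR (((S U : GL (Fin N) ℝ) : Matrix (Fin N) (Fin N) ℝ) *ᵥ D.u) i = U.1 i := by
  obtain ⟨T, hT, hT'⟩ := D.exists_real
  have hTc : Continuous T := T.continuous_of_finiteDimensional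
  let V : (Fin (r + 1) → Matrix (Fin (m + 1)) (Fin (m + 1)) ℂ) →
      Fin (r + 1) → Matrix (Fin (m + 1)) (Fin (m + 1)) ℂ := fun U i => (D.Z i)⁻¹ * (U i)ᴴ * D.Z i
  have hVc : Continuous V := by
    refine continuous_pi fun i => ?_
    have h1 : Continuous fun U : Fin (r + 1) → Matrix (Fin (m + 1)) (Fin (m + 1)) ℂ => U i :=
      continuous_apply i
    exact (continuous_const.matrix_mul h1.matrix_conjTranspose).matrix_mul continuous_const
  have hmul : ∀ U W : Fin (r + 1) → Matrix (Fin (m + 1)) (Fin (m + 1)) ℂ, (∀ i, U i * W i = 1) →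
      D.L (T U) * D.L (T W) = 1 := by
    intro U W h
    rw [← LR_mv, ← LR_u]
    congr 1
    exact D.XR_inj fun i => by rw [XR_mv, hT, hT, h, XR_u]
  let g : {U : Fin (r + 1) → Matrix (Fin (m + 1)) (Fin (m + 1)) ℂ //
      ∀ i, (U i)ᴴ * D.Z i * U i = D.Z i ∧ (U i).det = 1} → GL (Fin N) ℝ := fun U =>
    ⟨D.L (T U.1), D.L (T (V U.1)),
      hmul _ _ fun i => mul_eq_one_comm.1 (D.isom_inv (U.2 i).1),
      hmul _ _ fun i => D.isom_inv (U.2 i).1⟩
  have hg : ∀ U, ((g U : GL (Fin N) ℝ) : Matrix (Fin N) (Fin N) ℝ) = D.L (T U.1) := fun _ => rfl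
  have hreal : ∀ U, g U ∈ H.real := by
    intro U
    rw [D.mem_real hH]
    refine ⟨T U.1, fun i => ?_, hg U⟩
    rw [hT]
    exact U.2 i
  refine ⟨fun U => ⟨g U, hreal U⟩, ?_, ?_⟩
  · refine Continuous.subtype_mk ?_ _
    rw [Units.continuous_iff]
    exact ⟨D.continuous_LR.comp (hTc.comp continuous_subtype_val),
      D.continuous_LR.comp (hTc.comp (hVc.comp continuous_subtype_val))⟩
  · intro U i
    show D.XR (((g U : GL (Fin N) ℝ) : Matrix (Fin N) (Fin N) ℝ) *ᵥ D.u) i = U.1 i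
    rw [hg, LR_mulVec_u, hT]

/-- The homomorphism to `SU(m,1)`. -/
theorem exists_phi : ∃ φ : H.real0 →* SUGroup m, Continuous φ ∧ Function.Surjective φ ∧
    IsCompact (φ.ker : Set H.real0) ∧ ∀ (g : H.real0) (x : Fin N → ℝ),
      (((g : H.real) : GL (Fin N) ℝ) : Matrix (Fin N) (Fin N) ℝ) = D.L x →
        (φ g).toMatrix = D.XR x 0 := by
  obtain ⟨φ, hφc, hφ⟩ := D.exists_phi₁ hH
  obtain ⟨S, hSc, hS⟩ := D.exists_sec hH
  have htop : ∀ g : H.real, g ∈ H.real0 := fun g => by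
    rw [D.real0_eq hH]
    exact Subgroup.mem_top g
  have hSφ : ∀ U, (φ (S U)).toMatrix = U.1 0 := fun U => by rw [hφ, hS]
  refine ⟨φ.comp H.real0.subtype, hφc.comp continuous_subtype_val, ?_, ?_, ?_⟩
  · intro y
    let U : Fin (r + 1) → Matrix (Fin (m + 1)) (Fin (m + 1)) ℂ := fun i =>
      if i = 0 then y.toMatrix else 1
    have hU : ∀ i, (U i)ᴴ * D.Z i * U i = D.Z i ∧ (U i).det = 1 := by
      intro i
      by_cases hi : i = 0
      · simp only [U, if_pos hi]
        rw [hi, D.Z_zero]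
        exact ⟨y.2, y.1.2⟩
      · simp only [U, if_neg hi]
        simp
    refine ⟨⟨S ⟨U, hU⟩, htop _⟩, ?_⟩
    apply toMatrix_injective
    show (φ (S ⟨U, hU⟩)).toMatrix = y.toMatrix
    rw [hSφ]
    simp only [U, if_pos]
  · -- the kernel is the image of a compact set
    have hK : IsCompact (Set.pi Set.univ fun i : Fin (r + 1) =>
        if i = 0 then {(1 : Matrix (Fin (m + 1)) (Fin (m + 1)) ℂ)} else
          {x : Matrix (Fin (m + 1)) (Fin (m + 1)) ℂ | xᴴ * D.Z i * x = D.Z i}) := by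
      refine isCompact_univ_pi fun i => ?_
      by_cases hi : i = 0
      · rw [if_pos hi]
        exact isCompact_singleton
      · rw [if_neg hi]
        exact isCompact_unit (D.Z_pos i hi)
    let C : Set (Fin (r + 1) → Matrix (Fin (m + 1)) (Fin (m + 1)) ℂ) :=
      {U | U 0 = 1 ∧ ∀ i, (U i)ᴴ * D.Z i * U i = D.Z i ∧ (U i).det = 1}
    have hap : ∀ i, Continuous fun U : Fin (r + 1) → Matrix (Fin (m + 1)) (Fin (m + 1)) ℂ => U i :=
      fun i => continuous_apply i
    have hC : IsCompact C := by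
      refine hK.of_isClosed_subset ?_ ?_
      · refine IsClosed.inter (isClosed_eq (hap 0) continuous_const) ?_
        have h1 : {U : Fin (r + 1) → Matrix (Fin (m + 1)) (Fin (m + 1)) ℂ |
            ∀ i, (U i)ᴴ * D.Z i * U i = D.Z i ∧ (U i).det = 1} =
            ⋂ i, {U | (U i)ᴴ * D.Z i * U i = D.Z i ∧ (U i).det = 1} := by
          ext U
          simp only [Set.mem_ofPred_eq, Set.mem_iInter]
        show IsClosed {U : Fin (r + 1) → Matrix (Fin (m + 1)) (Fin (m + 1)) ℂ |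
            ∀ i, (U i)ᴴ * D.Z i * U i = D.Z i ∧ (U i).det = 1}
        rw [h1]
        refine isClosed_iInter fun i => IsClosed.inter
          (isClosed_eq ?_ continuous_const) (isClosed_eq (hap i).matrix_det continuous_const)
        exact ((hap i).matrix_conjTranspose.matrix_mul continuous_const).matrix_mul (hap i)
      · rintro U ⟨h0, h1⟩ i -
        show U i ∈ if i = 0 then {(1 : Matrix (Fin (m + 1)) (Fin (m + 1)) ℂ)} else
          {x : Matrix (Fin (m + 1)) (Fin (m + 1)) ℂ | xᴴ * D.Z i * x = D.Z i}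
        by_cases hi : i = 0
        · rw [if_pos hi, hi]
          exact h0
        · rw [if_neg hi]
          exact (h1 i).1
    let f : C → H.real0 := fun U => ⟨S ⟨U.1, U.2.2⟩, htop _⟩
    have hf : Continuous f := by
      refine Continuous.subtype_mk (hSc.comp ?_) _
      exact Continuous.subtype_mk continuous_subtype_val _
    have hCc : CompactSpace C := isCompact_iff_compactSpace.1 hC
    have h2 : (((φ.comp H.real0.subtype).ker : Subgroup H.real0) : Set H.real0) = Set.range f := by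
      ext g
      rw [SetLike.mem_coe, MonoidHom.mem_ker]
      constructor
      · intro hg
        have hg' : φ (g : H.real) = 1 := hg
        have h3 := (D.real_pt hH (g : H.real)).1
        have h4 := congrArg SUGroup.toMatrix hg'
        rw [hφ, toMatrix_one] at h4
        refine ⟨⟨D.XR ((((g : H.real) : GL (Fin N) ℝ) : Matrix (Fin N) (Fin N) ℝ) *ᵥ D.u),
          h4, h3⟩, ?_⟩
        refine Subtype.ext ?_
        show S ⟨D.XR ((((g : H.real) : GL (Fin N) ℝ) : Matrix (Fin N) (Fin N) ℝ) *ᵥ D.u), h3⟩ =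
          (g : H.real)
        exact D.real_ext hH fun i => hS _ i
      · rintro ⟨U, rfl⟩
        apply toMatrix_injective
        show (φ (S ⟨U.1, U.2.2⟩)).toMatrix = (1 : SUGroup m).toMatrix
        rw [hSφ, toMatrix_one]
        exact U.2.1
    rw [h2]
    exact isCompact_range hf
  · intro g x hgx
    show (φ (g : H.real)).toMatrix = D.XR x 0
    rw [hφ, D.real_eq hgx]

end Dat

end Pool.Agent.Lib.MP_5d4057_al.VB
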