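import Pool.Agent.Lib.MP_5d4057_al.VB.ConSU
import Pool.Agent.Lib.MP_5d4057_al.HM.Kak

/-!
# VB: `SU(m,1)` is connected
-/

set_option autoImplicit false

namespace Pool.Agent.Lib.MP_5d4057_al.VB

open Matrix Pool.Agent.Lib.MP_5d4057_al Pool.Agent.Lib.MP_5d4057_al.Hyb Pool.Agent.Lib.MP_5d4057_al.HM
  Pool.Agent.Lib.MP_5d4057_al.HM.Kak

variable {m : ℕ}

/-- The stabiliser of the base point consists of the unitary elements commuting with `J`. -/
theorem mem_UC_of_ch {k : SUGroup m} (hk : ch k = 1) :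
    k.toMatrix ∈ UC (J m) := by
  have hrow : ∀ j : Fin m, k.toMatrix (Fin.last m) j.castSucc = 0 := by
    intro j
    have h1 := sum_row k
    rw [hk, one_pow, sub_self] at h1
    have h2 := (Finset.sum_eq_zero_iff_of_nonneg
      (fun (i : Fin m) _ => sq_nonneg ‖k.toMatrix (Fin.last m) i.castSucc‖)).mp h1 j
        (Finset.mem_univ j)
    exact norm_eq_zero.mp (pow_eq_zero_iff (two_ne_zero) |>.mp h2)
  have hcol : ∀ j : Fin m, k.toMatrix j.castSucc (Fin.last m) = 0 := by
    intro j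
    have h1 := sum_col k
    rw [hk, one_pow, sub_self] at h1
    have h2 := (Finset.sum_eq_zero_iff_of_nonneg
      (fun (i : Fin m) _ => sq_nonneg ‖k.toMatrix i.castSucc (Fin.last m)‖)).mp h1 j
        (Finset.mem_univ j)
    exact norm_eq_zero.mp (pow_eq_zero_iff (two_ne_zero) |>.mp h2)
  have hc : k.toMatrix * J m = J m * k.toMatrix := by
    ext i j
    rw [J, Matrix.mul_diagonal, Matrix.diagonal_mul]
    refine Fin.lastCases ?_ (fun i => ?_) i <;> refine Fin.lastCases ?_ (fun j => ?_) j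
    · rw [mul_comm]
    · rw [hrow]; simp
    · rw [hcol]; simp
    · rw [if_neg (Fin.castSucc_lt_last i).ne, if_neg (Fin.castSucc_lt_last j).ne, mul_comm]
  have hJJ : J m * J m = 1 := by
    rw [J, Matrix.diagonal_mul_diagonal, ← Matrix.diagonal_one]
    congr 1
    funext i
    split_ifs <;> norm_num
  refine ⟨?_, hc⟩
  have h1 : k.toMatrixᴴ * J m * k.toMatrix = J m := k.2
  calc k.toMatrixᴴ * k.toMatrix = k.toMatrixᴴ * (J m * k.toMatrix) * J m := by
        rw [← hc]; simp only [Matrix.mul_assoc, hJJ, Matrix.mul_one]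
    _ = k.toMatrixᴴ * J m * k.toMatrix * J m := by simp only [Matrix.mul_assoc]
    _ = 1 := by rw [h1, hJJ]

/-- **`SU(m,1)` is connected.** -/
theorem su1_conn (m : ℕ) :
    IsPathConnected {x : Matrix (Fin (m + 1)) (Fin (m + 1)) ℂ | xᴴ * J m * x = J m ∧ x.det = 1} := by
  refine ⟨1, by simp, fun {x} hx => ?_⟩
  set g : SUGroup m := ⟨⟨x, hx.2⟩, hx.1⟩ with hg
  have hgx : g.toMatrix = x := rfl
  -- the stabiliser
  have hK : ∀ k : SUGroup m, ch k = 1 → JoinedIn
      {x : Matrix (Fin (m + 1)) (Fin (m + 1)) ℂ | xᴴ * J m * x = J m ∧ x.det = 1} 1 k.toMatrix := by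
    intro k hk
    have h1 := isPathConnected_SUC (n := m + 1) fun i => if i = Fin.last m then -1 else 1
    refine (h1.joinedIn 1 ⟨by simp [UC], by simp⟩ k.toMatrix ⟨mem_UC_of_ch hk, k.1.2⟩).mono ?_
    rintro y ⟨⟨hy1, hy2⟩, hy3⟩
    have hy2' : y * J m = J m * y := hy2
    refine ⟨?_, hy3⟩
    rw [Matrix.mul_assoc, ← hy2', ← Matrix.mul_assoc, hy1, Matrix.one_mul]
  rcases Nat.eq_zero_or_pos m with hm | hm
  · subst hm
    have h1 : x = 1 := by
      have h2 := hx.2
      rw [Matrix.det_fin_one] at h2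
      ext i j
      fin_cases i; fin_cases j
      simpa using h2
    rw [h1]
    exact JoinedIn.refl (by simp)
  · obtain ⟨ξ, hξ, t, k, -, hk, hgk⟩ := exists_polar hm g
    refine (hK k hk).trans ?_
    refine JoinedIn.ofLine (f := fun s : ℝ => (flow ξ hξ (s * t) * k).toMatrix) ?_ ?_ ?_ ?_
    · refine Continuous.continuousOn ?_
      refine (isClosedEmbedding_toMatrix m).continuous.comp ?_
      exact ((continuous_flow hξ).comp (continuous_id.mul continuous_const)).mul continuous_const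
    · show (flow ξ hξ (0 * t) * k).toMatrix = k.toMatrix
      rw [zero_mul, flow_zero, one_mul]
    · show (flow ξ hξ (1 * t) * k).toMatrix = x
      rw [one_mul, ← hgk, hgx]
    · rintro _ ⟨s, -, rfl⟩
      exact ⟨(flow ξ hξ (s * t) * k).2, (flow ξ hξ (s * t) * k).1.2⟩

end Pool.Agent.Lib.MP_5d4057_al.VB
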