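import Pool.Agent.Lib.MP_5d4057_al.VB.Defs
import Mathlib.Topology.Algebra.Group.Matrix

/-!
# VERB V2: the definition of the problem from a group with connected real points (helper85)
-/

set_option autoImplicit false

namespace Pool.Agent.Lib.MP_5d4057_al.VB

open Matrix Pool.Agent.Lib.MP_5d4057_al Pool.Agent.Lib.MP_5d4057_al.Hyb

namespace AlgGroup

variable {N : ℕ} (H : AlgGroup N)

/-- The integer points of `H(ℝ)`. -/
def int : Subgroup H.real :=
  (GeneralLinearGroup.map (n := Fin N) (Int.castRingHom ℝ)).range.comap H.real.subtype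

theorem mem_int {g : H.real} : g ∈ H.int ↔
    ∃ z : GL (Fin N) ℤ, GeneralLinearGroup.map (Int.castRingHom ℝ) z = (g : GL (Fin N) ℝ) := Iff.rfl

variable {H}

theorem real0_eq_top (h : PreconnectedSpace H.real) : H.real0 = ⊤ := by
  rw [eq_top_iff]
  intro x _
  have h1 : connectedComponent (1 : H.real) = Set.univ := by
    exact PreconnectedSpace.connectedComponent_eq_univ 1
  have h2 : x ∈ connectedComponent (1 : H.real) := by
    rw [h1]
    exact Set.mem_univ x
  exact h2

end AlgGroup

/-- The definition of the problem, from a homomorphism on `H(ℝ)` if `H(ℝ)` is connected. -/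
theorem arithmetic_of_real {m N : ℕ} {Γ : Subgroup (SUGroup m)} (H : AlgGroup N)
    (φ : H.real →* SUGroup m) (hconn : H.Conn) (hss : H.Semisimple) (hcr : PreconnectedSpace H.real)
    (hφ : Continuous φ) (hs : Function.Surjective φ) (hk : IsCompact (φ.ker : Set H.real))
    (hint : Subgroup.Commensurable Γ (H.int.map φ)) : Arithmetic m Γ := by
  have htop := AlgGroup.real0_eq_top hcr
  refine ⟨N, H, φ.comp H.real0.subtype, hconn, hss, hφ.comp continuous_subtype_val, ?_, ?_, ?_⟩
  · intro y
    obtain ⟨x, hx⟩ := hs y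
    exact ⟨⟨x, htop ▸ Subgroup.mem_top x⟩, hx⟩
  · have h1 : ((φ.comp H.real0.subtype).ker : Set H.real0) = Subtype.val ⁻¹' (φ.ker : Set H.real) := rfl
    rw [h1]
    have h2 : IsClosed (H.real0 : Set H.real) := by
      rw [htop]
      exact isClosed_univ
    exact h2.isClosedEmbedding_subtypeVal.isCompact_preimage hk
  · have h1 : H.int0.map (φ.comp H.real0.subtype) = H.int.map φ := by
      ext y
      constructor
      · rintro ⟨x, hx, rfl⟩
        exact ⟨(x : H.real), hx, rfl⟩
      · rintro ⟨x, hx, rfl⟩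
        exact ⟨⟨x, htop ▸ Subgroup.mem_top x⟩, hx, rfl⟩
    rw [h1]
    exact hint

end Pool.Agent.Lib.MP_5d4057_al.VB
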