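import Pool.Agent.Lib.MP_5d4057_al.VB.RealP
import Pool.Agent.Lib.MP_5d4057_al.VB.V2Data
import Pool.Agent.Lib.MP_5d4057_al.VB.ConSU1

/-!
# VERB V2: the group of real points is connected
-/

set_option autoImplicit false

namespace Pool.Agent.Lib.MP_5d4057_al.VB

open Matrix Pool.Agent.Lib.MP_5d4057_al Pool.Agent.Lib.MP_5d4057_al.Hyb

open scoped ComplexOrder

namespace Dat

variable {m r N : ℕ} (D : Dat m r N)

/-- The group of the place `i`. -/
def SUi (i : Fin (r + 1)) : Set (Matrix (Fin (m + 1)) (Fin (m + 1)) ℂ) :=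
  {x | xᴴ * D.Z i * x = D.Z i ∧ x.det = 1}

theorem isPathConnected_SUi (i : Fin (r + 1)) : IsPathConnected (D.SUi i) := by
  by_cases hi : i = 0
  · subst hi
    have h := su1_conn m
    rw [SUi, D.Z_zero]
    exact h
  · exact su_conn (D.Z_pos i hi)

/-- The inverse at the place `i`. -/
noncomputable def iv (i : Fin (r + 1)) (x : Matrix (Fin (m + 1)) (Fin (m + 1)) ℂ) :
    Matrix (Fin (m + 1)) (Fin (m + 1)) ℂ := (D.Z i)⁻¹ * xᴴ * D.Z i

theorem iv_mul {i : Fin (r + 1)} {x : Matrix (Fin (m + 1)) (Fin (m + 1)) ℂ} (hx : x ∈ D.SUi i) :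
    D.iv i x * x = 1 := by
  rw [iv]
  calc (D.Z i)⁻¹ * xᴴ * D.Z i * x = (D.Z i)⁻¹ * (xᴴ * D.Z i * x) := by
        simp only [Matrix.mul_assoc]
    _ = 1 := by rw [hx.1, Matrix.nonsing_inv_mul _ (D.unitZ i)]

theorem mul_iv {i : Fin (r + 1)} {x : Matrix (Fin (m + 1)) (Fin (m + 1)) ℂ} (hx : x ∈ D.SUi i) :
    x * D.iv i x = 1 := mul_eq_one_comm.1 (D.iv_mul hx)

/-- The product of the left multiplications by real points which are inverse at all places. -/
theorem L_real_mul {x y : Fin N → ℝ} (h : ∀ i, D.XR x i * D.XR y i = 1) : D.L x * D.L y = 1 := by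
  have h1 : D.mv (fun k => (x k : ℂ)) (fun k => (y k : ℂ)) = D.u := by
    refine D.ext' (fun i => ?_) fun i => ?_
    · rw [X_mv, X_u]
      exact h i
    · rw [Y_mv, Y_u, Y_eq, Y_eq]
      have e1 : (fun k => (starRingEnd ℂ) ((x k : ℂ))) = fun k => (x k : ℂ) :=
        funext fun k => Complex.conj_ofReal _
      have e2 : (fun k => (starRingEnd ℂ) ((y k : ℂ))) = fun k => (y k : ℂ) :=
        funext fun k => Complex.conj_ofReal _
      rw [e1, e2, ← Matrix.map_mul]
      have h2 := h i
      rw [XR, XR] at h2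
      rw [h2]
      exact Matrix.map_one _ (map_zero _) (map_one _)
  have h2 : (D.L x * D.L y).map Complex.ofRealHom = (1 : Matrix (Fin N) (Fin N) ℝ).map
      Complex.ofRealHom := by
    rw [Matrix.map_mul, D.L_map, D.L_map, Matrix.map_one _ (map_zero _) (map_one _)]
    have h3 := D.L_mv (fun k => (x k : ℂ)) (fun k => (y k : ℂ))
    rw [h1, L_u] at h3
    exact h3.symm
  exact Matrix.map_injective Complex.ofRealHom.injective h2

variable {H : AlgGroup N} (hH : ∀ g : GL (Fin N) ℂ, g ∈ H.pts ↔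
    ∃ x, D.Pt x ∧ (g : Matrix (Fin N) (Fin N) ℂ) = D.L x)

include hH

theorem real_connected : PreconnectedSpace H.real := by
  obtain ⟨T, hT1, hT2⟩ := D.exists_real
  have hTc : Continuous T := LinearMap.continuous_of_finiteDimensional T
  -- the product of the groups of the places
  set S : Set (Fin (r + 1) → Matrix (Fin (m + 1)) (Fin (m + 1)) ℂ) := Set.univ.pi D.SUi with hS
  have hSc : IsPathConnected S := by
    rw [hS]
    exact IsPathConnected.pi D.isPathConnected_SUi
  have hLc : Continuous (D.L : (Fin N → ℝ) → Matrix (Fin N) (Fin N) ℝ) := by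
    refine continuous_matrix fun l k => ?_
    show Continuous fun x : Fin N → ℝ => ∑ j, x j * ((D.c j k l : ℤ) : ℝ)
    fun_prop
  have hivc : Continuous fun U : Fin (r + 1) → Matrix (Fin (m + 1)) (Fin (m + 1)) ℂ =>
      fun i => D.iv i (U i) := by
    refine continuous_pi fun i => ?_
    show Continuous fun U : Fin (r + 1) → Matrix (Fin (m + 1)) (Fin (m + 1)) ℂ =>
      (D.Z i)⁻¹ * (U i)ᴴ * D.Z i
    exact Continuous.matrix_mul (Continuous.matrix_mul continuous_const
      (continuous_apply i).matrix_conjTranspose) continuous_const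
  have hval : ∀ U ∈ S, D.L (T U) * D.L (T fun i => D.iv i (U i)) = 1 := by
    intro U hU
    refine D.L_real_mul fun i => ?_
    rw [hT1, hT1]
    exact D.mul_iv (hU i trivial)
  have hinv : ∀ U ∈ S, D.L (T fun i => D.iv i (U i)) * D.L (T U) = 1 := by
    intro U hU
    refine D.L_real_mul fun i => ?_
    rw [hT1, hT1]
    exact D.iv_mul (hU i trivial)
  let f : S → GL (Fin N) ℝ := fun U =>
    ⟨D.L (T U), D.L (T fun i => D.iv i (U.1 i)), hval U U.2, hinv U U.2⟩
  have hf : Continuous f := by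
    rw [Units.continuous_iff]
    exact ⟨hLc.comp (hTc.comp continuous_subtype_val),
      hLc.comp (hTc.comp (hivc.comp continuous_subtype_val))⟩
  have hmem : ∀ U : S, f U ∈ H.real := by
    intro U
    refine (D.mem_real hH _).2 ⟨T U, fun i => ?_, rfl⟩
    rw [hT1]
    exact U.2 i trivial
  have hsurj : Function.Surjective fun U : S => (⟨f U, hmem U⟩ : H.real) := by
    rintro ⟨g, hg⟩
    obtain ⟨x, hx, hgx⟩ := (D.mem_real hH g).1 hg
    refine ⟨⟨D.XR x, fun i _ => hx i⟩, Subtype.ext (Units.ext ?_)⟩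
    show D.L (T (D.XR x)) = _
    rw [hT2, hgx]
  have : PathConnectedSpace S := isPathConnected_iff_pathConnectedSpace.1 hSc
  exact hsurj.denseRange.preconnectedSpace (hf.subtype_mk hmem)

/-- The real points are connected (from `su_conn` and `su1_conn`). -/
theorem real0_eq : H.real0 = ⊤ := AlgGroup.real0_eq_top (D.real_connected hH)

end Dat

end Pool.Agent.Lib.MP_5d4057_al.VB
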