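import Mathlib.GroupTheory.Solvable
import Mathlib.Topology.Algebra.Group.Matrix
import Mathlib.LinearAlgebra.Matrix.SpecialLinearGroup
import Mathlib.Analysis.Complex.Basic
import Mathlib.RingTheory.RootsOfUnity.Basic
import Mathlib.Topology.Separation.Connected
import Mathlib.Tactic

/-!
# Solvable normal subgroups of products of special linear groups (helper85)
-/

set_option autoImplicit false

namespace Pool.Agent.Lib.MP_5d4057_al.VB

open Matrix

/-- A quadratic polynomial with matrix coefficients and infinitely many zeros is zero. -/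
theorem quad_zero {n : Type} {A B C : Matrix n n ℂ} {S : Set ℂ} (hS : S.Infinite)
    (h : ∀ t ∈ S, A + t • B + t ^ 2 • C = 0) : A = 0 ∧ B = 0 ∧ C = 0 := by
  have key : ∀ a b : n, A a b = 0 ∧ B a b = 0 ∧ C a b = 0 := by
    intro a b
    have h1 : ∀ t ∈ S, A a b + B a b * t + C a b * t ^ 2 = 0 := by
      intro t ht
      have h2 := congrFun (congrFun (h t ht) a) b
      simp only [Matrix.add_apply, Matrix.smul_apply, smul_eq_mul, Matrix.zero_apply] at h2
      linear_combination h2
    have h3 : (Polynomial.C (A a b) + Polynomial.C (B a b) * Polynomial.X +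
        Polynomial.C (C a b) * Polynomial.X ^ 2 : Polynomial ℂ) = 0 := by
      refine Polynomial.eq_zero_of_infinite_isRoot _ (hS.mono fun t ht => ?_)
      simpa [Polynomial.IsRoot] using h1 t ht
    have c0 := congrArg (fun p => Polynomial.coeff p 0) h3
    have c1 := congrArg (fun p => Polynomial.coeff p 1) h3
    have c2 := congrArg (fun p => Polynomial.coeff p 2) h3
    simp [Polynomial.coeff_X, Polynomial.coeff_C, Polynomial.coeff_X_pow] at c0 c1 c2
    exact ⟨c0, c1, c2⟩
  refine ⟨?_, ?_, ?_⟩ <;> ext a b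
  · exact (key a b).1
  · exact (key a b).2.1
  · exact (key a b).2.2

variable {n : Type} [Fintype n] [DecidableEq n]

/-- The transvection `1 + t E_ij`. -/
theorem tr_det {i j : n} (hij : i ≠ j) (t : ℂ) : (1 + t • single i j (1 : ℂ)).det = 1 := by
  have h1 := det_transvection_of_ne i j hij t
  unfold transvection at h1
  simpa [smul_single] using h1

theorem tr_mul {i j : n} (hij : i ≠ j) (t : ℂ) :
    (1 + t • single i j (1 : ℂ)) * (1 - t • single i j (1 : ℂ)) = 1 := by
  have h1 : single i j (1 : ℂ) * single i j (1 : ℂ) = 0 :=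
    single_mul_single_of_ne (1 : ℂ) i j _ hij.symm 1
  rw [mul_sub, mul_one, add_mul, one_mul, smul_mul_smul_comm, h1, smul_zero, add_zero]
  abel

/-- The linear algebra: if `x` commutes with `[E, x]` and `E x E` for all `E = E_ij`, then `x` is scalar. -/
theorem scalar_of {x : Matrix n n ℂ}
    (h : ∀ i j : n, i ≠ j → Commute x (single i j (1 : ℂ) * x - x * single i j (1 : ℂ)) ∧
      Commute x (single i j (1 : ℂ) * x * single i j (1 : ℂ))) : ∃ c : ℂ, x = c • 1 := by
  have off : ∀ i j : n, i ≠ j → x j i = 0 := by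
    intro i j hij
    by_contra hne
    have h1 := (h i j hij).2
    have h2 : single i j (1 : ℂ) * x * single i j (1 : ℂ) = x j i • single i j (1 : ℂ) := by
      ext a b
      simp only [Matrix.mul_apply, single_apply, Matrix.smul_apply, smul_eq_mul]
      by_cases ha : i = a <;> by_cases hb : j = b <;> simp [ha, hb]
    rw [h2] at h1
    have h3 : Commute x (single i j (1 : ℂ)) := by
      have h4 := h1.smul_right (x j i)⁻¹
      rwa [smul_smul, inv_mul_cancel₀ hne, one_smul] at h4
    have h5 := congrFun (congrFun h3.eq j) j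
    simp [Matrix.mul_apply, single_apply, hij] at h5
    exact hne h5
  have dg : ∀ i j : n, x i i = x j j := by
    intro i j
    rcases eq_or_ne i j with rfl | hij
    · rfl
    have hx : x = diagonal fun k => x k k := by
      ext a b
      rcases eq_or_ne a b with rfl | hab
      · simp
      · rw [diagonal_apply_ne _ hab]
        exact off b a hab.symm
    have h1 := congrFun (congrFun (h i j hij).1.eq i) j
    have e1 : ∀ k l : n, (single k l (1 : ℂ) * x) = (x l l) • single k l (1 : ℂ) := by
      intro k l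
      rw [hx]
      ext a b
      simp only [mul_diagonal, single_apply, Matrix.smul_apply, smul_eq_mul, diagonal_apply_eq]
      by_cases hkl : k = a ∧ l = b
      · simp [hkl]
      · simp [hkl]
    have e2 : ∀ k l : n, (x * single k l (1 : ℂ)) = (x k k) • single k l (1 : ℂ) := by
      intro k l
      rw [hx]
      ext a b
      simp only [diagonal_mul, single_apply, Matrix.smul_apply, smul_eq_mul, diagonal_apply_eq]
      by_cases hkl : k = a ∧ l = b
      · simp [hkl]
      · simp [hkl]
    rw [e1, e2, ← sub_smul, mul_smul_comm, smul_mul_assoc, e1, e2] at h1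
    simp only [Matrix.smul_apply, single_apply_same, smul_eq_mul, mul_one] at h1
    have h2 : (x j j - x i i) ^ 2 = 0 := by linear_combination -h1
    have h3 := pow_eq_zero_iff (two_ne_zero) |>.1 h2
    linear_combination -h3
  by_cases hn : Nonempty n
  · obtain ⟨k⟩ := hn
    refine ⟨x k k, ?_⟩
    ext a b
    rcases eq_or_ne a b with rfl | hab
    · simp [dg a k]
    · simp [hab, off b a hab.symm]
  · refine ⟨0, ?_⟩
    ext a
    exact (hn ⟨a⟩).elim

/-- The main step. -/
theorem central_of_comm {x : Matrix n n ℂ} (hx : x.det = 1)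
    (h : ∀ i j : n, i ≠ j → ∀ t : ℂ, ∃ z : ℂ, x * ((1 + t • single i j (1 : ℂ)) * x * (1 - t • single i j (1 : ℂ))) =
      z • (((1 + t • single i j (1 : ℂ)) * x * (1 - t • single i j (1 : ℂ))) * x)) : ∃ c : ℂ, x = c • 1 := by
  rcases isEmpty_or_nonempty n with hn | hn
  · exact ⟨0, by ext a; exact (hn.false a).elim⟩
  refine scalar_of fun i j hij => ?_
  set E := single i j (1 : ℂ) with hE
  choose z hz using h i j hij
  have hxu : IsUnit x := by
    rw [Matrix.isUnit_iff_isUnit_det, hx]
    exact isUnit_one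
  have hN : ∀ t, z t ^ Fintype.card n = 1 := by
    intro t
    have h1 := congrArg Matrix.det (hz t)
    have h2 : (1 - t • E).det = 1 := by
      have h3 := tr_det hij (-t)
      rwa [neg_smul, ← sub_eq_add_neg] at h3
    rw [det_smul, det_mul, det_mul, det_mul, det_mul, det_mul, det_mul, hx, tr_det hij, h2] at h1
    simpa using h1.symm
  have hfin : {w : ℂ | w ^ Fintype.card n = 1}.Finite := by
    have h1 : (Polynomial.X ^ Fintype.card n - 1 : Polynomial ℂ) ≠ 0 :=
      (Polynomial.monic_X_pow_sub_C (1 : ℂ) Fintype.card_pos.ne').ne_zero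
    refine (Polynomial.finite_setOfPred_isRoot h1).subset fun w hw => ?_
    have hw : w ^ Fintype.card n = 1 := hw
    simp [Polynomial.IsRoot, hw]
  have : Finite {w : ℂ | w ^ Fintype.card n = 1} := hfin
  obtain ⟨⟨w, hw⟩, hinf⟩ := Finite.exists_infinite_fiber
    (fun t : ℂ => (⟨z t, hN t⟩ : {w : ℂ | w ^ Fintype.card n = 1}))
  have hex : ∀ t : ℂ, (1 + t • E) * x * (1 - t • E) = x + t • (E * x - x * E) + t ^ 2 • (-(E * x * E)) := by
    intro t
    simp only [add_mul, mul_sub, one_mul, mul_one, smul_mul_assoc, mul_smul_comm, smul_add]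
    module
  have hq := quad_zero (A := x * x - w • (x * x)) (B := x * (E * x - x * E) - w • ((E * x - x * E) * x))
    (C := x * (-(E * x * E)) - w • ((-(E * x * E)) * x)) (S := {t | z t = w}) (by
      refine (Set.infinite_coe_iff.1 hinf).mono fun t ht => ?_
      exact congrArg Subtype.val (ht : (⟨z t, hN t⟩ : {w : ℂ | w ^ Fintype.card n = 1}) = ⟨w, hw⟩)) (by
      intro t ht
      have h1 := hz t
      have ht' : z t = w := ht
      rw [hex, ht'] at h1
      rw [← sub_eq_zero] at h1
      rw [← h1]
      simp only [mul_add, add_mul, mul_smul_comm, smul_mul_assoc]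
      module)
  obtain ⟨q0, q1, q2⟩ := hq
  have hw1 : w = 1 := by
    have h1 : (1 - w) • (x * x) = 0 := by
      rw [sub_smul, one_smul]
      exact q0
    rcases smul_eq_zero.1 h1 with h2 | h2
    · linear_combination -h2
    · exfalso
      have h3 := congrArg Matrix.det h2
      rw [det_mul, hx, det_zero] at h3
      norm_num at h3
  subst hw1
  rw [one_smul, sub_eq_zero] at q1 q2
  refine ⟨q1, ?_⟩
  have h1 : x * (E * x * E) = E * x * E * x := by
    have h2 : -(x * (E * x * E)) = -(E * x * E * x) := by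
      rw [mul_neg, neg_mul] at q2
      exact q2
    exact neg_injective h2
  exact h1

/-- If the commutators of a normal subgroup are scalar, then it is scalar. -/
theorem sl_step {A : Subgroup (SpecialLinearGroup n ℂ)} (hA : A.Normal)
    (h : ∀ x ∈ ⁅A, A⁆, ∃ c : ℂ, (x : Matrix n n ℂ) = c • 1) :
    ∀ x ∈ A, ∃ c : ℂ, (x : Matrix n n ℂ) = c • 1 := by
  intro x hx
  refine central_of_comm x.2 fun i j hij t => ?_
  have hu := tr_det hij t
  set u : SpecialLinearGroup n ℂ := ⟨1 + t • single i j (1 : ℂ), hu⟩ with hudef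
  have hui : ((u⁻¹ : SpecialLinearGroup n ℂ) : Matrix n n ℂ) = 1 - t • single i j (1 : ℂ) := by
    have h1 : (u : Matrix n n ℂ) * ((u⁻¹ : SpecialLinearGroup n ℂ) : Matrix n n ℂ) = 1 := by
      rw [← SpecialLinearGroup.coe_mul, mul_inv_cancel, SpecialLinearGroup.coe_one]
    have h2 : (u : Matrix n n ℂ) * (1 - t • single i j (1 : ℂ)) = 1 := tr_mul hij t
    have h3 : ((u⁻¹ : SpecialLinearGroup n ℂ) : Matrix n n ℂ) * (u : Matrix n n ℂ) = 1 := by
      rw [← SpecialLinearGroup.coe_mul, inv_mul_cancel, SpecialLinearGroup.coe_one]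
    calc ((u⁻¹ : SpecialLinearGroup n ℂ) : Matrix n n ℂ)
        = ((u⁻¹ : SpecialLinearGroup n ℂ) : Matrix n n ℂ) * ((u : Matrix n n ℂ) * (1 - t • single i j (1 : ℂ))) := by
          rw [h2, mul_one]
      _ = 1 - t • single i j (1 : ℂ) := by rw [← mul_assoc, h3, one_mul]
  have hy : u * x * u⁻¹ ∈ A := hA.conj_mem x hx u
  obtain ⟨c, hc⟩ := h _ (Subgroup.commutator_mem_commutator hx hy)
  refine ⟨c, ?_⟩
  rw [commutatorElement_def] at hc
  have h1 : x * (u * x * u⁻¹) = x * (u * x * u⁻¹) * x⁻¹ * (u * x * u⁻¹)⁻¹ * ((u * x * u⁻¹) * x) := by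
    group
  have h2 := congrArg (fun g : SpecialLinearGroup n ℂ => (g : Matrix n n ℂ)) h1
  rw [SpecialLinearGroup.coe_mul (x * (u * x * u⁻¹) * x⁻¹ * (u * x * u⁻¹)⁻¹), hc, smul_mul_assoc, one_mul] at h2
  simp only [SpecialLinearGroup.coe_mul, hui] at h2
  exact h2

/-- The derived series inside the group. -/
def dser {G : Type*} [Group G] (R : Subgroup G) : ℕ → Subgroup G
  | 0 => R
  | k + 1 => ⁅dser R k, dser R k⁆

theorem dser_eq {G : Type*} [Group G] (R : Subgroup G) (k : ℕ) :
    dser R k = (derivedSeries R k).map R.subtype := by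
  induction k with
  | zero => rw [dser, derivedSeries_zero, ← MonoidHom.range_eq_map, Subgroup.range_subtype]
  | succ k ih => rw [dser, ih, derivedSeries_succ, Subgroup.map_commutator]

theorem dser_normal {G : Type*} [Group G] {R : Subgroup G} (hR : R.Normal) (k : ℕ) :
    (dser R k).Normal := by
  induction k with
  | zero => exact hR
  | succ k ih =>
    have := ih
    exact Subgroup.commutator_normal _ _

/-- **(S1)** Solvable normal subgroups of `SL_n(ℂ)` consist of scalars. -/
theorem sl_solvable {R : Subgroup (SpecialLinearGroup n ℂ)} (hR : R.Normal) (hs : Group.IsSolvable R) :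
    ∀ x ∈ R, ∃ c : ℂ, (x : Matrix n n ℂ) = c • 1 := by
  obtain ⟨k, hk⟩ := hs.solvable
  have h0 : ∀ x ∈ dser R k, ∃ c : ℂ, (x : Matrix n n ℂ) = c • 1 := by
    intro x hx
    rw [dser_eq, hk, Subgroup.map_bot, Subgroup.mem_bot] at hx
    exact ⟨1, by rw [hx, one_smul, SpecialLinearGroup.coe_one]⟩
  have key : ∀ j : ℕ, ∀ l, l + j = k → ∀ x ∈ dser R l, ∃ c : ℂ, (x : Matrix n n ℂ) = c • 1 := by
    intro j
    induction j with
    | zero =>
      intro l hl
      rw [add_zero] at hl
      rw [hl]
      exact h0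
    | succ j ih =>
      intro l hl
      exact sl_step (dser_normal hR l) (ih (l + 1) (by omega))
  exact key k 0 (zero_add k)

variable {ι : Type}

/-- **(S2)** Solvable normal subgroups of products of `SL_n(ℂ)`. -/
theorem prod_solvable {R : Subgroup (ι → SpecialLinearGroup n ℂ)} (hR : R.Normal)
    (hs : Group.IsSolvable R) : ∀ x ∈ R, ∀ i, ∃ c : ℂ, (x i : Matrix n n ℂ) = c • 1 := by
  intro x hx i
  set f : (ι → SpecialLinearGroup n ℂ) →* SpecialLinearGroup n ℂ := Pi.evalMonoidHom _ i with hf
  have hsur : Function.Surjective f := fun y => ⟨fun _ => y, rfl⟩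
  have h1 : (R.map f).Normal := hR.map f hsur
  have h2 : Group.IsSolvable (R.map f) := by
    have := hs
    exact Group.isSolvable_of_surjective (f := f.subgroupMap R) (f.subgroupMap_surjective R)
  exact sl_solvable h1 h2 (x i) ⟨x, hx, rfl⟩

/-- **(S3)** Connected solvable normal subgroups are trivial. -/
theorem conn_solvable {R : Subgroup (ι → SpecialLinearGroup n ℂ)} (hR : R.Normal)
    (hs : Group.IsSolvable R) (hc : IsPreconnected (R : Set (ι → SpecialLinearGroup n ℂ))) : R = ⊥ := by
  rcases isEmpty_or_nonempty n with hn | ⟨⟨k⟩⟩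
  · rw [eq_bot_iff]
    intro x _
    rw [Subgroup.mem_bot]
    funext i
    apply Subtype.ext
    ext a
    exact (hn.false a).elim
  rw [eq_bot_iff]
  intro x hx
  rw [Subgroup.mem_bot]
  funext i
  have hfin : {w : ℂ | w ^ Fintype.card n = 1}.Finite := by
    have h1 : (Polynomial.X ^ Fintype.card n - 1 : Polynomial ℂ) ≠ 0 :=
      (Polynomial.monic_X_pow_sub_C (1 : ℂ) (Fintype.card_pos_iff.2 ⟨k⟩).ne').ne_zero
    refine (Polynomial.finite_setOfPred_isRoot h1).subset fun w hw => ?_
    have hw : w ^ Fintype.card n = 1 := hw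
    simp [Polynomial.IsRoot, hw]
  set F : (ι → SpecialLinearGroup n ℂ) → ℂ := fun y => (y i : Matrix n n ℂ) k k with hF
  have hcont : Continuous F := by
    have h1 : Continuous fun y : ι → SpecialLinearGroup n ℂ => (y i : Matrix n n ℂ) :=
      continuous_subtype_val.comp (continuous_apply i)
    exact (continuous_apply k).comp ((continuous_apply k).comp h1)
  have hmap : ∀ y ∈ R, (y i : Matrix n n ℂ) = F y • 1 ∧ F y ^ Fintype.card n = 1 := by
    intro y hy
    obtain ⟨c, hcy⟩ := prod_solvable hR hs y hy i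
    have h1 : F y = c := by
      rw [hF]
      simp [hcy]
    refine ⟨by rw [h1, hcy], ?_⟩
    have h2 := (y i).2
    rw [hcy, det_smul, det_one, mul_one] at h2
    rw [h1, h2]
  have himg : (F '' (R : Set (ι → SpecialLinearGroup n ℂ))).Subsingleton := by
    by_contra hns
    rw [Set.not_subsingleton_iff] at hns
    refine IsPreconnected.infinite_of_nontrivial (hc.image F hcont.continuousOn) hns (hfin.subset ?_)
    rintro _ ⟨y, hy, rfl⟩
    exact (hmap y hy).2
  have h3 : F x = F 1 := himg ⟨x, hx, rfl⟩ ⟨1, R.one_mem, rfl⟩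
  have h4 : F 1 = 1 := by simp [hF]
  apply Subtype.ext
  rw [(hmap x hx).1, h3, h4, one_smul]
  rfl

/-- **(S4)** The same for a topological group `G` with a continuous isomorphism `e` onto a product of `SL_n(ℂ)`
(this is literally `AlgGroup.Semisimple` for `G = H.pts`). -/
theorem semisimple_of {G : Type*} [Group G] [TopologicalSpace G]
    (e : G →* (ι → SpecialLinearGroup n ℂ)) (hi : Function.Injective e) (hsur : Function.Surjective e)
    (hcont : Continuous e) (R : Subgroup G) (hR : R.Normal) (hs : Group.IsSolvable R)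
    (hc : IsConnected (R : Set G)) : R = ⊥ := by
  have h1 : (R.map e).Normal := hR.map e hsur
  have h2 : Group.IsSolvable (R.map e) := by
    have := hs
    exact Group.isSolvable_of_surjective (f := e.subgroupMap R) (e.subgroupMap_surjective R)
  have h3 : IsPreconnected ((R.map e : Subgroup _) : Set (ι → SpecialLinearGroup n ℂ)) := by
    rw [Subgroup.coe_map]
    exact hc.isPreconnected.image e hcont.continuousOn
  have h4 := conn_solvable h1 h2 h3
  rwa [Subgroup.map_eq_bot_iff_of_injective R hi] at h4

end Pool.Agent.Lib.MP_5d4057_al.VB
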