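import Pool.Agent.Lib.MP_5d4057_al.VB.Defs
import Pool.Agent.Lib.MP_5d4057_al.VB.Sol

/-!
# VERB V2: products of copies of `SL_n(ℂ)` are semisimple
-/

set_option autoImplicit false

namespace Pool.Agent.Lib.MP_5d4057_al.VB

open Matrix Pool.Agent.Lib.MP_5d4057_al Pool.Agent.Lib.MP_5d4057_al.Hyb

/-- A product of copies of `SL_n(ℂ)` is semisimple. -/
theorem semisimple_of_iso {m r N : ℕ} {H : AlgGroup N}
    (E : (Fin (r + 1) → SpecialLinearGroup (Fin (m + 1)) ℂ) ≃* H.pts) (hE : Continuous E)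
    (hE' : Continuous E.symm) : H.Semisimple :=
  semisimple_of E.symm.toMonoidHom E.symm.injective E.symm.surjective hE'

end Pool.Agent.Lib.MP_5d4057_al.VB
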