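import Pool.Agent.Lib.MP_5d4057_al.VB.DatOf
import Pool.Agent.Lib.MP_5d4057_al.VB.IsoC
import Pool.Agent.Lib.MP_5d4057_al.VB.ConnC
import Pool.Agent.Lib.MP_5d4057_al.VB.SemiC
import Pool.Agent.Lib.MP_5d4057_al.VB.RealC
import Pool.Agent.Lib.MP_5d4057_al.VB.Phi
import Pool.Agent.Lib.MP_5d4057_al.VB.IntP

/-!
# VERB V2: the groups of the classification are arithmetic in the sense of the problem (leader helper25)
-/

set_option autoImplicit false

namespace Pool.Agent.Lib.MP_5d4057_al.VB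

open Pool.Agent.Lib.MP_5d4057_al Pool.Agent.Lib.MP_5d4057_al.Hyb

theorem arithmetic_of_isArith {m : ℕ} (hm : 1 ≤ m) {Γ : Subgroup (SUGroup m)}
    (h : IsArith m Γ) : Arithmetic m Γ := by
  obtain ⟨K, A, O, hU, hO, hc⟩ := h
  obtain ⟨r, N, D, hD⟩ := exists_dat hU hO
  obtain ⟨H, hH⟩ := D.exists_alg
  obtain ⟨E, hE, hE'⟩ := D.exists_iso hH
  obtain ⟨φ, hφc, hφs, hφk, hφ⟩ := D.exists_phi hH
  refine ⟨N, H, φ, conn_of_iso E hE, semisimple_of_iso E hE hE', hφc, hφs, hφk, ?_⟩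
  rw [D.map_int0 hH (D.real0_eq hH) hD φ hφ]
  exact hc

end Pool.Agent.Lib.MP_5d4057_al.VB
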