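import Pool.Agent.Lib.MP_5d4057_al.VB.V1
import Pool.Agent.Lib.MP_5d4057_al.VB.V2
import Pool.Agent.Lib.MP_5d4057_al.DR.Top

/-!
# The negated form of the question, with the definition of the problem (owner: helper53)
-/

set_option autoImplicit false

namespace Pool.Agent.Lib.MP_5d4057_al.VB

open Pool.Agent.Lib.MP_5d4057_al Pool.Agent.Lib.MP_5d4057_al.Hyb

theorem amalgam_arithmetic (k : ℕ) (hk : 3 ≤ k) (Γ₃ : Subgroup (SUGroup k))
    (Γ : Fin 2 → Subgroup (SUGroup (k + 1))) (h₃ : IsLattice Γ₃) (hA₃ : Arithmetic k Γ₃)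
    (hL : ∀ b, IsLattice (Γ b)) (hA : ∀ b, Arithmetic (k + 1) (Γ b))
    (ι : ∀ b, Γ₃ →* Γ b) (hι : ∀ b, Function.Injective (ι b))
    (ρ : Monoid.PushoutI ι →* SUGroup (k + 2))
    (hinj : ∀ b, Function.Injective (ρ.comp (Monoid.PushoutI.of b)))
    (hlat : IsLattice ρ.range) : Arithmetic (k + 2) ρ.range :=
  arithmetic_of_isArith (by omega) (DR.amalgam_arith k hk Γ₃ Γ h₃
    (isArith_of_arithmetic (by omega) h₃ hA₃) hL
    (fun b => isArith_of_arithmetic (by omega) (hL b) (hA b)) ι hι ρ hinj hlat)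

end Pool.Agent.Lib.MP_5d4057_al.VB
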