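import Pool.Agent.Lib.MP_5d4057_al.Hyb.SpanFin

/-!
# VERB V1.7: the adjoint action of a lattice is irreducible, nonreal traces (helper7)
-/

set_option autoImplicit false

namespace Pool.Agent.Lib.MP_5d4057_al.VB

open Matrix Pool.Agent.Lib.MP_5d4057_al Pool.Agent.Lib.MP_5d4057_al.Hyb Filter Topology

variable {m : ℕ}

theorem hm_sum (a b : Fin (m + 1) → ℂ) : hm m a b =
    ∑ i : Fin m, star (a i.castSucc) * b i.castSucc - star (a (Fin.last m)) * b (Fin.last m) := by
  rw [hm, dotProduct, Fin.sum_univ_castSucc]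
  simp only [Pi.star_apply, J, mulVec_diagonal]
  simp [Fin.ext_iff, (Fin.is_lt _).ne, sub_eq_add_neg]

theorem null_eq_zero {w : Fin (m + 1) → ℂ} (hw : hm m w w = 0) (h : w (Fin.last m) = 0) : w = 0 := by
  rw [hm_sum, h, mul_zero, sub_zero] at hw
  have h1 : ∀ i : Fin m, w i.castSucc = 0 := by
    have h2 : ∑ i : Fin m, (‖w i.castSucc‖ ^ 2 : ℝ) = 0 := by
      have h3 : ((∑ i : Fin m, (‖w i.castSucc‖ ^ 2 : ℝ) : ℝ) : ℂ) = 0 := by
        rw [← hw]
        push_cast
        refine Finset.sum_congr rfl fun i _ => ?_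
        have := Complex.conj_mul' (w i.castSucc)
        simpa using this.symm
      exact_mod_cast h3
    rw [Finset.sum_eq_zero_iff_of_nonneg fun i _ => sq_nonneg _] at h2
    intro i
    have := h2 i (Finset.mem_univ i)
    simpa using this
  funext i
  refine Fin.lastCases ?_ (fun i => ?_) i
  · exact h
  · exact h1 i

/-- Two orthogonal null vectors are proportional. -/
theorem null_prop {w w' : Fin (m + 1) → ℂ} (hw : hm m w w = 0) (hw' : hm m w' w' = 0)
    (h : hm m w w' = 0) : w' (Fin.last m) • w = w (Fin.last m) • w' := by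
  have h' : hm m w' w = 0 := by rw [← hm_star, h, star_zero]
  have h0 : hm m (w' (Fin.last m) • w + (-w (Fin.last m)) • w')
      (w' (Fin.last m) • w + (-w (Fin.last m)) • w') = 0 := by
    simp only [hm_add_left, hm_add_right, hm_smul_left, hm_smul_right, hw, hw', h, h']
    ring
  have h1 := null_eq_zero h0 (by simp; ring)
  rw [neg_smul, ← sub_eq_add_neg, sub_eq_zero] at h1
  exact h1

/-- The span of all `rk w w`, `w` null. -/
def nsp (m : ℕ) : Submodule ℂ (Matrix (Fin (m + 1)) (Fin (m + 1)) ℂ) :=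
  Submodule.span ℂ {A | ∃ w, hm m w w = 0 ∧ A = rk m w w}

theorem rk_add_left (a b c : Fin (m + 1) → ℂ) : rk m (a + b) c = rk m a c + rk m b c := by
  rw [rk, rk, rk, star_add, add_vecMul, vecMulVec_add]

theorem rk_add_right (a b c : Fin (m + 1) → ℂ) : rk m a (b + c) = rk m a b + rk m a c := by
  rw [rk, rk, rk, add_vecMulVec]

theorem rk_smul_left (t : ℂ) (a b : Fin (m + 1) → ℂ) : rk m (t • a) b = star t • rk m a b := by
  rw [rk, rk, star_smul, smul_vecMul, vecMulVec_smul]

theorem rk_smul_right (t : ℂ) (a b : Fin (m + 1) → ℂ) : rk m a (t • b) = t • rk m a b := by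
  rw [rk, rk, smul_vecMulVec]

theorem rk_single (i j : Fin (m + 1)) : rk m (Pi.single i 1) (Pi.single j 1) =
    (if i = Fin.last m then -1 else 1 : ℂ) • Matrix.single j i 1 := by
  ext a b
  rw [rk, vecMulVec_apply, J, vecMul_diagonal]
  simp only [Pi.star_apply, Matrix.smul_apply, Matrix.single_apply, Pi.single_apply, smul_eq_mul]
  by_cases h1 : j = a <;> by_cases h2 : i = b
  · subst h1; subst h2; simp
  · have h2' : b ≠ i := fun h => h2 h.symm
    simp [h2, h2']
  · have h1' : a ≠ j := fun h => h1 h.symm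
    simp [h1, h1']
  · have h1' : a ≠ j := fun h => h1 h.symm
    simp [h1, h1']

theorem hm_single (i j : Fin (m + 1)) : hm m (Pi.single i 1) (Pi.single j 1) =
    if i = j then (if i = Fin.last m then -1 else 1) else 0 := by
  rw [hm, J, mulVec_single_one]
  have h1 : (star (Pi.single i 1 : Fin (m + 1) → ℂ)) = Pi.single i 1 := by
    ext k
    by_cases hk : k = i
    · subst hk; simp
    · simp [Pi.single_eq_of_ne hk]
  rw [h1, single_one_dotProduct]
  simp only [Matrix.col_apply, Matrix.diagonal_apply]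

/-- `e_i + v e_m`, `|v| = 1`. -/
theorem nsp_one {i : Fin (m + 1)} (hi : i ≠ Fin.last m) {v : ℂ} (hv : star v * v = 1) :
    rk m (Pi.single i 1) (Pi.single i 1) + rk m (Pi.single (Fin.last m) 1) (Pi.single (Fin.last m) 1)
      + (v • rk m (Pi.single i 1) (Pi.single (Fin.last m) 1) +
        star v • rk m (Pi.single (Fin.last m) 1) (Pi.single i 1)) ∈ nsp m := by
  refine Submodule.subset_span ⟨Pi.single i 1 + v • Pi.single (Fin.last m) 1, ?_, ?_⟩
  · simp only [hm_add_left, hm_add_right, hm_smul_left, hm_smul_right, hm_single]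
    simp only [if_neg hi, if_neg hi.symm, if_true]
    linear_combination -hv
  · simp only [rk_add_left, rk_add_right, rk_smul_left, rk_smul_right, smul_add, smul_smul]
    rw [mul_comm v, hv, one_smul]
    abel

/-- `3/5 e_i + 4/5 v e_j + e_m`, summed over `e_m ↦ - e_m`. -/
theorem nsp_two {i j : Fin (m + 1)} (hi : i ≠ Fin.last m) (hj : j ≠ Fin.last m) (hij : i ≠ j) {v : ℂ}
    (hv : star v * v = 1) :
    ((18 / 25 : ℂ) • rk m (Pi.single i 1) (Pi.single i 1) +
      (32 / 25 : ℂ) • rk m (Pi.single j 1) (Pi.single j 1) +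
      (2 : ℂ) • rk m (Pi.single (Fin.last m) 1) (Pi.single (Fin.last m) 1)) +
      (v • (24 / 25 : ℂ) • rk m (Pi.single i 1) (Pi.single j 1) +
      star v • (24 / 25 : ℂ) • rk m (Pi.single j 1) (Pi.single i 1)) ∈ nsp m := by
  have key : ∀ s : ℂ, s * s = 1 → star s = s →
      rk m ((3 / 5 : ℂ) • Pi.single i 1 + (4 / 5 * v) • Pi.single j 1 + s • Pi.single (Fin.last m) 1)
        ((3 / 5 : ℂ) • Pi.single i 1 + (4 / 5 * v) • Pi.single j 1 + s • Pi.single (Fin.last m) 1) ∈
        nsp m := by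
    intro s hs hs'
    refine Submodule.subset_span ⟨_, ?_, rfl⟩
    simp only [hm_add_left, hm_add_right, hm_smul_left, hm_smul_right, hm_single]
    simp only [if_neg hi, if_neg hj, if_neg hi.symm, if_neg hj.symm, if_neg hij, if_neg hij.symm,
      if_true, hs']
    have h1 : star (3 / 5 : ℂ) = 3 / 5 := by
      rw [Complex.star_def, map_div₀]; simp [Complex.conj_ofNat]
    have h2 : star (4 / 5 * v : ℂ) = 4 / 5 * star v := by
      rw [star_mul', Complex.star_def, map_div₀]; simp [Complex.conj_ofNat]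
    rw [h1, h2]
    linear_combination (16 / 25 : ℂ) * hv - hs
  have h := Submodule.add_mem _ (key 1 (by norm_num) (by simp)) (key (-1) (by norm_num) (by simp))
  convert h using 1
  have h1 : star (3 / 5 : ℂ) = 3 / 5 := by
    rw [Complex.star_def, map_div₀]; simp [Complex.conj_ofNat]
  have h2 : star (4 / 5 * v : ℂ) = 4 / 5 * star v := by
    rw [star_mul', Complex.star_def, map_div₀]; simp [Complex.conj_ofNat]
  simp only [rk_add_left, rk_add_right, rk_smul_left, rk_smul_right, smul_add, smul_smul, h1, h2,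
    star_neg, star_one]
  have h3 : (4 / 5 * v * (4 / 5 * star v) : ℂ) = 16 / 25 := by
    linear_combination (16 / 25 : ℂ) * hv
  simp only [h3]
  module

theorem mem_of_phase {V : Type*} [AddCommGroup V] [Module ℂ V] (S : Submodule ℂ V) {P A B : V}
    (h : ∀ v : ℂ, star v * v = 1 → P + (v • A + star v • B) ∈ S) : P ∈ S ∧ A ∈ S ∧ B ∈ S := by
  have h1 := h 1 (by simp)
  have h2 := h (-1) (by simp)
  have h3 := h Complex.I (by simp)
  have h4 := h (-Complex.I) (by simp)
  simp only [star_one, star_neg, Complex.star_def, Complex.conj_I] at h1 h2 h3 h4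
  have hI : Complex.I * Complex.I = -1 := Complex.I_mul_I
  refine ⟨?_, ?_, ?_⟩
  · have := S.smul_mem (1 / 2 : ℂ) (S.add_mem h1 h2)
    convert this using 1
    module
  · have := S.add_mem (S.smul_mem (1 / 4 : ℂ) (S.sub_mem h1 h2))
      (S.smul_mem (-Complex.I / 4 : ℂ) (S.sub_mem h3 h4))
    convert this using 1
    simp only [smul_add, smul_sub, smul_smul]
    have e1 : -Complex.I / 4 * Complex.I = 1 / 4 := by linear_combination (-1 / 4 : ℂ) * hI
    have e2 : -Complex.I / 4 * -Complex.I = -1 / 4 := by linear_combination (1 / 4 : ℂ) * hI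
    have e3 : -Complex.I / 4 * - -Complex.I = 1 / 4 := by linear_combination (-1 / 4 : ℂ) * hI
    simp only [e1, e2, e3]
    module
  · have := S.sub_mem (S.smul_mem (1 / 4 : ℂ) (S.sub_mem h1 h2))
      (S.smul_mem (-Complex.I / 4 : ℂ) (S.sub_mem h3 h4))
    convert this using 1
    simp only [smul_add, smul_sub, smul_smul]
    have e1 : -Complex.I / 4 * Complex.I = 1 / 4 := by linear_combination (-1 / 4 : ℂ) * hI
    have e2 : -Complex.I / 4 * -Complex.I = -1 / 4 := by linear_combination (1 / 4 : ℂ) * hI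
    have e3 : -Complex.I / 4 * - -Complex.I = 1 / 4 := by linear_combination (-1 / 4 : ℂ) * hI
    simp only [e1, e2, e3]
    module

theorem single_mem_nsp (i j : Fin (m + 1)) :
    Matrix.single i j (1 : ℂ) - (if i = j then Matrix.single (Fin.last m) (Fin.last m) 1 else 0) ∈
      nsp m := by
  have hone : ∀ {i : Fin (m + 1)}, i ≠ Fin.last m → _ := fun {i} hi =>
    mem_of_phase (nsp m) (fun v hv => nsp_one (m := m) hi hv)
  by_cases hi : i = Fin.last m
  · by_cases hj : j = Fin.last m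
    · subst hi; subst hj; simp
    · have h := (hone hj).2.1
      rw [rk_single, if_neg hj, one_smul] at h
      rw [hi, if_neg (Ne.symm hj), sub_zero]
      exact h
  · by_cases hj : j = Fin.last m
    · have h := (hone hi).2.2
      rw [rk_single, if_pos rfl, neg_smul, one_smul] at h
      rw [hj, if_neg hi, sub_zero]
      exact (Submodule.neg_mem_iff _).1 h
    · by_cases hij : i = j
      · subst hij
        have h := (hone hi).1
        rw [rk_single, rk_single, if_neg hi, if_pos rfl, one_smul, neg_smul, one_smul,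
          ← sub_eq_add_neg] at h
        rw [if_pos rfl]
        exact h
      · have h := (mem_of_phase (nsp m) (fun v hv => nsp_two (m := m) hj hi (Ne.symm hij) hv)).2.1
        rw [rk_single, if_neg hj, one_smul] at h
        rw [if_neg hij, sub_zero]
        have h' := (nsp m).smul_mem (25 / 24 : ℂ) h
        rw [smul_smul] at h'
        norm_num at h'
        exact h'

theorem mem_nsp {X : Matrix (Fin (m + 1)) (Fin (m + 1)) ℂ} (hX : X.trace = 0) : X ∈ nsp m := by
  have h : X = ∑ i, ∑ j, X i j • (Matrix.single i j (1 : ℂ) -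
      (if i = j then Matrix.single (Fin.last m) (Fin.last m) 1 else 0)) := by
    have h1 : ∑ i, ∑ j, X i j • (Matrix.single i j (1 : ℂ) -
        (if i = j then Matrix.single (Fin.last m) (Fin.last m) 1 else 0)) =
        ∑ i, ∑ j, X i j • Matrix.single i j (1 : ℂ) -
        X.trace • Matrix.single (Fin.last m) (Fin.last m) 1 := by
      simp only [smul_sub, Finset.sum_sub_distrib, smul_ite, smul_zero, Finset.sum_ite_eq,
        Finset.mem_univ, if_true]
      congr 1
      rw [Matrix.trace, Finset.sum_smul]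
      rfl
    rw [h1, hX, zero_smul, sub_zero]
    conv_lhs => rw [Matrix.matrix_eq_sum_single X]
    simp [Matrix.smul_single]
  rw [h]
  exact Submodule.sum_mem _ fun i _ => Submodule.sum_mem _ fun j _ =>
    Submodule.smul_mem _ _ (single_mem_nsp i j)

theorem trace_rk_mul (w : Fin (m + 1) → ℂ) (X : Matrix (Fin (m + 1)) (Fin (m + 1)) ℂ) :
    (rk m w w * X).trace = hm m w (X *ᵥ w) := by
  rw [rk, vecMulVec_mul, trace_vecMulVec, hm, dotProduct_comm, ← dotProduct_mulVec,
    ← dotProduct_mulVec]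

theorem scalar_of_null {X : Matrix (Fin (m + 1)) (Fin (m + 1)) ℂ}
    (h : ∀ w, hm m w w = 0 → hm m w (X *ᵥ w) = 0) : ∃ c : ℂ, X = c • 1 := by
  have h1 : ∀ A ∈ nsp m, (A * X).trace = 0 := by
    intro A hA
    induction hA using Submodule.span_induction with
    | mem A hA =>
      obtain ⟨w, hw, rfl⟩ := hA
      rw [trace_rk_mul]
      exact h w hw
    | zero => simp
    | add A B _ _ hA hB => rw [Matrix.add_mul, Matrix.trace_add, hA, hB, add_zero]
    | smul t A _ hA => rw [Matrix.smul_mul, Matrix.trace_smul, hA, smul_zero]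
  refine ⟨X (Fin.last m) (Fin.last m), ?_⟩
  ext i j
  have h2 := h1 _ (single_mem_nsp j i)
  rw [Matrix.sub_mul, Matrix.trace_sub] at h2
  have h3 : ∀ a b : Fin (m + 1), (Matrix.single a b (1 : ℂ) * X).trace = X b a := by
    intro a b
    simp [Matrix.trace_single_mul]
  rw [h3, sub_eq_zero] at h2
  rw [h2]
  by_cases hij : j = i
  · subst hij
    rw [if_pos rfl, h3]
    simp
  · rw [if_neg hij]
    have : i ≠ j := fun h => hij h.symm
    simp [this]

/-- Conjugates by elements of a lattice accumulate at the rank one operators. -/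
theorem rk_mem {Γ : Subgroup (SUGroup m)} (hΓ : IsLattice Γ)
    (W : Submodule ℂ (Matrix (Fin (m + 1)) (Fin (m + 1)) ℂ))
    (hW : ∀ γ ∈ Γ, ∀ X ∈ W, γ.toMatrix * X * (γ⁻¹).toMatrix ∈ W) {w : Fin (m + 1) → ℂ}
    (hw : hm m w w = 0) {X : Matrix (Fin (m + 1)) (Fin (m + 1)) ℂ} (hX : X ∈ W) :
    hm m w (X *ᵥ w) • rk m w w ∈ W := by
  obtain ⟨γ, t, hγ, -, hlim⟩ := approx_null m Γ hΓ w hw
  have hinv : ∀ x : SUGroup m, (x⁻¹).toMatrix = J m * x.toMatrixᴴ * J m := by
    intro x
    calc (x⁻¹).toMatrix = J m * J m * (x⁻¹).toMatrix := by rw [J_mul_J, Matrix.one_mul]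
      _ = J m * (x.toMatrixᴴ * J m * x.toMatrix) * (x⁻¹).toMatrix := by rw [pres, Matrix.mul_assoc]
      _ = J m * x.toMatrixᴴ * J m * (x.toMatrix * (x⁻¹).toMatrix) := by
        simp only [Matrix.mul_assoc]
      _ = _ := by rw [toMatrix_mul_inv, Matrix.mul_one]
  have hcl : IsClosed (W : Set (Matrix (Fin (m + 1)) (Fin (m + 1)) ℂ)) :=
    Submodule.closed_of_finiteDimensional W
  have h1 : Tendsto (fun j => ((t j : ℂ) • (γ j).toMatrix) * X *
      (J m * ((t j : ℂ) • (γ j).toMatrix)ᴴ * J m)) atTop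
      (𝓝 (nil m w * X * (J m * (nil m w)ᴴ * J m))) := by
    have hc : Continuous fun A : Matrix (Fin (m + 1)) (Fin (m + 1)) ℂ =>
        A * X * (J m * Aᴴ * J m) := by fun_prop
    exact (hc.tendsto _).comp hlim
  have h2 : nil m w * X * (J m * (nil m w)ᴴ * J m) = Hyb.hm m w (X *ᵥ w) • rk m w w := by
    have h3 : J m * (nil m w)ᴴ * J m = -(nil m w) := by
      rw [nil, conjTranspose_smul, Matrix.mul_smul, Matrix.smul_mul, Matrix.mul_assoc,
        rk_conjTranspose, ← Matrix.mul_assoc, J_mul_J, Matrix.one_mul, ← neg_smul]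
      simp
    rw [h3, nil, Matrix.mul_neg, Matrix.smul_mul, Matrix.smul_mul, Matrix.mul_smul, smul_smul,
      Complex.I_mul_I, neg_smul, one_smul, neg_neg]
    rw [rk, vecMulVec_mul, vecMulVec_mul_vecMulVec, hm, ← dotProduct_mulVec, ← dotProduct_mulVec,
      vecMulVec_smul]
  rw [← h2]
  refine hcl.mem_of_tendsto h1 (Eventually.of_forall fun j => ?_)
  have h4 : ((t j : ℂ) • (γ j).toMatrix) * X * (J m * ((t j : ℂ) • (γ j).toMatrix)ᴴ * J m) =
      ((t j : ℂ) * (t j : ℂ)) • ((γ j).toMatrix * X * ((γ j)⁻¹).toMatrix) := by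
    rw [hinv, conjTranspose_smul]
    have : star (t j : ℂ) = t j := Complex.conj_ofReal _
    rw [this]
    simp only [Matrix.smul_mul, Matrix.mul_smul, smul_smul]
  show _ ∈ W
  rw [h4]
  exact W.smul_mem _ (hW _ (hγ j) _ hX)

/-- The algebraic part: a subspace which contains `⟨w, X w⟩ rk w w` with `X`, for all null `w`. -/
theorem irr_of_rk (W : Submodule ℂ (Matrix (Fin (m + 1)) (Fin (m + 1)) ℂ))
    (hW : ∀ w : Fin (m + 1) → ℂ, hm m w w = 0 → ∀ X ∈ W, hm m w (X *ᵥ w) • rk m w w ∈ W) :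
    (∀ X ∈ W, ∃ c : ℂ, X = c • 1) ∨ ∀ X, X.trace = 0 → X ∈ W := by
  by_cases h : ∀ X ∈ W, ∃ c : ℂ, X = c • 1
  · exact Or.inl h
  right
  push Not at h
  obtain ⟨X, hX, hne⟩ := h
  have h1 : ∃ w, hm m w w = 0 ∧ hm m w (X *ᵥ w) ≠ 0 := by
    by_contra hc
    push Not at hc
    obtain ⟨c, hc'⟩ := scalar_of_null hc
    exact hne c hc'
  obtain ⟨w, hw, hw1⟩ := h1
  have h2 : rk m w w ∈ W := by
    have := W.smul_mem (hm m w (X *ᵥ w))⁻¹ (hW w hw X hX)
    rwa [smul_smul, inv_mul_cancel₀ hw1, one_smul] at this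
  have h3 : ∀ w', hm m w' w' = 0 → rk m w' w' ∈ W := by
    intro w' hw'
    by_cases h0 : hm m w w' = 0
    · have h4 := null_prop hw hw' h0
      by_cases h5 : w (Fin.last m) = 0
      · exfalso
        apply hw1
        rw [null_eq_zero hw h5]
        simp [hm]
      · have h6 : w' = ((w (Fin.last m))⁻¹ * w' (Fin.last m)) • w := by
          rw [mul_smul, h4, smul_smul, inv_mul_cancel₀ h5, one_smul]
        rw [h6, rk_smul_left, rk_smul_right]
        exact W.smul_mem _ (W.smul_mem _ h2)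
    · have h4 := hW w' hw' _ h2
      rw [rk_mulVec, hm_smul_right] at h4
      have h5 : hm m w' w ≠ 0 := by
        rw [← hm_star]
        exact star_ne_zero.2 h0
      have := W.smul_mem (hm m w w' * hm m w' w)⁻¹ h4
      rwa [smul_smul, inv_mul_cancel₀ (mul_ne_zero h0 h5), one_smul] at this
  have h4 : nsp m ≤ W := by
    rw [nsp, Submodule.span_le]
    rintro _ ⟨w', hw', rfl⟩
    exact h3 w' hw'
  exact fun Y hY => h4 (mem_nsp hY)

/-- `Ad Γ` is irreducible on the matrices of trace zero for every lattice `Γ`. -/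
theorem ad_irr_aux {Γ : Subgroup (SUGroup m)} (hΓ : IsLattice Γ)
    (W : Submodule ℂ (Matrix (Fin (m + 1)) (Fin (m + 1)) ℂ))
    (hW : ∀ γ ∈ Γ, ∀ X ∈ W, γ.toMatrix * X * (γ⁻¹).toMatrix ∈ W) :
    (∀ X ∈ W, ∃ c : ℂ, X = c • 1) ∨ ∀ X, X.trace = 0 → X ∈ W :=
  irr_of_rk W fun _ hw _ hX => rk_mem hΓ W hW hw hX

theorem bot_of_scalar {S : Submodule ℂ (Matrix (Fin (m + 1)) (Fin (m + 1)) ℂ)}
    (h0 : ∀ X ∈ S, X.trace = 0) (h : ∀ X ∈ S, ∃ c : ℂ, X = c • 1) : S = ⊥ := by
  rw [eq_bot_iff]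
  intro X hX
  obtain ⟨c, rfl⟩ := h X hX
  have h1 := h0 _ hX
  rw [trace_smul, trace_one, Fintype.card_fin, smul_eq_mul, mul_eq_zero] at h1
  rcases h1 with h1 | h1
  · rw [h1, zero_smul]; exact Submodule.zero_mem _
  · exfalso
    have : ((m + 1 : ℕ) : ℂ) ≠ 0 := Nat.cast_ne_zero.2 (by omega)
    exact this h1

/-- PROOF as for `span_top` (recurrence of `1 + n N`, `N = nil m w`, `w` null): `(1 + n N) X (1 - n N) / n² → - N X N`, a multiple of `rk m w w` by
`hm m w (X w)`. So a stable subspace `S ≠ 0` of trace zero contains `rk m w w` for some null `w`, hence for all null `w`, and these span the matrices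
of trace zero. (If `hm m w (X w) = 0` for all null `w` then `X` is scalar.) -/
theorem ad_irr (_hm : 1 ≤ m) {Γ : Subgroup (SUGroup m)} (hΓ : IsLattice Γ)
    {S : Submodule ℂ (Matrix (Fin (m + 1)) (Fin (m + 1)) ℂ)}
    (hS : ∀ γ ∈ Γ, ∀ X ∈ S, γ.toMatrix * X * (γ⁻¹).toMatrix ∈ S) (h0 : ∀ X ∈ S, X.trace = 0) :
    S = ⊥ ∨ ∀ X : Matrix (Fin (m + 1)) (Fin (m + 1)) ℂ, X.trace = 0 → X ∈ S :=
  (ad_irr_aux hΓ S hS).imp (bot_of_scalar h0) id

theorem nil_adj (m : ℕ) (w : Fin (m + 1) → ℂ) : J m * (nil m w)ᴴ * J m = -(nil m w) := by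
  rw [nil, conjTranspose_smul, Matrix.mul_smul, Matrix.smul_mul, Matrix.mul_assoc,
    rk_conjTranspose, ← Matrix.mul_assoc, J_mul_J, Matrix.one_mul, ← neg_smul]
  simp

theorem nil_sq (m : ℕ) {w : Fin (m + 1) → ℂ} (hw : hm m w w = 0) : nil m w * nil m w = 0 := by
  rw [nil, Matrix.smul_mul, Matrix.mul_smul, rk_mul, hw, zero_smul, smul_zero, smul_zero]

/-- The transvection `1 + nil m w`. -/
theorem exists_transv {w : Fin (m + 1) → ℂ} (hw : hm m w w = 0) :
    ∃ u : SUGroup m, u.toMatrix = 1 + nil m w ∧ (u⁻¹).toMatrix = 1 - nil m w := by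
  have hc : (nil m w)ᴴ * J m = -(J m * nil m w) := by
    have := nil_adj m w
    calc (nil m w)ᴴ * J m = J m * (J m * (nil m w)ᴴ * J m) := by
          rw [← Matrix.mul_assoc, ← Matrix.mul_assoc, J_mul_J, Matrix.one_mul]
      _ = _ := by rw [this, Matrix.mul_neg]
  have hp : (1 + nil m w)ᴴ * J m * (1 + nil m w) = J m := by
    rw [conjTranspose_add, conjTranspose_one, Matrix.add_mul, Matrix.one_mul, hc,
      Matrix.mul_add, Matrix.mul_one, Matrix.add_mul, Matrix.neg_mul, Matrix.mul_assoc,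
      nil_sq m hw, Matrix.mul_zero, neg_zero, add_zero]
    abel
  have hd : (1 + nil m w).det = 1 := by
    have h : nil m w = replicateCol Unit (Complex.I • w) * replicateRow Unit (star w ᵥ* J m) := by
      rw [nil, rk]
      ext i j
      simp [vecMulVec_apply, Matrix.mul_apply, mul_assoc]
    rw [h, det_one_add_replicateCol_mul_replicateRow]
    rw [dotProduct_smul, ← dotProduct_mulVec]
    have : star w ⬝ᵥ J m *ᵥ w = 0 := hw
    rw [this]
    simp
  refine ⟨ofMatrix (1 + nil m w) hd hp, toMatrix_ofMatrix _ _ _, ?_⟩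
  set u := ofMatrix (1 + nil m w) hd hp with hu
  have hum : u.toMatrix = 1 + nil m w := toMatrix_ofMatrix _ _ _
  have h1 : (1 - nil m w) * u.toMatrix = 1 := by
    rw [hum, Matrix.sub_mul, Matrix.one_mul, Matrix.mul_add, Matrix.mul_one, nil_sq m hw, add_zero,
      add_sub_cancel_right]
  calc (u⁻¹).toMatrix = (1 - nil m w) * u.toMatrix * (u⁻¹).toMatrix := by rw [h1, Matrix.one_mul]
    _ = _ := by rw [Matrix.mul_assoc, toMatrix_mul_inv, Matrix.mul_one]

theorem nil_mul_nil_mul (w : Fin (m + 1) → ℂ) (X : Matrix (Fin (m + 1)) (Fin (m + 1)) ℂ) :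
    nil m w * X * nil m w = -(hm m w (X *ᵥ w) • rk m w w) := by
  rw [nil, Matrix.smul_mul, Matrix.smul_mul, Matrix.mul_smul, smul_smul,
    Complex.I_mul_I, neg_smul, one_smul]
  rw [rk, vecMulVec_mul, vecMulVec_mul_vecMulVec, hm, ← dotProduct_mulVec, ← dotProduct_mulVec,
    vecMulVec_smul]

/-- The same for the whole group `SU(m,1)`. -/
theorem ad_irr_top (_hm : 1 ≤ m) {S : Submodule ℂ (Matrix (Fin (m + 1)) (Fin (m + 1)) ℂ)}
    (hS : ∀ (γ : SUGroup m), ∀ X ∈ S, γ.toMatrix * X * (γ⁻¹).toMatrix ∈ S)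
    (h0 : ∀ X ∈ S, X.trace = 0) :
    S = ⊥ ∨ ∀ X : Matrix (Fin (m + 1)) (Fin (m + 1)) ℂ, X.trace = 0 → X ∈ S := by
  refine (irr_of_rk S ?_).imp (bot_of_scalar h0) id
  intro w hw X hX
  obtain ⟨u, hu, hu'⟩ := exists_transv hw
  have h1 := hS u X hX
  have h2 := hS u⁻¹ X hX
  rw [inv_inv] at h2
  rw [hu, hu'] at h1 h2
  have h3 := S.sub_mem hX (S.smul_mem (1 / 2 : ℂ) (S.add_mem h1 h2))
  have h4 : X - (1 / 2 : ℂ) • ((1 + nil m w) * X * (1 - nil m w) + (1 - nil m w) * X * (1 + nil m w)) =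
      nil m w * X * nil m w := by
    have e1 : (1 + nil m w) * X * (1 - nil m w) =
        X + nil m w * X - X * nil m w - nil m w * X * nil m w := by
      simp only [Matrix.add_mul, Matrix.mul_sub, Matrix.one_mul, Matrix.mul_one]
      abel
    have e2 : (1 - nil m w) * X * (1 + nil m w) =
        X - nil m w * X + X * nil m w - nil m w * X * nil m w := by
      simp only [Matrix.sub_mul, Matrix.mul_add, Matrix.one_mul, Matrix.mul_one]
      abel
    rw [e1, e2]
    module
  rw [h4, nil_mul_nil_mul] at h3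
  exact (Submodule.neg_mem_iff _).1 h3

/-- A lattice in `SU(m,1)`, `m ≥ 2`, has a trace which is not real (no invariant bilinear form). -/
theorem exists_nonreal (hm : 2 ≤ m) {Γ : Subgroup (SUGroup m)} (hΓ : IsLattice Γ) :
    ∃ γ ∈ Γ, (starRingEnd ℂ) γ.toMatrix.trace ≠ γ.toMatrix.trace := by
  by_contra hc
  push Not at hc
  obtain ⟨p, q, i0, i1, i01⟩ : ∃ p q : Fin (m + 1), p ≠ Fin.last m ∧ q ≠ Fin.last m ∧ p ≠ q := by
    refine ⟨⟨0, by omega⟩, ⟨1, by omega⟩, ?_, ?_, ?_⟩
    · intro h; have := congrArg Fin.val h; simp at this; omega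
    · intro h; have := congrArg Fin.val h; simp at this; omega
    · intro h; have := congrArg Fin.val h; simp at this
  set a : Fin (m + 1) → ℂ := Pi.single p 1 + Pi.single (Fin.last m) 1 with ha
  set b : Fin (m + 1) → ℂ := Pi.single q 1 + Pi.single (Fin.last m) 1 with hb
  set c : Fin (m + 1) → ℂ := (-1 : ℂ) • Pi.single p 1 + Pi.single (Fin.last m) 1 with hc'
  have haa : Hyb.hm m a a = 0 := by
    simp only [ha, hm_add_left, hm_add_right, hm_single]
    simp [i0, i0.symm]
  have hbb : Hyb.hm m b b = 0 := by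
    simp only [hb, hm_add_left, hm_add_right, hm_single]
    simp [i1, i1.symm]
  have hcc : Hyb.hm m c c = 0 := by
    simp only [hc', hm_add_left, hm_add_right, hm_smul_left, hm_smul_right, hm_single]
    simp [i0, i0.symm]
  have hab : Hyb.hm m a b = -1 := by
    simp only [ha, hb, hm_add_left, hm_add_right, hm_single]
    simp [i0, i1, i01, i0.symm, i1.symm]
  have hbc : Hyb.hm m b c = -1 := by
    simp only [hb, hc', hm_add_left, hm_add_right, hm_smul_left, hm_smul_right, hm_single]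
    simp [i0, i1, i01.symm, i0.symm, i1.symm]
  have hca : Hyb.hm m c a = -2 := by
    simp only [ha, hc', hm_add_left, hm_add_right, hm_smul_left, hm_smul_right, hm_single]
    simp [i0, i0.symm]
    norm_num
  obtain ⟨γ₁, t₁, hγ₁, -, hl₁⟩ := approx_null m Γ hΓ a haa
  obtain ⟨γ₂, t₂, hγ₂, -, hl₂⟩ := approx_null m Γ hΓ b hbb
  obtain ⟨γ₃, t₃, hγ₃, -, hl₃⟩ := approx_null m Γ hΓ c hcc
  have hl : Tendsto (fun j => (((t₁ j : ℂ) • (γ₁ j).toMatrix) * ((t₂ j : ℂ) • (γ₂ j).toMatrix) *
      ((t₃ j : ℂ) • (γ₃ j).toMatrix)).trace) atTop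
      (𝓝 (nil m a * nil m b * nil m c).trace) := by
    have hcont : Continuous fun A : Matrix (Fin (m + 1)) (Fin (m + 1)) ℂ => A.trace :=
      continuous_id.matrix_trace
    exact (hcont.tendsto _).comp ((hl₁.mul hl₂).mul hl₃)
  have hreal : ∀ j, (starRingEnd ℂ) (((t₁ j : ℂ) • (γ₁ j).toMatrix) * ((t₂ j : ℂ) • (γ₂ j).toMatrix) *
      ((t₃ j : ℂ) • (γ₃ j).toMatrix)).trace = (((t₁ j : ℂ) • (γ₁ j).toMatrix) *
      ((t₂ j : ℂ) • (γ₂ j).toMatrix) * ((t₃ j : ℂ) • (γ₃ j).toMatrix)).trace := by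
    intro j
    have h1 : ((t₁ j : ℂ) • (γ₁ j).toMatrix) * ((t₂ j : ℂ) • (γ₂ j).toMatrix) *
      ((t₃ j : ℂ) • (γ₃ j).toMatrix) = ((t₁ j * t₂ j * t₃ j : ℝ) : ℂ) •
        (γ₁ j * γ₂ j * γ₃ j).toMatrix := by
      rw [toMatrix_mul, toMatrix_mul]
      simp only [Matrix.smul_mul, Matrix.mul_smul, smul_smul]
      congr 1
      push_cast
      ring
    rw [h1, trace_smul, smul_eq_mul, map_mul, Complex.conj_ofReal,
      hc _ (Γ.mul_mem (Γ.mul_mem (hγ₁ j) (hγ₂ j)) (hγ₃ j))]
  have hlim : (starRingEnd ℂ) (nil m a * nil m b * nil m c).trace =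
      (nil m a * nil m b * nil m c).trace := by
    have h1 := (Complex.continuous_conj.tendsto _).comp hl
    have h2 : (⇑(starRingEnd ℂ) ∘ fun j => (((t₁ j : ℂ) • (γ₁ j).toMatrix) *
      ((t₂ j : ℂ) • (γ₂ j).toMatrix) * ((t₃ j : ℂ) • (γ₃ j).toMatrix)).trace) = fun j =>
      (((t₁ j : ℂ) • (γ₁ j).toMatrix) * ((t₂ j : ℂ) • (γ₂ j).toMatrix) *
      ((t₃ j : ℂ) • (γ₃ j).toMatrix)).trace := funext hreal
    rw [h2] at h1
    exact tendsto_nhds_unique h1 hl
  have hval : (nil m a * nil m b * nil m c).trace = 2 * Complex.I := by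
    rw [nil, nil, nil]
    simp only [Matrix.smul_mul, Matrix.mul_smul, smul_smul, rk_mul, trace_smul, trace_rk, smul_eq_mul]
    rw [hab, hbc, hca]
    linear_combination (-2 * Complex.I) * Complex.I_mul_I
  rw [hval, map_mul, Complex.conj_I] at hlim
  have := congrArg Complex.im hlim
  simp at this
  norm_num at this

/-- The twisted form of `ad_irr_aux`. -/
theorem ad_irr_map {Γ : Subgroup (SUGroup m)} (hΓ : IsLattice Γ) (σ : ℂ ≃+* ℂ)
    (W : Submodule ℂ (Matrix (Fin (m + 1)) (Fin (m + 1)) ℂ))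
    (hW : ∀ γ ∈ Γ, ∀ X ∈ W, γ.toMatrix.map σ * X * (γ⁻¹).toMatrix.map σ ∈ W) :
    (∀ X ∈ W, ∃ c : ℂ, X = c • 1) ∨ ∀ X, X.trace = 0 → X ∈ W := by
  let W' : Submodule ℂ (Matrix (Fin (m + 1)) (Fin (m + 1)) ℂ) :=
    { carrier := {X | X.map σ ∈ W}
      add_mem' := by
        intro a b ha hb
        show (a + b).map σ ∈ W
        rw [Matrix.map_add _ (map_add σ)]
        exact W.add_mem ha hb
      zero_mem' := by
        show (0 : Matrix (Fin (m + 1)) (Fin (m + 1)) ℂ).map σ ∈ W
        rw [Matrix.map_zero _ (map_zero σ)]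
        exact W.zero_mem
      smul_mem' := by
        intro c a ha
        show (c • a).map σ ∈ W
        have : (c • a).map σ = σ c • a.map σ := by
          ext i j; simp
        rw [this]
        exact W.smul_mem _ ha }
  have hmap : ∀ X : Matrix (Fin (m + 1)) (Fin (m + 1)) ℂ, (X.map σ.symm).map σ = X := by
    intro X; ext i j; simp
  have hW' : ∀ γ ∈ Γ, ∀ X ∈ W', γ.toMatrix * X * (γ⁻¹).toMatrix ∈ W' := by
    intro γ hγ X hX
    show (γ.toMatrix * X * (γ⁻¹).toMatrix).map σ ∈ W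
    rw [Matrix.map_mul, Matrix.map_mul]
    exact hW γ hγ _ hX
  rcases ad_irr_aux hΓ W' hW' with h | h
  · left
    intro X hX
    obtain ⟨c, hc⟩ := h (X.map σ.symm) (by show (X.map σ.symm).map σ ∈ W; rwa [hmap])
    refine ⟨σ c, ?_⟩
    rw [← hmap X, hc]
    ext i j
    by_cases hij : i = j
    · subst hij; simp
    · simp [hij]
  · right
    intro X hX
    have h1 := h (X.map σ.symm) (by
      have : (X.map σ.symm).trace = σ.symm X.trace := by
        simp [Matrix.trace]
      rw [this, hX, map_zero])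
    have h2 : (X.map σ.symm).map σ ∈ W := h1
    rwa [hmap] at h2

end Pool.Agent.Lib.MP_5d4057_al.VB
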