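import Pool.Agent.Lib.MP_5d4057_al.HM.Aut

/-!
# VERB V2: the places of a CM field
-/

set_option autoImplicit false

namespace Pool.Agent.Lib.MP_5d4057_al.VB

open Matrix Pool.Agent.Lib.MP_5d4057_al Pool.Agent.Lib.MP_5d4057_al.Hyb

/-- Automorphisms `t 0, …, t r` of `ℂ` which represent the embeddings of `K` up to conjugation, once each; `t 0` is the
identity. -/
structure Plc (K : Subfield ℂ) (r : ℕ) (t : Fin (r + 1) → (ℂ ≃+* ℂ)) : Prop where
  zero : t 0 = RingEquiv.refl ℂ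
  ne : ∀ i, i ≠ 0 → ¬ ∀ x : K, t i (x : ℂ) = x
  ne' : ∀ i, i ≠ 0 → ¬ ∀ x : K, t i (x : ℂ) = (starRingEnd ℂ) (x : ℂ)
  bij : Function.Bijective (Sum.elim (fun i => (t i).toRingHom.comp K.subtype)
    fun i => (starRingEnd ℂ).comp ((t i).toRingHom.comp K.subtype) :
      Fin (r + 1) ⊕ Fin (r + 1) → (K →+* ℂ))

/-- A bijection with `Fin n` which takes a given value at a given point. -/
theorem exists_equiv_fin {E : Type} [Finite E] {n : ℕ} (hn : Nat.card E = n) (j : E) (k : Fin n) :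
    ∃ e : E ≃ Fin n, e j = k := by
  obtain ⟨e⟩ : Nonempty (E ≃ Fin n) := by
    subst hn
    exact ⟨Finite.equivFin E⟩
  refine ⟨e.trans (Equiv.swap (e j) k), ?_⟩
  rw [Equiv.trans_apply, Equiv.swap_apply_left]

theorem exists_plc {K : Subfield ℂ} (hK : IsCM K) :
    ∃ (r : ℕ) (t : Fin (r + 1) → (ℂ ≃+* ℂ)), Plc K r t := by
  classical
  obtain ⟨hnf, ⟨x₀, hx₀, hx₀'⟩, hst, hcm⟩ := hK
  have hcount : Countable K := HM.countable_of_numberField K
  have hfin : Finite (K →+* ℂ) := inferInstance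
  obtain ⟨ι, hι⟩ : ∃ ι : (K →+* ℂ) → (K →+* ℂ), ι = fun τ => (starRingEnd ℂ).comp τ := ⟨_, rfl⟩
  have hιa : ∀ (τ : K →+* ℂ) (x : K), ι τ x = (starRingEnd ℂ) (τ x) := by
    intro τ x
    rw [hι]
    rfl
  have hιι : ∀ τ, ι (ι τ) = τ := by
    intro τ
    ext x
    rw [hιa, hιa, Complex.conj_conj]
  have hιne : ∀ τ, ι τ ≠ τ := by
    intro τ h
    have h1 := hcm τ ⟨x₀, hx₀⟩ ⟨_, hst x₀ hx₀⟩ rfl
    rw [← hιa, h] at h1
    have h2 := τ.injective h1
    exact hx₀' (congrArg (fun x : K => (x : ℂ)) h2)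
  have hιinj : Function.Injective ι := fun a b h => by rw [← hιι a, h, hιι]
  obtain ⟨j, hj⟩ : ∃ j : K →+* ℂ, j = K.subtype := ⟨_, rfl⟩
  have hja : ∀ x : K, j x = x := fun x => by rw [hj]; rfl
  -- a numbering of the embeddings in which the inclusion is the first
  obtain ⟨n, hn⟩ : ∃ n, Nat.card (K →+* ℂ) = n + 1 := by
    refine ⟨Nat.card (K →+* ℂ) - 1, ?_⟩
    have h1 : 0 < Nat.card (K →+* ℂ) := Nat.card_pos_iff.2 ⟨⟨j⟩, hfin⟩
    omega
  obtain ⟨e, he⟩ := exists_equiv_fin hn j 0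
  obtain ⟨S, hS⟩ : ∃ S : Set (K →+* ℂ), S = {τ | e τ < e (ι τ)} := ⟨_, rfl⟩
  have hSm : ∀ τ, τ ∈ S ↔ e τ < e (ι τ) := fun τ => by rw [hS]; rfl
  have hjS : j ∈ S := by
    rw [hSm, he]
    refine Fin.pos_of_ne_zero fun h => ?_
    rw [← he] at h
    exact hιne j (e.injective h)
  have hSι : ∀ τ, ι τ ∈ S ↔ ¬ τ ∈ S := by
    intro τ
    rw [hSm, hSm, hιι, not_lt]
    exact ⟨fun h => h.le, fun h => lt_of_le_of_ne h fun h0 => hιne τ (e.injective h0)⟩
  obtain ⟨r, hr⟩ : ∃ r, Nat.card S = r + 1 := by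
    refine ⟨Nat.card S - 1, ?_⟩
    have h1 : 0 < Nat.card S := Nat.card_pos_iff.2 ⟨⟨⟨j, hjS⟩⟩, inferInstance⟩
    omega
  obtain ⟨f, hf⟩ := exists_equiv_fin hr (⟨j, hjS⟩ : S) 0
  have hf0 : ((f.symm 0 : S) : K →+* ℂ) = j := by rw [← hf, Equiv.symm_apply_apply]
  have ht : ∀ i, ∃ t : ℂ ≃+* ℂ, (i = 0 → t = RingEquiv.refl ℂ) ∧
      ∀ x : K, t (x : ℂ) = (f.symm i : K →+* ℂ) x := by
    intro i
    by_cases hi : i = 0
    · refine ⟨RingEquiv.refl ℂ, fun _ => rfl, fun x => ?_⟩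
      rw [hi, hf0, hja]
      rfl
    · obtain ⟨t, ht⟩ := HM.exists_aut K (f.symm i : K →+* ℂ)
      exact ⟨t, fun h => absurd h hi, ht⟩
  choose t ht0 hta using ht
  have htc : ∀ i, (t i).toRingHom.comp K.subtype = (f.symm i : K →+* ℂ) := by
    intro i
    ext x
    exact hta i x
  have htc' : ∀ i, (starRingEnd ℂ).comp ((t i).toRingHom.comp K.subtype) =
      ι (f.symm i : K →+* ℂ) := by
    intro i
    rw [htc, hι]
  refine ⟨r, t, ht0 0 rfl, fun i hi h => hi ?_, fun i hi h => ?_, ?_, ?_⟩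
  · have h1 : ((f.symm i : S) : K →+* ℂ) = j := by
      ext x
      rw [← hta, h, hja]
    apply f.symm.injective
    exact Subtype.ext (h1.trans hf0.symm)
  · have h1 : ((f.symm i : S) : K →+* ℂ) = ι j := by
      ext x
      rw [← hta, h, hιa, hja]
    have h2 := (f.symm i).2
    rw [h1] at h2
    exact (hSι j).1 h2 hjS
  · rintro (i | i) (i' | i') h
    · simp only [Sum.elim_inl, htc] at h
      rw [f.symm.injective (Subtype.ext h)]
    · have h0 : ((f.symm i : S) : K →+* ℂ) = ι (f.symm i') := by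
        rw [← htc, ← htc']
        exact h
      have h1 := (f.symm i).2
      rw [h0] at h1
      exact absurd (f.symm i').2 ((hSι _).1 h1)
    · have h0 : ι (f.symm i) = ((f.symm i' : S) : K →+* ℂ) := by
        rw [← htc', ← htc i']
        exact h
      have h1 := (f.symm i').2
      rw [← h0] at h1
      exact absurd (f.symm i).2 ((hSι _).1 h1)
    · simp only [Sum.elim_inr, htc'] at h
      rw [f.symm.injective (Subtype.ext (hιinj h))]
  · intro τ
    by_cases hτ : τ ∈ S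
    · refine ⟨Sum.inl (f ⟨τ, hτ⟩), ?_⟩
      rw [Sum.elim_inl, htc, Equiv.symm_apply_apply]
    · refine ⟨Sum.inr (f ⟨ι τ, (hSι τ).2 hτ⟩), ?_⟩
      rw [Sum.elim_inr, htc', Equiv.symm_apply_apply]
      exact hιι τ

end Pool.Agent.Lib.MP_5d4057_al.VB
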