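import Pool.Agent.Lib.MP_5d4057_al.CF.Types
import Pool.Agent.Lib.MP_5d4057_al.VB.Plc

/-!
# VERB V2: the involution at the places
-/

set_option autoImplicit false

namespace Pool.Agent.Lib.MP_5d4057_al.VB

open Matrix Pool.Agent.Lib.MP_5d4057_al Pool.Agent.Lib.MP_5d4057_al.Hyb
  Pool.Agent.Lib.MP_5d4057_al.HM Pool.Agent.Lib.MP_5d4057_al.CF

open scoped ComplexOrder

variable {m : ℕ} {K : Subfield ℂ} {A : Subalgebra K (Matrix (Fin (m + 1)) (Fin (m + 1)) ℂ)}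

/-- The adjoint of a left multiplication for the trace form is the left multiplication by the adjoint. -/
theorem rgram_adj {d : ℕ} {b : Fin d → Matrix (Fin (m + 1)) (Fin (m + 1)) ℂ}
    {c : Matrix (Fin (m + 1)) (Fin (m + 1)) ℂ →ₗ[ℂ] (Fin d → ℂ)} (h : Reg K (A : Set _) d b c)
    (a : Matrix (Fin (m + 1)) (Fin (m + 1)) ℂ) :
    (lm b c a)ᴴ * rgram b = rgram b * lm b c (adjoint m a) := by
  have h2 : ∀ (a : Matrix (Fin (m + 1)) (Fin (m + 1)) ℂ) (i : Fin d),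
      ∑ k, lm b c a k i • b k = a * b i := fun a i => h.exp _
  ext i j
  have hL : ((lm b c a)ᴴ * rgram b) i j = (adjoint m (a * b i) * b j).trace := by
    rw [← h2 a i, adjoint_sum', Finset.sum_mul, Matrix.trace_sum, Matrix.mul_apply]
    refine Finset.sum_congr rfl fun k _ => ?_
    rw [adjoint_smul', Matrix.smul_mul, trace_smul, smul_eq_mul, conjTranspose_apply, rgram]
  have hR : (rgram b * lm b c (adjoint m a)) i j =
      (adjoint m (b i) * (adjoint m a * b j)).trace := by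
    rw [← h2 (adjoint m a) j, Finset.mul_sum, Matrix.trace_sum, Matrix.mul_apply]
    refine Finset.sum_congr rfl fun k _ => ?_
    rw [Matrix.mul_smul, trace_smul, smul_eq_mul, rgram, mul_comm]
  rw [hL, hR, adjoint_mul', Matrix.mul_assoc]

/-- At the other places the involution is the adjoint of a definite form (as in `Reg.compact`: `Z = Pᴴ Gᵗ P`). -/
theorem adjoint_map {d : ℕ} {b : Fin d → Matrix (Fin (m + 1)) (Fin (m + 1)) ℂ}
    {c : Matrix (Fin (m + 1)) (Fin (m + 1)) ℂ →ₗ[ℂ] (Fin d → ℂ)} (h : Reg K (A : Set _) d b c)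
    (hU : IsUnitaryForm m K A) (t : ℂ ≃+* ℂ) (h1 : ¬ ∀ x : K, t (x : ℂ) = x)
    (h2 : ¬ ∀ x : K, t (x : ℂ) = (starRingEnd ℂ) (x : ℂ)) :
    ∃ Z : Matrix (Fin (m + 1)) (Fin (m + 1)) ℂ, Z.PosDef ∧
      ∀ a ∈ A, (adjoint m a).map t = Z⁻¹ * (a.map t)ᴴ * Z := by
  have hcm := hU.cm
  obtain ⟨τ, hτ⟩ : ∃ τ : K →+* ℂ, τ = t.toRingHom.comp K.subtype := ⟨_, rfl⟩
  have hτa : ∀ x : K, τ x = t (x : ℂ) := fun x => by rw [hτ]; rfl
  have hst : ∀ x : ℂ, x ∈ K → t (star x) = star (t x) := by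
    intro x hx
    have h3 := hcm.2.2.2 τ ⟨x, hx⟩ ⟨_, hcm.2.2.1 x hx⟩ rfl
    rw [hτa, hτa] at h3
    exact h3
  have hG := h.rgram_pos hU t h1 h2
  obtain ⟨P, hP⟩ : ∃ P, P = (pc c (0 : Fin (m + 1))).map t := ⟨_, rfl⟩
  obtain ⟨L, hL⟩ : ∃ L : Matrix (Fin (m + 1)) (Fin d) ℂ, L * P = 1 := by
    refine ⟨(ev b (Pi.single 0 1)).map t, ?_⟩
    rw [hP, ← map_mul', h.ev_pc, Pi.single_eq_same, one_smul]
    exact Matrix.map_one t (map_zero t) (map_one t)
  have hPi : Function.Injective P.mulVec := by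
    intro x y hxy
    have h3 : L *ᵥ (P *ᵥ x) = L *ᵥ (P *ᵥ y) := congrArg (fun v => L *ᵥ v) hxy
    rwa [mulVec_mulVec, mulVec_mulVec, hL, one_mulVec, one_mulVec] at h3
  have hZ' : (Pᴴ * (rgram b).map t * P).PosDef := hG.conjTranspose_mul_mul_same hPi
  obtain ⟨Z, hZd⟩ : ∃ Z, Z = Pᴴ * (rgram b).map t * P := ⟨_, rfl⟩
  rw [← hZd] at hZ'
  refine ⟨Z, hZ', fun a ha => ?_⟩
  have hPa : P * a.map t = (lm b c a).map t * P := by rw [hP, h.pc_map]
  have hPa' : P * (adjoint m a).map t = (lm b c (adjoint m a)).map t * P := by rw [hP, h.pc_map]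
  have hRG : ((lm b c a).map t)ᴴ * (rgram b).map t =
      (rgram b).map t * (lm b c (adjoint m a)).map t := by
    have h3 : ((lm b c a).map t)ᴴ = ((lm b c a)ᴴ).map t := by
      ext i j
      rw [conjTranspose_apply, Matrix.map_apply, Matrix.map_apply, conjTranspose_apply,
        hst _ (h.lm_mem ha j i)]
    rw [h3, ← map_mul', ← map_mul', rgram_adj h]
  have h3 : (a.map t)ᴴ * Z = Z * (adjoint m a).map t := by
    calc (a.map t)ᴴ * Z = (P * a.map t)ᴴ * (rgram b).map t * P := by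
          rw [hZd, conjTranspose_mul]
          simp only [Matrix.mul_assoc]
      _ = Pᴴ * (((lm b c a).map t)ᴴ * (rgram b).map t) * P := by
          rw [hPa, conjTranspose_mul]
          simp only [Matrix.mul_assoc]
      _ = Pᴴ * (rgram b).map t * (P * (adjoint m a).map t) := by
          rw [hRG, hPa']
          simp only [Matrix.mul_assoc]
      _ = Z * (adjoint m a).map t := by
          rw [hZd]
          simp only [Matrix.mul_assoc]
  have hu := (isUnit_iff_isUnit_det _).1 hZ'.isUnit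
  rw [Matrix.mul_assoc, h3, ← Matrix.mul_assoc, nonsing_inv_mul _ hu, Matrix.one_mul]

theorem exists_Z (hU : IsUnitaryForm m K A) {r : ℕ} {t : Fin (r + 1) → (ℂ ≃+* ℂ)}
    (hP : Plc K r t) : ∃ Z : Fin (r + 1) → Matrix (Fin (m + 1)) (Fin (m + 1)) ℂ,
      Z 0 = J m ∧ (∀ i, i ≠ 0 → (Z i).PosDef) ∧
        ∀ a ∈ A, ∀ i, (adjoint m a).map (t i) = (Z i)⁻¹ * (a.map (t i))ᴴ * Z i := by
  obtain ⟨d, b, c, h⟩ := exists_reg A hU.rank hU.span
  have hall : ∀ i, ∃ Z : Matrix (Fin (m + 1)) (Fin (m + 1)) ℂ, (i = 0 → Z = J m) ∧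
      (i ≠ 0 → Z.PosDef) ∧ ∀ a ∈ A, (adjoint m a).map (t i) = Z⁻¹ * (a.map (t i))ᴴ * Z := by
    intro i
    by_cases hi : i = 0
    · refine ⟨J m, fun _ => rfl, fun h0 => absurd hi h0, fun a _ => ?_⟩
      have hJ : (J m)⁻¹ = J m := Matrix.inv_eq_right_inv J_J
      have hid : ∀ x : Matrix (Fin (m + 1)) (Fin (m + 1)) ℂ, x.map (t i) = x := by
        intro x
        rw [hi, hP.zero]
        ext p q
        rfl
      rw [hid, hid, hJ]
      rfl
    · obtain ⟨Z, hZ, hZa⟩ := adjoint_map h hU (t i) (hP.ne i hi) (hP.ne' i hi)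
      exact ⟨Z, fun h0 => absurd h0 hi, fun _ => hZ, hZa⟩
  choose Z h0 h1 h2 using hall
  exact ⟨Z, h0 0 rfl, h1, fun a ha i => h2 i a ha⟩

end Pool.Agent.Lib.MP_5d4057_al.VB
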