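import Pool.Agent.Lib.MP_5d4057_al.VB.Dat

/-!
# VERB V2: the algebraic group of the data
-/

set_option autoImplicit false

namespace Pool.Agent.Lib.MP_5d4057_al.VB

open Matrix Pool.Agent.Lib.MP_5d4057_al Pool.Agent.Lib.MP_5d4057_al.Hyb

namespace Dat

variable {m r N : ℕ} (D : Dat m r N)

variable {D} in
theorem Pt.isUnit {x : Fin N → ℂ} (hx : D.Pt x) (i : Fin (r + 1)) :
    IsUnit (D.X x i).det := by
  rw [(hx i).2]
  exact isUnit_one

theorem unitZ (i : Fin (r + 1)) : IsUnit (D.Z i).det := isUnit_iff_ne_zero.2 (D.Z_det i)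

variable {D} in
theorem Pt.detY {x : Fin N → ℂ} (hx : D.Pt x) (i : Fin (r + 1)) : (D.Y x i).det = 1 := by
  have h1 := congrArg Matrix.det (hx i).1
  rw [Matrix.det_mul, Matrix.det_mul, Matrix.det_transpose, (hx i).2, mul_one] at h1
  have h2 : ((D.Y x i).det - 1) * (D.Z i).det = 0 := by
    rw [sub_mul, h1, one_mul, sub_self]
  rcases mul_eq_zero.1 h2 with h3 | h3
  · exact sub_eq_zero.1 h3
  · exact absurd h3 (D.Z_det i)

theorem Pt.u : D.Pt D.u := by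
  intro i
  rw [X_u, Y_u, Matrix.transpose_one, Matrix.one_mul, Matrix.mul_one, Matrix.det_one]
  exact ⟨rfl, rfl⟩

variable {D} in
theorem Pt.mv {x y : Fin N → ℂ} (hx : D.Pt x) (hy : D.Pt y) : D.Pt (D.mv x y) := by
  intro i
  rw [X_mv, Y_mv, Matrix.det_mul, (hx i).2, (hy i).2, mul_one]
  refine ⟨?_, rfl⟩
  rw [Matrix.transpose_mul]
  calc (D.Y y i)ᵀ * (D.Y x i)ᵀ * D.Z i * (D.X x i * D.X y i)
      = (D.Y y i)ᵀ * ((D.Y x i)ᵀ * D.Z i * D.X x i) * D.X y i := by simp only [Matrix.mul_assoc]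
    _ = D.Z i := by rw [(hx i).1, (hy i).1]

variable {D} in
theorem Pt.st_mv {x : Fin N → ℂ} (hx : D.Pt x) : D.mv (D.st x) x = D.u := by
  have hA : ∀ i, (D.Z i)⁻¹ * (D.Y x i)ᵀ * D.Z i * D.X x i = 1 := by
    intro i
    calc (D.Z i)⁻¹ * (D.Y x i)ᵀ * D.Z i * D.X x i
        = (D.Z i)⁻¹ * ((D.Y x i)ᵀ * D.Z i * D.X x i) := by simp only [Matrix.mul_assoc]
      _ = 1 := by rw [(hx i).1, Matrix.nonsing_inv_mul _ (D.unitZ i)]
  have hB : ∀ i, (D.Y x i)ᵀ * (D.Z i * D.X x i * (D.Z i)⁻¹) = 1 := by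
    intro i
    calc (D.Y x i)ᵀ * (D.Z i * D.X x i * (D.Z i)⁻¹)
        = ((D.Y x i)ᵀ * D.Z i * D.X x i) * (D.Z i)⁻¹ := by simp only [Matrix.mul_assoc]
      _ = 1 := by rw [(hx i).1, Matrix.mul_nonsing_inv _ (D.unitZ i)]
  refine D.ext' (fun i => ?_) fun i => ?_
  · rw [X_mv, X_st, X_u, hA]
  · rw [Y_mv, Y_st, Y_u]
    have h1 := congrArg Matrix.transpose (hB i)
    rw [Matrix.transpose_mul, Matrix.transpose_transpose, Matrix.transpose_one] at h1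
    exact h1

variable {D} in
theorem Pt.mv_st {x : Fin N → ℂ} (hx : D.Pt x) : D.mv x (D.st x) = D.u := by
  have h1 : D.L (D.st x) * D.L x = 1 := by rw [← L_mv, hx.st_mv, L_u]
  have h2 : D.L x * D.L (D.st x) = 1 := mul_eq_one_comm.1 h1
  rw [← L_mv, ← D.L_u] at h2
  exact D.L_injective h2

variable {D} in
theorem Pt.st {x : Fin N → ℂ} (hx : D.Pt x) : D.Pt (D.st x) := by
  intro i
  rw [X_st, Y_st, Matrix.transpose_transpose]
  constructor
  · have hX := hx.isUnit i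
    calc D.Z i * D.X x i * (D.Z i)⁻¹ * D.Z i * ((D.Z i)⁻¹ * (D.Y x i)ᵀ * D.Z i)
        = D.Z i * D.X x i * ((D.Z i)⁻¹ * D.Z i) * ((D.Z i)⁻¹ * (D.Y x i)ᵀ * D.Z i) := by
          simp only [Matrix.mul_assoc]
      _ = D.Z i * (D.X x i * ((D.Z i)⁻¹ * (D.Y x i)ᵀ * D.Z i)) := by
          rw [Matrix.nonsing_inv_mul _ (D.unitZ i), Matrix.mul_one]
          simp only [Matrix.mul_assoc]
      _ = D.Z i := by
          have h1 : (D.Z i)⁻¹ * (D.Y x i)ᵀ * D.Z i * D.X x i = 1 := by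
            calc (D.Z i)⁻¹ * (D.Y x i)ᵀ * D.Z i * D.X x i
                = (D.Z i)⁻¹ * ((D.Y x i)ᵀ * D.Z i * D.X x i) := by simp only [Matrix.mul_assoc]
              _ = 1 := by rw [(hx i).1, Matrix.nonsing_inv_mul _ (D.unitZ i)]
          rw [mul_eq_one_comm.1 h1, Matrix.mul_one]
  · rw [Matrix.det_mul, Matrix.det_mul, Matrix.det_transpose, hx.detY, mul_one,
      ← Matrix.det_mul, Matrix.nonsing_inv_mul _ (D.unitZ i), Matrix.det_one]

/-- The points in terms of `st` and of the polynomials `F`. -/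
theorem pt_iff (x : Fin N → ℂ) :
    D.Pt x ↔ D.mv (D.st x) x = D.u ∧ ∀ p ∈ D.F, MvPolynomial.aeval x p = 0 := by
  constructor
  · intro hx
    refine ⟨hx.st_mv, (D.F_iff x).2 fun i => ⟨(hx i).2, hx.detY i⟩⟩
  · rintro ⟨h1, h2⟩ i
    refine ⟨?_, ((D.F_iff x).1 h2 i).1⟩
    have h3 := congrArg (fun z => D.X z i) h1
    simp only [X_mv, X_st, X_u] at h3
    have h4 : D.Z i * ((D.Z i)⁻¹ * (D.Y x i)ᵀ * D.Z i * D.X x i) = D.Z i := by
      rw [h3, Matrix.mul_one]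
    calc (D.Y x i)ᵀ * D.Z i * D.X x i
        = (D.Z i * (D.Z i)⁻¹) * ((D.Y x i)ᵀ * D.Z i * D.X x i) := by
          rw [Matrix.mul_nonsing_inv _ (D.unitZ i), Matrix.one_mul]
      _ = D.Z i * ((D.Z i)⁻¹ * (D.Y x i)ᵀ * D.Z i * D.X x i) := by simp only [Matrix.mul_assoc]
      _ = D.Z i := h4

/-- The coordinates of `g e` for a generic matrix `g`. -/
noncomputable def ge (k : Fin N) : MvPolynomial (Fin N × Fin N) ℚ :=
  ∑ j, MvPolynomial.X (k, j) * MvPolynomial.C (D.e j : ℚ)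

theorem aeval_ge (g : Matrix (Fin N) (Fin N) ℂ) (k : Fin N) :
    MvPolynomial.aeval (fun x : Fin N × Fin N => g x.1 x.2) (D.ge k) = (g *ᵥ D.u) k := by
  rw [ge, map_sum, mulVec, dotProduct]
  refine Finset.sum_congr rfl fun j _ => ?_
  rw [map_mul, MvPolynomial.aeval_X, MvPolynomial.aeval_C]
  simp [u]

/-- The product of two vectors of polynomials. -/
noncomputable def pm (p q : Fin N → MvPolynomial (Fin N × Fin N) ℚ) (l : Fin N) :
    MvPolynomial (Fin N × Fin N) ℚ :=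
  D.mv p q l

/-- The involution on vectors of polynomials. -/
noncomputable def ps (p : Fin N → MvPolynomial (Fin N × Fin N) ℚ) (k : Fin N) :
    MvPolynomial (Fin N × Fin N) ℚ :=
  ∑ j, p j * MvPolynomial.C (D.s j k)

/-- The polynomials of the algebraic group. -/
def polys : Set (MvPolynomial (Fin N × Fin N) ℚ) :=
  {p | (∃ l k, p = MvPolynomial.X (l, k) - D.L D.ge l k) ∨
    (∃ l, p = D.mv (D.ps D.ge) D.ge l - MvPolynomial.C (D.e l : ℚ)) ∨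
    ∃ q ∈ D.F, p = MvPolynomial.bind₁ D.ge q}

theorem aeval_polys (g : Matrix (Fin N) (Fin N) ℂ) :
    (∀ p ∈ D.polys, MvPolynomial.aeval (fun x : Fin N × Fin N => g x.1 x.2) p = 0) ↔
      ∃ x, D.Pt x ∧ g = D.L x := by
  obtain ⟨φ, hφ⟩ : ∃ φ : MvPolynomial (Fin N × Fin N) ℚ →ₐ[ℚ] ℂ,
      φ = MvPolynomial.aeval (fun x : Fin N × Fin N => g x.1 x.2) := ⟨_, rfl⟩
  have hX : ∀ l k, φ (MvPolynomial.X (l, k)) = g l k := by
    intro l k
    rw [hφ, MvPolynomial.aeval_X]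
  have hge : ∀ k, φ (D.ge k) = (g *ᵥ D.u) k := by
    intro k
    rw [hφ]
    exact D.aeval_ge g k
  have hL : ∀ l k, φ (D.L D.ge l k) = D.L (g *ᵥ D.u) l k := by
    intro l k
    have h1 := congrFun (congrFun (D.L_map (φ : MvPolynomial (Fin N × Fin N) ℚ →+* ℂ) D.ge) l) k
    rw [Matrix.map_apply] at h1
    have h2 : (fun k => (φ : MvPolynomial (Fin N × Fin N) ℚ →+* ℂ) (D.ge k)) = g *ᵥ D.u :=
      funext hge
    rw [h2] at h1
    exact h1
  have hps : ∀ k, φ (D.ps D.ge k) = D.st (g *ᵥ D.u) k := by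
    intro k
    rw [ps, map_sum, st]
    refine Finset.sum_congr rfl fun j _ => ?_
    rw [map_mul, hge]
    congr 1
    rw [hφ, MvPolynomial.aeval_C]
    simp
  have hmv : ∀ l, φ (D.mv (D.ps D.ge) D.ge l) = D.mv (D.st (g *ᵥ D.u)) (g *ᵥ D.u) l := by
    intro l
    have h1 := D.mv_map (φ : MvPolynomial (Fin N × Fin N) ℚ →+* ℂ) (D.ps D.ge) D.ge l
    have h2 : (fun k => (φ : MvPolynomial (Fin N × Fin N) ℚ →+* ℂ) (D.ge k)) = g *ᵥ D.u :=
      funext hge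
    have h3 : (fun k => (φ : MvPolynomial (Fin N × Fin N) ℚ →+* ℂ) (D.ps D.ge k)) =
        D.st (g *ᵥ D.u) := funext hps
    rw [h2, h3] at h1
    exact h1
  have hC : ∀ l, φ (MvPolynomial.C (D.e l : ℚ)) = D.u l := by
    intro l
    rw [hφ, MvPolynomial.aeval_C]
    simp [u]
  have hF : ∀ q : MvPolynomial (Fin N) ℚ, φ (MvPolynomial.bind₁ D.ge q) =
      MvPolynomial.aeval (g *ᵥ D.u) q := by
    intro q
    have h1 := MvPolynomial.aeval_bind₁ (fun x : Fin N × Fin N => g x.1 x.2) D.ge q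
    rw [← hφ] at h1
    have h2 : (fun k => φ (D.ge k)) = g *ᵥ D.u := funext hge
    rw [h2] at h1
    exact h1
  rw [← hφ]
  constructor
  · intro h
    have h1 : g = D.L (g *ᵥ D.u) := by
      ext l k
      have h2 := h _ (Or.inl ⟨l, k, rfl⟩)
      rw [map_sub, hX, hL] at h2
      exact sub_eq_zero.1 h2
    refine ⟨g *ᵥ D.u, (D.pt_iff _).2 ⟨?_, fun q hq => ?_⟩, h1⟩
    · ext l
      have h2 := h _ (Or.inr (Or.inl ⟨l, rfl⟩))
      rw [map_sub, hmv, hC] at h2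
      exact sub_eq_zero.1 h2
    · have h2 := h _ (Or.inr (Or.inr ⟨q, hq, rfl⟩))
      rwa [hF] at h2
  · rintro ⟨x, hx, rfl⟩
    have hu : D.L x *ᵥ D.u = x := D.L_mulVec_u x
    rw [hu] at hL hmv hF
    rintro p (⟨l, k, rfl⟩ | ⟨l, rfl⟩ | ⟨q, hq, rfl⟩)
    · rw [map_sub, hX, hL, sub_self]
    · rw [map_sub, hmv, hC, hx.st_mv, sub_self]
    · rw [hF]
      exact ((D.pt_iff x).1 hx).2 q hq

/-- The algebraic group: the polynomials say `g = L (g e)`, `(g e)^* (g e) = 1` and `F (g e) = 0`. -/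
theorem exists_alg : ∃ H : AlgGroup N, ∀ g : GL (Fin N) ℂ, g ∈ H.pts ↔
    ∃ x, D.Pt x ∧ (g : Matrix (Fin N) (Fin N) ℂ) = D.L x := by
  refine ⟨⟨D.polys, ⟨⟨⟨{g | ∃ x, D.Pt x ∧ (g : Matrix (Fin N) (Fin N) ℂ) = D.L x}, ?_⟩, ?_⟩, ?_⟩,
    fun g => (D.aeval_polys _).symm⟩, fun g => Iff.rfl⟩
  · rintro g h ⟨x, hx, hg⟩ ⟨y, hy, hh⟩
    exact ⟨D.mv x y, hx.mv hy, by rw [Units.val_mul, hg, hh, L_mv]⟩
  · exact ⟨D.u, Pt.u D, by rw [Units.val_one, L_u]⟩
  · rintro g ⟨x, hx, hg⟩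
    refine ⟨D.st x, hx.st, ?_⟩
    have h1 : D.L (D.st x) * D.L x = 1 := by rw [← L_mv, hx.st_mv, L_u]
    rw [← hg] at h1
    exact (Units.eq_inv_of_mul_eq_one_right h1).symm

end Dat

end Pool.Agent.Lib.MP_5d4057_al.VB
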