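import Mathlib

/-!
# VERB: automorphisms of the Lie algebra of traceless matrices

Additive `t`-semilinear injective Lie endomorphisms of the traceless `n × n` matrices, `n ≥ 3`, are
`X ↦ g X^t g⁻¹` or `X ↦ -(g (X^t)ᵀ g⁻¹)` (owner: helper17).
-/

set_option autoImplicit false

namespace Pool.Agent.Lib.MP_5d4057_al.VB.SlA

open Matrix

variable {n : ℕ}

/-- Parallel vectors. -/
def Par (a b : Fin n → ℂ) : Prop := ∀ i k, a i * b k = b i * a k

theorem Par.rfl' (a : Fin n → ℂ) : Par a a := fun _ _ => rfl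

theorem Par.symm' {a b : Fin n → ℂ} (h : Par a b) : Par b a := fun i k => (h i k).symm

theorem Par.exists_smul {a b : Fin n → ℂ} (ha : a ≠ 0) (h : Par a b) : ∃ c : ℂ, b = c • a := by
  obtain ⟨j, hj⟩ : ∃ j, a j ≠ 0 := by
    by_contra hc
    push Not at hc
    exact ha (funext hc)
  refine ⟨b j / a j, funext fun i => ?_⟩
  have := h j i
  simp only [Pi.smul_apply, smul_eq_mul]
  field_simp
  linear_combination this

theorem Par.trans' {a b c : Fin n → ℂ} (hb : b ≠ 0) (h : Par a b) (h' : Par b c) : Par a c := by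
  obtain ⟨x, rfl⟩ := h.symm'.exists_smul hb
  obtain ⟨y, rfl⟩ := h'.exists_smul hb
  intro i k
  simp only [Pi.smul_apply, smul_eq_mul]
  ring

/-- A family of pairwise non proportional rank one matrices whose sums have rank one. -/
theorem fam {ι : Type} (S : Set ι) (a b : ι → Fin n → ℂ) (ha : ∀ s ∈ S, a s ≠ 0)
    (hb : ∀ s ∈ S, b s ≠ 0)
    (h : ∀ s ∈ S, ∀ t ∈ S, s ≠ t → Par (a s) (a t) ∨ Par (b s) (b t)) :
    (∀ s ∈ S, ∀ t ∈ S, Par (a s) (a t)) ∨ (∀ s ∈ S, ∀ t ∈ S, Par (b s) (b t)) := by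
  by_cases hR : ∀ s ∈ S, ∀ t ∈ S, Par (b s) (b t)
  · exact Or.inr hR
  left
  push Not at hR
  obtain ⟨j, hj, k, hk, hjk⟩ := hR
  have hne : j ≠ k := by
    rintro rfl
    exact hjk (Par.rfl' _)
  have hajk : Par (a j) (a k) := (h j hj k hk hne).resolve_right hjk
  have key : ∀ l ∈ S, Par (a l) (a j) := by
    intro l hl
    by_cases h1 : l = j
    · subst h1
      exact Par.rfl' _
    by_cases h2 : l = k
    · subst h2
      exact hajk.symm'
    by_contra hc
    have h3 : Par (b l) (b j) := (h l hl j hj h1).resolve_left hc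
    rcases h l hl k hk h2 with h4 | h4
    · exact hc (h4.trans' (ha k hk) hajk.symm')
    · exact hjk (h3.symm'.trans' (hb l hl) h4)
  intro s hs t ht
  exact (key s hs).trans' (ha j hj) (key t ht).symm'

theorem par_of_add {a b a' b' u v : Fin n → ℂ}
    (h : vecMulVec a b + vecMulVec a' b' = vecMulVec u v) : Par a a' ∨ Par b b' := by
  by_contra hc
  unfold Par at hc
  push Not at hc
  obtain ⟨⟨i, k, hik⟩, ⟨j, l, hjl⟩⟩ := hc
  have e : ∀ x y, a x * b y + a' x * b' y = u x * v y := fun x y => by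
    have := congrFun (congrFun h x) y
    simpa [vecMulVec_apply] using this
  have h1 : (a i * a' k - a' i * a k) * (b j * b' l - b' j * b l) = 0 := by
    have : (a i * b j + a' i * b' j) * (a k * b l + a' k * b' l) -
        (a i * b l + a' i * b' l) * (a k * b j + a' k * b' j) = 0 := by
      rw [e, e, e, e]
      ring
    linear_combination this
  rcases mul_eq_zero.1 h1 with h2 | h2
  · exact hik (by linear_combination h2)
  · exact hjl (by linear_combination h2)

/-- Linear Lie endomorphisms of the traceless matrices, injective. -/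
structure LA (α : Matrix (Fin n) (Fin n) ℂ → Matrix (Fin n) (Fin n) ℂ) : Prop where
  add : ∀ X Y, X.trace = 0 → Y.trace = 0 → α (X + Y) = α X + α Y
  smul : ∀ (c : ℂ) X, X.trace = 0 → α (c • X) = c • α X
  tr : ∀ X, X.trace = 0 → (α X).trace = 0
  br : ∀ X Y, X.trace = 0 → Y.trace = 0 → α (X * Y - Y * X) = α X * α Y - α Y * α X
  inj : ∀ X, X.trace = 0 → α X = 0 → X = 0

variable {α : Matrix (Fin n) (Fin n) ℂ → Matrix (Fin n) (Fin n) ℂ}

theorem LA.surj (h : LA α) (Y : Matrix (Fin n) (Fin n) ℂ) (hY : Y.trace = 0) :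
    ∃ X, X.trace = 0 ∧ α X = Y := by
  let S : Submodule ℂ (Matrix (Fin n) (Fin n) ℂ) := LinearMap.ker (traceLinearMap (Fin n) ℂ ℂ)
  have hS : ∀ X, X ∈ S ↔ X.trace = 0 := fun X => by
    simp [S, LinearMap.mem_ker, traceLinearMap_apply]
  let f : S →ₗ[ℂ] S :=
    { toFun := fun X => ⟨α X, (hS _).2 (h.tr _ ((hS _).1 X.2))⟩
      map_add' := fun X Z => Subtype.ext (h.add _ _ ((hS _).1 X.2) ((hS _).1 Z.2))
      map_smul' := fun c X => Subtype.ext (h.smul _ _ ((hS _).1 X.2)) }
  have hf : Function.Injective f := by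
    rw [injective_iff_map_eq_zero]
    intro X hX
    exact Subtype.ext (h.inj _ ((hS _).1 X.2) (congrArg Subtype.val hX))
  obtain ⟨X, hX⟩ := (LinearMap.injective_iff_surjective.1 hf) ⟨Y, (hS _).2 hY⟩
  exact ⟨X, (hS _).1 X.2, congrArg Subtype.val hX⟩

theorem LA.zero (h : LA α) : α 0 = 0 := by
  have := h.smul 0 0 (by simp)
  simpa using this

theorem LA.neg (h : LA α) {X : Matrix (Fin n) (Fin n) ℂ} (hX : X.trace = 0) : α (-X) = - α X := by
  have := h.smul (-1) X hX
  simpa using this

theorem LA.sub (h : LA α) {X Y : Matrix (Fin n) (Fin n) ℂ} (hX : X.trace = 0)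
    (hY : Y.trace = 0) : α (X - Y) = α X - α Y := by
  rw [sub_eq_add_neg, h.add _ _ hX (by simp [hY]), h.neg hY, sub_eq_add_neg]

/-- The transposed inverse. -/
theorem LA.tp (h : LA α) : LA fun X => -(α X)ᵀ where
  add X Y hX hY := by
    simp only [h.add X Y hX hY, transpose_add, neg_add]
  smul c X hX := by
    simp only [h.smul c X hX, transpose_smul, smul_neg]
  tr X hX := by
    simp [trace_transpose, h.tr X hX]
  br X Y hX hY := by
    simp only [h.br X Y hX hY, transpose_sub, transpose_mul, neg_mul_neg]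
    abel
  inj X hX h0 := h.inj X hX (by
    have : (α X)ᵀ = 0 := by simpa using h0
    simpa using congrArg transpose this)

/-- Extremal elements have rank one. -/
theorem extremal {X : Matrix (Fin n) (Fin n) ℂ} (hn : 0 < n) (hX : X ≠ 0) (hX0 : X.trace = 0)
    (h : ∀ Z : Matrix (Fin n) (Fin n) ℂ, Z.trace = 0 → ∃ l : ℂ,
      X * (X * Z - Z * X) - (X * Z - Z * X) * X = l • X) :
    ∃ a b : Fin n → ℂ, X = vecMulVec a b ∧ b ⬝ᵥ a = 0 := by
  have : NeZero n := ⟨hn.ne'⟩
  -- all matrices
  have h1 : ∀ Z : Matrix (Fin n) (Fin n) ℂ, ∃ l : ℂ,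
      X * X * Z - (2 : ℂ) • (X * Z * X) + Z * X * X = l • X := by
    intro Z
    have hn' : (n : ℂ) ≠ 0 := Nat.cast_ne_zero.2 hn.ne'
    obtain ⟨l, hl⟩ := h (Z - (Z.trace / n) • (1 : Matrix (Fin n) (Fin n) ℂ)) (by
      simp [trace_sub, trace_smul, trace_one, hn'])
    refine ⟨l, ?_⟩
    rw [← hl]
    simp only [mul_sub, sub_mul, two_smul, mul_smul_comm, smul_mul_assoc, mul_one, one_mul,
      ← mul_assoc]
    abel
  -- an eigenvector
  obtain ⟨μ, hμ⟩ := Module.End.exists_eigenvalue (K := ℂ) (V := Fin n → ℂ) (toLin' X)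
  obtain ⟨v, hv⟩ := hμ.exists_hasEigenvector
  have hv0 : v ≠ 0 := hv.2
  have hXv : X *ᵥ v = μ • v := by
    have := Module.End.HasEigenvector.apply_eq_smul hv
    simpa [toLin'_apply] using this
  obtain ⟨j, hj⟩ : ∃ j, v j ≠ 0 := by
    by_contra hc
    push Not at hc
    exact hv0 (funext hc)
  let f : Fin n → ℂ := Pi.single j (v j)⁻¹
  have hfv : f ⬝ᵥ v = 1 := by
    simp [f, single_dotProduct, hj]
  have h2 : ∀ w : Fin n → ℂ, ∃ l : ℂ,
      X *ᵥ (X *ᵥ w) - (2 : ℂ) • (μ • (X *ᵥ w)) + μ ^ 2 • w = (l * μ) • v := by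
    intro w
    obtain ⟨l, hl⟩ := h1 (vecMulVec w f)
    refine ⟨l, ?_⟩
    have h3 := congrArg (fun M => M *ᵥ v) hl
    simp only [add_mulVec, sub_mulVec, smul_mulVec, ← mulVec_mulVec, hXv, mulVec_smul,
      vecMulVec_mulVec, hfv] at h3
    simp only [MulOpposite.op_one, one_smul] at h3
    rw [mul_smul, ← h3, pow_two, mul_smul]
  have hN : ∀ w : Fin n → ℂ, (X - μ • (1 : Matrix (Fin n) (Fin n) ℂ)) *ᵥ w = X *ᵥ w - μ • w :=
    fun w => by rw [sub_mulVec, smul_mulVec, one_mulVec]
  have hN3 : (X - μ • (1 : Matrix (Fin n) (Fin n) ℂ)) ^ 3 = 0 := by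
    apply toLin'.injective
    ext1 i
    ext1
    simp only [LinearMap.comp_apply, toLin'_apply, map_zero, LinearMap.zero_apply, pow_succ,
      pow_zero, one_mul, ← mulVec_mulVec]
    obtain ⟨l, hl⟩ := h2 ((LinearMap.single ℂ (fun _ => ℂ) i) 1)
    rw [hN, hN, hN]
    have h4 : ∀ w : Fin n → ℂ, X *ᵥ (X *ᵥ w - μ • w) - μ • (X *ᵥ w - μ • w) =
        X *ᵥ (X *ᵥ w) - (2 : ℂ) • (μ • (X *ᵥ w)) + μ ^ 2 • w := by
      intro w
      rw [mulVec_sub, mulVec_smul, two_smul, smul_sub, pow_two, mul_smul]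
      abel
    rw [(h4 _).trans hl, mulVec_smul, hXv, smul_comm, sub_self]
  have hμ0 : μ = 0 := by
    have h5 : (X - μ • (1 : Matrix (Fin n) (Fin n) ℂ)).trace = 0 :=
      (isNilpotent_trace_of_isNilpotent ⟨3, hN3⟩).eq_zero
    rw [trace_sub, hX0, trace_smul, trace_one, Fintype.card_fin, smul_eq_mul, zero_sub,
      neg_eq_zero] at h5
    rcases mul_eq_zero.1 h5 with h6 | h6
    · exact h6
    · exact absurd h6 (Nat.cast_ne_zero.2 hn.ne')
  have hXX : X * X = 0 := by
    apply toLin'.injective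
    ext1 i
    ext1
    simp only [LinearMap.comp_apply, toLin'_apply, map_zero, LinearMap.zero_apply, ← mulVec_mulVec]
    obtain ⟨l, hl⟩ := h2 ((LinearMap.single ℂ (fun _ => ℂ) i) 1)
    simpa [hμ0] using hl
  -- rank one
  obtain ⟨p, r, hpr⟩ : ∃ p r, X p r ≠ 0 := by
    by_contra hc
    push Not at hc
    exact hX (Matrix.ext hc)
  obtain ⟨l, hl⟩ := h1 (single r p 1)
  have h7 : X * single r p 1 * X = vecMulVec (X.col r) (X.row p) := by
    rw [single_eq_single_vecMulVec_single, mul_vecMulVec, vecMulVec_mul]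
    congr 1
    · simp
    · simp
  rw [hXX, zero_mul, zero_sub, mul_assoc (single r p 1) X X, hXX, mul_zero, add_zero, h7] at hl
  have hl0 : l ≠ 0 := by
    rintro rfl
    have h8 := congrFun (congrFun hl p) r
    simp [vecMulVec_apply, hpr] at h8
  have hX1 : X = vecMulVec ((-2 / l) • X.col r) (X.row p) := by
    calc X = l⁻¹ • (l • X) := by rw [smul_smul, inv_mul_cancel₀ hl0, one_smul]
      _ = l⁻¹ • (-((2 : ℂ) • vecMulVec (X.col r) (X.row p))) := by rw [hl]
      _ = _ := by
        rw [smul_vecMulVec, smul_neg, smul_smul, ← neg_smul]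
        congr 1
        ring
  refine ⟨_, _, hX1, ?_⟩
  have h9 := hX0
  rw [hX1, trace_vecMulVec] at h9
  rw [dotProduct_comm]
  exact h9

/-- Images of rank one nilpotents. -/
theorem LA.rk1 (h : LA α) (hn : 0 < n) {u f : Fin n → ℂ} (hu : u ≠ 0) (hf : f ≠ 0)
    (hfu : f ⬝ᵥ u = 0) : ∃ a b : Fin n → ℂ, α (vecMulVec u f) = vecMulVec a b ∧ b ⬝ᵥ a = 0 := by
  have htr : (vecMulVec u f).trace = 0 := by
    rw [trace_vecMulVec, dotProduct_comm, hfu]
  refine extremal hn ?_ (h.tr _ htr) fun Z hZ => ?_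
  · intro h0
    have h1 := h.inj _ htr h0
    obtain ⟨i, hi⟩ : ∃ j, u j ≠ 0 := by
      by_contra hc
      push Not at hc
      exact hu (funext hc)
    obtain ⟨j, hj⟩ : ∃ j, f j ≠ 0 := by
      by_contra hc
      push Not at hc
      exact hf (funext hc)
    have h2 := congrFun (congrFun h1 i) j
    simp [vecMulVec_apply, hi, hj] at h2
  · obtain ⟨Y, hY, rfl⟩ := h.surj Z hZ
    have hc : ∀ A B : Matrix (Fin n) (Fin n) ℂ, (A * B - B * A).trace = 0 := fun A B => by
      rw [trace_sub, trace_mul_comm, sub_self]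
    rw [← h.br _ _ htr hY, ← h.br _ _ htr (hc _ _)]
    refine ⟨-2 * (f ⬝ᵥ (Y *ᵥ u)), ?_⟩
    rw [← h.smul _ _ htr]
    congr 1
    have e1 : vecMulVec u f * vecMulVec u f = 0 := by
      rw [vecMulVec_mul_vecMulVec, hfu]
      simp
    have e2 : vecMulVec u f * Y * vecMulVec u f = (f ⬝ᵥ (Y *ᵥ u)) • vecMulVec u f := by
      rw [vecMulVec_mul, vecMulVec_mul_vecMulVec, dotProduct_mulVec, vecMulVec_smul]
    simp only [mul_sub, sub_mul, ← mul_assoc]
    rw [e1, e2, mul_assoc Y, e1]
    rw [zero_mul, mul_zero, zero_sub, sub_zero, ← neg_add', ← two_smul ℂ (_ • _), smul_smul,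
      ← neg_smul, neg_mul]

theorem trace_single_ne {i j : Fin n} (h : i ≠ j) :
    (single i j (1 : ℂ)).trace = 0 := by
  simp [trace, h]

theorem trace_diag (i j : Fin n) :
    (single i i (1 : ℂ) - single j j (1 : ℂ)).trace = 0 := by
  simp [trace_sub]

/-- Induction for traceless matrices. -/
theorem sl_induction (hn : 0 < n) {p : Matrix (Fin n) (Fin n) ℂ → Prop} (h0 : p 0)
    (hadd : ∀ X Y, X.trace = 0 → Y.trace = 0 → p X → p Y → p (X + Y))
    (hsmul : ∀ (c : ℂ) X, X.trace = 0 → p X → p (c • X))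
    (hE : ∀ i j : Fin n, i ≠ j → p (single i j 1))
    (hD : ∀ i j : Fin n, i ≠ j → p (single i i 1 - single j j 1)) :
    ∀ X, X.trace = 0 → p X := by
  intro X hX
  let z : Fin n := ⟨0, hn⟩
  have e : X = ∑ i, ∑ j, (if i = j then X i i • (single i i (1 : ℂ) - single z z (1 : ℂ)) else
      X i j • single i j (1 : ℂ)) := by
    have e1 : ∀ i j : Fin n, (if i = j then X i i • (single i i (1 : ℂ) - single z z (1 : ℂ)) else
        X i j • single i j (1 : ℂ)) = single i j (X i j) - if i = j then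
        single z z (X i i) else 0 := by
      intro i j
      by_cases hij : i = j
      · subst hij
        simp [smul_sub]
      · simp [hij]
    simp only [e1, Finset.sum_sub_distrib]
    rw [← matrix_eq_sum_single X]
    have e2 : ∑ i : Fin n, ∑ j : Fin n, (if i = j then single z z (X i i) else 0) =
        (0 : Matrix (Fin n) (Fin n) ℂ) := by
      simp only [Finset.sum_ite_eq, Finset.mem_univ, if_true]
      have : ∑ i : Fin n, single z z (X i i) = single z z (∑ i, X i i) :=
        (map_sum (singleAddMonoidHom (α := ℂ) z z) _ _).symm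
      rw [this]
      have h3 : ∑ i, X i i = 0 := hX
      rw [h3]
      simp
    rw [e2, sub_zero]
  have key : ∀ i j : Fin n, (if i = j then X i i • (single i i (1 : ℂ) - single z z (1 : ℂ)) else
      X i j • single i j (1 : ℂ)).trace = 0 ∧ p (if i = j then X i i • (single i i (1 : ℂ) -
      single z z (1 : ℂ)) else X i j • single i j (1 : ℂ)) := by
    intro i j
    by_cases hij : i = j
    · rw [if_pos hij, trace_smul, trace_diag, smul_zero]
      refine ⟨rfl, hsmul _ _ (trace_diag _ _) ?_⟩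
      by_cases hiz : i = z
      · rw [hiz, sub_self]
        exact h0
      · exact hD _ _ hiz
    · rw [if_neg hij, trace_smul, trace_single_ne hij, smul_zero]
      exact ⟨rfl, hsmul _ _ (trace_single_ne hij) (hE _ _ hij)⟩
  have hP : X.trace = 0 ∧ p X := by
    rw [e]
    refine Finset.sum_induction _ (fun Y => Y.trace = 0 ∧ p Y) (fun a b ha hb => ?_) ?_ ?_
    · exact ⟨by rw [trace_add, ha.1, hb.1, add_zero], hadd _ _ ha.1 hb.1 ha.2 hb.2⟩
    · exact ⟨trace_zero _ _, h0⟩
    · intro i _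
      refine Finset.sum_induction _ (fun Y => Y.trace = 0 ∧ p Y) (fun a b ha hb => ?_) ?_ ?_
      · exact ⟨by rw [trace_add, ha.1, hb.1, add_zero], hadd _ _ ha.1 hb.1 ha.2 hb.2⟩
      · exact ⟨trace_zero _ _, h0⟩
      · intro j _
        exact key i j
  exact hP.2

theorem ss_ne {i j k l : Fin n} (h : j ≠ k) : single i j (1 : ℂ) * single k l (1 : ℂ) = 0 :=
  single_mul_single_of_ne _ _ _ _ h _

theorem ss_eq {i j l : Fin n} : single i j (1 : ℂ) * single j l (1 : ℂ) = single i l 1 := by
  rw [single_mul_single_same, mul_one]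

theorem br_single {i j k : Fin n} (hij : i ≠ j) : single i j (1 : ℂ) =
    single i k 1 * single k j 1 - single k j 1 * single i k 1 := by
  rw [ss_eq, ss_ne hij.symm, sub_zero]

theorem br_diag {i j : Fin n} : single i i (1 : ℂ) - single j j (1 : ℂ) =
    single i j 1 * single j i 1 - single j i 1 * single i j 1 := by
  rw [ss_eq, ss_eq]

/-- The end of the proof: dual bases. -/
theorem LA.core (h : LA α) (hn : 3 ≤ n) (v w : Fin n → Fin n → ℂ)
    (h0 : ∀ i j, i ≠ j → w j ⬝ᵥ v i = 0)
    (hvw : ∀ i j, i ≠ j → ∃ c : ℂ, α (single i j 1) = c • vecMulVec (v i) (w j)) :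
    ∃ g g' : Matrix (Fin n) (Fin n) ℂ, g * g' = 1 ∧ g' * g = 1 ∧
      ∀ X, X.trace = 0 → α X = g * X * g' := by
  have hvw' : ∀ i j, ∃ c : ℂ, i ≠ j → α (single i j 1) = c • vecMulVec (v i) (w j) := fun i j => by
    by_cases hij : i = j
    · exact ⟨0, fun h => absurd hij h⟩
    · obtain ⟨c, hc⟩ := hvw i j hij
      exact ⟨c, fun _ => hc⟩
  choose c hc using hvw'
  -- norm relation
  have hne : ∀ i j, i ≠ j → α (single i j 1) ≠ 0 := fun i j hij h1 => by
    have h2 := h.inj _ (trace_single_ne hij) h1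
    have h3 := congrFun (congrFun h2 i) j
    simp at h3
  have hrel : ∀ i j, i ≠ j → c i j * c j i * (w j ⬝ᵥ v j) * (w i ⬝ᵥ v i) = 1 := by
    intro i j hij
    have e1 : (2 : ℂ) • single i j (1 : ℂ) = (single i i 1 - single j j 1) * single i j 1 -
        single i j 1 * (single i i 1 - single j j 1) := by
      rw [sub_mul, mul_sub, ss_eq, ss_eq, ss_ne hij.symm, ss_ne hij.symm, two_smul]
      abel
    have e2 := congrArg α e1
    rw [h.smul _ _ (trace_single_ne hij), h.br _ _ (trace_diag _ _) (trace_single_ne hij),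
      br_diag, h.br _ _ (trace_single_ne hij) (trace_single_ne hij.symm), hc i j hij,
      hc j i hij.symm] at e2
    simp only [sub_mul, mul_sub, smul_mul_assoc, mul_smul_comm, smul_smul,
      vecMulVec_mul_vecMulVec, h0 i j hij, vecMulVec_smul, zero_smul] at e2
    have hnz : c i j ≠ 0 ∧ vecMulVec (v i) (w j) ≠ 0 := by
      have h1 := hne i j hij
      rw [hc i j hij] at h1
      exact smul_ne_zero_iff.1 h1
    obtain ⟨p, r, hpr⟩ : ∃ p r, vecMulVec (v i) (w j) p r ≠ 0 := by
      by_contra hcon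
      push Not at hcon
      exact hnz.2 (Matrix.ext hcon)
    have e3 := congrFun (congrFun e2 p) r
    simp only [Matrix.smul_apply, Matrix.sub_apply, smul_eq_mul, vecMulVec_zero,
      Matrix.zero_apply, mul_zero, sub_zero, zero_sub] at e3
    have h4 : (2 * c i j * vecMulVec (v i) (w j) p r) *
        (c i j * c j i * (w j ⬝ᵥ v j) * (w i ⬝ᵥ v i) - 1) = 0 := by
      linear_combination -e3
    rcases mul_eq_zero.1 h4 with h5 | h5
    · exact absurd h5 (mul_ne_zero (mul_ne_zero two_ne_zero hnz.1) hpr)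
    · linear_combination h5
  have z3 : ∀ i j : Fin n, ∃ k, k ≠ i ∧ k ≠ j := by
    intro i j
    by_contra hcon
    push Not at hcon
    have : (Finset.univ : Finset (Fin n)) ⊆ {i, j} := fun k _ => by
      by_cases hk : k = i
      · simp [hk]
      · simp [hcon k hk]
    have h1 := Finset.card_le_card this
    have h2 := Finset.card_le_two (a := i) (b := j)
    rw [Finset.card_univ, Fintype.card_fin] at h1
    omega
  have hs : ∀ i, w i ⬝ᵥ v i ≠ 0 := by
    intro i h1
    obtain ⟨j, hj, -⟩ := z3 i i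
    have h2 := hrel i j hj.symm
    rw [h1, mul_zero] at h2
    exact zero_ne_one h2
  -- the normalised coefficients
  obtain ⟨d, hd⟩ : ∃ d : Fin n → Fin n → ℂ, ∀ i j, d i j = c i j * (w j ⬝ᵥ v j) :=
    ⟨_, fun _ _ => rfl⟩
  have hd1 : ∀ i j, i ≠ j → d i j * d j i = 1 := fun i j hij => by
    rw [hd, hd]
    linear_combination hrel i j hij
  have hd2 : ∀ i k j, i ≠ k → k ≠ j → i ≠ j → d i j = d i k * d k j := by
    intro i k j hik hkj hij
    have e1 := congrArg α (br_single (k := k) hij)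
    rw [h.br _ _ (trace_single_ne hik) (trace_single_ne hkj), hc i j hij, hc i k hik,
      hc k j hkj] at e1
    simp only [smul_mul_assoc, mul_smul_comm, smul_smul, vecMulVec_mul_vecMulVec,
      h0 i j hij, vecMulVec_smul, zero_smul, vecMulVec_zero, smul_zero, sub_zero] at e1
    have hnz : c i j ≠ 0 ∧ vecMulVec (v i) (w j) ≠ 0 := by
      have h1 := hne i j hij
      rw [hc i j hij] at h1
      exact smul_ne_zero_iff.1 h1
    obtain ⟨p, r, hpr⟩ : ∃ p r, vecMulVec (v i) (w j) p r ≠ 0 := by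
      by_contra hcon
      push Not at hcon
      exact hnz.2 (Matrix.ext hcon)
    have e3 := congrFun (congrFun e1 p) r
    simp only [Matrix.smul_apply, smul_eq_mul] at e3
    have e4 : c i j = c k j * (c i k * (w k ⬝ᵥ v k)) := mul_right_cancel₀ hpr e3
    rw [hd, hd, hd, e4]
    ring
  let z : Fin n := ⟨0, by omega⟩
  obtain ⟨D, hD⟩ : ∃ D : Fin n → ℂ, ∀ i, D i = if i = z then 1 else d i z := ⟨_, fun _ => rfl⟩
  have hD0 : ∀ i, D i ≠ 0 := by
    intro i
    rw [hD]
    by_cases hi : i = z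
    · simp [hi]
    · rw [if_neg hi]
      intro h1
      have h2 := hd1 i z hi
      rw [h1, zero_mul] at h2
      exact zero_ne_one h2
  have hDd : ∀ i j, i ≠ j → d i j = D i * (D j)⁻¹ := by
    intro i j hij
    rw [eq_mul_inv_iff_mul_eq₀ (hD0 j), hD, hD]
    by_cases hi : i = z
    · subst hi
      rw [if_pos rfl, if_neg hij.symm]
      exact hd1 _ _ hij
    · by_cases hj : j = z
      · subst hj
        rw [if_pos rfl, if_neg hi, mul_one]
      · rw [if_neg hj, if_neg hi]
        exact (hd2 i j z hij hj hi).symm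
  obtain ⟨g, hg⟩ : ∃ g : Matrix (Fin n) (Fin n) ℂ, ∀ p i, g p i = D i * v i p :=
    ⟨of fun p i => D i * v i p, fun _ _ => rfl⟩
  obtain ⟨g', hg'⟩ : ∃ g' : Matrix (Fin n) (Fin n) ℂ, ∀ i p,
      g' i p = (D i)⁻¹ * (w i ⬝ᵥ v i)⁻¹ * w i p := ⟨of fun i p => _, fun _ _ => rfl⟩
  refine ⟨g, g', ?_⟩
  have hgg : g' * g = 1 := by
    ext i k
    rw [mul_apply]
    simp only [hg, hg']
    have e1 : ∑ x, (D i)⁻¹ * (w i ⬝ᵥ v i)⁻¹ * w i x * (D k * v k x) =
        (D i)⁻¹ * (w i ⬝ᵥ v i)⁻¹ * D k * (w i ⬝ᵥ v k) := by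
      have e2 : w i ⬝ᵥ v k = ∑ x, w i x * v k x := rfl
      rw [e2, Finset.mul_sum]
      exact Finset.sum_congr rfl fun x _ => by ring
    rw [e1]
    by_cases hik : i = k
    · subst hik
      rw [one_apply_eq]
      have := hD0 i
      have := hs i
      field_simp
    · rw [one_apply_ne hik, h0 k i (Ne.symm hik), mul_zero]
  refine ⟨mul_eq_one_comm.1 hgg, hgg, ?_⟩
  have hEq : ∀ i j : Fin n, i ≠ j → α (single i j 1) = g * single i j 1 * g' := by
    intro i j hij
    have h1 : c i j = D i * (D j)⁻¹ * (w j ⬝ᵥ v j)⁻¹ := by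
      rw [← hDd i j hij, hd, mul_inv_cancel_right₀ (hs j)]
    rw [hc i j hij, single_eq_single_vecMulVec_single, mul_vecMulVec, vecMulVec_mul, h1]
    ext p r
    simp [vecMulVec_apply, hg, hg']
    ring
  refine sl_induction (by omega) ?_ ?_ ?_ hEq ?_
  · rw [h.zero]
    simp
  · intro X Y hX hY h1 h2
    rw [h.add _ _ hX hY, h1, h2, mul_add, add_mul]
  · intro a X hX h1
    rw [h.smul _ _ hX, h1, mul_smul_comm, smul_mul_assoc]
  · intro i j hij
    rw [br_diag, h.br _ _ (trace_single_ne hij) (trace_single_ne hij.symm), hEq i j hij,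
      hEq j i hij.symm]
    have e1 : ∀ A B : Matrix (Fin n) (Fin n) ℂ, g * A * g' * (g * B * g') = g * (A * B) * g' := by
      intro A B
      calc g * A * g' * (g * B * g') = g * A * (g' * g) * (B * g') := by simp only [mul_assoc]
        _ = g * (A * B) * g' := by rw [hgg, mul_one]; simp only [mul_assoc]
    rw [e1, e1, mul_sub, sub_mul]

theorem exists_ne_ne (hn : 3 ≤ n) (i j : Fin n) : ∃ k, k ≠ i ∧ k ≠ j := by
  by_contra hcon
  push Not at hcon
  have : (Finset.univ : Finset (Fin n)) ⊆ {i, j} := fun k _ => by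
    by_cases hk : k = i
    · simp [hk]
    · simp [hcon k hk]
  have h1 := Finset.card_le_card this
  have h2 := Finset.card_le_two (a := i) (b := j)
  rw [Finset.card_univ, Fintype.card_fin] at h1
  omega

/-- The matrices `α E_ij` have the form `v_i w_j` or `w_j v_i`. -/
theorem LA.dich (h : LA α) (hn : 3 ≤ n) : ∃ v w : Fin n → Fin n → ℂ,
    (∀ i j, i ≠ j → w j ⬝ᵥ v i = 0) ∧
    ((∀ i j, i ≠ j → ∃ c : ℂ, α (single i j 1) = c • vecMulVec (v i) (w j)) ∨
      ∀ i j, i ≠ j → ∃ c : ℂ, α (single i j 1) = c • vecMulVec (w j) (v i)) := by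
  have hne : ∀ i j, i ≠ j → α (single i j 1) ≠ 0 := fun i j hij h1 => by
    have h2 := h.inj _ (trace_single_ne hij) h1
    have h3 := congrFun (congrFun h2 i) j
    simp at h3
  have hex : ∀ i j : Fin n, ∃ a b : Fin n → ℂ, i ≠ j →
      (α (single i j 1) = vecMulVec a b ∧ b ⬝ᵥ a = 0) := by
    intro i j
    by_cases hij : i = j
    · exact ⟨0, 0, fun h => absurd hij h⟩
    · obtain ⟨a, b, hab⟩ := h.rk1 (by omega) (u := Pi.single i 1) (f := Pi.single j 1)
        (by simp) (by simp) (by simp [hij])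
      refine ⟨a, b, fun _ => ?_⟩
      rw [single_eq_single_vecMulVec_single]
      exact hab
  choose A B hAB using hex
  have hA : ∀ i j, i ≠ j → A i j ≠ 0 := fun i j hij h1 => by
    have h2 := (hAB i j hij).1
    rw [h1, zero_vecMulVec] at h2
    exact hne i j hij h2
  have hB : ∀ i j, i ≠ j → B i j ≠ 0 := fun i j hij h1 => by
    have h2 := (hAB i j hij).1
    rw [h1, vecMulVec_zero] at h2
    exact hne i j hij h2
  -- rows and columns
  have hrow : ∀ i j k, i ≠ j → i ≠ k → j ≠ k → Par (A i j) (A i k) ∨ Par (B i j) (B i k) := by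
    intro i j k hij hik hjk
    obtain ⟨a, b, hab, -⟩ := h.rk1 (by omega) (u := Pi.single i 1)
      (f := Pi.single j 1 + Pi.single k 1) (by simp) (by
        intro h1
        have := congrFun h1 j
        simp [hjk] at this) (by simp [hij, hik])
    rw [vecMulVec_add, ← single_eq_single_vecMulVec_single,
      ← single_eq_single_vecMulVec_single, h.add _ _ (trace_single_ne hij) (trace_single_ne hik),
      (hAB i j hij).1, (hAB i k hik).1] at hab
    exact par_of_add hab
  have hcol : ∀ j i k, i ≠ j → k ≠ j → i ≠ k → Par (A i j) (A k j) ∨ Par (B i j) (B k j) := by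
    intro j i k hij hkj hik
    obtain ⟨a, b, hab, -⟩ := h.rk1 (by omega) (u := Pi.single i 1 + Pi.single k 1)
      (f := Pi.single j 1) (by
        intro h1
        have := congrFun h1 i
        simp [hik] at this) (by simp) (by simp [hij, hkj])
    rw [add_vecMulVec, ← single_eq_single_vecMulVec_single,
      ← single_eq_single_vecMulVec_single, h.add _ _ (trace_single_ne hij) (trace_single_ne hkj),
      (hAB i j hij).1, (hAB k j hkj).1] at hab
    exact par_of_add hab
  have hR : ∀ i, (∀ j k, i ≠ j → i ≠ k → Par (A i j) (A i k)) ∨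
      (∀ j k, i ≠ j → i ≠ k → Par (B i j) (B i k)) := by
    intro i
    rcases fam {j | i ≠ j} (A i) (B i) (fun s hs => hA i s hs) (fun s hs => hB i s hs)
      (fun s hs t ht hst => hrow i s t hs ht hst) with h1 | h1
    · exact Or.inl fun j k hj hk => h1 j hj k hk
    · exact Or.inr fun j k hj hk => h1 j hj k hk
  have hC : ∀ j, (∀ i k, i ≠ j → k ≠ j → Par (A i j) (A k j)) ∨
      (∀ i k, i ≠ j → k ≠ j → Par (B i j) (B k j)) := by
    intro j
    rcases fam {i | i ≠ j} (fun i => A i j) (fun i => B i j) (fun s hs => hA s j hs)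
      (fun s hs => hB s j hs) (fun s hs t ht hst => hcol j s t hs ht hst) with h1 | h1
    · exact Or.inl fun i k hi hk => h1 i hi k hk
    · exact Or.inr fun i k hi hk => h1 i hi k hk
  -- brackets
  have hbr : ∀ i k j, i ≠ k → k ≠ j → i ≠ j → B i k ⬝ᵥ A k j = 0 → B k j ⬝ᵥ A i k = 0 →
      False := by
    intro i k j hik hkj hij h1 h2
    apply hne i j hij
    rw [br_single (k := k) hij, h.br _ _ (trace_single_ne hik) (trace_single_ne hkj),
      (hAB i k hik).1, (hAB k j hkj).1, vecMulVec_mul_vecMulVec, vecMulVec_mul_vecMulVec, h1, h2]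
    simp
  have hbA : ∀ i k j, i ≠ k → k ≠ j → i ≠ j → ¬ Par (A i k) (A k j) := by
    intro i k j hik hkj hij h1
    obtain ⟨c, hc⟩ := h1.exists_smul (hA i k hik)
    obtain ⟨c', hc'⟩ := h1.symm'.exists_smul (hA k j hkj)
    refine hbr i k j hik hkj hij ?_ ?_
    · rw [hc, dotProduct_smul, (hAB i k hik).2, smul_zero]
    · rw [hc', dotProduct_smul, (hAB k j hkj).2, smul_zero]
  have hbB : ∀ i k j, i ≠ k → k ≠ j → i ≠ j → ¬ Par (B i k) (B k j) := by
    intro i k j hik hkj hij h1
    obtain ⟨c, hc⟩ := h1.exists_smul (hB i k hik)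
    obtain ⟨c', hc'⟩ := h1.symm'.exists_smul (hB k j hkj)
    refine hbr i k j hik hkj hij ?_ ?_
    · rw [hc', smul_dotProduct, (hAB k j hkj).2, smul_zero]
    · rw [hc, smul_dotProduct, (hAB i k hik).2, smul_zero]
  -- a row and a column have different types
  have hLL : ∀ i j, i ≠ j → (∀ j' k, i ≠ j' → i ≠ k → Par (A i j') (A i k)) →
      ¬ ∀ i' k, i' ≠ j → k ≠ j → Par (A i' j) (A k j) := by
    intro i j hij h1 h2
    obtain ⟨k, hki, hkj⟩ := exists_ne_ne hn i j
    exact hbA i k j hki.symm hkj hij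
      ((h1 k j hki.symm hij).trans' (hA i j hij) (h2 i k hij hkj))
  have hRR : ∀ i j, i ≠ j → (∀ j' k, i ≠ j' → i ≠ k → Par (B i j') (B i k)) →
      ¬ ∀ i' k, i' ≠ j → k ≠ j → Par (B i' j) (B k j) := by
    intro i j hij h1 h2
    obtain ⟨k, hki, hkj⟩ := exists_ne_ne hn i j
    exact hbB i k j hki.symm hkj hij
      ((h1 k j hki.symm hij).trans' (hB i j hij) (h2 i k hij hkj))
  have hother : ∀ i : Fin n, ∃ j, j ≠ i := fun i => (exists_ne_ne hn i i).imp fun _ hk => hk.1
  choose o ho using hother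
  by_cases hex : ∃ i, ∀ j k, i ≠ j → i ≠ k → Par (A i j) (A i k)
  · obtain ⟨i₀, h0⟩ := hex
    have hcR : ∀ j, i₀ ≠ j → ∀ i k, i ≠ j → k ≠ j → Par (B i j) (B k j) := fun j hj =>
      (hC j).resolve_left (hLL i₀ j hj h0)
    have hrL : ∀ i, ∀ j k, i ≠ j → i ≠ k → Par (A i j) (A i k) := by
      intro i
      obtain ⟨j, hj1, hj2⟩ := exists_ne_ne hn i₀ i
      exact (hR i).resolve_right fun h1 => hRR i j hj2.symm h1 (hcR j hj1.symm)
    have hcR' : ∀ j, ∀ i k, i ≠ j → k ≠ j → Par (B i j) (B k j) := fun j =>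
      (hC j).resolve_left (hLL (o j) j (ho j) (hrL (o j)))
    refine ⟨fun i => A i (o i), fun j => B (o j) j, ?_, Or.inl ?_⟩
    · intro i j hij
      obtain ⟨c, hc⟩ := (hrL i j (o i) hij (ho i).symm).exists_smul (hA i j hij)
      obtain ⟨c', hc'⟩ := (hcR' j i (o j) hij (ho j)).exists_smul (hB i j hij)
      show B (o j) j ⬝ᵥ A i (o i) = 0
      rw [hc, hc', dotProduct_smul, smul_dotProduct, (hAB i j hij).2, smul_zero, smul_zero]
    · intro i j hij
      obtain ⟨c, hc⟩ := (hrL i (o i) j (ho i).symm hij).exists_smul (hA i _ (ho i).symm)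
      obtain ⟨c', hc'⟩ := (hcR' j (o j) i (ho j) hij).exists_smul (hB _ j (ho j))
      refine ⟨c * c', ?_⟩
      rw [(hAB i j hij).1, hc, hc', smul_vecMulVec, vecMulVec_smul, smul_smul]
  · push Not at hex
    have hrR : ∀ i, ∀ j k, i ≠ j → i ≠ k → Par (B i j) (B i k) := fun i =>
      (hR i).resolve_left fun h1 => by
        obtain ⟨j, k, hj, hk, h2⟩ := hex i
        exact h2 (h1 j k hj hk)
    have hcL : ∀ j, ∀ i k, i ≠ j → k ≠ j → Par (A i j) (A k j) := fun j =>
      (hC j).resolve_right (hRR (o j) j (ho j) (hrR (o j)))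
    refine ⟨fun i => B i (o i), fun j => A (o j) j, ?_, Or.inr ?_⟩
    · intro i j hij
      obtain ⟨c, hc⟩ := (hrR i j (o i) hij (ho i).symm).exists_smul (hB i j hij)
      obtain ⟨c', hc'⟩ := (hcL j i (o j) hij (ho j)).exists_smul (hA i j hij)
      show A (o j) j ⬝ᵥ B i (o i) = 0
      rw [hc, hc', dotProduct_smul, smul_dotProduct, dotProduct_comm, (hAB i j hij).2, smul_zero,
        smul_zero]
    · intro i j hij
      obtain ⟨c, hc⟩ := (hrR i (o i) j (ho i).symm hij).exists_smul (hB i _ (ho i).symm)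
      obtain ⟨c', hc'⟩ := (hcL j (o j) i (ho j) hij).exists_smul (hA _ j (ho j))
      refine ⟨c * c', ?_⟩
      rw [(hAB i j hij).1, hc, hc', smul_vecMulVec, vecMulVec_smul, smul_smul, mul_comm]

/-- **Automorphisms of the traceless matrices**, linear form. -/
theorem LA.aut (h : LA α) (hn : 3 ≤ n) : ∃ g g' : Matrix (Fin n) (Fin n) ℂ, g * g' = 1 ∧
    g' * g = 1 ∧ ((∀ X, X.trace = 0 → α X = g * X * g') ∨
      ∀ X, X.trace = 0 → α X = -(g * Xᵀ * g')) := by
  obtain ⟨v, w, h0, h1 | h1⟩ := h.dich hn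
  · obtain ⟨g, g', hg, hg', h2⟩ := h.core hn v w h0 h1
    exact ⟨g, g', hg, hg', Or.inl h2⟩
  · obtain ⟨g, g', hg, hg', h2⟩ := h.tp.core hn v w h0 (by
      intro i j hij
      obtain ⟨c, hc⟩ := h1 i j hij
      refine ⟨-c, ?_⟩
      rw [hc, transpose_smul, transpose_vecMulVec, neg_smul])
    refine ⟨g'ᵀ, gᵀ, ?_, ?_, Or.inr ?_⟩
    · rw [← transpose_mul, hg, transpose_one]
    · rw [← transpose_mul, hg', transpose_one]
    · intro X hX
      have h3 := h2 X hX
      have h4 : α X = -(g * X * g')ᵀ := by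
        rw [← h3]
        simp
      rw [h4, transpose_mul, transpose_mul, mul_assoc]

theorem trace_map (t : ℂ ≃+* ℂ) (X : Matrix (Fin n) (Fin n) ℂ) :
    (X.map t).trace = t X.trace := by
  simp [trace]

theorem map_map_symm (t : ℂ ≃+* ℂ) (X : Matrix (Fin n) (Fin n) ℂ) : (X.map t.symm).map t = X := by
  ext i j
  simp

theorem map_symm_map (t : ℂ ≃+* ℂ) (X : Matrix (Fin n) (Fin n) ℂ) : (X.map t).map t.symm = X := by
  ext i j
  simp

/-- **Automorphisms of the traceless matrices**, semilinear form. -/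
theorem aut_sl (hn : 3 ≤ n) (t : ℂ ≃+* ℂ)
    (T : Matrix (Fin n) (Fin n) ℂ → Matrix (Fin n) (Fin n) ℂ)
    (hadd : ∀ X Y, X.trace = 0 → Y.trace = 0 → T (X + Y) = T X + T Y)
    (hsmul : ∀ (c : ℂ) X, X.trace = 0 → T (c • X) = t c • T X)
    (htr : ∀ X, X.trace = 0 → (T X).trace = 0)
    (hbr : ∀ X Y, X.trace = 0 → Y.trace = 0 → T (X * Y - Y * X) = T X * T Y - T Y * T X)
    (hinj : ∀ X, X.trace = 0 → T X = 0 → X = 0) :
    ∃ g g' : Matrix (Fin n) (Fin n) ℂ, g * g' = 1 ∧ g' * g = 1 ∧
      ((∀ X, X.trace = 0 → T X = g * X.map t * g') ∨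
        ∀ X, X.trace = 0 → T X = -(g * (X.map t)ᵀ * g')) := by
  have hz : ∀ X : Matrix (Fin n) (Fin n) ℂ, X.trace = 0 → (X.map t.symm).trace = 0 := by
    intro X hX
    rw [trace_map, hX, map_zero]
  have hz' : ∀ X : Matrix (Fin n) (Fin n) ℂ, X.trace = 0 → (X.map t).trace = 0 := by
    intro X hX
    rw [trace_map, hX, map_zero]
  have h : LA fun X => T (X.map t.symm) :=
    { add := fun X Y hX hY => by
        have e : (X + Y).map t.symm = X.map t.symm + Y.map t.symm := by
          ext i j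
          simp
        simp only [e]
        exact hadd _ _ (hz X hX) (hz Y hY)
      smul := fun c X hX => by
        have e : (c • X).map t.symm = t.symm c • X.map t.symm := by
          ext i j
          simp
        simp only [e]
        rw [hsmul _ _ (hz X hX), t.apply_symm_apply]
      tr := fun X hX => htr _ (hz X hX)
      br := fun X Y hX hY => by
        have e : (X * Y - Y * X).map t.symm = X.map t.symm * Y.map t.symm -
            Y.map t.symm * X.map t.symm := by
          rw [Matrix.map_sub _ (map_sub t.symm), Matrix.map_mul, Matrix.map_mul]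
        simp only [e]
        exact hbr _ _ (hz X hX) (hz Y hY)
      inj := fun X hX h0 => by
        have e := hinj _ (hz X hX) h0
        rw [← map_map_symm t X, e]
        ext i j
        simp }
  obtain ⟨g, g', hg, hg', h1 | h1⟩ := h.aut hn
  · refine ⟨g, g', hg, hg', Or.inl fun X hX => ?_⟩
    have := h1 (X.map t) (hz' X hX)
    simp only [map_symm_map] at this
    exact this
  · refine ⟨g, g', hg, hg', Or.inr fun X hX => ?_⟩
    have := h1 (X.map t) (hz' X hX)
    simp only [map_symm_map] at this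
    exact this

/-- A matrix which commutes with the traceless matrices is a scalar. -/
theorem scalar_of_comm (hn : 2 ≤ n) {z : Matrix (Fin n) (Fin n) ℂ}
    (h : ∀ X : Matrix (Fin n) (Fin n) ℂ, X.trace = 0 → z * X = X * z) : ∃ c : ℂ, z = c • 1 := by
  let i₀ : Fin n := ⟨0, by omega⟩
  have h1 : ∀ i j : Fin n, i ≠ j → z i j = 0 ∧ z i i = z j j := by
    intro i j hij
    have e := h (single i j 1) (trace_single_ne hij)
    have e1 := congrFun (congrFun e j) j
    have e2 := congrFun (congrFun e i) j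
    have e3 := h (single j i 1) (trace_single_ne hij.symm)
    have e4 := congrFun (congrFun e3 i) i
    constructor
    · rw [mul_single_apply_same, single_mul_apply_of_ne (h := hij)] at e4
      simpa using e4
    · rw [mul_single_apply_same, single_mul_apply_same] at e2
      simpa using e2
  refine ⟨z i₀ i₀, ?_⟩
  ext i j
  by_cases hij : i = j
  · subst hij
    by_cases hi : i = i₀
    · simp [hi]
    · rw [(h1 i i₀ hi).2]
      simp
  · rw [(h1 i j hij).1]
    simp [hij]

/-- Elements which commute with a semilinear automorphism. -/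
theorem twist_of_aut (hn : 3 ≤ n) (t : ℂ ≃+* ℂ)
    (T : Matrix (Fin n) (Fin n) ℂ → Matrix (Fin n) (Fin n) ℂ)
    (hadd : ∀ X Y, X.trace = 0 → Y.trace = 0 → T (X + Y) = T X + T Y)
    (hsmul : ∀ (c : ℂ) X, X.trace = 0 → T (c • X) = t c • T X)
    (htr : ∀ X, X.trace = 0 → (T X).trace = 0)
    (hbr : ∀ X Y, X.trace = 0 → Y.trace = 0 → T (X * Y - Y * X) = T X * T Y - T Y * T X)
    (hinj : ∀ X, X.trace = 0 → T X = 0 → X = 0) :
    ∃ g g' : Matrix (Fin n) (Fin n) ℂ, g * g' = 1 ∧ g' * g = 1 ∧
      ((∀ x x', x * x' = 1 → x.det = 1 →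
          (∀ X, X.trace = 0 → T (x * X * x') = x * T X * x') →
          ∃ c : ℂ, c ^ n = 1 ∧ x.map t = c • (g' * x * g)) ∨
        ∀ x x', x * x' = 1 → x.det = 1 →
          (∀ X, X.trace = 0 → T (x * X * x') = x * T X * x') →
          ∃ c : ℂ, c ^ n = 1 ∧ x.map t = c • (g' * x' * g)ᵀ) := by
  have hmm : ∀ A B : Matrix (Fin n) (Fin n) ℂ, (A * B).map t = A.map t * B.map t := fun A B =>
    Matrix.map_mul
  have hsur : ∀ X : Matrix (Fin n) (Fin n) ℂ, X.trace = 0 → ∃ Y : Matrix (Fin n) (Fin n) ℂ,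
      Y.trace = 0 ∧ Y.map t = X := fun X hX =>
    ⟨X.map t.symm, by rw [trace_map, hX, map_zero], map_map_symm t X⟩
  have hconj : ∀ x x' X : Matrix (Fin n) (Fin n) ℂ, x * x' = 1 → X.trace = 0 →
      (x * X * x').trace = 0 := by
    intro x x' X hx hX
    rw [trace_mul_comm, ← mul_assoc, mul_eq_one_comm.1 hx, one_mul, hX]
  have hdet : ∀ x : Matrix (Fin n) (Fin n) ℂ, (x.map t).det = t x.det := fun x =>
    (RingHom.map_det (t : ℂ →+* ℂ) x).symm
  obtain ⟨g, g', hg, hg', h1 | h1⟩ := aut_sl hn t T hadd hsmul htr hbr hinj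
  · refine ⟨g, g', hg, hg', Or.inl fun x x' hx hd hT => ?_⟩
    have hx' := mul_eq_one_comm.1 hx
    have ht1 : x.map t * x'.map t = 1 := by
      rw [← hmm, hx]
      simp
    have ht2 : x'.map t * x.map t = 1 := mul_eq_one_comm.1 ht1
    obtain ⟨c, hc⟩ := scalar_of_comm (z := g' * x' * g * x.map t) (by omega) (by
      intro X hX
      obtain ⟨Y, hY, rfl⟩ := hsur X hX
      have e1 := hT Y hY
      rw [h1 _ (hconj x x' Y hx hY), h1 Y hY, hmm, hmm] at e1
      -- g (xt Y xt') g' = x g Y g' x'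
      calc g' * x' * g * x.map t * Y.map t
          = g' * x' * (g * (x.map t * Y.map t * x'.map t) * g') * g * x.map t := by
            calc g' * x' * g * x.map t * Y.map t
                = g' * x' * g * x.map t * Y.map t * (x'.map t * (g' * g) * x.map t) := by
                  rw [hg', mul_one, ht2, mul_one]
              _ = _ := by simp only [mul_assoc]
        _ = g' * x' * (x * (g * Y.map t * g') * x') * g * x.map t := by rw [e1]
        _ = (g' * ((x' * x) * g)) * Y.map t * (g' * x' * g * x.map t) := by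
            simp only [mul_assoc]
        _ = Y.map t * (g' * x' * g * x.map t) := by rw [hx', one_mul, hg', one_mul])
    have e2 : x.map t = c • (g' * x * g) := by
      calc x.map t = (g' * (x * (g * g') * x') * g) * x.map t := by
            rw [hg, mul_one, hx, mul_one, hg', one_mul]
        _ = g' * x * g * (g' * x' * g * x.map t) := by simp only [mul_assoc]
        _ = _ := by rw [hc, mul_smul_comm, mul_one]
    refine ⟨c, ?_, e2⟩
    have e3 := congrArg det e2
    rw [hdet, hd, map_one, det_smul, Fintype.card_fin, det_mul, det_mul, hd, mul_one,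
      ← det_mul, hg', det_one, mul_one] at e3
    exact e3.symm
  · refine ⟨g, g', hg, hg', Or.inr fun x x' hx hd hT => ?_⟩
    have hx' := mul_eq_one_comm.1 hx
    have ht1 : x.map t * x'.map t = 1 := by
      rw [← hmm, hx]
      simp
    have ht2 : x'.map t * x.map t = 1 := mul_eq_one_comm.1 ht1
    have ht1' : (x'.map t)ᵀ * (x.map t)ᵀ = 1 := by rw [← transpose_mul, ht1, transpose_one]
    have ht2' : (x.map t)ᵀ * (x'.map t)ᵀ = 1 := by rw [← transpose_mul, ht2, transpose_one]
    obtain ⟨c, hc⟩ := scalar_of_comm (z := g' * x' * g * (x'.map t)ᵀ) (by omega) (by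
      intro X hX
      obtain ⟨Y, hY, hYX⟩ := hsur Xᵀ (by rw [trace_transpose, hX])
      have hYX' : X = (Y.map t)ᵀ := by rw [hYX, transpose_transpose]
      rw [hYX']
      have e1 := hT Y hY
      rw [h1 _ (hconj x x' Y hx hY), h1 Y hY, hmm, hmm, transpose_mul, transpose_mul, mul_neg,
        neg_mul, neg_inj] at e1
      calc g' * x' * g * (x'.map t)ᵀ * (Y.map t)ᵀ
          = g' * x' * (g * ((x'.map t)ᵀ * ((Y.map t)ᵀ * (x.map t)ᵀ)) * g') * g *
              (x'.map t)ᵀ := by
            calc g' * x' * g * (x'.map t)ᵀ * (Y.map t)ᵀ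
                = g' * x' * g * (x'.map t)ᵀ * (Y.map t)ᵀ *
                    ((x.map t)ᵀ * (g' * g) * (x'.map t)ᵀ) := by
                  rw [hg', mul_one, ht2', mul_one]
              _ = _ := by simp only [mul_assoc]
        _ = g' * x' * (x * (g * (Y.map t)ᵀ * g') * x') * g * (x'.map t)ᵀ := by rw [e1]
        _ = (g' * ((x' * x) * g)) * (Y.map t)ᵀ * (g' * x' * g * (x'.map t)ᵀ) := by
            simp only [mul_assoc]
        _ = (Y.map t)ᵀ * (g' * x' * g * (x'.map t)ᵀ) := by rw [hx', one_mul, hg', one_mul])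
    have e2 : (x'.map t)ᵀ = c • (g' * x * g) := by
      calc (x'.map t)ᵀ = (g' * (x * (g * g') * x') * g) * (x'.map t)ᵀ := by
            rw [hg, mul_one, hx, mul_one, hg', one_mul]
        _ = g' * x * g * (g' * x' * g * (x'.map t)ᵀ) := by simp only [mul_assoc]
        _ = _ := by rw [hc, mul_smul_comm, mul_one]
    have hd' : x'.det = 1 := by
      have := congrArg det hx
      rwa [det_mul, hd, one_mul, det_one] at this
    have hc1 : c ^ n = 1 := by
      have e3 := congrArg det e2
      rw [det_transpose, hdet, hd', map_one, det_smul, Fintype.card_fin, det_mul, det_mul, hd,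
        mul_one, ← det_mul, hg', det_one, mul_one] at e3
      exact e3.symm
    have hc0 : c ≠ 0 := by
      rintro rfl
      rw [zero_pow (by omega)] at hc1
      exact zero_ne_one hc1
    refine ⟨c⁻¹, by rw [inv_pow, hc1, inv_one], ?_⟩
    have e4 : (x.map t)ᵀ = c⁻¹ • (g' * x' * g) := by
      have e5 : (g' * x * g) * (g' * x' * g) = 1 := by
        calc (g' * x * g) * (g' * x' * g) = g' * (x * (g * g') * x') * g := by
              simp only [mul_assoc]
          _ = 1 := by rw [hg, mul_one, hx, mul_one, hg']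
      calc (x.map t)ᵀ = (x.map t)ᵀ * ((g' * x * g) * (g' * x' * g)) := by rw [e5, mul_one]
        _ = (x.map t)ᵀ * ((c⁻¹ • (x'.map t)ᵀ) * (g' * x' * g)) := by
            rw [e2, smul_smul, inv_mul_cancel₀ hc0, one_smul]
        _ = c⁻¹ • (((x.map t)ᵀ * (x'.map t)ᵀ) * (g' * x' * g)) := by
            rw [smul_mul_assoc, mul_smul_comm]
            simp only [mul_assoc]
        _ = _ := by rw [ht2', one_mul]
    rw [← transpose_transpose (x.map t), e4, transpose_smul]

/-- The Lie algebra of traceless matrices is simple. -/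
theorem ideal_sl (hn : 2 ≤ n) {V : Set (Matrix (Fin n) (Fin n) ℂ)}
    (h0 : ∀ X ∈ V, X.trace = 0) (hadd : ∀ X ∈ V, ∀ Y ∈ V, X + Y ∈ V)
    (hsmul : ∀ (c : ℂ), ∀ X ∈ V, c • X ∈ V)
    (hbr : ∀ X ∈ V, ∀ Y : Matrix (Fin n) (Fin n) ℂ, Y.trace = 0 → X * Y - Y * X ∈ V)
    {X₀ : Matrix (Fin n) (Fin n) ℂ} (hX : X₀ ∈ V) (hX0 : X₀ ≠ 0) :
    ∀ X : Matrix (Fin n) (Fin n) ℂ, X.trace = 0 → X ∈ V := by
  have hsc : ∀ (c : ℂ) (X : Matrix (Fin n) (Fin n) ℂ), c ≠ 0 → c • X ∈ V → X ∈ V := by
    intro c X hc hX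
    have := hsmul c⁻¹ _ hX
    rwa [smul_smul, inv_mul_cancel₀ hc, one_smul] at this
  -- one elementary matrix
  have h1 : ∃ i j : Fin n, i ≠ j ∧ single i j (1 : ℂ) ∈ V := by
    by_cases hoff : ∃ i j : Fin n, i ≠ j ∧ X₀ i j ≠ 0
    · obtain ⟨i, j, hij, h2⟩ := hoff
      refine ⟨j, i, hij.symm, ?_⟩
      have h3 := hbr _ (hbr _ hX (single j i 1) (trace_single_ne hij.symm)) (single j i 1)
        (trace_single_ne hij.symm)
      have e : (X₀ * single j i 1 - single j i 1 * X₀) * single j i 1 -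
          single j i 1 * (X₀ * single j i 1 - single j i 1 * X₀) =
          (-2 * X₀ i j) • single j i (1 : ℂ) := by
        have e1 : single j i (1 : ℂ) * X₀ * single j i 1 = X₀ i j • single j i 1 := by
          rw [single_mul_mul_single]
          simp
        have e2 : single j i (1 : ℂ) * single j i 1 = 0 := ss_ne hij
        rw [sub_mul, mul_sub, mul_assoc X₀, e2, e1, ← mul_assoc, e1, ← mul_assoc, e2, mul_zero,
          zero_mul, zero_sub, sub_zero, ← neg_add', ← two_smul ℂ, smul_smul, ← neg_smul, neg_mul]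
      rw [e] at h3
      exact hsc _ _ (mul_ne_zero (by norm_num) h2) h3
    · push Not at hoff
      have h2 : ∃ i j : Fin n, X₀ i i ≠ X₀ j j := by
        by_contra hcon
        push Not at hcon
        let i₀ : Fin n := ⟨0, by omega⟩
        have h3 : X₀.trace = n * X₀ i₀ i₀ := by
          rw [trace]
          simp only [diag_apply]
          rw [Finset.sum_congr rfl fun i _ => hcon i i₀, Finset.sum_const, Finset.card_univ,
            Fintype.card_fin, nsmul_eq_mul]
        rw [h0 _ hX] at h3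
        have h4 : X₀ i₀ i₀ = 0 := by
          rcases mul_eq_zero.1 h3.symm with h5 | h5
          · exact absurd h5 (Nat.cast_ne_zero.2 (by omega))
          · exact h5
        apply hX0
        ext i j
        by_cases hij : i = j
        · subst hij
          rw [hcon i i₀, h4]
          rfl
        · rw [hoff i j hij]
          rfl
      obtain ⟨i, j, hij⟩ := h2
      have hne : i ≠ j := fun h => hij (by rw [h])
      refine ⟨i, j, hne, ?_⟩
      have h3 := hbr _ hX (single i j 1) (trace_single_ne hne)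
      have e : X₀ * single i j 1 - single i j 1 * X₀ = (X₀ i i - X₀ j j) • single i j (1 : ℂ) := by
        ext p r
        rw [Matrix.sub_apply, Matrix.smul_apply, smul_eq_mul]
        by_cases hr : r = j
        · subst hr
          rw [mul_single_apply_same]
          by_cases hp : p = i
          · subst hp
            rw [single_mul_apply_same]
            simp
          · rw [single_mul_apply_of_ne (h := hp), hoff p i hp]
            simp [Ne.symm hp]
        · rw [mul_single_apply_of_ne (hbj := hr)]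
          by_cases hp : p = i
          · subst hp
            rw [single_mul_apply_same, hoff j r (Ne.symm hr)]
            simp [Ne.symm hr]
          · rw [single_mul_apply_of_ne (h := hp)]
            simp [Ne.symm hp]
      rw [e] at h3
      exact hsc _ _ (sub_ne_zero.2 hij) h3
  obtain ⟨i, j, hij, hE⟩ := h1
  have hsym : ∀ i j : Fin n, i ≠ j → single i j (1 : ℂ) ∈ V → single j i (1 : ℂ) ∈ V := by
    intro i j hij h2
    have h3 := hbr _ (hbr _ h2 (single j i 1) (trace_single_ne hij.symm)) (single j i 1)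
      (trace_single_ne hij.symm)
    have e : (single i j 1 * single j i 1 - single j i 1 * single i j 1) * single j i 1 -
        single j i 1 * (single i j 1 * single j i 1 - single j i 1 * single i j 1) =
        (-2 : ℂ) • single j i (1 : ℂ) := by
      rw [ss_eq, ss_eq, sub_mul, mul_sub, ss_eq, ss_eq, ss_ne hij, ss_ne hij, zero_sub, sub_zero,
        ← neg_add', ← two_smul ℂ, ← neg_smul]
    rw [e] at h3
    exact hsc _ _ (by norm_num) h3
  have hrow : ∀ i j k : Fin n, i ≠ j → i ≠ k → single i j (1 : ℂ) ∈ V → single i k (1 : ℂ) ∈ V := by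
    intro i j k hij hik h2
    by_cases hjk : j = k
    · rwa [← hjk]
    · have h3 := hbr _ h2 (single j k 1) (trace_single_ne hjk)
      rwa [← br_single hik] at h3
  have hall : ∀ k l : Fin n, k ≠ l → single k l (1 : ℂ) ∈ V := by
    intro k l hkl
    by_cases hki : k = i
    · subst hki
      exact hrow k j l hij hkl hE
    · -- E_ik, E_ki, E_kl
      exact hrow k i l hki hkl (hsym i k (Ne.symm hki) (hrow i j k hij (Ne.symm hki) hE))
  have hz : (0 : Matrix (Fin n) (Fin n) ℂ) ∈ V := by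
    have := hsmul 0 _ hX
    rwa [zero_smul] at this
  refine sl_induction (by omega) hz (fun X Y _ _ hX hY => hadd X hX Y hY)
    (fun c X _ hX => hsmul c X hX) hall fun k l hkl => ?_
  rw [br_diag]
  exact hbr _ (hall k l hkl) _ (trace_single_ne hkl.symm)

/-- If `x` acts on the traceless matrices by conjugation with bounded entries then `x` is bounded. -/
theorem bdd_of_ad (hn : 2 ≤ n) (C : ℝ) : ∃ C' : ℝ, ∀ x x' : Matrix (Fin n) (Fin n) ℂ, x * x' = 1 →
    x.det = 1 → (∀ i j : Fin n, i ≠ j → ∀ k l : Fin n,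
      ‖(x * single i j (1 : ℂ) * x' : Matrix (Fin n) (Fin n) ℂ) k l‖ ≤ C) →
    (∀ i j : Fin n, i ≠ j → ∀ k l : Fin n,
      ‖(x * (single i i (1 : ℂ) - single j j 1) * x' : Matrix (Fin n) (Fin n) ℂ) k l‖ ≤ C) →
    ∀ i j, ‖x i j‖ ≤ C' := by
  have hn0 : (0 : ℝ) < n := by exact_mod_cast (show 0 < n by omega)
  -- all products of entries
  refine ⟨(C + 1) * (2 * (n.factorial + 1)), fun x x' hx hd h1 h2 i j => ?_⟩
  have hC : 0 ≤ C := (norm_nonneg _).trans (h1 ⟨0, by omega⟩ ⟨1, by omega⟩ (by simp)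
    ⟨0, by omega⟩ ⟨0, by omega⟩)
  have hent : ∀ i j k l : Fin n,
      (x * single i j (1 : ℂ) * x' : Matrix (Fin n) (Fin n) ℂ) k l = x k i * x' j l := by
    intro i j k l
    rw [mul_apply, Finset.sum_eq_single j]
    · rw [mul_single_apply_same, mul_one]
    · intro b _ hb
      rw [mul_single_apply_of_ne (hbj := hb), zero_mul]
    · simp
  have hoff : ∀ i j k l : Fin n, i ≠ j → ‖x k i * x' j l‖ ≤ C := by
    intro i j k l hij
    rw [← hent]
    exact h1 i j hij k l
  have hdiag : ∀ i k l : Fin n, ‖x k i * x' i l‖ ≤ C + 1 := by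
    intro i k l
    have e1 : (n : ℂ) * (x k i * x' i l) = (1 : Matrix (Fin n) (Fin n) ℂ) k l +
        ∑ j : Fin n, (x k i * x' i l - x k j * x' j l) := by
      rw [← hx, mul_apply, Finset.sum_sub_distrib, Finset.sum_const, Finset.card_univ,
        Fintype.card_fin, nsmul_eq_mul]
      ring
    have e2 : ‖∑ j : Fin n, (x k i * x' i l - x k j * x' j l)‖ ≤ n * C := by
      refine (norm_sum_le _ _).trans ?_
      have : ∀ j ∈ (Finset.univ : Finset (Fin n)), ‖x k i * x' i l - x k j * x' j l‖ ≤ C := by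
        intro j _
        by_cases hij : i = j
        · subst hij
          rw [sub_self, norm_zero]
          exact hC
        · have := h2 i j hij k l
          rwa [mul_sub, sub_mul, Matrix.sub_apply, hent, hent] at this
      refine (Finset.sum_le_sum this).trans ?_
      rw [Finset.sum_const, Finset.card_univ, Fintype.card_fin, nsmul_eq_mul]
    have e3 : ‖(1 : Matrix (Fin n) (Fin n) ℂ) k l‖ ≤ 1 := by
      by_cases hkl : k = l
      · subst hkl
        simp
      · rw [one_apply_ne hkl]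
        simp
    have e4 : (n : ℝ) * ‖x k i * x' i l‖ ≤ n * (C + 1) := by
      have := congrArg norm e1
      rw [norm_mul, Complex.norm_natCast] at this
      rw [this]
      refine (norm_add_le _ _).trans ?_
      have hn1 : (1 : ℝ) ≤ n := by exact_mod_cast (show 1 ≤ n by omega)
      nlinarith
    exact le_of_mul_le_mul_left e4 hn0
  have hprod : ∀ i j k l : Fin n, ‖x k i‖ * ‖x' j l‖ ≤ C + 1 := by
    intro i j k l
    rw [← norm_mul]
    by_cases hij : i = j
    · subst hij
      exact hdiag i k l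
    · exact (hoff i j k l hij).trans (by linarith)
  -- an entry of `x'` of size at least `1 / (2 (n! + 1))`
  have hd' : x'.det = 1 := by
    have := congrArg det hx
    rwa [det_mul, hd, one_mul, det_one] at this
  have hbig : ∃ p r, 1 / (2 * ((n.factorial : ℝ) + 1)) ≤ ‖x' p r‖ := by
    by_contra hcon
    push Not at hcon
    have hε : (1 : ℝ) / (2 * ((n.factorial : ℝ) + 1)) ≤ 1 := by
      rw [div_le_one (by positivity)]
      have : (0 : ℝ) ≤ n.factorial := by positivity
      linarith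
    have hle : ‖x'.det‖ ≤ n.factorial * (1 / (2 * ((n.factorial : ℝ) + 1))) := by
      rw [det_apply']
      refine (norm_sum_le _ _).trans ?_
      have : ∀ σ ∈ (Finset.univ : Finset (Equiv.Perm (Fin n))),
          ‖(((Equiv.Perm.sign σ : ℤ) : ℂ)) * ∏ i, x' (σ i) i‖ ≤
            1 / (2 * ((n.factorial : ℝ) + 1)) := by
        intro σ _
        rw [norm_mul, norm_prod]
        have hs : ‖(((Equiv.Perm.sign σ : ℤ) : ℂ))‖ = 1 := by
          rcases Int.units_eq_one_or (Equiv.Perm.sign σ) with h | h <;> simp [h]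
        rw [hs, one_mul]
        let i₀ : Fin n := ⟨0, by omega⟩
        rw [← Finset.mul_prod_erase _ _ (Finset.mem_univ i₀)]
        have h3 : ∏ i ∈ Finset.univ.erase i₀, ‖x' (σ i) i‖ ≤ 1 :=
          Finset.prod_le_one (fun _ _ => norm_nonneg _) fun i _ => ((hcon _ _).le.trans hε)
        calc ‖x' (σ i₀) i₀‖ * ∏ i ∈ Finset.univ.erase i₀, ‖x' (σ i) i‖
            ≤ 1 / (2 * ((n.factorial : ℝ) + 1)) * 1 :=
              mul_le_mul (hcon _ _).le h3 (Finset.prod_nonneg fun _ _ => norm_nonneg _)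
                (by positivity)
          _ = _ := mul_one _
      refine (Finset.sum_le_sum this).trans ?_
      rw [Finset.sum_const, Finset.card_univ, Fintype.card_perm, Fintype.card_fin, nsmul_eq_mul]
    rw [hd', norm_one] at hle
    have h3 : (n.factorial : ℝ) * (1 / (2 * ((n.factorial : ℝ) + 1))) < 1 := by
      rw [mul_one_div, div_lt_one (by positivity)]
      have : (0 : ℝ) ≤ n.factorial := by positivity
      linarith
    linarith
  obtain ⟨p, r, hpr⟩ := hbig
  have h3 := hprod j p i r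
  have h4 : ‖x i j‖ * (1 / (2 * ((n.factorial : ℝ) + 1))) ≤ C + 1 :=
    (mul_le_mul_of_nonneg_left hpr (norm_nonneg _)).trans h3
  rw [mul_one_div, div_le_iff₀ (by positivity)] at h4
  exact h4

end Pool.Agent.Lib.MP_5d4057_al.VB.SlA

namespace Pool.Agent.Lib.MP_5d4057_al.VB

alias aut_sl := SlA.aut_sl

alias twist_of_aut := SlA.twist_of_aut

alias ideal_sl := SlA.ideal_sl

alias bdd_of_ad := SlA.bdd_of_ad

end Pool.Agent.Lib.MP_5d4057_al.VB
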