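import Mathlib

/-!
# VERB V1.4: matrices with bounded exponentials (Mathlib only)
-/

set_option autoImplicit false

namespace Pool.Agent.Lib.MP_5d4057_al.VB

open Matrix Filter Topology

variable {k : ℕ}

open scoped Matrix.Norms.Operator in
/-- The eigenvalues of a matrix with bounded exponentials are imaginary. -/
theorem neg_re {X : Matrix (Fin k) (Fin k) ℂ} {C : ℝ}
    (h : ∀ t : ℝ, ‖NormedSpace.exp ((t : ℂ) • X)‖ ≤ C) {z : ℂ} (hz : z ∈ spectrum ℂ X) :
    z.re = 0 := by
  by_contra hne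
  set M : ℝ := C * ‖(1 : Matrix (Fin k) (Fin k) ℂ)‖ with hM
  set s : ℝ := |M| + 1 with hs
  have hs0 : 0 < s := by positivity
  set t : ℝ := s / z.re with ht
  have ht0 : t ≠ 0 := div_ne_zero hs0.ne' hne
  have h1 : (t : ℂ) • z ∈ spectrum ℂ ((t : ℂ) • X) := by
    have hu : (t : ℂ) ≠ 0 := Complex.ofReal_ne_zero.2 ht0
    have := (spectrum.smul_mem_smul_iff (R := ℂ) (a := X) (s := z) (r := Units.mk0 (t : ℂ) hu)).2 hz
    exact this
  have h2 := spectrum.exp_mem_exp ((t : ℂ) • X) h1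
  have h3 := spectrum.norm_le_norm_mul_of_mem h2
  have h4 : ‖NormedSpace.exp ((t : ℂ) • z)‖ = Real.exp s := by
    rw [← Complex.exp_eq_exp_ℂ, Complex.norm_exp, smul_eq_mul, Complex.re_ofReal_mul, ht,
      div_mul_cancel₀ _ hne]
  have h5 : Real.exp s ≤ M := by
    rw [← h4, hM]
    exact h3.trans (mul_le_mul_of_nonneg_right (h t) (norm_nonneg _))
  have h6 := Real.add_one_le_exp s
  have h7 := le_abs_self M
  rw [hs] at h5 h6
  linarith

open scoped Matrix.Norms.Operator in
/-- A nilpotent matrix with bounded exponentials is zero. -/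
theorem neg_nil {X : Matrix (Fin k) (Fin k) ℂ} {C : ℝ}
    (h : ∀ t : ℝ, ‖NormedSpace.exp ((t : ℂ) • X)‖ ≤ C) (hX : IsNilpotent X) : X = 0 := by
  by_contra hne
  classical
  obtain ⟨j, hj1, hj2⟩ : ∃ j : ℕ, X ^ (j + 1) ≠ 0 ∧ X ^ (j + 2) = 0 := by
    have hex : ∃ n, X ^ n = 0 := hX
    set n := Nat.find hex with hn
    have h0 : X ^ n = 0 := Nat.find_spec hex
    have h1 : n ≠ 0 := by
      intro h1
      rw [h1, pow_zero] at h0
      exact hne (by rw [← mul_one X, h0, mul_zero])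
    have h2 : n ≠ 1 := by
      intro h2
      rw [h2, pow_one] at h0
      exact hne h0
    obtain ⟨j, hj⟩ : ∃ j, n = j + 2 := ⟨n - 2, by omega⟩
    refine ⟨j, Nat.find_min hex (by omega), ?_⟩
    rw [← hj]
    exact h0
  have hd : ∀ t : ℂ, HasDerivAt (fun u : ℂ => NormedSpace.exp (u • X))
      (NormedSpace.exp (t • X) * X) t := fun t => hasDerivAt_exp_smul_const (𝕂 := ℂ) X t
  have g1 : ∀ t : ℂ, NormedSpace.exp (t • X) * X ^ (j + 1) = X ^ (j + 1) := by
    have hd1 : ∀ t : ℂ, HasDerivAt (fun u : ℂ => NormedSpace.exp (u • X) * X ^ (j + 1)) 0 t := by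
      intro t
      have := (hd t).mul_const (X ^ (j + 1))
      rwa [mul_assoc, ← pow_succ', hj2, mul_zero] at this
    intro t
    have := is_const_of_deriv_eq_zero (fun u => (hd1 u).differentiableAt)
      (fun u => (hd1 u).deriv) t 0
    rw [this, zero_smul, NormedSpace.exp_zero, one_mul]
  have g2 : ∀ t : ℂ, NormedSpace.exp (t • X) * X ^ j - t • X ^ (j + 1) = X ^ j := by
    have hd1 : ∀ t : ℂ, HasDerivAt
        (fun u : ℂ => NormedSpace.exp (u • X) * X ^ j - u • X ^ (j + 1)) 0 t := by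
      intro t
      have h1 := (hd t).mul_const (X ^ j)
      have h2 := (hasDerivAt_id t).smul_const (X ^ (j + 1))
      have h3 := h1.sub h2
      rw [mul_assoc, ← pow_succ', g1, one_smul, sub_self] at h3
      exact h3
    intro t
    have := is_const_of_deriv_eq_zero (fun u => (hd1 u).differentiableAt)
      (fun u => (hd1 u).deriv) t 0
    rw [this, zero_smul, NormedSpace.exp_zero, one_mul, zero_smul, sub_zero]
  have hb : ∀ t : ℝ, |t| * ‖X ^ (j + 1)‖ ≤ C * ‖X ^ j‖ + ‖X ^ j‖ := by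
    intro t
    have e1 : ((t : ℂ)) • X ^ (j + 1) = NormedSpace.exp ((t : ℂ) • X) * X ^ j - X ^ j := by
      rw [← g2 t]
      rw [g2 t]
      have := g2 t
      rw [sub_eq_iff_eq_add] at this
      rw [this]
      abel
    have e2 : |t| * ‖X ^ (j + 1)‖ = ‖((t : ℂ)) • X ^ (j + 1)‖ := by
      rw [norm_smul, Complex.norm_real, Real.norm_eq_abs]
    rw [e2, e1]
    refine (norm_sub_le _ _).trans (add_le_add ?_ le_rfl)
    exact (norm_mul_le _ _).trans (mul_le_mul_of_nonneg_right (h t) (norm_nonneg _))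
  have hp : 0 < ‖X ^ (j + 1)‖ := norm_pos_iff.2 hj1
  set R : ℝ := C * ‖X ^ j‖ + ‖X ^ j‖ with hR
  have h8 := hb ((|R| + 1) / ‖X ^ (j + 1)‖)
  rw [abs_of_nonneg (by positivity), div_mul_cancel₀ _ hp.ne'] at h8
  have h9 := le_abs_self R
  linarith

theorem neg_ms (s : Multiset ℂ) (h : ∀ μ ∈ s, μ.re ≤ 0) : (s.map Complex.re).sum ≤ 0 := by
  induction s using Multiset.induction_on with
  | empty => simp
  | cons a s ih =>
    rw [Multiset.map_cons, Multiset.sum_cons]
    have h1 := h a (Multiset.mem_cons_self a s)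
    have h2 := ih fun μ hμ => h μ (Multiset.mem_cons_of_mem hμ)
    linarith

open scoped Matrix.Norms.Operator in
theorem neg_cx {X : Matrix (Fin k) (Fin k) ℂ} {C : ℝ}
    (h : ∀ t : ℝ, ‖NormedSpace.exp ((t : ℂ) • X)‖ ≤ C) :
    (X * X).trace.re ≤ 0 ∧ ((X * X).trace = 0 → X = 0) := by
  have hsq : ∀ μ ∈ (X * X).charpoly.roots, ∃ z ∈ spectrum ℂ X, μ = z ^ 2 := by
    intro μ hμ
    have h1 : μ ∈ spectrum ℂ (X ^ 2) := by
      rw [pow_two]
      exact Matrix.mem_spectrum_of_isRoot_charpoly (Polynomial.isRoot_of_mem_roots hμ)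
    rw [spectrum.map_pow_of_pos X (by norm_num : 0 < 2)] at h1
    obtain ⟨z, hz, hz2⟩ := h1
    exact ⟨z, hz, hz2.symm⟩
  have hre : ∀ μ ∈ (X * X).charpoly.roots, μ.re ≤ 0 ∧ (μ.re = 0 → μ = 0) := by
    intro μ hμ
    obtain ⟨z, hz, rfl⟩ := hsq μ hμ
    have hz0 := neg_re h hz
    have e : (z ^ 2).re = -(z.im ^ 2) := by
      rw [pow_two, Complex.mul_re, hz0]
      ring
    refine ⟨by rw [e]; nlinarith [sq_nonneg z.im], fun h0 => ?_⟩
    rw [e] at h0
    have h1 : z.im = 0 := by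
      have : z.im ^ 2 = 0 := by linarith
      exact pow_eq_zero_iff (two_ne_zero) |>.1 this
    have h2 : z = 0 := Complex.ext hz0 h1
    rw [h2]
    norm_num
  have htr : (X * X).trace = (X * X).charpoly.roots.sum := Matrix.trace_eq_sum_roots_charpoly _
  have hsum : (X * X).trace.re = ((X * X).charpoly.roots.map Complex.re).sum := by
    rw [htr]
    exact map_multiset_sum Complex.reAddGroupHom _
  refine ⟨?_, fun h0 => ?_⟩
  · rw [hsum]
    exact neg_ms _ fun μ hμ => (hre μ hμ).1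
  · have h1 : ((X * X).charpoly.roots.map Complex.re).sum = 0 := by rw [← hsum, h0, Complex.zero_re]
    have h2 : ∀ μ ∈ (X * X).charpoly.roots, μ = 0 := by
      intro μ hμ
      refine (hre μ hμ).2 ?_
      refine le_antisymm (hre μ hμ).1 ?_
      by_contra hlt
      rw [not_le] at hlt
      obtain ⟨s, hs⟩ := Multiset.exists_cons_of_mem hμ
      rw [hs, Multiset.map_cons, Multiset.sum_cons] at h1
      have h3 : (s.map Complex.re).sum ≤ 0 :=
        neg_ms _ fun ν hν => (hre ν (by rw [hs]; exact Multiset.mem_cons_of_mem hν)).1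
      linarith
    obtain ⟨n, h4⟩ : ∃ n, (X * X).charpoly.roots = Multiset.replicate n 0 :=
      ⟨_, Multiset.eq_replicate_card.2 h2⟩
    have h5 := (IsAlgClosed.splits (X * X).charpoly).eq_prod_roots_of_monic (X * X).charpoly_monic
    rw [h4, Multiset.map_replicate, Multiset.prod_replicate, Polynomial.C_0, sub_zero] at h5
    have h6 := Matrix.aeval_self_charpoly (X * X)
    rw [h5, map_pow, Polynomial.aeval_X] at h6
    have h7 : IsNilpotent X := by
      refine ⟨2 * n, ?_⟩
      rw [pow_mul, pow_two]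
      exact h6
    exact neg_nil h h7

open scoped Matrix.Norms.Operator in
theorem neg_rl {X : Matrix (Fin k) (Fin k) ℝ} {C : ℝ}
    (h : ∀ (t : ℝ) (i j : Fin k), |NormedSpace.exp (t • X) i j| ≤ C) :
    (X * X).trace ≤ 0 ∧ ((X * X).trace = 0 → X = 0) := by
  let f : Matrix (Fin k) (Fin k) ℝ →+* Matrix (Fin k) (Fin k) ℂ := Complex.ofRealHom.mapMatrix
  have hf : Continuous f := by
    refine continuous_matrix fun i j => ?_
    have h1 : Continuous fun A : Matrix (Fin k) (Fin k) ℝ => A i j := continuous_apply_apply i j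
    exact Complex.continuous_ofReal.comp h1
  have hexp : ∀ t : ℝ, NormedSpace.exp ((t : ℂ) • f X) = f (NormedSpace.exp (t • X)) := by
    intro t
    have h1 := NormedSpace.map_exp f hf (t • X)
    have h2 : f (t • X) = (t : ℂ) • f X := by
      ext i j
      simp [f]
    rw [← h2]
    exact h1.symm
  have hC : ∀ t : ℝ, ‖NormedSpace.exp ((t : ℂ) • f X)‖ ≤
      ∑ i : Fin k, ∑ j : Fin k, C * ‖Matrix.single i j (1 : ℂ)‖ := by
    intro t
    rw [hexp, Matrix.matrix_eq_sum_single (f (NormedSpace.exp (t • X)))]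
    refine (norm_sum_le _ _).trans (Finset.sum_le_sum fun i _ => ?_)
    refine (norm_sum_le _ _).trans (Finset.sum_le_sum fun j _ => ?_)
    have h1 : Matrix.single i j (f (NormedSpace.exp (t • X)) i j) =
        (f (NormedSpace.exp (t • X)) i j) • Matrix.single i j (1 : ℂ) := by
      rw [Matrix.smul_single, smul_eq_mul, mul_one]
    rw [h1, norm_smul]
    refine mul_le_mul_of_nonneg_right ?_ (norm_nonneg _)
    have h2 : f (NormedSpace.exp (t • X)) i j = ((NormedSpace.exp (t • X) i j : ℝ) : ℂ) := rfl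
    rw [h2, Complex.norm_real, Real.norm_eq_abs]
    exact h t i j
  obtain ⟨h1, h2⟩ := neg_cx hC
  have h3 : (f X * f X).trace = ((X * X).trace : ℂ) := by
    rw [← map_mul]
    exact (AddMonoidHom.map_trace Complex.ofRealHom (X * X)).symm
  rw [h3] at h1 h2
  refine ⟨by simpa using h1, fun h0 => ?_⟩
  have h4 := h2 (by rw [h0, Complex.ofReal_zero])
  ext i j
  have h5 := congrFun (congrFun h4 i) j
  have h6 : f X i j = ((X i j : ℝ) : ℂ) := rfl
  rw [h6] at h5
  exact Complex.ofReal_eq_zero.1 h5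

/-- If `exp (t X)` stays bounded (`t` real) then `X` is diagonalisable over `ℂ` with imaginary eigenvalues, so `tr X² ≤ 0` with equality only for
`X = 0`. -/
theorem tr_sq_neg {X : Matrix (Fin k) (Fin k) ℝ} {C : ℝ}
    (h : ∀ (t : ℝ) (i j : Fin k), |NormedSpace.exp (t • X) i j| ≤ C) :
    (X * X).trace ≤ 0 ∧ ((X * X).trace = 0 → X = 0) :=
  neg_rl h

end Pool.Agent.Lib.MP_5d4057_al.VB
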