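import Pool.Agent.Lib.MP_5d4057_al.VB.Lie
import Pool.Agent.Lib.MP_5d4057_al.VB.Neg
import Mathlib.Analysis.Matrix.Normed

/-!
# VERB V1.6: conjugation is bounded on the kernel of the differential (owner: helper1)

On `ker D` the form `- tr (X ^ 2)` is positive definite and invariant under conjugation.
-/

set_option autoImplicit false

namespace Pool.Agent.Lib.MP_5d4057_al.VB

open Matrix Pool.Agent.Lib.MP_5d4057_al Pool.Agent.Lib.MP_5d4057_al.Hyb

variable {N m : ℕ} {H : AlgGroup N}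

open scoped Matrix.Norms.Elementwise in
/-- A positive definite quadratic form on a subspace of matrices bounds the entries. -/
theorem exists_form_bd (K : Submodule ℝ (Matrix (Fin N) (Fin N) ℝ))
    (hK : ∀ X ∈ K, (X * X).trace ≤ 0 ∧ ((X * X).trace = 0 → X = 0)) :
    ∃ c : ℝ, 0 < c ∧ ∀ X ∈ K, ∀ i j, |X i j| ^ 2 ≤ c * -(X * X).trace := by
  have hQ : Continuous fun X : K => -((X : Matrix (Fin N) (Fin N) ℝ) * X).trace := by
    have : Continuous fun X : K => ((X : Matrix (Fin N) (Fin N) ℝ) * X) :=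
      (continuous_subtype_val.matrix_mul continuous_subtype_val)
    exact this.matrix_trace.neg
  by_cases hne : (Metric.sphere (0 : K) 1).Nonempty
  · have hcp : IsCompact (Metric.sphere (0 : K) 1) := isCompact_sphere 0 1
    obtain ⟨X₀, hX₀, hmin⟩ := hcp.exists_isMinOn hne hQ.continuousOn
    set q : ℝ := -((X₀ : Matrix (Fin N) (Fin N) ℝ) * X₀).trace with hq
    have hq0 : 0 < q := by
      have h1 := hK X₀ X₀.2
      rcases lt_or_eq_of_le h1.1 with h | h
      · rw [hq]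
        linarith
      · exfalso
        have h2 : (X₀ : Matrix (Fin N) (Fin N) ℝ) = 0 := h1.2 h
        have h3 : X₀ = 0 := Subtype.ext h2
        rw [h3] at hX₀
        simp at hX₀
    refine ⟨q⁻¹, inv_pos.2 hq0, ?_⟩
    intro X hX i j
    by_cases h0 : X = 0
    · subst h0
      simp
    have hn : 0 < ‖X‖ := norm_pos_iff.2 h0
    have hmem : (‖X‖⁻¹ • (⟨X, hX⟩ : K)) ∈ Metric.sphere (0 : K) 1 := by
      rw [mem_sphere_zero_iff_norm, norm_smul, norm_inv, norm_norm]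
      exact inv_mul_cancel₀ hn.ne'
    have h1 : q ≤ -(((‖X‖⁻¹ • (⟨X, hX⟩ : K) : K) : Matrix (Fin N) (Fin N) ℝ) *
        ((‖X‖⁻¹ • (⟨X, hX⟩ : K) : K) : Matrix (Fin N) (Fin N) ℝ)).trace := hmin hmem
    have h2 : -(((‖X‖⁻¹ • (⟨X, hX⟩ : K) : K) : Matrix (Fin N) (Fin N) ℝ) *
        ((‖X‖⁻¹ • (⟨X, hX⟩ : K) : K) : Matrix (Fin N) (Fin N) ℝ)).trace =
        (‖X‖⁻¹) ^ 2 * -(X * X).trace := by
      show -((‖X‖⁻¹ • X) * (‖X‖⁻¹ • X)).trace = _
      rw [Matrix.smul_mul, Matrix.mul_smul, Matrix.trace_smul, Matrix.trace_smul, smul_eq_mul,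
        smul_eq_mul]
      ring
    rw [h2] at h1
    have h3 : q * ‖X‖ ^ 2 ≤ -(X * X).trace := by
      have h4 : (‖X‖⁻¹) ^ 2 * -(X * X).trace * ‖X‖ ^ 2 = -(X * X).trace := by
        field_simp
      nlinarith [mul_le_mul_of_nonneg_right h1 (sq_nonneg ‖X‖)]
    have h5 : |X i j| ≤ ‖X‖ := by
      have := Matrix.norm_entry_le_entrywise_sup_norm X (i := i) (j := j)
      rwa [Real.norm_eq_abs] at this
    calc |X i j| ^ 2 ≤ ‖X‖ ^ 2 := by gcongr
      _ = q⁻¹ * (q * ‖X‖ ^ 2) := by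
          rw [← mul_assoc, inv_mul_cancel₀ hq0.ne', one_mul]
      _ ≤ q⁻¹ * -(X * X).trace := by
          have := inv_pos.2 hq0
          gcongr
  · refine ⟨1, one_pos, ?_⟩
    intro X hX i j
    have h0 : X = 0 := by
      by_contra h0
      have hn : 0 < ‖X‖ := norm_pos_iff.2 h0
      refine hne ⟨‖X‖⁻¹ • (⟨X, hX⟩ : K), ?_⟩
      rw [mem_sphere_zero_iff_norm, norm_smul, norm_inv, norm_norm]
      exact inv_mul_cancel₀ hn.ne'
    subst h0
    simp

theorem mr_mul_inv (h : H.real0) : mr h * mr h⁻¹ = 1 := by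
  have h1 : (h.1.1 : GL (Fin N) ℝ) * (h⁻¹).1.1 = 1 := by
    have := congrArg (fun z : H.real0 => (z.1.1 : GL (Fin N) ℝ)) (mul_inv_cancel h)
    exact this
  exact congrArg Units.val h1

theorem mr_inv_mul (h : H.real0) : mr h⁻¹ * mr h = 1 := mul_eq_one_comm.1 (mr_mul_inv h)

/-- The entries of the elements of a compact subset of `H(ℝ)⁰` are bounded. -/
theorem exists_entry_bd {S : Set H.real0} (hS : IsCompact S) :
    ∃ C : ℝ, ∀ h ∈ S, ∀ i j, |mr h i j| ≤ C := by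
  have hc : Continuous fun h : H.real0 => mr h :=
    Units.continuous_val.comp (continuous_subtype_val.comp continuous_subtype_val)
  have h1 : ∀ i j, ∃ C : ℝ, ∀ h ∈ S, |mr h i j| ≤ C := by
    intro i j
    have h2 : Continuous fun h : H.real0 => mr h i j :=
      (continuous_apply j).comp ((continuous_apply i).comp hc)
    obtain ⟨C, hC⟩ := hS.exists_bound_of_continuousOn h2.continuousOn
    exact ⟨C, fun h hh => by simpa [Real.norm_eq_abs] using hC h hh⟩
  choose C hC using h1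
  refine ⟨∑ i, ∑ j, |C i j|, fun h hh i j => ?_⟩
  calc |mr h i j| ≤ C i j := hC i j h hh
    _ ≤ |C i j| := le_abs_self _
    _ ≤ ∑ j, |C i j| := Finset.single_le_sum (f := fun j => |C i j|)
        (fun _ _ => abs_nonneg _) (Finset.mem_univ j)
    _ ≤ ∑ i, ∑ j, |C i j| := Finset.single_le_sum (f := fun i => ∑ j, |C i j|)
        (fun _ _ => Finset.sum_nonneg fun _ _ => abs_nonneg _) (Finset.mem_univ i)

/-- Conjugation by `H(ℝ)⁰` is bounded on the kernel of the differential. -/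
theorem bd_ker {φ : H.real0 →* SUGroup m} (hk : IsCompact (φ.ker : Set H.real0))
    (D : H.lieR →ₗ[ℝ] Matrix (Fin (m + 1)) (Fin (m + 1)) ℂ)
    (hexp : ∀ X : H.lieR, D X = 0 → ∀ (h : H.real0) (t : ℝ),
      mr h = NormedSpace.exp (t • (X : Matrix (Fin N) (Fin N) ℝ)) → φ h = 1)
    (hst : ∀ (h : H.real0) (X Y : H.lieR), (Y : Matrix (Fin N) (Fin N) ℝ) =
      mr h * X.1 * mr h⁻¹ → D X = 0 → D Y = 0) :
    ∀ X : H.lieR, D X = 0 → ∃ C : ℝ, ∀ (h : H.real0) (i j : Fin N),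
      |(mr h * X.1 * mr h⁻¹) i j| ≤ C := by
  obtain ⟨B, hB⟩ := exists_entry_bd hk
  have hK : ∀ X ∈ (LinearMap.ker D).map H.lieR.subtype,
      (X * X).trace ≤ 0 ∧ ((X * X).trace = 0 → X = 0) := by
    rintro _ ⟨X, hX, rfl⟩
    have hX0 : D X = 0 := hX
    refine tr_sq_neg (C := B) fun t i j => ?_
    obtain ⟨e, -, -, -, he⟩ := exists_exp0 X.2
    have h1 := hB (e t) (hexp X hX0 (e t) t (he t)) i j
    rwa [he t] at h1
  obtain ⟨c, hc0, hc⟩ := exists_form_bd _ hK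
  intro X hX
  refine ⟨Real.sqrt (c * -(X.1 * X.1).trace), fun h i j => ?_⟩
  have h1 : mr h * X.1 * mr h⁻¹ ∈ (LinearMap.ker D).map H.lieR.subtype :=
    ⟨⟨_, lieR_conj X.2 h⟩, hst h X ⟨_, lieR_conj X.2 h⟩ rfl hX, rfl⟩
  have h2 := hc _ h1 i j
  have h3 : (mr h * X.1 * mr h⁻¹ * (mr h * X.1 * mr h⁻¹)).trace = (X.1 * X.1).trace := by
    have e : mr h * X.1 * mr h⁻¹ * (mr h * X.1 * mr h⁻¹) = mr h * (X.1 * X.1) * mr h⁻¹ := by
      calc mr h * X.1 * mr h⁻¹ * (mr h * X.1 * mr h⁻¹)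
          = mr h * X.1 * (mr h⁻¹ * mr h) * X.1 * mr h⁻¹ := by simp only [Matrix.mul_assoc]
        _ = mr h * (X.1 * X.1) * mr h⁻¹ := by
            rw [mr_inv_mul, Matrix.mul_one, Matrix.mul_assoc (mr h) X.1 X.1]
    rw [e, Matrix.trace_mul_comm, ← Matrix.mul_assoc, mr_inv_mul, Matrix.one_mul]
  rw [h3] at h2
  exact Real.le_sqrt_of_sq_le h2

end Pool.Agent.Lib.MP_5d4057_al.VB
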