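import Mathlib

/-!
# VERB: a bounded group of complex matrices preserves a positive definite Hermitian form
-/

set_option autoImplicit false

namespace Pool.Agent.Lib.MP_5d4057_al.VB

open Matrix ComplexOrder

variable {n : ℕ}

/-- The square of the Hilbert-Schmidt norm. -/
private noncomputable def hs (X : Matrix (Fin n) (Fin n) ℂ) : ℝ := ∑ i, ∑ j, ‖X i j‖ ^ 2

private theorem hs_nonneg (X : Matrix (Fin n) (Fin n) ℂ) : 0 ≤ hs X :=
  Finset.sum_nonneg fun _ _ => Finset.sum_nonneg fun _ _ => by positivity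

private theorem hs_entry (X : Matrix (Fin n) (Fin n) ℂ) (i j : Fin n) : ‖X i j‖ ^ 2 ≤ hs X :=
  (Finset.single_le_sum (f := fun j => ‖X i j‖ ^ 2) (fun _ _ => by positivity)
    (Finset.mem_univ j)).trans
    (Finset.single_le_sum (f := fun i => ∑ j, ‖X i j‖ ^ 2)
      (fun _ _ => Finset.sum_nonneg fun _ _ => by positivity) (Finset.mem_univ i))

private theorem hs_eq_zero {X : Matrix (Fin n) (Fin n) ℂ} (h : hs X ≤ 0) : X = 0 := by
  ext i j
  have h1 := (hs_entry X i j).trans h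
  have h2 : ‖X i j‖ ^ 2 = 0 := le_antisymm h1 (by positivity)
  simpa using h2

private theorem hs_para (X Y : Matrix (Fin n) (Fin n) ℂ) :
    hs (((1 / 2 : ℝ) : ℂ) • (X + Y)) + hs (((1 / 2 : ℝ) : ℂ) • (X - Y)) = (hs X + hs Y) / 2 := by
  have h : ∀ a b : ℂ, ‖((1 / 2 : ℝ) : ℂ) * (a + b)‖ ^ 2 + ‖((1 / 2 : ℝ) : ℂ) * (a - b)‖ ^ 2 =
      (‖a‖ ^ 2 + ‖b‖ ^ 2) / 2 := by
    intro a b
    simp only [Complex.sq_norm, Complex.normSq_apply, Complex.mul_re, Complex.mul_im,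
      Complex.add_re, Complex.add_im, Complex.sub_re, Complex.sub_im, Complex.ofReal_re,
      Complex.ofReal_im]
    ring
  simp only [hs, ← Finset.sum_add_distrib, Finset.sum_div]
  refine Finset.sum_congr rfl fun i _ => Finset.sum_congr rfl fun j _ => ?_
  simpa using h (X i j) (Y i j)

private theorem hs_cont : Continuous (hs (n := n)) := by
  unfold hs
  fun_prop

private theorem cs (u v : Fin n → ℂ) :
    ‖∑ k, u k * v k‖ ^ 2 ≤ (∑ k, ‖u k‖ ^ 2) * ∑ k, ‖v k‖ ^ 2 := by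
  have h1 : ‖∑ k, u k * v k‖ ≤ ∑ k, ‖u k‖ * ‖v k‖ := by
    refine (norm_sum_le _ _).trans (le_of_eq ?_)
    exact Finset.sum_congr rfl fun k _ => norm_mul _ _
  exact (pow_le_pow_left₀ (norm_nonneg _) h1 2).trans
    (Finset.sum_mul_sq_le_sq_mul_sq _ _ _)

private theorem hs_mul (X Y : Matrix (Fin n) (Fin n) ℂ) : hs (X * Y) ≤ hs X * hs Y := by
  have h2 : hs Y = ∑ j, ∑ k, ‖Y k j‖ ^ 2 := Finset.sum_comm
  rw [h2, hs, hs, Finset.sum_mul_sum]
  refine Finset.sum_le_sum fun i _ => Finset.sum_le_sum fun j _ => ?_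
  rw [Matrix.mul_apply]
  exact cs _ _

private theorem hs_conjT (X : Matrix (Fin n) (Fin n) ℂ) : hs Xᴴ = hs X := by
  have h2 : hs X = ∑ j, ∑ k, ‖X k j‖ ^ 2 := Finset.sum_comm
  rw [h2, hs]
  simp

private theorem vec_mul (X : Matrix (Fin n) (Fin n) ℂ) (v : Fin n → ℂ) :
    ∑ i, ‖(X *ᵥ v) i‖ ^ 2 ≤ hs X * ∑ k, ‖v k‖ ^ 2 := by
  rw [hs, Finset.sum_mul]
  exact Finset.sum_le_sum fun i _ => cs _ _

private theorem dot_self (v : Fin n → ℂ) : (star v ⬝ᵥ v).re = ∑ i, ‖v i‖ ^ 2 := by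
  simp only [dotProduct, Complex.re_sum, Pi.star_apply]
  refine Finset.sum_congr rfl fun i _ => ?_
  rw [Complex.sq_norm, Complex.normSq_apply]
  simp

private theorem star_dot (v w : Fin n → ℂ) : star (star v ⬝ᵥ w) = star w ⬝ᵥ v := by
  simp [dotProduct, mul_comm]

/-- A bounded set of matrices which is closed under products and inverses preserves a positive
definite Hermitian form. -/
theorem exists_form_of_bdd {S : Set (Matrix (Fin n) (Fin n) ℂ)} (h1 : (1 : Matrix (Fin n) (Fin n) ℂ) ∈ S)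
    (hm : ∀ a ∈ S, ∀ b ∈ S, a * b ∈ S) (hi : ∀ a ∈ S, ∃ b ∈ S, a * b = 1)
    {C : ℝ} (hb : ∀ a ∈ S, ∀ i j, ‖a i j‖ ≤ C) :
    ∃ Z : Matrix (Fin n) (Fin n) ℂ, Z.PosDef ∧ ∀ a ∈ S, a * Z * aᴴ = Z := by
  classical
  obtain ⟨M, hM0, hM⟩ : ∃ M : ℝ, 0 < M ∧ ∀ a ∈ S, hs a ≤ M := by
    refine ⟨∑ i : Fin n, ∑ j : Fin n, C ^ 2 + 1, by positivity, fun a ha => ?_⟩
    have h : hs a ≤ ∑ i : Fin n, ∑ j : Fin n, C ^ 2 :=
      Finset.sum_le_sum fun i _ => Finset.sum_le_sum fun j _ =>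
        pow_le_pow_left₀ (norm_nonneg _) (hb a ha i j) 2
    linarith
  have hact : ∀ a ∈ S, ∀ X, hs (a * X * aᴴ) ≤ M ^ 2 * hs X := by
    intro a ha X
    have h2 := hM a ha
    have h3 := hs_nonneg a
    have h4 := hs_nonneg X
    calc hs (a * X * aᴴ) ≤ hs (a * X) * hs aᴴ := hs_mul _ _
      _ ≤ (hs a * hs X) * hs a := by
          rw [hs_conjT]
          exact mul_le_mul_of_nonneg_right (hs_mul _ _) h3
      _ ≤ (M * hs X) * M := by gcongr
      _ = M ^ 2 * hs X := by ring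
  have hinv : ∀ a ∈ S, ∀ X, hs X ≤ M ^ 2 * hs (a * X * aᴴ) := by
    intro a ha X
    obtain ⟨b, hb', hab⟩ := hi a ha
    have hba : b * a = 1 := mul_eq_one_comm.mp hab
    have h2 : b * (a * X * aᴴ) * bᴴ = X := by
      calc b * (a * X * aᴴ) * bᴴ = (b * a) * X * (b * a)ᴴ := by
            rw [conjTranspose_mul]; simp only [Matrix.mul_assoc]
        _ = X := by rw [hba, conjTranspose_one, Matrix.one_mul, Matrix.mul_one]
    calc hs X = hs (b * (a * X * aᴴ) * bᴴ) := by rw [h2]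
      _ ≤ _ := hact b hb' _
  let p : Matrix (Fin n) (Fin n) ℂ → ℝ := fun X => ⨆ a : S, hs (a.1 * X * a.1ᴴ)
  have hbd : ∀ X, BddAbove (Set.range fun a : S => hs (a.1 * X * a.1ᴴ)) := fun X =>
    ⟨M ^ 2 * hs X, by rintro _ ⟨a, rfl⟩; exact hact a.1 a.2 X⟩
  have hne : Nonempty S := ⟨⟨1, h1⟩⟩
  have hple : ∀ a ∈ S, ∀ X, hs (a * X * aᴴ) ≤ p X := fun a ha X => le_ciSup (hbd X) ⟨a, ha⟩
  have hp1 : ∀ X, hs X ≤ p X := fun X => by simpa using hple 1 h1 X
  have hlsc : LowerSemicontinuous p := by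
    refine lowerSemicontinuous_ciSup hbd fun a => Continuous.lowerSemicontinuous ?_
    exact hs_cont.comp (by fun_prop)
  -- the convex set
  let T : Set (Matrix (Fin n) (Fin n) ℂ) := {Z | Zᴴ = Z ∧ ∀ a ∈ S, ∀ v : Fin n → ℂ,
    (star v ⬝ᵥ v).re ≤ (star v ⬝ᵥ ((a * Z * aᴴ) *ᵥ v)).re}
  have hTc : IsClosed T := by
    refine IsClosed.and (isClosed_eq (by fun_prop) (by fun_prop)) ?_
    simp only [Set.ofPred_forall]
    refine isClosed_iInter fun a => isClosed_iInter fun ha => isClosed_iInter fun v => ?_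
    refine isClosed_le (by fun_prop) ?_
    refine Complex.continuous_re.comp ?_
    refine Continuous.dotProduct (by fun_prop) ?_
    exact Continuous.matrix_mulVec (by fun_prop) (by fun_prop)
  -- an element of the set
  have hZ0 : ((M : ℂ) • (1 : Matrix (Fin n) (Fin n) ℂ)) ∈ T := by
    refine ⟨by simp [conjTranspose_smul], fun a ha v => ?_⟩
    obtain ⟨b, hb', hab⟩ := hi a ha
    have h2 : bᴴ *ᵥ (aᴴ *ᵥ v) = v := by
      rw [Matrix.mulVec_mulVec, ← conjTranspose_mul, hab, conjTranspose_one, Matrix.one_mulVec]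
    have h3 : (star v ⬝ᵥ ((a * ((M : ℂ) • (1 : Matrix (Fin n) (Fin n) ℂ)) * aᴴ) *ᵥ v)) =
        (M : ℂ) * (star (aᴴ *ᵥ v) ⬝ᵥ (aᴴ *ᵥ v)) := by
      rw [Matrix.mul_smul, Matrix.mul_one, Matrix.smul_mul, Matrix.smul_mulVec, dotProduct_smul,
        smul_eq_mul, star_mulVec, conjTranspose_conjTranspose, ← Matrix.mulVec_mulVec,
        dotProduct_mulVec]
    rw [h3, Complex.re_ofReal_mul, dot_self, dot_self]
    calc ∑ i, ‖v i‖ ^ 2 = ∑ i, ‖(bᴴ *ᵥ (aᴴ *ᵥ v)) i‖ ^ 2 := by rw [h2]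
      _ ≤ hs bᴴ * ∑ i, ‖(aᴴ *ᵥ v) i‖ ^ 2 := vec_mul _ _
      _ ≤ M * ∑ i, ‖(aᴴ *ᵥ v) i‖ ^ 2 := by
          rw [hs_conjT]
          exact mul_le_mul_of_nonneg_right (hM b hb')
            (Finset.sum_nonneg fun _ _ => by positivity)
  let Z0 : Matrix (Fin n) (Fin n) ℂ := (M : ℂ) • 1
  -- the minimum
  have hKc : IsCompact (T ∩ {Z | hs Z ≤ p Z0}) := by
    have hbox : IsCompact (Set.pi Set.univ fun _ : Fin n => Set.pi Set.univ fun _ : Fin n =>
        Metric.closedBall (0 : ℂ) (Real.sqrt (p Z0))) :=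
      isCompact_univ_pi fun i => isCompact_univ_pi fun j => isCompact_closedBall _ _
    refine hbox.of_isClosed_subset (hTc.inter (isClosed_le hs_cont continuous_const)) ?_
    rintro Z ⟨-, hZ⟩ i - j -
    rw [Metric.mem_closedBall, dist_zero_right]
    exact Real.le_sqrt_of_sq_le ((hs_entry Z i j).trans hZ)
  have hKne : (T ∩ {Z | hs Z ≤ p Z0}).Nonempty := ⟨Z0, hZ0, hp1 Z0⟩
  obtain ⟨Z, hZK, hZmin⟩ := LowerSemicontinuousOn.exists_isMinOn hKne hKc
    (hlsc.lowerSemicontinuousOn _)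
  have hZT : Z ∈ T := hZK.1
  have hmin : ∀ W ∈ T, p Z ≤ p W := by
    intro W hW
    by_cases h : hs W ≤ p Z0
    · exact hZmin ⟨hW, h⟩
    · exact (hZmin ⟨hZ0, hp1 Z0⟩).trans ((not_le.1 h).le.trans (hp1 W))
  -- uniqueness
  have huniq : ∀ W ∈ T, p W ≤ p Z → W = Z := by
    intro W hW hWZ
    let V : Matrix (Fin n) (Fin n) ℂ := ((1 / 2 : ℝ) : ℂ) • (Z + W)
    have hV : V ∈ T := by
      refine ⟨?_, fun a ha v => ?_⟩
      · simp only [V, conjTranspose_smul, conjTranspose_add, hZT.1, hW.1]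
        simp
      · have h2 : (star v ⬝ᵥ ((a * V * aᴴ) *ᵥ v)) = ((1 / 2 : ℝ) : ℂ) *
            ((star v ⬝ᵥ ((a * Z * aᴴ) *ᵥ v)) + (star v ⬝ᵥ ((a * W * aᴴ) *ᵥ v))) := by
          simp only [V]
          rw [Matrix.mul_smul, Matrix.smul_mul, Matrix.mul_add, Matrix.add_mul,
            Matrix.smul_mulVec, dotProduct_smul, smul_eq_mul, Matrix.add_mulVec, dotProduct_add]
        rw [h2, Complex.re_ofReal_mul, Complex.add_re]
        have h3 := hZT.2 a ha v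
        have h4 := hW.2 a ha v
        linarith
    have h2 : p V ≤ p Z - (M ^ 2)⁻¹ * hs (((1 / 2 : ℝ) : ℂ) • (Z - W)) := by
      refine ciSup_le fun a => ?_
      have h3 := hs_para (a.1 * Z * a.1ᴴ) (a.1 * W * a.1ᴴ)
      have h4 : ((1 / 2 : ℝ) : ℂ) • (a.1 * Z * a.1ᴴ + a.1 * W * a.1ᴴ) = a.1 * V * a.1ᴴ := by
        simp only [V]
        rw [Matrix.mul_smul, Matrix.smul_mul, Matrix.mul_add, Matrix.add_mul]
      have h5 : ((1 / 2 : ℝ) : ℂ) • (a.1 * Z * a.1ᴴ - a.1 * W * a.1ᴴ) =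
          a.1 * (((1 / 2 : ℝ) : ℂ) • (Z - W)) * a.1ᴴ := by
        rw [Matrix.mul_smul, Matrix.smul_mul, Matrix.mul_sub, Matrix.sub_mul]
      rw [h4, h5] at h3
      have h6 := hinv a.1 a.2 (((1 / 2 : ℝ) : ℂ) • (Z - W))
      have h7 : (M ^ 2)⁻¹ * hs (((1 / 2 : ℝ) : ℂ) • (Z - W)) ≤
          hs (a.1 * (((1 / 2 : ℝ) : ℂ) • (Z - W)) * a.1ᴴ) := by
        rw [inv_mul_le_iff₀ (by positivity)]
        exact h6
      have h8 := hple a.1 a.2 Z
      have h9 := hple a.1 a.2 W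
      linarith
    have h3 := hmin V hV
    have h4 : (M ^ 2)⁻¹ * hs (((1 / 2 : ℝ) : ℂ) • (Z - W)) ≤ 0 := by linarith
    have h5 : hs (((1 / 2 : ℝ) : ℂ) • (Z - W)) ≤ 0 := by
      have h6 : (0 : ℝ) < (M ^ 2)⁻¹ := by positivity
      by_contra h7
      exact absurd h4 (not_le.2 (mul_pos h6 (not_le.1 h7)))
    have h6 := hs_eq_zero h5
    have h7 : (((1 / 2 : ℝ) : ℂ)) ≠ 0 := by norm_num
    exact (sub_eq_zero.1 ((smul_eq_zero.1 h6).resolve_left h7)).symm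
  refine ⟨Z, ?_, fun a ha => huniq _ ⟨?_, fun b hb' v => ?_⟩ ?_⟩
  · refine Matrix.PosDef.of_dotProduct_mulVec_pos hZT.1 fun v hv => ?_
    have h2 := hZT.2 1 h1 v
    rw [Matrix.one_mul, conjTranspose_one, Matrix.mul_one] at h2
    have h3 : 0 < (star v ⬝ᵥ v).re := by
      rw [dot_self]
      obtain ⟨i, hi'⟩ := Function.ne_iff.1 hv
      refine Finset.sum_pos' (fun _ _ => by positivity) ⟨i, Finset.mem_univ i, ?_⟩
      have : 0 < ‖v i‖ := norm_pos_iff.2 hi'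
      positivity
    have h4 : (star v ⬝ᵥ (Z *ᵥ v)).im = 0 := by
      have h5 : star (star v ⬝ᵥ (Z *ᵥ v)) = star v ⬝ᵥ (Z *ᵥ v) := by
        rw [star_dot, star_mulVec, hZT.1, ← dotProduct_mulVec]
      exact Complex.conj_eq_iff_im.1 h5
    rw [Complex.lt_def]
    exact ⟨by simpa using h3.trans_le h2, by simpa using h4.symm⟩
  · rw [conjTranspose_mul, conjTranspose_mul, conjTranspose_conjTranspose, hZT.1,
      Matrix.mul_assoc]
  · have h2 := hZT.2 (b * a) (hm b hb' a ha) v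
    rw [conjTranspose_mul] at h2
    simpa only [Matrix.mul_assoc] using h2
  · refine ciSup_le fun b => ?_
    have h2 := hple (b.1 * a) (hm b.1 b.2 a ha) Z
    rw [conjTranspose_mul] at h2
    simpa only [Matrix.mul_assoc] using h2

end Pool.Agent.Lib.MP_5d4057_al.VB
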