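import Pool.Agent.Lib.MP_5d4057_al.Hyb.Arith
import Mathlib

/-!
# VERB V2: the basis of an order
-/

set_option autoImplicit false

namespace Pool.Agent.Lib.MP_5d4057_al.VB

open Matrix Pool.Agent.Lib.MP_5d4057_al Pool.Agent.Lib.MP_5d4057_al.Hyb

variable {m : ℕ} {K : Subfield ℂ} {A : Subalgebra K (Matrix (Fin (m + 1)) (Fin (m + 1)) ℂ)}
  {O : Subring (Matrix (Fin (m + 1)) (Fin (m + 1)) ℂ)}

/-- A basis of the order `O` over `ℤ`, which is a basis of the algebra `A` over `ℚ`. -/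
structure OBas (A : Subalgebra K (Matrix (Fin (m + 1)) (Fin (m + 1)) ℂ))
    (O : Subring (Matrix (Fin (m + 1)) (Fin (m + 1)) ℂ)) (N : ℕ)
    (b : Fin N → Matrix (Fin (m + 1)) (Fin (m + 1)) ℂ) : Prop where
  mem : ∀ k, b k ∈ A
  int : ∀ a, a ∈ O ↔ ∃ x : Fin N → ℤ, a = ∑ k, (x k : ℂ) • b k
  rat : ∀ a, a ∈ A ↔ ∃ x : Fin N → ℚ, a = ∑ k, (x k : ℂ) • b k
  inj : ∀ x : Fin N → ℚ, ∑ k, (x k : ℂ) • b k = 0 → x = 0

private theorem ob_int {k : ℕ} (z : ℤ) (a : Matrix (Fin k) (Fin k) ℂ) : z • a = (z : ℂ) • a := by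
  rw [Int.cast_smul_eq_zsmul]

private theorem ob_rat {k : ℕ} (z : ℚ) (a : Matrix (Fin k) (Fin k) ℂ) : z • a = (z : ℂ) • a := by
  rw [Rat.cast_smul_eq_qsmul]

theorem exists_obas (hO : IsOrder A O) :
    ∃ (N : ℕ) (b : Fin N → Matrix (Fin (m + 1)) (Fin (m + 1)) ℂ), OBas A O N b := by
  have hfin : Module.Finite ℤ O := by
    have h1 : AddGroup.FG O := (AddGroup.fg_iff_addSubgroup_fg _).2 hO.fg
    exact Module.Finite.iff_addGroup_fg.2 h1
  have htf' : IsAddTorsionFree (Matrix (Fin (m + 1)) (Fin (m + 1)) ℂ) :=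
    inferInstanceAs (IsAddTorsionFree (Fin (m + 1) → Fin (m + 1) → ℂ))
  have htf : Module.IsTorsionFree ℤ O :=
    Function.Injective.moduleIsTorsionFree (N := Matrix (Fin (m + 1)) (Fin (m + 1)) ℂ)
      (fun x : O => (x : Matrix (Fin (m + 1)) (Fin (m + 1)) ℂ)) Subtype.val_injective
      fun r x => map_zsmul O.subtype.toAddMonoidHom r x
  have hfree : Module.Free ℤ O := Module.free_of_finite_type_torsion_free'
  let B := Module.finBasis ℤ O
  have hlin : LinearIndependent ℤ fun i => ((B i : O) : Matrix (Fin (m + 1)) (Fin (m + 1)) ℂ) := by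
    have h1 := B.linearIndependent.map' (O.subtype.toAddMonoidHom.toIntLinearMap)
      (LinearMap.ker_eq_bot.2 Subtype.val_injective)
    exact h1
  have hlinQ : LinearIndependent ℚ fun i => ((B i : O) : Matrix (Fin (m + 1)) (Fin (m + 1)) ℂ) :=
    (LinearIndependent.iff_fractionRing ℤ ℚ).1 hlin
  have hspan : ∀ a ∈ O, ∃ z : Fin (Module.finrank ℤ O) → ℤ,
      a = ∑ i, (z i : ℂ) • ((B i : O) : Matrix (Fin (m + 1)) (Fin (m + 1)) ℂ) := by
    intro a ha
    refine ⟨fun i => B.repr ⟨a, ha⟩ i, ?_⟩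
    have h1 := congrArg (O.subtype.toAddMonoidHom) (B.sum_repr ⟨a, ha⟩)
    rw [map_sum] at h1
    refine (show a = O.subtype.toAddMonoidHom ⟨a, ha⟩ from rfl).trans (h1.symm.trans ?_)
    refine Finset.sum_congr rfl fun i _ => ?_
    rw [map_zsmul, ob_int]
    rfl
  refine ⟨_, fun i => ((B i : O) : Matrix (Fin (m + 1)) (Fin (m + 1)) ℂ),
    fun i => hO.sub _ (B i).2, fun a => ⟨hspan a, ?_⟩, fun a => ⟨?_, ?_⟩, ?_⟩
  · rintro ⟨z, rfl⟩
    refine O.sum_mem fun i _ => ?_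
    rw [← ob_int]
    exact O.zsmul_mem (B i).2 (z i)
  · intro ha
    obtain ⟨n, hn, hna⟩ := hO.full a ha
    obtain ⟨z, hz⟩ := hspan _ hna
    refine ⟨fun i => (z i : ℚ) / n, ?_⟩
    have hn0 : (n : ℂ) ≠ 0 := by exact_mod_cast hn.ne'
    have h1 : a = (n : ℂ)⁻¹ • ((n : ℂ) • a) := by rw [smul_smul, inv_mul_cancel₀ hn0, one_smul]
    rw [h1, hz, Finset.smul_sum]
    refine Finset.sum_congr rfl fun i _ => ?_
    rw [smul_smul]
    push_cast
    congr 1
    ring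
  · rintro ⟨z, rfl⟩
    refine A.sum_mem fun i _ => ?_
    have h1 : (z i : ℂ) • ((B i : O) : Matrix (Fin (m + 1)) (Fin (m + 1)) ℂ) =
        ((z i : K) : K) • ((B i : O) : Matrix (Fin (m + 1)) (Fin (m + 1)) ℂ) := by
      rw [Subfield.smul_def]
      push_cast
      rfl
    rw [h1]
    exact A.smul_mem (hO.sub _ (B i).2) _
  · intro z hz
    rw [Fintype.linearIndependent_iff] at hlinQ
    funext i
    refine hlinQ z ?_ i
    rw [← hz]
    refine Finset.sum_congr rfl fun i _ => ob_rat _ _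

end Pool.Agent.Lib.MP_5d4057_al.VB
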