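import Pool.Agent.Lib.MP_5d4057_al.VB.Iso
import Pool.Agent.Lib.MP_5d4057_al.VB.Plc
import Pool.Agent.Lib.MP_5d4057_al.VB.OBas

/-!
# VERB V2: the algebra tensored with `ℂ` is the product of the matrix algebras over the embeddings
-/

set_option autoImplicit false

namespace Pool.Agent.Lib.MP_5d4057_al.VB

open Matrix Pool.Agent.Lib.MP_5d4057_al Pool.Agent.Lib.MP_5d4057_al.Hyb
  Pool.Agent.Lib.MP_5d4057_al.HM

variable {m : ℕ} {K : Subfield ℂ} {A : Subalgebra K (Matrix (Fin (m + 1)) (Fin (m + 1)) ℂ)}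
  {O : Subring (Matrix (Fin (m + 1)) (Fin (m + 1)) ℂ)}

/-- `A ⊗ ℂ` is the product of the matrix algebras over the embeddings of `K`. (Write `b k = ∑ κ_kl a_l` in a `K`-basis
`a_l` (`exists_reg`), `κ_kl = ∑ r_klj ω_j` in a `ℚ`-basis of `K`: the matrix `r` is invertible, `(τ (ω_j))` is invertible
(`Algebra.discr_not_zero_of_basis`), the `(a_l).map t` are a basis of the matrices.) -/
theorem bij_of_obas (hK : NumberField K) (hrank : Module.finrank K A = (m + 1) ^ 2)
    (hspan : Submodule.span ℂ (A : Set (Matrix (Fin (m + 1)) (Fin (m + 1)) ℂ)) = ⊤)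
    {r : ℕ} {t : Fin (r + 1) → (ℂ ≃+* ℂ)} (hP : Plc K r t) {N : ℕ}
    {b : Fin N → Matrix (Fin (m + 1)) (Fin (m + 1)) ℂ} (hb : OBas A O N b)
    (U V : Fin (r + 1) → Matrix (Fin (m + 1)) (Fin (m + 1)) ℂ) :
    ∃! x : Fin N → ℂ, (∀ i, ∑ k, x k • (b k).map (t i) = U i) ∧
      ∀ i, ∑ k, x k • ((b k).map (t i)).map (starRingEnd ℂ) = V i := by
  let e := Equiv.ofBijective _ hP.bij
  let s : (K →+* ℂ) → (ℂ ≃+* ℂ) := fun τ => Sum.elim t (fun i => (t i).trans cj) (e.symm τ)
  have hs : ∀ τ (x : K), s τ x = τ x := by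
    intro τ x
    obtain ⟨y, rfl⟩ := e.surjective τ
    show Sum.elim t (fun i => (t i).trans cj) (e.symm (e y)) (x : ℂ) = _
    rw [Equiv.symm_apply_apply]
    rcases y with i | i
    · rfl
    · rfl
  have hs1 : ∀ i, s (e (Sum.inl i)) = t i := by
    intro i
    show Sum.elim t (fun i => (t i).trans cj) (e.symm (e (Sum.inl i))) = _
    rw [Equiv.symm_apply_apply]
    rfl
  have hs2 : ∀ i, s (e (Sum.inr i)) = (t i).trans cj := by
    intro i
    show Sum.elim t (fun i => (t i).trans cj) (e.symm (e (Sum.inr i))) = _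
    rw [Equiv.symm_apply_apply]
    rfl
  have hc : ∀ i k, (b k).map ((t i).trans cj) = ((b k).map (t i)).map (starRingEnd ℂ) := by
    intro i k
    rfl
  refine existsUnique_of_exists_of_unique ?_ ?_
  · obtain ⟨z, hz⟩ := iso_surj hK hrank hspan (fun a ha => (hb.rat a).1 ha) s hs
      fun τ => Sum.elim U V (e.symm τ)
    refine ⟨z, fun i => ?_, fun i => ?_⟩
    · have h1 := hz (e (Sum.inl i))
      rw [Equiv.symm_apply_apply, hs1] at h1
      exact h1
    · have h1 := hz (e (Sum.inr i))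
      rw [Equiv.symm_apply_apply, hs2] at h1
      simp only [hc] at h1
      exact h1
  · rintro x y ⟨hx1, hx2⟩ ⟨hy1, hy2⟩
    rw [← sub_eq_zero]
    refine iso_inj hK hrank hspan hb.mem (fun a ha => (hb.rat a).1 ha) hb.inj s hs _ fun τ => ?_
    obtain ⟨i | i, rfl⟩ := e.surjective τ
    · rw [hs1]
      simp only [Pi.sub_apply, sub_smul, Finset.sum_sub_distrib]
      rw [hx1, hy1, sub_self]
    · rw [hs2]
      simp only [hc, Pi.sub_apply, sub_smul, Finset.sum_sub_distrib]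
      rw [hx2, hy2, sub_self]

end Pool.Agent.Lib.MP_5d4057_al.VB
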