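import Pool.Agent.Lib.MP_5d4057_al.VB.SlAut
import Pool.Agent.Lib.MP_5d4057_al.VB.AutSl
import Pool.Agent.Lib.MP_5d4057_al.CF.Chr

/-!
# VB, V1: the first case of the dichotomy

PROOF. θ X = T X T⁻¹ on trace 0: T γ X γ⁻¹ T⁻¹ = γ.map t T X T⁻¹ (γ⁻¹).map t for all X of trace 0, so T⁻¹ (γ⁻¹).map t T γ commutes
with all X of trace 0: it is scalar. θ X = -T Xᵀ T⁻¹: γ.map t T = α T (γ⁻¹)ᵀ, and (γ⁻¹)ᵀ = J conj(γ) J, so
γ.map (t.trans cj) (conj (T J)) = conj α (conj (T J)) γ.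
-/

set_option autoImplicit false

namespace Pool.Agent.Lib.MP_5d4057_al.VB

open Matrix Pool.Agent.Lib.MP_5d4057_al Pool.Agent.Lib.MP_5d4057_al.Hyb
  Pool.Agent.Lib.MP_5d4057_al.HM Pool.Agent.Lib.MP_5d4057_al.NU

variable {m : ℕ} {Γ : Subgroup (SUGroup m)}

/-- If conjugation by `y` corresponds, through `T`, to conjugation by `z`, on the matrices of trace `0`, then
`y T` and `T z` are proportional. -/
theorem prop_of_conj {n : ℕ} (hn : 2 ≤ n) {T y y' z z' : Mat n} (hT : IsUnit T) (hy : y * y' = 1)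
    (hz : z * z' = 1)
    (h : ∀ X : Mat n, X.trace = 0 → y * (T * X * T⁻¹) * y' = T * (z * X * z') * T⁻¹) :
    ∃ α : ℂ, y * T = α • (T * z) := by
  have hd : IsUnit T.det := (Matrix.isUnit_iff_isUnit_det T).1 hT
  have hTT : T⁻¹ * T = 1 := Matrix.nonsing_inv_mul T hd
  have hTT' : T * T⁻¹ = 1 := Matrix.mul_nonsing_inv T hd
  have hy' : y' * y = 1 := mul_eq_one_comm.1 hy
  have hz' : z' * z = 1 := mul_eq_one_comm.1 hz
  obtain ⟨c, hc⟩ := SlA.scalar_of_comm hn (z := T⁻¹ * y' * T * z) fun X hX => by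
    have h1 := h X hX
    have h2 : X * (T⁻¹ * y' * T * z) = T⁻¹ * y' * (y * (T * X * T⁻¹) * y') * T * z := by
      calc X * (T⁻¹ * y' * T * z) = (T⁻¹ * T) * X * (T⁻¹ * y' * T * z) := by
            rw [hTT, Matrix.one_mul]
        _ = T⁻¹ * (y' * y) * T * X * (T⁻¹ * y' * T * z) := by rw [hy', Matrix.mul_one]
        _ = _ := by simp only [Matrix.mul_assoc]
    rw [h2, h1]
    calc T⁻¹ * y' * T * z * X = T⁻¹ * y' * T * z * X * ((z' * (T⁻¹ * T) * z)) := by
          rw [hTT, Matrix.mul_one, hz', Matrix.mul_one]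
      _ = _ := by simp only [Matrix.mul_assoc]
  have h3 : T * z = c • (y * T) := by
    calc T * z = y * T * (T⁻¹ * y' * T * z) := by
          calc T * z = (y * ((T * T⁻¹) * y')) * (T * z) := by
                rw [hTT', Matrix.one_mul, hy, Matrix.one_mul]
            _ = _ := by simp only [Matrix.mul_assoc]
      _ = c • (y * T) := by rw [hc, Matrix.mul_smul, Matrix.mul_one]
  have hc0 : c ≠ 0 := by
    rintro rfl
    rw [zero_smul] at h3
    have h4 : T * z * z' = 0 := by rw [h3, Matrix.zero_mul]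
    rw [Matrix.mul_assoc, hz, Matrix.mul_one] at h4
    have h5 : (T⁻¹ * T : Mat n) = 0 := by rw [h4, Matrix.mul_zero]
    rw [hTT] at h5
    have h6 : ((1 : Mat n) ⟨0, by omega⟩ ⟨0, by omega⟩) = 0 := by rw [h5]; rfl
    rw [Matrix.one_apply_eq] at h6
    exact one_ne_zero h6
  exact ⟨c⁻¹, by rw [h3, smul_smul, inv_mul_cancel₀ hc0, one_smul]⟩

theorem caseA (hm : 2 ≤ m) (t : ℂ ≃+* ℂ) {θ : Mat (m + 1) →ₗ[ℂ] Mat (m + 1)} (hθ : IsAut θ)
    (he : ∀ γ ∈ Γ, ∀ Y : Mat (m + 1), Y.trace = 0 →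
      θ (γ.toMatrix * Y * (γ⁻¹).toMatrix) = γ.toMatrix.map t * θ Y * (γ⁻¹).toMatrix.map t) :
    ∃ T : Mat (m + 1), IsUnit T ∧
      ((∀ γ ∈ Γ, ∃ α : ℂ, γ.toMatrix.map t * T = α • (T * γ.toMatrix)) ∨
        ∀ γ ∈ Γ, ∃ α : ℂ, γ.toMatrix.map (t.trans cj) * T = α • (T * γ.toMatrix)) := by
  have hxx : ∀ γ : SUGroup m, γ.toMatrix * (γ⁻¹).toMatrix = 1 := toMatrix_mul_inv
  have hyy : ∀ γ : SUGroup m, γ.toMatrix.map t * (γ⁻¹).toMatrix.map t = 1 := fun γ => by
    rw [← Matrix.map_mul, toMatrix_mul_inv]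
    exact Matrix.map_one t (map_zero t) (map_one t)
  obtain ⟨T, hT, hor⟩ := hθ.inner (by omega : 3 ≤ m + 1)
  have hd : IsUnit T.det := (Matrix.isUnit_iff_isUnit_det T).1 hT
  have hTT' : T * T⁻¹ = 1 := Matrix.mul_nonsing_inv T hd
  have htr : ∀ γ : SUGroup m, ∀ X : Mat (m + 1), X.trace = 0 →
      (γ.toMatrix * X * (γ⁻¹).toMatrix).trace = 0 := fun γ X hX => by
    rw [Matrix.trace_mul_comm, ← Matrix.mul_assoc, toMatrix_inv_mul, Matrix.one_mul, hX]
  rcases hor with h1 | h1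
  · refine ⟨T, hT, Or.inl fun γ hγ => prop_of_conj (by omega) hT (hyy γ) (hxx γ) fun X hX => ?_⟩
    have h2 : ∀ X : Mat (m + 1), X.trace = 0 → θ X = T * X * T⁻¹ := fun X hX => by
      rw [← h1 X hX, Matrix.mul_assoc, hTT', Matrix.mul_one]
    rw [← h2 X hX, ← he γ hγ X hX, h2 _ (htr γ X hX)]
  · have h2 : ∀ X : Mat (m + 1), X.trace = 0 → θ X = -(T * Xᵀ * T⁻¹) := fun X hX => by
      rw [← Matrix.neg_mul, ← h1 X hX, Matrix.mul_assoc, hTT', Matrix.mul_one]
    have h3 : ∀ γ ∈ Γ, ∃ α : ℂ, γ.toMatrix.map t * T = α • (T * ((γ⁻¹).toMatrix)ᵀ) := fun γ hγ => by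
      refine prop_of_conj (by omega) hT (hyy γ) (z' := γ.toMatrixᵀ) ?_ fun X hX => ?_
      · rw [← Matrix.transpose_mul, hxx, Matrix.transpose_one]
      · have hX' : (Xᵀ).trace = 0 := by rw [Matrix.trace_transpose, hX]
        have h4 := he γ hγ Xᵀ hX'
        rw [h2 _ (htr γ _ hX'), h2 _ hX', Matrix.transpose_transpose, Matrix.transpose_mul,
          Matrix.transpose_mul, Matrix.transpose_transpose, Matrix.mul_neg, Matrix.neg_mul,
          neg_inj] at h4
        rw [← h4]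
        simp only [Matrix.mul_assoc]
    have hJJ : J m * J m = 1 := by
      rw [J, Matrix.diagonal_mul_diagonal, ← Matrix.diagonal_one]
      congr 1
      funext i
      split_ifs <;> norm_num
    have hJT : (J m)ᵀ = J m := by rw [J, Matrix.diagonal_transpose]
    have hcc : ∀ A : Mat (m + 1), (A.map cj).map cj = A := fun A => by
      ext i j
      rw [Matrix.map_apply, Matrix.map_apply, cj_apply, cj_apply, Complex.conj_conj]
    have hinv : ∀ γ : SUGroup m, ((γ⁻¹).toMatrix)ᵀ = J m * γ.toMatrix.map cj * J m := fun γ => by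
      have h5 : (γ⁻¹).toMatrix = J m * γ.toMatrixᴴ * J m := (CF.adjoint_coe γ).symm
      rw [h5, Matrix.transpose_mul, Matrix.transpose_mul, hJT, Matrix.mul_assoc]
      rfl
    refine ⟨(T * J m).map cj, ?_, Or.inr fun γ hγ => ?_⟩
    · have h6 : IsUnit (T * J m) := hT.mul (IsUnit.of_mul_eq_one _ hJJ)
      have h7 := h6.map (cj : ℂ →+* ℂ).mapMatrix
      exact h7
    · obtain ⟨α, hα⟩ := h3 γ hγ
      refine ⟨cj α, ?_⟩
      have h8 : γ.toMatrix.map t * (T * J m) = α • (T * J m * γ.toMatrix.map cj) := by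
        calc γ.toMatrix.map t * (T * J m) = γ.toMatrix.map t * T * J m := by
              rw [Matrix.mul_assoc]
          _ = α • (T * (J m * γ.toMatrix.map cj * J m) * J m) := by
              rw [hα, hinv, Matrix.smul_mul]
          _ = α • (T * J m * γ.toMatrix.map cj * (J m * J m)) := by
              simp only [Matrix.mul_assoc]
          _ = _ := by rw [hJJ, Matrix.mul_one]
      have h9 := congrArg (fun A : Mat (m + 1) => A.map cj) h8
      rw [Matrix.map_mul] at h9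
      have h10 : (α • (T * J m * γ.toMatrix.map cj)).map cj =
          cj α • ((T * J m).map cj * γ.toMatrix) := by
        rw [tm_smul, Matrix.map_mul, hcc]
      rw [h10] at h9
      exact h9

end Pool.Agent.Lib.MP_5d4057_al.VB
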