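import Pool.Agent.Lib.MP_5d4057_al.VB.LieD
import Pool.Agent.Lib.MP_5d4057_al.VB.BdForm

/-!
# VB, V1: a bounded group preserves a positive Hermitian form

PROOF. (a) Boundedness of γ.map t: the hypothesis holds for all Y (subtract a scalar); for the matrix units E_kl it bounds
(γ.map t) i k * (γ⁻¹).map t l j; det x⁻¹ = 1 gives a lower bound for an entry of x⁻¹. (b) `exists_form_of_bdd`.
-/

set_option autoImplicit false

namespace Pool.Agent.Lib.MP_5d4057_al.VB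

open Matrix Pool.Agent.Lib.MP_5d4057_al Pool.Agent.Lib.MP_5d4057_al.Hyb
  Pool.Agent.Lib.MP_5d4057_al.HM Pool.Agent.Lib.MP_5d4057_al.NU

open scoped ComplexOrder

variable {m : ℕ} {Γ : Subgroup (SUGroup m)}

/-- A matrix of determinant one has an entry which is not small. -/
private theorem cb_entry {n : ℕ} {y : Mat (n + 1)} (hy : y.det = 1) :
    ∃ i j, (((n + 1).factorial : ℝ) + 1)⁻¹ < ‖y i j‖ := by
  by_contra hcon
  simp only [not_exists, not_lt] at hcon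
  have h1 := Matrix.det_le (A := y) (abv := NormedField.toAbsoluteValue ℂ)
    (x := (((n + 1).factorial : ℝ) + 1)⁻¹) hcon
  rw [hy, map_one, Fintype.card_fin, nsmul_eq_mul] at h1
  have h2 : (0 : ℝ) < ((n + 1).factorial : ℝ) := by positivity
  have h3 : (((n + 1).factorial : ℝ) + 1)⁻¹ ≤ 1 := inv_le_one_of_one_le₀ (by linarith)
  have h4 : (((n + 1).factorial : ℝ) + 1)⁻¹ ^ (n + 1) ≤ (((n + 1).factorial : ℝ) + 1)⁻¹ :=
    (pow_le_pow_of_le_one (by positivity) h3 (Nat.succ_le_succ (Nat.zero_le n))).trans_eq (pow_one _)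
  have h5 : ((n + 1).factorial : ℝ) * (((n + 1).factorial : ℝ) + 1)⁻¹ < 1 := by
    rw [← div_eq_mul_inv, div_lt_one (by positivity)]
    linarith
  have h6 := mul_le_mul_of_nonneg_left h4 h2.le
  linarith

theorem bounded_of_ad (t : ℂ ≃+* ℂ)
    (hb : ∀ Y : Mat (m + 1), Y.trace = 0 → ∃ C : ℝ, ∀ γ ∈ Γ, ∀ i j,
      ‖(γ.toMatrix.map t * Y * (γ⁻¹).toMatrix.map t) i j‖ ≤ C) :
    ∃ C : ℝ, ∀ γ ∈ Γ, ∀ i j, ‖γ.toMatrix.map t i j‖ ≤ C := by
  classical
  have hxy : ∀ γ : SUGroup m, γ.toMatrix.map t * (γ⁻¹).toMatrix.map t = 1 := fun γ => by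
    rw [← Matrix.map_mul, toMatrix_mul_inv]
    exact Matrix.map_one t (map_zero t) (map_one t)
  -- the hypothesis for all matrices
  have hall : ∀ Y : Mat (m + 1), ∃ C : ℝ, ∀ γ ∈ Γ, ∀ i j,
      ‖(γ.toMatrix.map t * Y * (γ⁻¹).toMatrix.map t) i j‖ ≤ C := by
    intro Y
    let c : ℂ := Y.trace / ((m + 1 : ℕ) : ℂ)
    have hc : ((m + 1 : ℕ) : ℂ) ≠ 0 := Nat.cast_ne_zero.2 (Nat.succ_ne_zero m)
    obtain ⟨C, hC⟩ := hb (Y - c • 1) (by
      rw [Matrix.trace_sub, Matrix.trace_smul, Matrix.trace_one, Fintype.card_fin, smul_eq_mul,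
        div_mul_cancel₀ _ hc, sub_self])
    refine ⟨C + ‖c‖, fun γ hγ i j => ?_⟩
    have h1 : γ.toMatrix.map t * Y * (γ⁻¹).toMatrix.map t =
        γ.toMatrix.map t * (Y - c • 1) * (γ⁻¹).toMatrix.map t + c • 1 := by
      rw [Matrix.mul_sub, Matrix.sub_mul, Matrix.mul_smul, Matrix.mul_one, Matrix.smul_mul, hxy]
      abel
    rw [h1, Matrix.add_apply]
    refine (norm_add_le _ _).trans (add_le_add (hC γ hγ i j) ?_)
    rw [Matrix.smul_apply, smul_eq_mul, norm_mul, Matrix.one_apply]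
    split_ifs
    · simp
    · simp
  choose C hC using fun k l => hall (Matrix.single k l (1 : ℂ))
  refine ⟨(∑ k, ∑ l, |C k l|) * (((m + 1).factorial : ℝ) + 1), fun γ hγ i k => ?_⟩
  have hdet : ((γ⁻¹).toMatrix.map t).det = 1 := by
    have h1 : ((γ⁻¹).toMatrix.map t).det = t ((γ⁻¹).toMatrix.det) := (t : ℂ →+* ℂ).map_det _ |>.symm
    rw [h1, det_toMatrix, map_one]
  obtain ⟨l, j, hlj⟩ := cb_entry hdet
  have h2 := hC k l γ hγ i j
  have h3 : (γ.toMatrix.map t * Matrix.single k l (1 : ℂ) * (γ⁻¹).toMatrix.map t) i j =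
      γ.toMatrix.map t i k * (γ⁻¹).toMatrix.map t l j := by
    rw [Matrix.mul_assoc, Matrix.mul_apply, Finset.sum_eq_single k]
    · rw [Matrix.single_mul_apply_same, one_mul]
    · intro b _ hbk
      rw [Matrix.single_mul_apply_of_ne _ _ _ _ _ hbk, mul_zero]
    · intro h
      exact absurd (Finset.mem_univ k) h
  rw [h3, norm_mul] at h2
  have h4 : C k l ≤ ∑ k, ∑ l, |C k l| :=
    (le_abs_self _).trans ((Finset.single_le_sum (f := fun l => |C k l|)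
      (fun _ _ => abs_nonneg _) (Finset.mem_univ l)).trans
      (Finset.single_le_sum (f := fun k => ∑ l, |C k l|)
        (fun _ _ => Finset.sum_nonneg fun _ _ => abs_nonneg _) (Finset.mem_univ k)))
  have h5 : (0 : ℝ) < ((m + 1).factorial : ℝ) + 1 := by positivity
  have h6 : ‖γ.toMatrix.map t i k‖ * (((m + 1).factorial : ℝ) + 1)⁻¹ ≤ ∑ k, ∑ l, |C k l| :=
    (mul_le_mul_of_nonneg_left hlj.le (norm_nonneg _)).trans (h2.trans h4)
  rwa [← div_eq_mul_inv, div_le_iff₀ h5] at h6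

/-- A bounded group of matrices preserves a positive definite Hermitian form. -/
theorem exists_posDef_of_bounded {n : ℕ} {G : Type} [Group G] (ρ : G →* Mat n) {C : ℝ} (hC : ∀ x i j, ‖ρ x i j‖ ≤ C) :
    ∃ Z : Mat n, Z.PosDef ∧ ∀ x, ρ x * Z * (ρ x)ᴴ = Z := by
  obtain ⟨Z, hZ, h⟩ := exists_form_of_bdd (n := n) (S := Set.range ρ) (C := C)
    ⟨1, map_one ρ⟩ (by rintro _ ⟨a, rfl⟩ _ ⟨b, rfl⟩; exact ⟨a * b, map_mul ρ a b⟩)
    (by rintro _ ⟨a, rfl⟩; exact ⟨ρ a⁻¹, ⟨a⁻¹, rfl⟩, by rw [← map_mul, mul_inv_cancel, map_one]⟩)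
    (by rintro _ ⟨a, rfl⟩; exact hC a)
  exact ⟨Z, hZ, fun x => h _ ⟨x, rfl⟩⟩

end Pool.Agent.Lib.MP_5d4057_al.VB
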