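import Mathlib.GroupTheory.Index
import Mathlib.GroupTheory.Finiteness
import Mathlib.Analysis.Complex.Polynomial.Basic
import Mathlib.RingTheory.RootsOfUnity.Basic

/-!
# VERB, V1: the characters of bounded order of a finitely generated group have a common kernel of finite index
-/

set_option autoImplicit false

namespace Pool.Agent.Lib.MP_5d4057_al.VB

/-- A finitely generated group has a normal subgroup of finite index on which all homomorphisms to `A`, with
values in the finite set of the elements of order dividing `N`, are trivial. -/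
theorem chi_ker {G A : Type} [Group G] [Monoid A] (hfg : Group.FG G) {N : ℕ}
    (hA : {a : A | a ^ N = 1}.Finite) :
    ∃ H : Subgroup G, H.Normal ∧ H.FiniteIndex ∧
      ∀ χ : G →* A, (∀ g, χ g ^ N = 1) → ∀ g ∈ H, χ g = 1 := by
  classical
  obtain ⟨S, hS⟩ := hfg.out
  let X : Set (G →* A) := {χ | ∀ g, χ g ^ N = 1}
  have hA' : Finite {a : A | a ^ N = 1} := hA.to_subtype
  have hX : Finite X := by
    let f : X → (S → {a : A | a ^ N = 1}) := fun χ s => ⟨χ.1 s, χ.2 s⟩
    have hf : Function.Injective f := by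
      rintro ⟨χ, hχ⟩ ⟨ψ, hψ⟩ h
      refine Subtype.ext ?_
      have h1 : Set.EqOn χ.toHomUnits ψ.toHomUnits (S : Set G) := by
        intro s hs
        refine Units.ext ?_
        exact congrArg Subtype.val (congrFun h ⟨s, hs⟩)
      have h2 := MonoidHom.eq_of_eqOn_dense hS h1
      ext g
      have h3 := DFunLike.congr_fun h2 g
      exact congrArg Units.val h3
    exact Finite.of_injective f hf
  refine ⟨⨅ χ : X, χ.1.toHomUnits.ker, ?_, ?_, ?_⟩
  · exact Subgroup.normal_iInf_normal fun χ => inferInstance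
  · refine Subgroup.finiteIndex_iInf fun χ => ?_
    have hr : Finite χ.1.toHomUnits.range := by
      let f : χ.1.toHomUnits.range → {a : A | a ^ N = 1} := fun y => ⟨(y.1 : Aˣ), by
        obtain ⟨g, hg⟩ := y.2
        rw [← hg]
        exact χ.2 g⟩
      refine Finite.of_injective f fun y z h => Subtype.ext (Units.ext ?_)
      exact congrArg Subtype.val h
    exact Subgroup.finiteIndex_ker _
  · intro χ hχ g hg
    have h := (Subgroup.mem_iInf.1 hg) ⟨χ, hχ⟩
    exact congrArg Units.val (MonoidHom.mem_ker.1 h)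

/-- The complex roots of `z ^ N = 1`, `N > 0`, are finite in number. -/
theorem chi_fin {N : ℕ} (hN : 0 < N) : {z : ℂ | z ^ N = 1}.Finite := by

  have h : (Polynomial.X ^ N - 1 : Polynomial ℂ) ≠ 0 := Polynomial.X_pow_sub_C_ne_zero hN 1
  refine (Polynomial.X ^ N - 1 : Polynomial ℂ).roots.toFinset.finite_toSet.subset ?_
  intro z hz
  rw [Finset.mem_coe, Multiset.mem_toFinset, Polynomial.mem_roots h]
  simp only [Set.mem_ofPred_eq] at hz
  simp [Polynomial.IsRoot, hz]

/-- **A finitely generated group has a normal subgroup of finite index on which all complex characters with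
values of order dividing `N` are trivial.** -/
theorem chi_complex {G : Type} [Group G] (hfg : Group.FG G) {N : ℕ} (hN : 0 < N) :
    ∃ H : Subgroup G, H.Normal ∧ H.FiniteIndex ∧
      ∀ χ : G →* ℂ, (∀ g, χ g ^ N = 1) → ∀ g ∈ H, χ g = 1 :=
  chi_ker hfg (chi_fin hN)

/-- The same for characters with values in the units. -/
theorem chi_units {G : Type} [Group G] (hfg : Group.FG G) {N : ℕ} (hN : 0 < N) :
    ∃ H : Subgroup G, H.Normal ∧ H.FiniteIndex ∧
      ∀ χ : G →* ℂˣ, (∀ g, χ g ^ N = 1) → ∀ g ∈ H, χ g = 1 := by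
  obtain ⟨H, h1, h2, h3⟩ := chi_complex hfg hN
  refine ⟨H, h1, h2, fun χ hχ g hg => Units.ext ?_⟩
  exact h3 ((Units.coeHom ℂ).comp χ) (fun g => by
    have := congrArg Units.val (hχ g)
    simpa using this) g hg

/-- The same for functions which are multiplicative and take the value one at one, and a subgroup. -/
theorem chi_sub {G : Type} [Group G] {Γ : Subgroup G} (hfg : Γ.FG) {N : ℕ} (hN : 0 < N) :
    ∃ Γ' : Subgroup G, Γ' ≤ Γ ∧ Γ'.relIndex Γ ≠ 0 ∧ (Γ'.subgroupOf Γ).Normal ∧
      ∀ χ : Γ → ℂ, χ 1 = 1 → (∀ x y, χ (x * y) = χ x * χ y) → (∀ x, χ x ^ N = 1) →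
        ∀ x : Γ, (x : G) ∈ Γ' → χ x = 1 := by
  have hfg' : Group.FG Γ := (Group.fg_iff_subgroup_fg Γ).2 hfg
  obtain ⟨H, h1, h2, h3⟩ := chi_complex hfg' hN
  refine ⟨H.map Γ.subtype, ?_, ?_, ?_, ?_⟩
  · rintro _ ⟨x, -, rfl⟩
    exact x.2
  · have h4 : (H.map Γ.subtype).subgroupOf Γ = H := by
      rw [Subgroup.subgroupOf, Subgroup.comap_map_eq_self_of_injective Γ.subtype_injective]
    rw [Subgroup.relIndex, h4]
    exact h2.index_ne_zero
  · have h4 : (H.map Γ.subtype).subgroupOf Γ = H := by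
      rw [Subgroup.subgroupOf, Subgroup.comap_map_eq_self_of_injective Γ.subtype_injective]
    rw [h4]
    exact h1
  · rintro χ hχ1 hχm hχN x ⟨y, hy, hyx⟩
    have h4 : y = x := Subtype.ext hyx
    rw [← h4]
    exact h3 ⟨⟨χ, hχ1⟩, hχm⟩ hχN y hy

end Pool.Agent.Lib.MP_5d4057_al.VB
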