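import Mathlib

/-!
# VERB V1.5: the closed subgroup theorem for matrix groups (Mathlib only)
-/

set_option autoImplicit false

namespace Pool.Agent.Lib.MP_5d4057_al.VB

open Matrix Filter Topology

namespace CS

open NormedSpace

variable {𝔸 : Type*} [NormedRing 𝔸] [NormedAlgebra ℝ 𝔸] [FiniteDimensional ℝ 𝔸]

/-- A subgroup of the group of units of an algebra, closed in the group of units. -/
structure ClG (S : Set 𝔸) : Prop where
  one : 1 ∈ S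
  mul : ∀ x ∈ S, ∀ y ∈ S, x * y ∈ S
  inv : ∀ x ∈ S, ∃ y ∈ S, x * y = 1 ∧ y * x = 1
  cl : ∀ x ∈ closure S, IsUnit x → x ∈ S

section alg

variable {𝔹 : Type*} [NormedRing 𝔹]

theorem ClG.inv_mem {S : Set 𝔹} (hS : ClG S) {x y : 𝔹} (hx : x ∈ S) (h : x * y = 1) : y ∈ S := by
  obtain ⟨z, hz, _, h2⟩ := hS.inv x hx
  have h3 : y = z := by
    calc y = z * x * y := by rw [h2, one_mul]
      _ = z := by rw [mul_assoc, h, mul_one]
  rwa [h3]

theorem ClG.pow_mem {S : Set 𝔹} (hS : ClG S) {x : 𝔹} (hx : x ∈ S) (n : ℕ) : x ^ n ∈ S := by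
  induction n with
  | zero => rw [pow_zero]; exact hS.one
  | succ n ih => rw [pow_succ]; exact hS.mul _ ih _ hx

end alg

theorem exp_mul_exp_neg' (X : 𝔸) : exp X * exp (-X) = 1 := by
  have := FiniteDimensional.complete ℝ 𝔸
  let : NormedAlgebra ℚ 𝔸 := .restrictScalars ℚ ℝ 𝔸
  rw [← exp_add_of_commute (Commute.neg_right (Commute.refl X)), add_neg_cancel, exp_zero]

theorem exp_neg_mul_exp' (X : 𝔸) : exp (-X) * exp X = 1 := by
  have h := exp_mul_exp_neg' (-X)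
  rwa [neg_neg] at h

theorem ClG.exp_int {S : Set 𝔸} (hS : ClG S) {X : 𝔸} (hX : exp X ∈ S) (n : ℤ) :
    exp ((n : ℝ) • X) ∈ S := by
  have := FiniteDimensional.complete ℝ 𝔸
  let : NormedAlgebra ℚ 𝔸 := .restrictScalars ℚ ℝ 𝔸
  have key : ∀ Y : 𝔸, exp Y ∈ S → ∀ m : ℕ, exp ((m : ℝ) • Y) ∈ S := fun Y hY m => by
    rw [Nat.cast_smul_eq_nsmul, NormedSpace.exp_nsmul]
    exact hS.pow_mem hY m
  obtain ⟨m, rfl | rfl⟩ := n.eq_nat_or_neg
  · exact_mod_cast key X hX m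
  · have h1 : exp (-X) ∈ S := hS.inv_mem hX (exp_mul_exp_neg' X)
    have h2 := key (-X) h1 m
    rwa [smul_neg, ← neg_smul, show (-(m : ℝ)) = ((-(m : ℤ) : ℤ) : ℝ) by push_cast; rfl] at h2

/-- The basic limit lemma. -/
theorem ClG.lim {S : Set 𝔸} (hS : ClG S) {ι : Type*} {l : Filter ι} [NeBot l] {t : ι → ℝ}
    {Z : ι → 𝔸} {Y : 𝔸} (ht : Tendsto t l (𝓝 0)) (ht0 : ∀ᶠ j in l, t j ≠ 0)
    (hZ : Tendsto Z l (𝓝 Y)) (hm : ∀ᶠ j in l, exp (t j • Z j) ∈ S) (s : ℝ) :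
    exp (s • Y) ∈ S := by
  have := FiniteDimensional.complete ℝ 𝔸
  let : NormedAlgebra ℚ 𝔸 := .restrictScalars ℚ ℝ 𝔸
  refine hS.cl _ ?_ ⟨⟨_, _, exp_mul_exp_neg' _, exp_neg_mul_exp' _⟩, rfl⟩
  have h1 : Tendsto (fun j => ((⌊s / t j⌋ : ℤ) : ℝ) * t j) l (𝓝 s) := by
    have h2 : Tendsto (fun j => |t j|) l (𝓝 0) := by
      have h3 := ht.abs
      rwa [abs_zero] at h3
    have h0 : Tendsto (fun j => ((⌊s / t j⌋ : ℤ) : ℝ) * t j - s) l (𝓝 0) := by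
      refine squeeze_zero_norm' ?_ h2
      filter_upwards [ht0] with j hj
      have h3 : ((⌊s / t j⌋ : ℤ) : ℝ) * t j - s = -(Int.fract (s / t j) * t j) := by
        have h4 : ((⌊s / t j⌋ : ℤ) : ℝ) = s / t j - Int.fract (s / t j) := by
          rw [← Int.self_sub_floor]; ring
        rw [h4, sub_mul, div_mul_cancel₀ _ hj]
        ring
      rw [h3, norm_neg, norm_mul, Real.norm_eq_abs, Real.norm_eq_abs,
        abs_of_nonneg (Int.fract_nonneg _)]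
      calc Int.fract (s / t j) * |t j| ≤ 1 * |t j| :=
            mul_le_mul_of_nonneg_right (Int.fract_lt_one _).le (abs_nonneg _)
        _ = |t j| := one_mul _
    have h6 := h0.add_const s
    rw [zero_add] at h6
    exact h6.congr fun j => sub_add_cancel _ _
  have h5 : Tendsto (fun j => exp ((((⌊s / t j⌋ : ℤ) : ℝ) * t j) • Z j)) l (𝓝 (exp (s • Y))) :=
    ((exp_continuous (𝔸 := 𝔸)).tendsto _).comp (h1.smul hZ)
  refine mem_closure_of_tendsto h5 ?_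
  filter_upwards [hm] with j hj
  rw [mul_smul]
  exact hS.exp_int hj _

/-- **The closed subgroup theorem** in a finite dimensional algebra. -/
theorem ClG.near {S : Set 𝔸} (hS : ClG S) {V : Submodule ℝ 𝔸}
    (hV : ∀ X : 𝔸, X ∈ V ↔ ∀ t : ℝ, exp (t • X) ∈ S) :
    ∀ᶠ g in 𝓝 (1 : 𝔸), g ∈ S → ∃ X ∈ V, g = exp X := by
  have := FiniteDimensional.complete ℝ 𝔸
  let : NormedAlgebra ℚ 𝔸 := .restrictScalars ℚ ℝ 𝔸
  obtain ⟨W, hW⟩ := V.exists_isCompl
  -- the two projections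
  obtain ⟨P, Q, hP, hQ, hPQ⟩ : ∃ P Q : 𝔸 →L[ℝ] 𝔸, (∀ Z, P Z ∈ V) ∧ (∀ Z, Q Z ∈ W) ∧
      ∀ Z, P Z + Q Z = Z := by
    refine ⟨LinearMap.toContinuousLinearMap (V.projection W hW),
      LinearMap.toContinuousLinearMap (W.projection V hW.symm),
      fun Z => ?_, fun Z => ?_, fun Z => ?_⟩
    · exact Submodule.projection_apply_mem hW Z
    · exact Submodule.projection_apply_mem hW.symm Z
    · exact Submodule.projection_add_projection_eq_self hW Z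
  have hexp : HasStrictFDerivAt (exp : 𝔸 → 𝔸) (ContinuousLinearMap.id ℝ 𝔸) 0 :=
    hasStrictFDerivAt_exp_zero
  have hd : HasStrictFDerivAt (fun Z : 𝔸 => exp (P Z) * exp (Q Z))
      ((ContinuousLinearEquiv.refl ℝ 𝔸 : 𝔸 ≃L[ℝ] 𝔸) : 𝔸 →L[ℝ] 𝔸) 0 := by
    have h1 : HasStrictFDerivAt (fun Z : 𝔸 => exp (P Z)) P 0 := by
      have h2 := HasStrictFDerivAt.comp (0 : 𝔸) (g := (exp : 𝔸 → 𝔸)) (f := P)
        (by rw [map_zero]; exact hexp) P.hasStrictFDerivAt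
      rwa [ContinuousLinearMap.id_comp] at h2
    have h1' : HasStrictFDerivAt (fun Z : 𝔸 => exp (Q Z)) Q 0 := by
      have h2 := HasStrictFDerivAt.comp (0 : 𝔸) (g := (exp : 𝔸 → 𝔸)) (f := Q)
        (by rw [map_zero]; exact hexp) Q.hasStrictFDerivAt
      rwa [ContinuousLinearMap.id_comp] at h2
    have h3 := h1.mul' h1'
    refine h3.congr_fderiv ?_
    ext Z
    simp only [map_zero, exp_zero]
    simp [hPQ Z, add_comm]
  have hmap := hd.map_nhds_eq_of_equiv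
  simp only [map_zero, exp_zero, mul_one] at hmap
  rw [← hmap, eventually_map]
  -- it is enough that the second component vanishes
  have key : ∀ᶠ Z in 𝓝 (0 : 𝔸), exp (Q Z) ∈ S → Q Z = 0 := by
    by_contra hcon
    rw [Filter.not_eventually] at hcon
    -- an ultrafilter of bad points
    have hne : NeBot (𝓝 (0 : 𝔸) ⊓ 𝓟 {Z | ¬ (exp (Q Z) ∈ S → Q Z = 0)}) :=
      frequently_mem_iff_neBot.1 hcon
    obtain ⟨l, hl⟩ := Ultrafilter.exists_le
      (𝓝 (0 : 𝔸) ⊓ 𝓟 {Z | ¬ (exp (Q Z) ∈ S → Q Z = 0)})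
    have hl0 : (l : Filter 𝔸) ≤ 𝓝 0 := hl.trans inf_le_left
    have hlb : ∀ᶠ Z in (l : Filter 𝔸), exp (Q Z) ∈ S ∧ Q Z ≠ 0 := by
      have h1 : ∀ᶠ Z in (l : Filter 𝔸), Z ∈ {Z | ¬ (exp (Q Z) ∈ S → Q Z = 0)} :=
        (hl.trans inf_le_right) (mem_principal_self _)
      filter_upwards [h1] with Z hZ
      exact Classical.not_imp.1 hZ
    have hQ0 : Tendsto (fun Z => ‖Q Z‖) (l : Filter 𝔸) (𝓝 0) := by
      have h1 : Tendsto (fun Z => ‖Q Z‖) (𝓝 (0 : 𝔸)) (𝓝 ‖Q 0‖) := Q.continuous.norm.tendsto 0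
      rw [map_zero, norm_zero] at h1
      exact h1.mono_left hl0
    have hsph : ∀ᶠ Z in (l : Filter 𝔸), ‖Q Z‖⁻¹ • Q Z ∈ Metric.sphere (0 : 𝔸) 1 ∩ (W : Set 𝔸) := by
      filter_upwards [hlb] with Z hZ
      refine ⟨?_, W.smul_mem _ (hQ Z)⟩
      rw [mem_sphere_zero_iff_norm, norm_smul, norm_inv, norm_norm,
        inv_mul_cancel₀ (norm_ne_zero_iff.2 hZ.2)]
    have hcpt : IsCompact (Metric.sphere (0 : 𝔸) 1 ∩ (W : Set 𝔸)) := by
      have : ProperSpace 𝔸 := FiniteDimensional.proper_real 𝔸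
      exact (isCompact_sphere (0 : 𝔸) 1).inter_right W.closed_of_finiteDimensional
    obtain ⟨u, hu, hul⟩ := hcpt.ultrafilter_le_nhds (l.map fun Z => ‖Q Z‖⁻¹ • Q Z)
      (by rw [le_principal_iff]; exact hsph)
    have hlim : ∀ s : ℝ, exp (s • u) ∈ S := fun s => by
      refine hS.lim (l := (l : Filter 𝔸)) (t := fun Z => ‖Q Z‖) (Z := fun Z => ‖Q Z‖⁻¹ • Q Z)
        hQ0 ?_ hul ?_ s
      · filter_upwards [hlb] with Z hZ
        exact norm_ne_zero_iff.2 hZ.2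
      · filter_upwards [hlb] with Z hZ
        rw [smul_smul, mul_inv_cancel₀ (norm_ne_zero_iff.2 hZ.2), one_smul]
        exact hZ.1
    have huV : u ∈ V := (hV u).2 hlim
    have hu0 : u = 0 := by
      have := (Submodule.disjoint_def.1 hW.disjoint) u huV hu.2
      exact this
    have h1 : ‖u‖ = 1 := by simpa using hu.1
    rw [hu0, norm_zero] at h1
    exact zero_ne_one h1
  filter_upwards [key] with Z hZ hS'
  have h1 : exp (P Z) ∈ S := by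
    have := (hV (P Z)).1 (hP Z) 1
    rwa [one_smul] at this
  have h2 : exp (Q Z) ∈ S := by
    have h3 := hS.mul _ (hS.inv_mem h1 (exp_mul_exp_neg' (P Z))) _ hS'
    rwa [← mul_assoc, exp_neg_mul_exp', one_mul] at h3
  refine ⟨P Z, hP Z, ?_⟩
  rw [hZ h2, exp_zero, mul_one]

end CS

variable {k : ℕ}

/-- Near `1` a closed group of real matrices is the image of its Lie algebra `V` under `exp`. -/
theorem closed_sub {G : Subgroup (GL (Fin k) ℝ)} (hG : IsClosed (G : Set (GL (Fin k) ℝ)))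
    {V : Submodule ℝ (Matrix (Fin k) (Fin k) ℝ)}
    (hV : ∀ X : Matrix (Fin k) (Fin k) ℝ, X ∈ V ↔
      ∀ t : ℝ, ∃ g ∈ G, (g : Matrix (Fin k) (Fin k) ℝ) = NormedSpace.exp (t • X)) :
    ∀ᶠ g in 𝓝 (1 : GL (Fin k) ℝ), g ∈ G →
      ∃ X ∈ V, (g : Matrix (Fin k) (Fin k) ℝ) = NormedSpace.exp X := by
  let _ : NormedRing (Matrix (Fin k) (Fin k) ℝ) := Matrix.linftyOpNormedRing
  let _ : NormedAlgebra ℝ (Matrix (Fin k) (Fin k) ℝ) := Matrix.linftyOpNormedAlgebra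
  have hcomp : CompleteSpace (Matrix (Fin k) (Fin k) ℝ) := FiniteDimensional.complete ℝ _
  have hS : CS.ClG ((fun g : GL (Fin k) ℝ => (g : Matrix (Fin k) (Fin k) ℝ)) '' (G : Set _)) := by
    refine ⟨⟨1, G.one_mem, rfl⟩, ?_, ?_, ?_⟩
    · rintro _ ⟨a, ha, rfl⟩ _ ⟨b, hb, rfl⟩
      exact ⟨a * b, G.mul_mem ha hb, rfl⟩
    · rintro _ ⟨a, ha, rfl⟩
      exact ⟨_, ⟨a⁻¹, G.inv_mem ha, rfl⟩, a.mul_inv, a.inv_mul⟩
    · rintro _ hx ⟨u, rfl⟩
      refine ⟨u, ?_, rfl⟩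
      have h1 : IsInducing (Units.val : (Matrix (Fin k) (Fin k) ℝ)ˣ → Matrix (Fin k) (Fin k) ℝ) :=
        Units.isOpenEmbedding_val.isInducing
      have h2 : u ∈ closure (G : Set (GL (Fin k) ℝ)) := by
        rw [h1.closure_eq_preimage_closure_image]
        exact hx
      rwa [hG.closure_eq] at h2
  have h := hS.near (V := V) fun X => by
    rw [hV X]
    exact forall_congr' fun t => ⟨fun ⟨g, hg, he⟩ => ⟨g, hg, he⟩, fun ⟨g, hg, he⟩ => ⟨g, hg, he⟩⟩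
  have h2 : Tendsto (fun g : GL (Fin k) ℝ => (g : Matrix (Fin k) (Fin k) ℝ)) (𝓝 1) (𝓝 1) :=
    Units.continuous_val.tendsto 1
  filter_upwards [h2.eventually h] with g hg hgG
  exact hg ⟨g, hgG, rfl⟩

end Pool.Agent.Lib.MP_5d4057_al.VB
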