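import Pool.Agent.Lib.MP_5d4057_al.HM.BarA

/-!
# VB: the special unitary groups of positive definite Hermitian forms are connected
-/

set_option autoImplicit false

namespace Pool.Agent.Lib.MP_5d4057_al.VB

open Matrix ComplexOrder Pool.Agent.Lib.MP_5d4057_al.HM

variable {n : ℕ}

/-- The unitary matrices which commute with `C`. -/
def UC (C : Matrix (Fin n) (Fin n) ℂ) : Set (Matrix (Fin n) (Fin n) ℂ) :=
  {x | xᴴ * x = 1 ∧ x * C = C * x}

private theorem mul_star_self {x : Matrix (Fin n) (Fin n) ℂ} (h : xᴴ * x = 1) : x * xᴴ = 1 :=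
  mul_eq_one_comm.mp h

/-- A unitary matrix has no eigenvalue of absolute value `≠ 1`. -/
private theorem det_ne {x : Matrix (Fin n) (Fin n) ℂ} (h : xᴴ * x = 1) {a b : ℝ}
    (hab : |b| < |a|) : ((a : ℂ) • (1 : Matrix (Fin n) (Fin n) ℂ) + (b : ℂ) • x).det ≠ 0 := by
  intro h0
  obtain ⟨v, hv, hv'⟩ := Matrix.exists_mulVec_eq_zero_iff.2 h0
  have h1 : (a : ℂ) • v = -((b : ℂ) • (x *ᵥ v)) := by
    rw [Matrix.add_mulVec, Matrix.smul_mulVec, Matrix.smul_mulVec, Matrix.one_mulVec] at hv'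
    exact eq_neg_of_add_eq_zero_left hv'
  have h2 : star (x *ᵥ v) ⬝ᵥ (x *ᵥ v) = star v ⬝ᵥ v := by
    rw [Matrix.star_mulVec, ← Matrix.dotProduct_mulVec, Matrix.mulVec_mulVec, h,
      Matrix.one_mulVec]
  have h3 : star ((a : ℂ) • v) ⬝ᵥ ((a : ℂ) • v) =
      star ((b : ℂ) • (x *ᵥ v)) ⬝ᵥ ((b : ℂ) • (x *ᵥ v)) := by rw [h1]; simp
  rw [star_smul, star_smul, smul_dotProduct, smul_dotProduct, dotProduct_smul, dotProduct_smul, h2,
    smul_eq_mul, smul_eq_mul, smul_eq_mul, smul_eq_mul, ← mul_assoc, ← mul_assoc] at h3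
  have h4 : star v ⬝ᵥ v ≠ 0 := by
    intro h5
    exact hv (dotProduct_star_self_eq_zero.1 h5)
  have h5 := mul_right_cancel₀ h4 h3
  simp only [RCLike.star_def, Complex.conj_ofReal] at h5
  have h6 : a * a = b * b := by exact_mod_cast h5
  have h7 : |a| * |a| = |b| * |b| := by rw [abs_mul_abs_self, abs_mul_abs_self, h6]
  nlinarith [abs_nonneg a, abs_nonneg b]

private theorem inv_continuousOn {f : ℝ → Matrix (Fin n) (Fin n) ℂ} {s : Set ℝ}
    (hf : Continuous f) (h : ∀ t ∈ s, (f t).det ≠ 0) : ContinuousOn (fun t => (f t)⁻¹) s := by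
  have h1 : ContinuousOn (fun t => ((f t).det)⁻¹ • (f t).adjugate) s :=
    ((hf.matrix_det.continuousOn).inv₀ h).smul hf.matrix_adjugate.continuousOn
  refine h1.congr fun t ht => ?_
  show (f t)⁻¹ = _
  rw [Matrix.inv_def, Ring.inverse_eq_inv']

/-- The Cayley path. -/
private theorem joined_cayley {C y : Matrix (Fin n) (Fin n) ℂ} (hy : y ∈ UC C)
    (h0 : (1 + y).det ≠ 0) : JoinedIn (UC C) 1 y := by
  obtain ⟨hu, hc⟩ := hy
  set N : ℝ → Matrix (Fin n) (Fin n) ℂ := fun s => ((1 - s : ℝ) : ℂ) • 1 + ((1 + s : ℝ) : ℂ) • y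
    with hN
  set M : ℝ → Matrix (Fin n) (Fin n) ℂ := fun s => ((1 + s : ℝ) : ℂ) • 1 + ((1 - s : ℝ) : ℂ) • y
    with hM
  have hMd : ∀ s ∈ Set.Icc (0 : ℝ) 1, (M s).det ≠ 0 := by
    intro s hs
    rcases eq_or_lt_of_le hs.1 with h | h
    · rw [← h]; simpa [hM] using h0
    · refine det_ne hu ?_
      rw [abs_of_nonneg (by linarith [hs.2]), abs_of_pos (by linarith)]
      linarith
  have hNM : ∀ s, (N s)ᴴ * N s = (M s)ᴴ * M s := by
    intro s
    simp only [hN, hM, conjTranspose_add, conjTranspose_smul, conjTranspose_one, add_mul, mul_add,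
      smul_mul_assoc, mul_smul_comm, one_mul, mul_one, hu, RCLike.star_def, Complex.conj_ofReal]
    module
  refine JoinedIn.ofLine (f := fun s => N s * (M s)⁻¹) ?_ ?_ ?_ ?_
  · refine ContinuousOn.mul (Continuous.continuousOn ?_) (inv_continuousOn ?_ hMd)
    · fun_prop
    · fun_prop
  · have : N 0 = M 0 := by simp [hN, hM]
    simp only [this]
    exact Matrix.mul_nonsing_inv _ (isUnit_iff_ne_zero.2 (hMd 0 (by simp)))
  · have h1 : N 1 = (2 : ℂ) • y := by simp only [hN]; norm_num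
    have h2 : M 1 = (2 : ℂ) • 1 := by simp only [hM]; norm_num
    have h3 : (M 1)⁻¹ = (2 : ℂ)⁻¹ • 1 := by
      rw [h2]
      refine Matrix.inv_eq_right_inv ?_
      rw [smul_mul_smul_comm, mul_one]
      norm_num
    show N 1 * (M 1)⁻¹ = y
    rw [h1, h3, smul_mul_smul_comm, mul_one]
    norm_num
  · rintro _ ⟨s, hs, rfl⟩
    have hMu : IsUnit (M s).det := isUnit_iff_ne_zero.2 (hMd s hs)
    refine ⟨?_, ?_⟩
    · show (N s * (M s)⁻¹)ᴴ * (N s * (M s)⁻¹) = 1
      rw [conjTranspose_mul]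
      calc (M s)⁻¹ᴴ * (N s)ᴴ * (N s * (M s)⁻¹) = (M s)⁻¹ᴴ * ((N s)ᴴ * N s) * (M s)⁻¹ := by
            simp only [Matrix.mul_assoc]
        _ = (M s * (M s)⁻¹)ᴴ * (M s * (M s)⁻¹) := by
            rw [hNM, conjTranspose_mul]; simp only [Matrix.mul_assoc]
        _ = 1 := by rw [Matrix.mul_nonsing_inv _ hMu]; simp
    · show N s * (M s)⁻¹ * C = C * (N s * (M s)⁻¹)
      have h1 : N s * C = C * N s := by
        simp only [hN, add_mul, mul_add, smul_mul_assoc, mul_smul_comm, one_mul, mul_one, hc]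
      have h2 : M s * C = C * M s := by
        simp only [hM, add_mul, mul_add, smul_mul_assoc, mul_smul_comm, one_mul, mul_one, hc]
      have h3 : (M s)⁻¹ * C = C * (M s)⁻¹ := by
        calc (M s)⁻¹ * C = (M s)⁻¹ * (C * M s) * (M s)⁻¹ := by
              rw [Matrix.mul_assoc, Matrix.mul_assoc, Matrix.mul_nonsing_inv _ hMu, Matrix.mul_one]
          _ = (M s)⁻¹ * (M s * C) * (M s)⁻¹ := by rw [h2]
          _ = C * (M s)⁻¹ := by
              rw [← Matrix.mul_assoc, Matrix.nonsing_inv_mul _ hMu, Matrix.one_mul]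
      rw [Matrix.mul_assoc, h3, ← Matrix.mul_assoc, h1, Matrix.mul_assoc]

/-- The unitary matrices which commute with `C` form a connected set. -/
theorem isPathConnected_UC (C : Matrix (Fin n) (Fin n) ℂ) : IsPathConnected (UC C) := by
  have h1 : (1 : Matrix (Fin n) (Fin n) ℂ) ∈ UC C := by simp [UC]
  refine ⟨1, h1, fun {x} hx => ?_⟩
  -- a number `θ` with `det (1 + e^(iθ) x) ≠ 0`
  obtain ⟨θ, hθ⟩ : ∃ θ : ℝ, (1 + Complex.exp (θ * Complex.I) • x).det ≠ 0 := by
    by_contra hcon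
    push Not at hcon
    set p : Polynomial ℂ := (1 + (Polynomial.X : Polynomial ℂ) • x.map Polynomial.C).det with hp
    have hev : ∀ z : ℂ, p.eval z = (1 + z • x).det := by
      intro z
      rw [hp, ← Polynomial.coe_evalRingHom, RingHom.map_det, map_add, map_one]
      congr 2
      ext i j
      show (Polynomial.evalRingHom z) (Polynomial.X * Polynomial.C (x i j)) = z * x i j
      rw [map_mul, Polynomial.coe_evalRingHom, Polynomial.eval_X, Polynomial.eval_C]
    have h2 : p ≠ 0 := by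
      intro h3
      have h4 := hev 0
      rw [h3, Polynomial.eval_zero, zero_smul, add_zero, Matrix.det_one] at h4
      exact zero_ne_one h4
    have h3 : Set.Infinite {z : ℂ | p.IsRoot z} := by
      refine Set.infinite_of_injective_forall_mem (f := fun k : ℕ =>
        Complex.exp (((1 / (k + 1) : ℝ) : ℂ) * Complex.I)) ?_ ?_
      · intro a b hab
        have h4 : ∀ k : ℕ, (1 / ((k : ℝ) + 1)) ∈ Set.Ioc (-Real.pi) Real.pi := by
          intro k
          have : (0 : ℝ) < 1 / ((k : ℝ) + 1) := by positivity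
          have h5 : 1 / ((k : ℝ) + 1) ≤ 1 := by
            rw [div_le_one (by positivity)]; linarith [(Nat.cast_nonneg k : (0 : ℝ) ≤ k)]
          constructor
          · linarith [Real.pi_pos]
          · linarith [Real.pi_gt_three]
        have h5 := congrArg Complex.arg hab
        simp only at h5
        rw [Complex.arg_exp_mul_I, Complex.arg_exp_mul_I] at h5
        rw [(toIocMod_eq_self _).2 (by simpa [two_mul] using h4 a), (toIocMod_eq_self _).2 (by simpa [two_mul] using h4 b)] at h5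
        have h6 : (a : ℝ) + 1 = b + 1 := by
          have := congrArg (fun r : ℝ => 1 / r) h5
          simpa using this
        exact_mod_cast add_right_cancel h6
      · intro k
        show p.eval _ = 0
        rw [hev]
        exact hcon _
    exact h3 (Polynomial.finite_setOfPred_isRoot h2)
  have hmem : ∀ t : ℝ, Complex.exp (t * Complex.I) • x ∈ UC C := by
    intro t
    refine ⟨?_, ?_⟩
    · rw [conjTranspose_smul, smul_mul_smul_comm, hx.1]
      have h2 : star (Complex.exp (t * Complex.I)) * Complex.exp (t * Complex.I) = 1 := by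
        rw [RCLike.star_def, Complex.conj_mul', Complex.norm_exp_ofReal_mul_I]
        norm_num
      rw [h2, one_smul]
    · rw [smul_mul_assoc, mul_smul_comm, hx.2]
  refine (joined_cayley (hmem θ) hθ).trans ?_
  refine JoinedIn.ofLine (f := fun s : ℝ => Complex.exp (((θ * (1 - s) : ℝ) : ℂ) * Complex.I) • x)
    ?_ ?_ ?_ ?_
  · refine Continuous.continuousOn ?_
    fun_prop
  · simp
  · simp
  · rintro _ ⟨s, _, rfl⟩
    exact hmem _

/-- The diagonal matrix `diag(1, .., d, .., 1)`. -/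
noncomputable def dg (i₀ : Fin n) (d : ℂ) : Matrix (Fin n) (Fin n) ℂ :=
  Matrix.diagonal (Function.update 1 i₀ d)

theorem det_dg (i₀ : Fin n) (d : ℂ) : (dg i₀ d).det = d := by
  rw [dg, Matrix.det_diagonal, Finset.prod_update_of_mem (Finset.mem_univ _)]
  simp

theorem dg_one (i₀ : Fin n) : dg i₀ 1 = 1 := by
  rw [dg, ← Pi.one_apply (M := fun _ : Fin n => ℂ) i₀, Function.update_eq_self]
  exact Matrix.diagonal_one

theorem continuous_dg (i₀ : Fin n) : Continuous (dg i₀) := by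
  refine Continuous.matrix_diagonal ?_
  exact continuous_const.update i₀ continuous_id

theorem dg_star_mul (i₀ : Fin n) {d : ℂ} (hd : star d * d = 1) : (dg i₀ d)ᴴ * dg i₀ d = 1 := by
  rw [dg, Matrix.diagonal_conjTranspose, Matrix.diagonal_mul_diagonal, ← Matrix.diagonal_one]
  congr 1
  funext i
  by_cases h : i = i₀
  · subst h; simpa using hd
  · simp [h]

/-- The special unitary matrices which commute with a diagonal matrix form a connected set. -/
theorem isPathConnected_SUC (e : Fin n → ℂ) :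
    IsPathConnected {x : Matrix (Fin n) (Fin n) ℂ | x ∈ UC (Matrix.diagonal e) ∧ x.det = 1} := by
  rcases Nat.eq_zero_or_pos n with hn | hn
  · subst hn
    have : {x : Matrix (Fin 0) (Fin 0) ℂ | x ∈ UC (Matrix.diagonal e) ∧ x.det = 1} = {1} := by
      ext x
      constructor
      · intro _; exact Subsingleton.elim _ _
      · rintro rfl; exact ⟨⟨Subsingleton.elim _ _, Subsingleton.elim _ _⟩, by simp⟩
    rw [this]
    exact isPathConnected_singleton _
  set i₀ : Fin n := ⟨0, hn⟩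
  have hdet : ∀ x ∈ UC (Matrix.diagonal e), star x.det * x.det = 1 := by
    intro x hx
    have h1 := congrArg Matrix.det hx.1
    rwa [Matrix.det_mul, Matrix.det_conjTranspose, Matrix.det_one] at h1
  have hdet0 : ∀ x ∈ UC (Matrix.diagonal e), x.det ≠ 0 := by
    intro x hx h
    have h1 := hdet x hx
    rw [h, mul_zero] at h1
    exact zero_ne_one h1
  have h1 := (isPathConnected_UC (Matrix.diagonal e)).image'
    (f := fun x => dg i₀ (x.det)⁻¹ * x) ?_
  · convert h1 using 1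
    ext x
    constructor
    · rintro ⟨hx, hd⟩
      refine ⟨x, hx, ?_⟩
      show dg i₀ (x.det)⁻¹ * x = x
      rw [hd, inv_one, dg_one, Matrix.one_mul]
    · rintro ⟨y, hy, rfl⟩
      have h2 := hdet y hy
      have h3 : star (y.det)⁻¹ * (y.det)⁻¹ = 1 := by
        rw [star_inv₀, ← mul_inv, h2, inv_one]
      refine ⟨⟨?_, ?_⟩, ?_⟩
      · show (dg i₀ (y.det)⁻¹ * y)ᴴ * (dg i₀ (y.det)⁻¹ * y) = 1
        rw [conjTranspose_mul]
        calc yᴴ * (dg i₀ (y.det)⁻¹)ᴴ * (dg i₀ (y.det)⁻¹ * y)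
            = yᴴ * ((dg i₀ (y.det)⁻¹)ᴴ * dg i₀ (y.det)⁻¹) * y := by simp only [Matrix.mul_assoc]
          _ = 1 := by rw [dg_star_mul i₀ h3, Matrix.mul_one, hy.1]
      · show dg i₀ (y.det)⁻¹ * y * Matrix.diagonal e = Matrix.diagonal e * (dg i₀ (y.det)⁻¹ * y)
        have h4 : dg i₀ (y.det)⁻¹ * Matrix.diagonal e = Matrix.diagonal e * dg i₀ (y.det)⁻¹ := by
          rw [dg, Matrix.diagonal_mul_diagonal, Matrix.diagonal_mul_diagonal]
          congr 1
          funext i
          exact mul_comm _ _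
        rw [Matrix.mul_assoc, hy.2, ← Matrix.mul_assoc, h4, Matrix.mul_assoc]
      · show (dg i₀ (y.det)⁻¹ * y).det = 1
        rw [Matrix.det_mul, det_dg, inv_mul_cancel₀ (hdet0 y hy)]
  · refine ContinuousOn.mul ((continuous_dg i₀).comp_continuousOn ?_) continuousOn_id
    exact (Continuous.continuousOn (by fun_prop)).inv₀ hdet0

/-- **The special unitary group of a positive definite Hermitian form is connected.** -/
theorem su_conn {Z : Matrix (Fin n) (Fin n) ℂ} (hZ : Z.PosDef) :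
    IsPathConnected {x : Matrix (Fin n) (Fin n) ℂ | xᴴ * Z * x = Z ∧ x.det = 1} := by
  obtain ⟨Q, hQ, hQZ⟩ := BarAux.exists_root hZ
  set s : Matrix (Fin n) (Fin n) ℂ := Qᴴ with hs
  have hss : Z = sᴴ * s := by rw [hQZ, hs, conjTranspose_conjTranspose]
  have hsu : IsUnit s.det := by
    rw [hs, Matrix.det_conjTranspose]
    exact ((Matrix.isUnit_iff_isUnit_det _).1 hQ).star
  have h1 := (isPathConnected_SUC (n := n) 1).image (f := fun x => s⁻¹ * x * s) (by fun_prop)
  convert h1 using 1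
  ext x
  constructor
  · rintro ⟨hx, hd⟩
    refine ⟨s * x * s⁻¹, ⟨⟨?_, by simp⟩, ?_⟩, ?_⟩
    · show (s * x * s⁻¹)ᴴ * (s * x * s⁻¹) = 1
      rw [conjTranspose_mul, conjTranspose_mul]
      calc s⁻¹ᴴ * (xᴴ * sᴴ) * (s * x * s⁻¹) = s⁻¹ᴴ * (xᴴ * (sᴴ * s) * x) * s⁻¹ := by
            simp only [Matrix.mul_assoc]
        _ = s⁻¹ᴴ * (sᴴ * s) * s⁻¹ := by rw [← hss, hx]
        _ = (s * s⁻¹)ᴴ * (s * s⁻¹) := by rw [conjTranspose_mul]; simp only [Matrix.mul_assoc]
        _ = 1 := by rw [Matrix.mul_nonsing_inv _ hsu]; simp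
    · show (s * x * s⁻¹).det = 1
      rw [Matrix.det_mul, Matrix.det_mul, Matrix.det_nonsing_inv, hd, mul_one,
        Ring.mul_inverse_cancel _ hsu]
    · show s⁻¹ * (s * x * s⁻¹) * s = x
      calc s⁻¹ * (s * x * s⁻¹) * s = (s⁻¹ * s) * x * (s⁻¹ * s) := by simp only [Matrix.mul_assoc]
        _ = x := by rw [Matrix.nonsing_inv_mul _ hsu, Matrix.one_mul, Matrix.mul_one]
  · rintro ⟨y, ⟨⟨hy, -⟩, hd⟩, rfl⟩
    refine ⟨?_, ?_⟩
    · show (s⁻¹ * y * s)ᴴ * Z * (s⁻¹ * y * s) = Z
      rw [conjTranspose_mul, conjTranspose_mul, hss]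
      calc sᴴ * (yᴴ * s⁻¹ᴴ) * (sᴴ * s) * (s⁻¹ * y * s)
          = sᴴ * (yᴴ * ((s * s⁻¹)ᴴ * (s * s⁻¹)) * y) * s := by
            rw [conjTranspose_mul]; simp only [Matrix.mul_assoc]
        _ = sᴴ * s := by
            rw [Matrix.mul_nonsing_inv _ hsu, conjTranspose_one, Matrix.one_mul,
              Matrix.mul_one, hy, Matrix.mul_one]
    · show (s⁻¹ * y * s).det = 1
      rw [Matrix.det_mul, Matrix.det_mul, Matrix.det_nonsing_inv, hd, mul_one,
        Ring.inverse_mul_cancel _ hsu]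

end Pool.Agent.Lib.MP_5d4057_al.VB
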