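import Pool.Agent.Lib.MP_5d4057_al.VB.Lie

/-!
# VERB V1.7: complexification of the differential (owner: helper1)
-/

set_option autoImplicit false

namespace Pool.Agent.Lib.MP_5d4057_al.VB

open Matrix Pool.Agent.Lib.MP_5d4057_al Pool.Agent.Lib.MP_5d4057_al.Hyb

variable {N m : ℕ} {H : AlgGroup N}

theorem re_im_eq (X : Matrix (Fin N) (Fin N) ℂ) :
    X = (X.map Complex.re).map Complex.ofReal +
      Complex.I • (X.map Complex.im).map Complex.ofReal := by
  ext i j
  simp only [Matrix.map_apply, Matrix.smul_apply, Matrix.add_apply, smul_eq_mul]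
  rw [mul_comm]
  exact (Complex.re_add_im _).symm

theorem re_mem {X : Matrix (Fin N) (Fin N) ℂ} (hX : X ∈ H.lie) : X.map Complex.re ∈ H.lieR := by
  have hc : X.map HM.cj ∈ H.lie := lie_map hX HM.cj
  have hre : (X.map Complex.re).map Complex.ofReal = (1 / 2 : ℂ) • (X + X.map HM.cj) := by
    ext i j
    simp only [Matrix.map_apply, Matrix.smul_apply, Matrix.add_apply, HM.cj_apply, smul_eq_mul]
    rw [Complex.add_conj]
    push_cast
    ring
  rw [mem_lieR, hre]
  exact H.lie.smul_mem _ (H.lie.add_mem hX hc)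

theorem im_mem {X : Matrix (Fin N) (Fin N) ℂ} (hX : X ∈ H.lie) : X.map Complex.im ∈ H.lieR := by
  have hc : X.map HM.cj ∈ H.lie := lie_map hX HM.cj
  have him : (X.map Complex.im).map Complex.ofReal =
      (-Complex.I / 2 : ℂ) • (X - X.map HM.cj) := by
    ext i j
    simp only [Matrix.map_apply, Matrix.smul_apply, Matrix.sub_apply, HM.cj_apply, smul_eq_mul]
    rw [Complex.sub_conj]
    push_cast
    linear_combination ((X i j).im : ℂ) * Complex.I_sq
  rw [mem_lieR, him]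
  exact H.lie.smul_mem _ (H.lie.sub_mem hX hc)

/-- The complexification of a real linear map on `lieR`. -/
noncomputable def cpx (D : H.lieR →ₗ[ℝ] Matrix (Fin (m + 1)) (Fin (m + 1)) ℂ) :
    H.lie →ₗ[ℂ] Matrix (Fin (m + 1)) (Fin (m + 1)) ℂ where
  toFun X := D ⟨X.1.map Complex.re, re_mem X.2⟩ + Complex.I • D ⟨X.1.map Complex.im, im_mem X.2⟩
  map_add' X Y := by
    have h1 : (⟨(X + Y).1.map Complex.re, re_mem (X + Y).2⟩ : H.lieR) =
        ⟨X.1.map Complex.re, re_mem X.2⟩ + ⟨Y.1.map Complex.re, re_mem Y.2⟩ := by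
      refine Subtype.ext ?_
      ext i j
      simp
    have h2 : (⟨(X + Y).1.map Complex.im, im_mem (X + Y).2⟩ : H.lieR) =
        ⟨X.1.map Complex.im, im_mem X.2⟩ + ⟨Y.1.map Complex.im, im_mem Y.2⟩ := by
      refine Subtype.ext ?_
      ext i j
      simp
    rw [h1, h2, map_add, map_add, smul_add]
    abel
  map_smul' c X := by
    have h1 : (⟨(c • X).1.map Complex.re, re_mem (c • X).2⟩ : H.lieR) =
        c.re • ⟨X.1.map Complex.re, re_mem X.2⟩ - c.im • ⟨X.1.map Complex.im, im_mem X.2⟩ := by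
      refine Subtype.ext ?_
      ext i j
      simp
    have h2 : (⟨(c • X).1.map Complex.im, im_mem (c • X).2⟩ : H.lieR) =
        c.re • ⟨X.1.map Complex.im, im_mem X.2⟩ + c.im • ⟨X.1.map Complex.re, re_mem X.2⟩ := by
      refine Subtype.ext ?_
      ext i j
      simp
    rw [h1, h2, map_add, map_sub, map_smul, map_smul, map_smul, map_smul, RingHom.id_apply]
    generalize D ⟨X.1.map Complex.re, re_mem X.2⟩ = A
    generalize D ⟨X.1.map Complex.im, im_mem X.2⟩ = B
    ext i j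
    simp only [Matrix.add_apply, Matrix.sub_apply, Matrix.smul_apply, smul_eq_mul,
      Complex.real_smul]
    linear_combination (-(c.im : ℂ) * B i j) * Complex.I_sq +
      (A i j + Complex.I * B i j) * Complex.re_add_im c

theorem cpx_real (D : H.lieR →ₗ[ℝ] Matrix (Fin (m + 1)) (Fin (m + 1)) ℂ) (X : H.lieR) :
    cpx D ⟨(X : Matrix (Fin N) (Fin N) ℝ).map Complex.ofReal, X.2⟩ = D X := by
  have h1 : (⟨((X : Matrix (Fin N) (Fin N) ℝ).map Complex.ofReal).map Complex.re,
      re_mem X.2⟩ : H.lieR) = X := by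
    refine Subtype.ext ?_
    ext i j
    simp
  have h2 : (⟨((X : Matrix (Fin N) (Fin N) ℝ).map Complex.ofReal).map Complex.im,
      im_mem X.2⟩ : H.lieR) = 0 := by
    refine Subtype.ext ?_
    ext i j
    simp
  show D ⟨((X : Matrix (Fin N) (Fin N) ℝ).map Complex.ofReal).map Complex.re, re_mem X.2⟩ +
    Complex.I • D ⟨((X : Matrix (Fin N) (Fin N) ℝ).map Complex.ofReal).map Complex.im,
      im_mem X.2⟩ = D X
  rw [h1, h2, map_zero, smul_zero, add_zero]

theorem cpx_eq (D : H.lieR →ₗ[ℝ] Matrix (Fin (m + 1)) (Fin (m + 1)) ℂ) (A B : H.lieR)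
    {X : H.lie} (hX : (X : Matrix (Fin N) (Fin N) ℂ) =
      (A : Matrix (Fin N) (Fin N) ℝ).map Complex.ofReal +
        Complex.I • (B : Matrix (Fin N) (Fin N) ℝ).map Complex.ofReal) :
    cpx D X = D A + Complex.I • D B := by
  have h1 : X = (⟨(A : Matrix (Fin N) (Fin N) ℝ).map Complex.ofReal, A.2⟩ : H.lie) +
      Complex.I • (⟨(B : Matrix (Fin N) (Fin N) ℝ).map Complex.ofReal, B.2⟩ : H.lie) :=
    Subtype.ext hX
  rw [h1, map_add, map_smul, cpx_real, cpx_real]

theorem skew_zero {A B : Matrix (Fin (m + 1)) (Fin (m + 1)) ℂ} (hA : Aᴴ * J m = -(J m * A))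
    (hB : Bᴴ * J m = -(J m * B)) (h : A + Complex.I • B = 0) : A = 0 ∧ B = 0 := by
  have h1 : A = -(Complex.I • B) := eq_neg_of_add_eq_zero_left h
  have hJ : J m * J m = 1 := by
    rw [J, Matrix.diagonal_mul_diagonal]
    ext i j
    by_cases hij : i = j
    · subst hij
      by_cases hi : i = Fin.last m
      · simp [hi]
      · simp [hi]
    · simp [hij]
  have h2 : Aᴴ = Complex.I • Bᴴ := by
    rw [h1, Matrix.conjTranspose_neg, Matrix.conjTranspose_smul]
    simp
  have h3 : J m * A = Complex.I • (J m * B) := by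
    have h4 : -(J m * A) = -(Complex.I • (J m * B)) := by
      rw [← hA, h2, Matrix.smul_mul, hB, smul_neg]
    exact neg_inj.1 h4
  have h5 : A = Complex.I • B := by
    have h6 : J m * (J m * A) = J m * (Complex.I • (J m * B)) := by rw [h3]
    rwa [← Matrix.mul_assoc, hJ, Matrix.one_mul, Matrix.mul_smul, ← Matrix.mul_assoc, hJ,
      Matrix.one_mul] at h6
  have h7 : Complex.I • B = 0 := by
    have h8 : Complex.I • B = -(Complex.I • B) := h5.symm.trans h1
    have h9 : (2 : ℂ) • (Complex.I • B) = 0 := by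
      rw [two_smul]
      nth_rewrite 1 [h8]
      exact neg_add_cancel _
    exact (smul_eq_zero.1 h9).resolve_left two_ne_zero
  refine ⟨by rw [h5, h7], (smul_eq_zero.1 h7).resolve_left Complex.I_ne_zero⟩

theorem map_conj (h : H.real0) (X : Matrix (Fin N) (Fin N) ℝ) :
    (mr h * X * mr h⁻¹).map Complex.ofReal =
      (mr h).map Complex.ofReal * X.map Complex.ofReal * (mr h⁻¹).map Complex.ofReal :=
  (map_mul (Complex.ofRealHom.mapMatrix : Matrix (Fin N) (Fin N) ℝ →+* _) (mr h * X)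
    (mr h⁻¹)).trans (congrArg (· * (mr h⁻¹).map Complex.ofReal)
    (map_mul (Complex.ofRealHom.mapMatrix : Matrix (Fin N) (Fin N) ℝ →+* _) (mr h) X))

theorem map_mul_real (X Y : Matrix (Fin N) (Fin N) ℝ) :
    (X * Y).map Complex.ofReal = X.map Complex.ofReal * Y.map Complex.ofReal :=
  map_mul (Complex.ofRealHom.mapMatrix : Matrix (Fin N) (Fin N) ℝ →+* _) X Y

theorem lieR_brk {X Y : Matrix (Fin N) (Fin N) ℝ} (hX : X ∈ H.lieR) (hY : Y ∈ H.lieR) :
    X * Y - Y * X ∈ H.lieR := by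
  rw [mem_lieR]
  have h1 : (X * Y - Y * X).map Complex.ofReal =
      X.map Complex.ofReal * Y.map Complex.ofReal - Y.map Complex.ofReal * X.map Complex.ofReal := by
    rw [← map_mul_real, ← map_mul_real]
    ext i j
    simp
  rw [h1]
  exact lie_brk (mem_lieR.1 hX) (mem_lieR.1 hY)

/-- **Complexification.** -/
theorem exists_pi {φ : H.real0 →* SUGroup m}
    (D : H.lieR →ₗ[ℝ] Matrix (Fin (m + 1)) (Fin (m + 1)) ℂ)
    (hbr : ∀ X Y Z : H.lieR, (Z : Matrix (Fin N) (Fin N) ℝ) = X.1 * Y.1 - Y.1 * X.1 →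
      D Z = D X * D Y - D Y * D X)
    (hsk : ∀ X, (D X)ᴴ * J m = -(J m * D X)) (htr : ∀ X, (D X).trace = 0)
    (hon : ∀ Y : Matrix (Fin (m + 1)) (Fin (m + 1)) ℂ, Y.trace = 0 →
      Y ∈ Submodule.span ℂ (Set.range D))
    (hcj : ∀ (h : H.real0) (X Y : H.lieR), (Y : Matrix (Fin N) (Fin N) ℝ) = mr h * X.1 * mr h⁻¹ →
      D Y = (φ h).toMatrix * D X * ((φ h)⁻¹).toMatrix)
    (hbd : ∀ X : H.lieR, D X = 0 → ∃ C : ℝ, ∀ (h : H.real0) (i j : Fin N),
      |(mr h * X.1 * mr h⁻¹) i j| ≤ C) :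
    ∃ π : Matrix (Fin N) (Fin N) ℂ →ₗ[ℂ] Matrix (Fin (m + 1)) (Fin (m + 1)) ℂ,
      (∀ X : H.lieR, π ((X : Matrix (Fin N) (Fin N) ℝ).map Complex.ofReal) = D X) ∧
      (∀ X ∈ H.lie, (π X).trace = 0) ∧
      (∀ X ∈ H.lie, ∀ Y ∈ H.lie, π (X * Y - Y * X) = π X * π Y - π Y * π X) ∧
      (∀ Y : Matrix (Fin (m + 1)) (Fin (m + 1)) ℂ, Y.trace = 0 → ∃ X ∈ H.lie, π X = Y) ∧
      (∀ (h : H.real0), ∀ X ∈ H.lie,
        π ((mr h).map Complex.ofReal * X * (mr h⁻¹).map Complex.ofReal) =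
          (φ h).toMatrix * π X * ((φ h)⁻¹).toMatrix) ∧
      ∀ X ∈ H.lie, π X = 0 → ∃ C : ℝ, ∀ (h : H.real0) (i j : Fin N),
        ‖((mr h).map Complex.ofReal * X * (mr h⁻¹).map Complex.ofReal) i j‖ ≤ C := by
  obtain ⟨π, hπ⟩ := LinearMap.exists_extend (cpx D)
  have hq : ∀ X (hX : X ∈ H.lie), π X = cpx D ⟨X, hX⟩ := fun X hX =>
    congrArg (fun f => f ⟨X, hX⟩) hπ
  have hq2 : ∀ (A B : H.lieR), π ((A : Matrix (Fin N) (Fin N) ℝ).map Complex.ofReal +
      Complex.I • (B : Matrix (Fin N) (Fin N) ℝ).map Complex.ofReal) = D A + Complex.I • D B := by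
    intro A B
    have hm : (A : Matrix (Fin N) (Fin N) ℝ).map Complex.ofReal +
      Complex.I • (B : Matrix (Fin N) (Fin N) ℝ).map Complex.ofReal ∈ H.lie :=
      H.lie.add_mem A.2 (H.lie.smul_mem _ B.2)
    rw [hq _ hm]
    exact cpx_eq D A B rfl
  have hrep : ∀ X ∈ H.lie, ∃ A B : H.lieR, X = (A : Matrix (Fin N) (Fin N) ℝ).map Complex.ofReal +
      Complex.I • (B : Matrix (Fin N) (Fin N) ℝ).map Complex.ofReal := fun X hX =>
    ⟨⟨_, re_mem hX⟩, ⟨_, im_mem hX⟩, re_im_eq X⟩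
  refine ⟨π, ?_, ?_, ?_, ?_, ?_, ?_⟩
  · intro X
    rw [hq _ X.2]
    exact cpx_real D X
  · intro X hX
    obtain ⟨A, B, rfl⟩ := hrep X hX
    rw [hq2, Matrix.trace_add, Matrix.trace_smul, htr, htr, smul_zero, add_zero]
  · intro X hX Y hY
    obtain ⟨A, B, rfl⟩ := hrep X hX
    obtain ⟨A', B', rfl⟩ := hrep Y hY
    let c : H.lieR → H.lieR → H.lieR := fun U V => ⟨U.1 * V.1 - V.1 * U.1, lieR_brk U.2 V.2⟩
    have hc : ∀ U V : H.lieR, D (c U V) = D U * D V - D V * D U := fun U V => hbr U V (c U V) rfl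
    have hcm : ∀ U V : H.lieR, ((c U V : H.lieR) : Matrix (Fin N) (Fin N) ℝ).map Complex.ofReal =
        U.1.map Complex.ofReal * V.1.map Complex.ofReal -
          V.1.map Complex.ofReal * U.1.map Complex.ofReal := by
      intro U V
      rw [← map_mul_real, ← map_mul_real]
      ext i j
      simp [c]
    have e : ((A : Matrix (Fin N) (Fin N) ℝ).map Complex.ofReal +
          Complex.I • (B : Matrix (Fin N) (Fin N) ℝ).map Complex.ofReal) *
        ((A' : Matrix (Fin N) (Fin N) ℝ).map Complex.ofReal +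
          Complex.I • (B' : Matrix (Fin N) (Fin N) ℝ).map Complex.ofReal) -
        ((A' : Matrix (Fin N) (Fin N) ℝ).map Complex.ofReal +
          Complex.I • (B' : Matrix (Fin N) (Fin N) ℝ).map Complex.ofReal) *
        ((A : Matrix (Fin N) (Fin N) ℝ).map Complex.ofReal +
          Complex.I • (B : Matrix (Fin N) (Fin N) ℝ).map Complex.ofReal) =
        ((c A A' - c B B' : H.lieR) : Matrix (Fin N) (Fin N) ℝ).map Complex.ofReal +
          Complex.I • ((c A B' + c B A' : H.lieR) : Matrix (Fin N) (Fin N) ℝ).map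
            Complex.ofReal := by
      have h1 : ((c A A' - c B B' : H.lieR) : Matrix (Fin N) (Fin N) ℝ).map Complex.ofReal =
          (c A A').1.map Complex.ofReal - (c B B').1.map Complex.ofReal := by
        ext i j
        simp
      have h2 : ((c A B' + c B A' : H.lieR) : Matrix (Fin N) (Fin N) ℝ).map Complex.ofReal =
          (c A B').1.map Complex.ofReal + (c B A').1.map Complex.ofReal := by
        ext i j
        simp
      rw [h1, h2, hcm, hcm, hcm, hcm]
      simp only [Matrix.add_mul, Matrix.mul_add, Matrix.smul_mul, Matrix.mul_smul, smul_smul,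
        Complex.I_mul_I, smul_add, smul_sub, neg_smul, one_smul]
      abel
    rw [e, hq2, hq2, hq2, map_sub, map_add, hc, hc, hc, hc]
    simp only [Matrix.add_mul, Matrix.mul_add, Matrix.smul_mul, Matrix.mul_smul, smul_smul,
      Complex.I_mul_I, smul_add, smul_sub, neg_smul, one_smul]
    abel
  · intro Y hY
    have h1 := hon Y hY
    have h2 : Submodule.span ℂ (Set.range D) ≤ H.lie.map π := by
      rw [Submodule.span_le]
      rintro _ ⟨X, rfl⟩
      refine ⟨_, X.2, ?_⟩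
      rw [hq _ X.2]
      exact cpx_real D X
    obtain ⟨X, hX, h3⟩ := h2 h1
    exact ⟨X, hX, h3⟩
  · intro h X hX
    obtain ⟨A, B, rfl⟩ := hrep X hX
    have e : (mr h).map Complex.ofReal * ((A : Matrix (Fin N) (Fin N) ℝ).map Complex.ofReal +
          Complex.I • (B : Matrix (Fin N) (Fin N) ℝ).map Complex.ofReal) *
        (mr h⁻¹).map Complex.ofReal =
        ((⟨mr h * A.1 * mr h⁻¹, lieR_conj A.2 h⟩ : H.lieR) : Matrix (Fin N) (Fin N) ℝ).map
          Complex.ofReal + Complex.I •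
        ((⟨mr h * B.1 * mr h⁻¹, lieR_conj B.2 h⟩ : H.lieR) : Matrix (Fin N) (Fin N) ℝ).map
          Complex.ofReal := by
      show _ = (mr h * A.1 * mr h⁻¹).map Complex.ofReal +
        Complex.I • (mr h * B.1 * mr h⁻¹).map Complex.ofReal
      rw [map_conj, map_conj, Matrix.mul_add, Matrix.add_mul, Matrix.mul_smul, Matrix.smul_mul]
    rw [e, hq2, hq2, hcj h A ⟨mr h * A.1 * mr h⁻¹, lieR_conj A.2 h⟩ rfl,
      hcj h B ⟨mr h * B.1 * mr h⁻¹, lieR_conj B.2 h⟩ rfl, Matrix.mul_add, Matrix.add_mul,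
      Matrix.mul_smul, Matrix.smul_mul]
  · intro X hX h0
    obtain ⟨A, B, rfl⟩ := hrep X hX
    rw [hq2] at h0
    obtain ⟨hA, hB⟩ := skew_zero (hsk A) (hsk B) h0
    obtain ⟨C₁, h1⟩ := hbd A hA
    obtain ⟨C₂, h2⟩ := hbd B hB
    refine ⟨C₁ + C₂, fun h i j => ?_⟩
    have e : (mr h).map Complex.ofReal * ((A : Matrix (Fin N) (Fin N) ℝ).map Complex.ofReal +
          Complex.I • (B : Matrix (Fin N) (Fin N) ℝ).map Complex.ofReal) *
        (mr h⁻¹).map Complex.ofReal =
        (mr h * A.1 * mr h⁻¹).map Complex.ofReal +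
          Complex.I • (mr h * B.1 * mr h⁻¹).map Complex.ofReal := by
      rw [map_conj, map_conj, Matrix.mul_add, Matrix.add_mul, Matrix.mul_smul, Matrix.smul_mul]
    rw [e]
    refine (norm_add_le _ _).trans (add_le_add ?_ ?_)
    · rw [Matrix.map_apply, Complex.norm_real]
      exact h1 h i j
    · rw [Matrix.smul_apply, Matrix.map_apply, smul_eq_mul, norm_mul, Complex.norm_I, one_mul,
        Complex.norm_real]
      exact h2 h i j

end Pool.Agent.Lib.MP_5d4057_al.VB
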