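import Pool.Agent.Lib.MP_5d4057_al.VB.Defs

/-!
# VERB V2: the rational data of a unitary group

`Dat m r N` is what a unitary group of a form of the matrix algebra over a CM field gives: `N` is the dimension of the
algebra over `ℚ`, `r + 1` the number of places of the CM field.
-/

set_option autoImplicit false

namespace Pool.Agent.Lib.MP_5d4057_al.VB

open Matrix Pool.Agent.Lib.MP_5d4057_al Pool.Agent.Lib.MP_5d4057_al.Hyb

open scoped ComplexOrder

/-- The data of a unitary group over `ℚ`: `b k i` is the image of the `k`-th basis vector at the place `i`. -/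
structure Dat (m r N : ℕ) where
  b : Fin N → Fin (r + 1) → Matrix (Fin (m + 1)) (Fin (m + 1)) ℂ
  c : Fin N → Fin N → Fin N → ℤ
  e : Fin N → ℤ
  s : Fin N → Fin N → ℚ
  Z : Fin (r + 1) → Matrix (Fin (m + 1)) (Fin (m + 1)) ℂ
  F : Set (MvPolynomial (Fin N) ℚ)
  bij : ∀ U V : Fin (r + 1) → Matrix (Fin (m + 1)) (Fin (m + 1)) ℂ, ∃! x : Fin N → ℂ,
    (∀ i, ∑ k, x k • b k i = U i) ∧ ∀ i, ∑ k, x k • (b k i).map (starRingEnd ℂ) = V i
  mul : ∀ j k i, b j i * b k i = ∑ l, (c j k l : ℂ) • b l i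
  one : ∀ i, ∑ k, (e k : ℂ) • b k i = 1
  adj : ∀ j i, (Z i)⁻¹ * (b j i)ᴴ * Z i = ∑ k, (s j k : ℂ) • b k i
  Z_zero : Z 0 = J m
  Z_pos : ∀ i, i ≠ 0 → (Z i).PosDef
  F_iff : ∀ x : Fin N → ℂ, (∀ p ∈ F, MvPolynomial.aeval x p = 0) ↔
    ∀ i, (∑ k, x k • b k i).det = 1 ∧ (∑ k, x k • (b k i).map (starRingEnd ℂ)).det = 1
  inj : ∀ x : Fin N → ℚ, ∑ k, (x k : ℂ) • b k 0 = 0 → x = 0
  rat : ∀ x : Fin N → ℚ, (∑ k, (x k : ℂ) • b k 0).det = 1 → ∀ i, (∑ k, (x k : ℂ) • b k i).det = 1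

namespace Dat

variable {m r N : ℕ} (D : Dat m r N)

/-- The component at the place `i`. -/
noncomputable def X (x : Fin N → ℂ) (i : Fin (r + 1)) : Matrix (Fin (m + 1)) (Fin (m + 1)) ℂ :=
  ∑ k, x k • D.b k i

/-- The component at the place conjugate to `i`. -/
noncomputable def Y (x : Fin N → ℂ) (i : Fin (r + 1)) : Matrix (Fin (m + 1)) (Fin (m + 1)) ℂ :=
  ∑ k, x k • (D.b k i).map (starRingEnd ℂ)

section ring

variable {R : Type} [CommRing R]

/-- The product in coordinates. -/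
def mv (x y : Fin N → R) : Fin N → R := fun l => ∑ j, ∑ k, x j * y k * (D.c j k l : R)

/-- The matrix of the left multiplication by `x`. -/
def L (x : Fin N → R) : Matrix (Fin N) (Fin N) R := fun l k => ∑ j, x j * (D.c j k l : R)

/-- The coordinates of `1`. -/
def u : Fin N → R := fun k => (D.e k : R)

theorem L_mulVec (x y : Fin N → R) : D.L x *ᵥ y = D.mv x y := by
  ext l
  rw [mulVec, dotProduct, mv, Finset.sum_comm]
  refine Finset.sum_congr rfl fun k _ => ?_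
  rw [L, Finset.sum_mul]
  exact Finset.sum_congr rfl fun j _ => by ring

theorem L_add (x y : Fin N → R) : D.L (x + y) = D.L x + D.L y := by
  ext l k
  simp only [L, Matrix.add_apply, Pi.add_apply, add_mul, Finset.sum_add_distrib]

theorem L_map {S : Type} [CommRing S] (f : R →+* S) (x : Fin N → R) :
    (D.L x).map f = D.L fun k => f (x k) := by
  ext l k
  simp [L, Matrix.map_apply, map_sum]

theorem mv_map {S : Type} [CommRing S] (f : R →+* S) (x y : Fin N → R) (k : Fin N) :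
    f (D.mv x y k) = D.mv (fun k => f (x k)) (fun k => f (y k)) k := by
  simp [mv, map_sum]

theorem u_map {S : Type} [CommRing S] (f : R →+* S) (k : Fin N) : f (D.u k) = D.u k := by
  simp [u]

end ring

/-- The involution in coordinates (linear). -/
noncomputable def st (x : Fin N → ℂ) : Fin N → ℂ := fun k => ∑ j, x j * (D.s j k : ℂ)

theorem X_mv (x y : Fin N → ℂ) (i : Fin (r + 1)) : D.X (D.mv x y) i = D.X x i * D.X y i := by
  have h1 : D.X x i * D.X y i = ∑ j, ∑ k, ∑ l, (x j * y k * (D.c j k l : ℂ)) • D.b l i := by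
    rw [X, X, Finset.sum_mul]
    refine Finset.sum_congr rfl fun j _ => ?_
    rw [Finset.mul_sum]
    refine Finset.sum_congr rfl fun k _ => ?_
    rw [Matrix.smul_mul, Matrix.mul_smul, D.mul, smul_smul, Finset.smul_sum]
    exact Finset.sum_congr rfl fun l _ => by rw [smul_smul]
  rw [h1, X]
  have h2 : ∀ l, D.mv x y l • D.b l i = ∑ j, ∑ k, (x j * y k * (D.c j k l : ℂ)) • D.b l i := by
    intro l
    rw [mv, Finset.sum_smul]
    exact Finset.sum_congr rfl fun j _ => by rw [Finset.sum_smul]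
  simp only [h2]
  rw [Finset.sum_comm]
  refine Finset.sum_congr rfl fun j _ => ?_
  rw [Finset.sum_comm]

theorem X_star (x : Fin N → ℂ) (i : Fin (r + 1)) :
    (D.X x i).map (starRingEnd ℂ) = D.Y (fun k => (starRingEnd ℂ) (x k)) i := by
  ext p q
  simp [X, Y, Matrix.sum_apply, Matrix.map_apply]

theorem Y_star (x : Fin N → ℂ) (i : Fin (r + 1)) :
    (D.Y x i).map (starRingEnd ℂ) = D.X (fun k => (starRingEnd ℂ) (x k)) i := by
  ext p q
  simp [X, Y, Matrix.sum_apply, Matrix.map_apply]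

theorem Y_eq (x : Fin N → ℂ) (i : Fin (r + 1)) :
    D.Y x i = (D.X (fun k => (starRingEnd ℂ) (x k)) i).map (starRingEnd ℂ) := by
  rw [X_star]
  simp

theorem Y_mv (x y : Fin N → ℂ) (i : Fin (r + 1)) : D.Y (D.mv x y) i = D.Y x i * D.Y y i := by
  rw [Y_eq, Y_eq, Y_eq D y, ← Matrix.map_mul, ← X_mv]
  congr 2
  ext k
  exact D.mv_map (starRingEnd ℂ) x y k

theorem X_u (i : Fin (r + 1)) : D.X D.u i = 1 := D.one i

theorem Y_u (i : Fin (r + 1)) : D.Y D.u i = 1 := by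
  rw [Y_eq]
  have h : (fun k => (starRingEnd ℂ) ((D.u : Fin N → ℂ) k)) = D.u := by
    ext k
    exact D.u_map (starRingEnd ℂ) k
  rw [h, X_u]
  exact Matrix.map_one _ (map_zero _) (map_one _)

theorem ext' {x y : Fin N → ℂ} (hX : ∀ i, D.X x i = D.X y i) (hY : ∀ i, D.Y x i = D.Y y i) :
    x = y :=
  (D.bij (D.X y) (D.Y y)).unique ⟨hX, hY⟩ ⟨fun _ => rfl, fun _ => rfl⟩

theorem mv_assoc (x y z : Fin N → ℂ) : D.mv (D.mv x y) z = D.mv x (D.mv y z) :=
  D.ext' (fun i => by simp only [X_mv, Matrix.mul_assoc]) fun i => by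
    simp only [Y_mv, Matrix.mul_assoc]

theorem mv_u (x : Fin N → ℂ) : D.mv x D.u = x :=
  D.ext' (fun i => by rw [X_mv, X_u, Matrix.mul_one]) fun i => by rw [Y_mv, Y_u, Matrix.mul_one]

theorem u_mv (x : Fin N → ℂ) : D.mv D.u x = x :=
  D.ext' (fun i => by rw [X_mv, X_u, Matrix.one_mul]) fun i => by rw [Y_mv, Y_u, Matrix.one_mul]

theorem L_mv (x y : Fin N → ℂ) : D.L (D.mv x y) = D.L x * D.L y := by
  have h : ∀ z : Fin N → ℂ, D.L (D.mv x y) *ᵥ z = (D.L x * D.L y) *ᵥ z := by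
    intro z
    rw [← mulVec_mulVec, L_mulVec, L_mulVec, L_mulVec, mv_assoc]
  ext i j
  have h1 := congrFun (h (Pi.single j 1)) i
  rwa [mulVec_single_one, mulVec_single_one] at h1

theorem L_u : D.L (D.u : Fin N → ℂ) = 1 := by
  ext i j
  have h1 : D.L (D.u : Fin N → ℂ) *ᵥ Pi.single j 1 = Pi.single j 1 := by
    rw [L_mulVec, u_mv]
  have h2 := congrFun h1 i
  rw [mulVec_single_one] at h2
  rw [one_apply]
  rw [Pi.single_apply] at h2
  exact h2

theorem L_mulVec_u (x : Fin N → ℂ) : D.L x *ᵥ D.u = x := by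
  rw [L_mulVec, mv_u]

theorem L_injective : Function.Injective (D.L : (Fin N → ℂ) → Matrix (Fin N) (Fin N) ℂ) := by
  intro x y h
  rw [← D.L_mulVec_u x, h, L_mulVec_u]

theorem Z_herm (i : Fin (r + 1)) : (D.Z i)ᴴ = D.Z i := by
  by_cases hi : i = 0
  · rw [hi, D.Z_zero]
    rw [J, Matrix.diagonal_conjTranspose]
    congr 1
    ext k
    simp only [Pi.star_apply]
    split_ifs <;> simp
  · exact (D.Z_pos i hi).1

theorem Z_det (i : Fin (r + 1)) : (D.Z i).det ≠ 0 := by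
  by_cases hi : i = 0
  · rw [hi, D.Z_zero, J, Matrix.det_diagonal]
    refine Finset.prod_ne_zero_iff.2 fun k _ => ?_
    split_ifs <;> norm_num
  · exact (D.Z_pos i hi).det_pos.ne'

theorem X_st (x : Fin N → ℂ) (i : Fin (r + 1)) :
    D.X (D.st x) i = (D.Z i)⁻¹ * (D.Y x i)ᵀ * D.Z i := by
  have h1 : (D.Y x i)ᵀ = ∑ k, x k • (D.b k i)ᴴ := by
    ext p q
    simp [Y, Matrix.sum_apply, Matrix.transpose_apply, Matrix.conjTranspose_apply]
  rw [h1, Finset.mul_sum, Finset.sum_mul]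
  have h2 : ∀ k, (D.Z i)⁻¹ * (x k • (D.b k i)ᴴ) * D.Z i = ∑ l, (x k * (D.s k l : ℂ)) • D.b l i := by
    intro k
    rw [Matrix.mul_smul, Matrix.smul_mul, D.adj, Finset.smul_sum]
    exact Finset.sum_congr rfl fun l _ => by rw [smul_smul]
  simp only [h2]
  rw [Finset.sum_comm, X]
  refine Finset.sum_congr rfl fun l _ => ?_
  rw [st, Finset.sum_smul]

theorem st_star (x : Fin N → ℂ) (k : Fin N) :
    (starRingEnd ℂ) (D.st x k) = D.st (fun k => (starRingEnd ℂ) (x k)) k := by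
  simp [st, map_sum]

theorem Y_st (x : Fin N → ℂ) (i : Fin (r + 1)) :
    D.Y (D.st x) i = (D.Z i * D.X x i * (D.Z i)⁻¹)ᵀ := by
  have hinv : ((D.Z i)⁻¹).map (starRingEnd ℂ) = ((D.Z i)⁻¹)ᵀ := by
    have h1 : ((D.Z i)⁻¹)ᴴ = (D.Z i)⁻¹ := by rw [conjTranspose_nonsing_inv, D.Z_herm]
    calc ((D.Z i)⁻¹).map (starRingEnd ℂ) = (((D.Z i)⁻¹)ᴴ)ᵀ := by
          ext p q
          simp [Matrix.conjTranspose_apply]
      _ = _ := by rw [h1]
  have hZ : (D.Z i).map (starRingEnd ℂ) = (D.Z i)ᵀ := by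
    calc (D.Z i).map (starRingEnd ℂ) = ((D.Z i)ᴴ)ᵀ := by
          ext p q
          simp [Matrix.conjTranspose_apply]
      _ = _ := by rw [D.Z_herm]
  have h2 : (fun k => (starRingEnd ℂ) (D.st x k)) = D.st fun k => (starRingEnd ℂ) (x k) :=
    funext fun k => D.st_star x k
  rw [Y_eq, h2, X_st, Matrix.map_mul, Matrix.map_mul, hinv, hZ, Matrix.transpose_mul,
    Matrix.transpose_mul, ← Matrix.mul_assoc]
  congr 2
  have h3 : ((D.Y (fun k => (starRingEnd ℂ) (x k)) i)ᵀ).map (starRingEnd ℂ) =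
      ((D.Y (fun k => (starRingEnd ℂ) (x k)) i).map (starRingEnd ℂ))ᵀ := rfl
  rw [h3, Y_star]
  simp

/-- The points of the group. -/
def Pt (x : Fin N → ℂ) : Prop := ∀ i, (D.Y x i)ᵀ * D.Z i * D.X x i = D.Z i ∧ (D.X x i).det = 1

end Dat

end Pool.Agent.Lib.MP_5d4057_al.VB
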