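import Pool.Agent.Lib.MP_5d4057_al.VB.Newt

/-!
# VERB V2: a polynomial over a number field and its conjugates
-/

set_option autoImplicit false

namespace Pool.Agent.Lib.MP_5d4057_al.VB

/-- The common zeros of the conjugates of a polynomial over a number field `K` are the zeros of polynomials with rational
coefficients (the coordinates in a basis of `K` over `ℚ`). -/
theorem exists_rat_polys (K : Subfield ℂ) [NumberField K] {N : ℕ} (p : MvPolynomial (Fin N) ℂ)
    (hp : ∀ s, p.coeff s ∈ K) : ∃ F : Set (MvPolynomial (Fin N) ℚ), ∀ x : Fin N → ℂ,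
      (∀ q ∈ F, MvPolynomial.aeval x q = 0) ↔ ∀ τ : K →+* ℂ, ∀ P : MvPolynomial (Fin N) ℂ,
        (∀ (s : Fin N →₀ ℕ) (z : K), (z : ℂ) = p.coeff s → P.coeff s = τ z) →
          MvPolynomial.eval x P = 0 := by
  classical
  let p' : MvPolynomial (Fin N) K := ∑ s ∈ p.support, MvPolynomial.monomial s ⟨p.coeff s, hp s⟩
  have h1 : ∀ s, p'.coeff s = ⟨p.coeff s, hp s⟩ := by
    intro s
    rw [MvPolynomial.coeff_sum]
    simp only [MvPolynomial.coeff_monomial]
    rw [Finset.sum_ite_eq']
    split_ifs with h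
    · rfl
    · rw [MvPolynomial.notMem_support_iff] at h
      exact Subtype.ext h.symm
  obtain ⟨q, -, hq⟩ := exists_comp_iff (Module.finBasis ℚ K) p'
  have h2 : ∀ (τ : K →+* ℂ) (P : MvPolynomial (Fin N) ℂ),
      (∀ (s : Fin N →₀ ℕ) (z : K), (z : ℂ) = p.coeff s → P.coeff s = τ z) ↔
        P = MvPolynomial.map τ p' := by
    intro τ P
    refine ⟨fun h => ?_, fun h s z hz => ?_⟩
    · refine MvPolynomial.ext _ _ fun s => ?_
      rw [MvPolynomial.coeff_map, h1, h s ⟨p.coeff s, hp s⟩ rfl]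
    · rw [h, MvPolynomial.coeff_map, h1]
      congr 1
      exact Subtype.ext hz.symm
  refine ⟨Set.range q, fun x => ?_⟩
  rw [Set.forall_mem_range, ← hq x]
  refine forall_congr' fun τ => ⟨fun h P hP => ?_, fun h => ?_⟩
  · rw [(h2 τ P).1 hP, MvPolynomial.eval_map]
    exact h
  · have := h (MvPolynomial.map τ p') ((h2 τ _).2 rfl)
    rwa [MvPolynomial.eval_map] at this

end Pool.Agent.Lib.MP_5d4057_al.VB
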