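import Pool.Agent.Lib.MP_5d4057_al.CF.Types
import Pool.Agent.Lib.MP_5d4057_al.VB.Plc
import Pool.Agent.Lib.MP_5d4057_al.VB.RatP

/-!
# VERB V2: the determinant is defined over `K`
-/

set_option autoImplicit false

namespace Pool.Agent.Lib.MP_5d4057_al.VB

open Matrix Pool.Agent.Lib.MP_5d4057_al Pool.Agent.Lib.MP_5d4057_al.Hyb
  Pool.Agent.Lib.MP_5d4057_al.HM Pool.Agent.Lib.MP_5d4057_al.CF

variable {m : ℕ} {K : Subfield ℂ} {A : Subalgebra K (Matrix (Fin (m + 1)) (Fin (m + 1)) ℂ)}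

/-- The determinant as a polynomial. -/
noncomputable def dpoly {N : ℕ} (b : Fin N → Matrix (Fin (m + 1)) (Fin (m + 1)) ℂ) :
    MvPolynomial (Fin N) ℂ :=
  (Matrix.of fun p q => ∑ k, MvPolynomial.C (b k p q) * MvPolynomial.X k :
    Matrix (Fin (m + 1)) (Fin (m + 1)) (MvPolynomial (Fin N) ℂ)).det

theorem eval_dpoly {N : ℕ} (b : Fin N → Matrix (Fin (m + 1)) (Fin (m + 1)) ℂ) (x : Fin N → ℂ) :
    MvPolynomial.eval x (dpoly b) = (∑ k, x k • b k).det := by
  rw [dpoly, RingHom.map_det]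
  congr 1
  ext p q
  simp [Matrix.sum_apply, mul_comm]

theorem map_dpoly {N : ℕ} (b : Fin N → Matrix (Fin (m + 1)) (Fin (m + 1)) ℂ) (t : ℂ →+* ℂ) :
    MvPolynomial.map t (dpoly b) = dpoly fun k => (b k).map t := by
  rw [dpoly, dpoly, RingHom.map_det]
  congr 1
  refine Matrix.ext fun p q => ?_
  simp

theorem dpoly_conj {N : ℕ} (b : Fin N → Matrix (Fin (m + 1)) (Fin (m + 1)) ℂ)
    {E : Matrix (Fin (m + 1)) (Fin (m + 1)) ℂ} (hE : IsUnit E) :
    dpoly (fun k => E * b k * E⁻¹) = dpoly b := by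
  refine MvPolynomial.funext fun x => ?_
  rw [eval_dpoly, eval_dpoly]
  have h1 : ∑ k, x k • (E * b k * E⁻¹) = E * (∑ k, x k • b k) * E⁻¹ := by
    rw [Matrix.mul_sum, Matrix.sum_mul]
    exact Finset.sum_congr rfl fun k _ => by rw [Matrix.mul_smul, Matrix.smul_mul]
  rw [h1, det_mul, det_mul, mul_right_comm, ← det_mul,
    Matrix.mul_nonsing_inv _ ((Matrix.isUnit_iff_isUnit_det E).1 hE), det_one, one_mul]

/-- The determinant has coefficients in `K` on `A` (`Reg.inner` and `mem_of_fixed`). -/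
theorem coeff_dpoly (hK : NumberField K) (hrank : Module.finrank K A = (m + 1) ^ 2)
    (hspan : Submodule.span ℂ (A : Set (Matrix (Fin (m + 1)) (Fin (m + 1)) ℂ)) = ⊤) {N : ℕ}
    {b : Fin N → Matrix (Fin (m + 1)) (Fin (m + 1)) ℂ} (hb : ∀ k, b k ∈ A) (s : Fin N →₀ ℕ) :
    (dpoly b).coeff s ∈ K := by
  obtain ⟨d, v, c, h⟩ := exists_reg A hrank hspan
  refine mem_of_fixed K _ fun t ht => ?_
  obtain ⟨E, hE, hEa⟩ := h.inner t ht
  have h1 : MvPolynomial.map (t : ℂ →+* ℂ) (dpoly b) = dpoly b := by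
    rw [map_dpoly, ← dpoly_conj b hE]
    congr 1
    funext k
    exact hEa _ (hb k)
  have h2 := congrArg (MvPolynomial.coeff s) h1
  rwa [MvPolynomial.coeff_map] at h2

/-- `det = 1` at all places is given by rational polynomials. -/
theorem exists_F (hK : NumberField K) (hrank : Module.finrank K A = (m + 1) ^ 2)
    (hspan : Submodule.span ℂ (A : Set (Matrix (Fin (m + 1)) (Fin (m + 1)) ℂ)) = ⊤) {r : ℕ}
    {t : Fin (r + 1) → (ℂ ≃+* ℂ)} (hP : Plc K r t) {N : ℕ}
    {b : Fin N → Matrix (Fin (m + 1)) (Fin (m + 1)) ℂ} (hb : ∀ k, b k ∈ A) :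
    ∃ F : Set (MvPolynomial (Fin N) ℚ), ∀ x : Fin N → ℂ, (∀ p ∈ F, MvPolynomial.aeval x p = 0) ↔
      ∀ i, (∑ k, x k • (b k).map (t i)).det = 1 ∧
        (∑ k, x k • ((b k).map (t i)).map (starRingEnd ℂ)).det = 1 := by
  have hp : ∀ s, (dpoly b - 1).coeff s ∈ K := by
    intro s
    rw [MvPolynomial.coeff_sub, MvPolynomial.coeff_one]
    refine sub_mem (coeff_dpoly hK hrank hspan hb s) ?_
    split_ifs
    · exact one_mem _
    · exact zero_mem _
  obtain ⟨F, hF⟩ := exists_rat_polys K (dpoly b - 1) hp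
  refine ⟨F, fun x => ?_⟩
  rw [hF x]
  -- the conjugate polynomial
  have key : ∀ (u : ℂ →+* ℂ), (∀ P : MvPolynomial (Fin N) ℂ,
      (∀ (s : Fin N →₀ ℕ) (z : K), (z : ℂ) = (dpoly b - 1).coeff s → P.coeff s = u z) →
        MvPolynomial.eval x P = 0) ↔ (∑ k, x k • (b k).map u).det = 1 := by
    intro u
    have e1 : MvPolynomial.eval x (MvPolynomial.map u (dpoly b - 1)) =
        (∑ k, x k • (b k).map u).det - 1 := by
      rw [map_sub, map_one, map_dpoly, map_sub, map_one, eval_dpoly]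
    constructor
    · intro h
      have h1 := h (MvPolynomial.map u (dpoly b - 1)) (fun s z hz => by
        rw [MvPolynomial.coeff_map, hz])
      rw [e1] at h1
      exact sub_eq_zero.1 h1
    · intro h P hP
      have h1 : P = MvPolynomial.map u (dpoly b - 1) := by
        refine MvPolynomial.ext _ _ fun s => ?_
        rw [hP s ⟨_, hp s⟩ rfl, MvPolynomial.coeff_map]
      rw [h1, e1, h, sub_self]
  constructor
  · intro h i
    refine ⟨?_, ?_⟩
    · exact (key ((t i : ℂ →+* ℂ))).1 (h ((t i).toRingHom.comp K.subtype))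
    · have h1 := (key ((starRingEnd ℂ).comp (t i : ℂ →+* ℂ))).1
        (h ((starRingEnd ℂ).comp ((t i).toRingHom.comp K.subtype)))
      have h2 : ∀ k, (b k).map ((starRingEnd ℂ).comp (t i : ℂ →+* ℂ)) =
          ((b k).map (t i)).map (starRingEnd ℂ) := fun k => by
        ext p q
        rfl
      simp only [h2] at h1
      exact h1
  · intro h τ
    obtain ⟨i | i, hi⟩ := hP.bij.2 τ
    · have h1 : τ = (t i).toRingHom.comp K.subtype := hi.symm
      rw [h1]
      exact (key ((t i : ℂ →+* ℂ))).2 (h i).1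
    · have h1 : τ = (starRingEnd ℂ).comp ((t i).toRingHom.comp K.subtype) := hi.symm
      rw [h1]
      refine (key ((starRingEnd ℂ).comp (t i : ℂ →+* ℂ))).2 ?_
      have h2 : ∀ k, (b k).map ((starRingEnd ℂ).comp (t i : ℂ →+* ℂ)) =
          ((b k).map (t i)).map (starRingEnd ℂ) := fun k => by
        ext p q
        rfl
      simp only [h2]
      exact (h i).2

end Pool.Agent.Lib.MP_5d4057_al.VB
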