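import Pool.Agent.Lib.MP_5d4057_al.VB.Dat
import Pool.Agent.Lib.MP_5d4057_al.VB.AdjZ
import Pool.Agent.Lib.MP_5d4057_al.VB.Bij
import Pool.Agent.Lib.MP_5d4057_al.VB.DetK

/-!
# VERB V2: the data of a unitary form
-/

set_option autoImplicit false

namespace Pool.Agent.Lib.MP_5d4057_al.VB

open Matrix Pool.Agent.Lib.MP_5d4057_al Pool.Agent.Lib.MP_5d4057_al.Hyb

variable {m : ℕ} {K : Subfield ℂ} {A : Subalgebra K (Matrix (Fin (m + 1)) (Fin (m + 1)) ℂ)}
  {O : Subring (Matrix (Fin (m + 1)) (Fin (m + 1)) ℂ)}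

private theorem map_sum_smul {N : ℕ} (t : ℂ ≃+* ℂ) (x : Fin N → ℂ)
    (b : Fin N → Matrix (Fin (m + 1)) (Fin (m + 1)) ℂ) :
    (∑ k, x k • b k).map t = ∑ k, t (x k) • (b k).map t := by
  ext p q
  simp [Matrix.sum_apply, Matrix.map_apply, map_sum]

theorem exists_dat (hU : IsUnitaryForm m K A) (hO : IsOrder A O) :
    ∃ (r N : ℕ) (D : Dat m r N), ∀ a, a ∈ O ↔ ∃ x : Fin N → ℤ, a = ∑ k, (x k : ℂ) • D.b k 0 := by
  obtain ⟨r, t, hP⟩ := exists_plc hU.cm
  obtain ⟨Z, hZ0, hZp, hZ⟩ := exists_Z hU hP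
  obtain ⟨N, b, hb⟩ := exists_obas hO
  obtain ⟨F, hF⟩ := exists_F hU.cm.1 hU.rank hU.span hP hb.mem
  have hbO : ∀ k, b k ∈ O := by
    intro k
    refine (hb.int _).2 ⟨Pi.single k 1, ?_⟩
    rw [Finset.sum_eq_single k]
    · simp
    · intro j _ hj
      rw [Pi.single_eq_of_ne hj]
      simp
    · intro hk
      exact absurd (Finset.mem_univ _) hk
  have hmul : ∀ j k, ∃ x : Fin N → ℤ, b j * b k = ∑ l, (x l : ℂ) • b l := fun j k =>
    (hb.int _).1 (O.mul_mem (hbO j) (hbO k))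
  choose c hc using hmul
  obtain ⟨e, he⟩ := (hb.int _).1 O.one_mem
  have hadj : ∀ j, ∃ x : Fin N → ℚ, adjoint m (b j) = ∑ l, (x l : ℂ) • b l := fun j =>
    (hb.rat _).1 (hU.adj _ (hb.mem j))
  choose s hs using hadj
  have h0 : ∀ k, (b k).map (t 0) = b k := by
    intro k
    rw [hP.zero]
    ext p q
    rfl
  refine ⟨r, N, ⟨fun k i => (b k).map (t i), c, e, s, Z, F,
    fun U V => bij_of_obas hU.cm.1 hU.rank hU.span hP hb U V, ?_, ?_, ?_, hZ0, hZp, hF, ?_, ?_⟩, ?_⟩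
  · intro j k i
    have h1 : (b j).map (t i) * (b k).map (t i) = (b j * b k).map (t i) :=
      (Matrix.map_mul (f := (t i : ℂ →+* ℂ))).symm
    rw [h1, hc, map_sum_smul]
    simp
  · intro i
    have h1 := congrArg (fun a : Matrix (Fin (m + 1)) (Fin (m + 1)) ℂ => a.map (t i)) he
    simp only [map_sum_smul] at h1
    rw [Matrix.map_one _ (map_zero _) (map_one _)] at h1
    rw [h1]
    simp
  · intro j i
    have h1 := hZ (b j) (hb.mem j) i
    rw [hs, map_sum_smul] at h1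
    rw [← h1]
    simp
  · intro x hx
    simp only [h0] at hx
    exact hb.inj x hx
  · intro x hx i
    simp only [h0] at hx
    have h1 : ∑ k, (x k : ℂ) • (b k).map (t i) = (∑ k, (x k : ℂ) • b k).map (t i) := by
      rw [map_sum_smul]
      simp
    rw [h1]
    have h2 : ((∑ k, (x k : ℂ) • b k).map (t i)).det = t i (∑ k, (x k : ℂ) • b k).det :=
      (RingHom.map_det (t i).toRingHom _).symm
    rw [h2, hx, map_one]
  · intro a
    simp only [h0]
    exact hb.int a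

end Pool.Agent.Lib.MP_5d4057_al.VB
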