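import Pool.Agent.Lib.MP_5d4057_al.Hyb.Arith

/-!
# VERB: the definition of an arithmetic lattice of the problem, word by word

Project VERB, leader helper53. `AlgGroup N`: a linear algebraic group over `ℚ` (an algebraic subgroup of `GL_N` defined over
`ℚ`, given by its complex points); `Arithmetic m Γ`: the definition in the problem.
-/

set_option autoImplicit false

namespace Pool.Agent.Lib.MP_5d4057_al.VB

open Matrix Pool.Agent.Lib.MP_5d4057_al Pool.Agent.Lib.MP_5d4057_al.Hyb

/-- A linear algebraic group over `ℚ`: a set of polynomials with rational coefficients in the `N x N` matrix entries whose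
zeros in `GL_N(ℂ)` form a subgroup `pts`. -/
structure AlgGroup (N : ℕ) where
  polys : Set (MvPolynomial (Fin N × Fin N) ℚ)
  pts : Subgroup (GL (Fin N) ℂ)
  mem_pts : ∀ g : GL (Fin N) ℂ, g ∈ pts ↔
    ∀ p ∈ polys, MvPolynomial.aeval (fun x : Fin N × Fin N => g.1 x.1 x.2) p = 0

namespace AlgGroup

variable {N : ℕ} (H : AlgGroup N)

/-- `H` is connected: the group of its complex points is connected. -/
def Conn : Prop := IsConnected (H.pts : Set (GL (Fin N) ℂ))

/-- `H` is semisimple: its radical is trivial (every connected solvable normal subgroup of `H(ℂ)` is trivial). -/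
def Semisimple : Prop :=
  ∀ R : Subgroup H.pts, R.Normal → IsSolvable R → IsConnected (R : Set H.pts) → R = ⊥

/-- The group `H(ℝ)` of real points. -/
def real : Subgroup (GL (Fin N) ℝ) := H.pts.comap (GeneralLinearGroup.map Complex.ofRealHom)

/-- The identity component `H(ℝ)⁰`. -/
def real0 : Subgroup H.real := Subgroup.connectedComponentOfOne H.real

/-- The group `H(ℤ) ∩ H(ℝ)⁰` (matrices in `GL_N(ℤ)`). -/
def int0 : Subgroup H.real0 :=
  (GeneralLinearGroup.map (n := Fin N) (Int.castRingHom ℝ)).range.comap
    (H.real.subtype.comp H.real0.subtype)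

end AlgGroup

/-- `Γ` is arithmetic: there are a connected semisimple algebraic group `H` over `ℚ` and a continuous surjective homomorphism
`φ : H(ℝ)⁰ → SU(m,1)` with compact kernel such that `φ (H(ℤ) ∩ H(ℝ)⁰)` is commensurable with `Γ`. -/
def Arithmetic (m : ℕ) (Γ : Subgroup (SUGroup m)) : Prop :=
  ∃ (N : ℕ) (H : AlgGroup N) (φ : H.real0 →* SUGroup m), H.Conn ∧ H.Semisimple ∧ Continuous φ ∧
    Function.Surjective φ ∧ IsCompact (φ.ker : Set H.real0) ∧
    Subgroup.Commensurable Γ (H.int0.map φ)

end Pool.Agent.Lib.MP_5d4057_al.VB
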