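import Pool.Agent.Lib.MP_5d4057_al.VB.Defs
import Pool.Agent.Lib.MP_5d4057_al.HM.Aut

/-!
# VERB V2: descent (owner: helper20)

A closed set (zero set of complex polynomials) which is stable under all automorphisms of `ℂ` is the zero set of the
rational polynomials vanishing on it.
-/

set_option autoImplicit false

namespace Pool.Agent.Lib.MP_5d4057_al.VB

open Matrix Pool.Agent.Lib.MP_5d4057_al Pool.Agent.Lib.MP_5d4057_al.Hyb
  Pool.Agent.Lib.MP_5d4057_al.HM

/-- A complex number fixed by all automorphisms is rational. -/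
theorem rat_of_fixed {x : ℂ} (h : ∀ t : ℂ ≃+* ℂ, t x = x) : ∃ r : ℚ, (r : ℂ) = x := by
  have hc : Countable (algebraMap ℚ ℂ).fieldRange := by
    have : Countable ((algebraMap ℚ ℂ).fieldRange : Set ℂ) := by
      rw [RingHom.coe_fieldRange]
      exact (Set.countable_range _).to_subtype
    exact this
  obtain ⟨r, hr⟩ := mem_of_fixed (algebraMap ℚ ℂ).fieldRange x fun t _ => h t
  exact ⟨r, by rw [← hr]; rfl⟩

variable {ι : Type}

private theorem dz_fixed {p : MvPolynomial ι ℂ}
    (h : ∀ t : ℂ ≃+* ℂ, MvPolynomial.map (t : ℂ →+* ℂ) p = p) :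
    ∃ u : MvPolynomial ι ℚ, MvPolynomial.map (algebraMap ℚ ℂ) u = p := by
  have h1 : p ∈ Set.range (MvPolynomial.map (algebraMap ℚ ℂ)) := by
    rw [MvPolynomial.mem_range_map_iff_coeffs_subset]
    intro c hc
    rw [Finset.mem_coe, MvPolynomial.mem_coeffs_iff] at hc
    obtain ⟨m, _, rfl⟩ := hc
    obtain ⟨r, hr⟩ := rat_of_fixed (x := p.coeff m) fun t => by
      have h2 := congrArg (MvPolynomial.coeff m) (h t)
      rw [MvPolynomial.coeff_map] at h2
      exact h2
    exact ⟨r, hr⟩
  exact h1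

/-- Every nonzero element of a stable subspace has a rational element of the subspace below it. -/
private theorem dz_min (V : Submodule ℂ (MvPolynomial ι ℂ))
    (hV : ∀ t : ℂ ≃+* ℂ, ∀ p ∈ V, MvPolynomial.map (t : ℂ →+* ℂ) p ∈ V) (k : ℕ) :
    ∀ p ∈ V, p ≠ 0 → p.support.card ≤ k → ∃ u : MvPolynomial ι ℚ,
      MvPolynomial.map (algebraMap ℚ ℂ) u ∈ V ∧ MvPolynomial.map (algebraMap ℚ ℂ) u ≠ 0 ∧
        (MvPolynomial.map (algebraMap ℚ ℂ) u).support ⊆ p.support := by
  induction k with
  | zero =>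
    intro p hp h0 hk
    rw [Nat.le_zero, Finset.card_eq_zero, MvPolynomial.support_eq_empty] at hk
    exact absurd hk h0
  | succ k ih =>
    intro p hp h0 hk
    by_cases hex : ∃ w ∈ V, w ≠ 0 ∧ w.support ⊂ p.support
    · obtain ⟨w, hw, hw0, hws⟩ := hex
      have h1 := Finset.card_lt_card hws
      obtain ⟨u, h2, h3, h4⟩ := ih w hw hw0 (by omega)
      exact ⟨u, h2, h3, h4.trans hws.1⟩
    · push Not at hex
      obtain ⟨a, ha⟩ := MvPolynomial.support_nonempty.2 h0
      have ha0 : p.coeff a ≠ 0 := MvPolynomial.mem_support_iff.1 ha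
      set q : MvPolynomial ι ℂ := (p.coeff a)⁻¹ • p with hq
      have hqV : q ∈ V := V.smul_mem _ hp
      have hqa : q.coeff a = 1 := by
        rw [hq, MvPolynomial.coeff_smul, smul_eq_mul, inv_mul_cancel₀ ha0]
      have hqs : q.support ⊆ p.support := by
        intro m hm
        rw [MvPolynomial.mem_support_iff] at hm ⊢
        intro h2
        apply hm
        rw [hq, MvPolynomial.coeff_smul, h2, smul_zero]
      have hfix : ∀ t : ℂ ≃+* ℂ, MvPolynomial.map (t : ℂ →+* ℂ) q = q := by
        intro t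
        by_contra hne
        have h1 : MvPolynomial.map (t : ℂ →+* ℂ) q - q ≠ 0 := sub_ne_zero.2 hne
        refine hex _ (V.sub_mem (hV t q hqV) hqV) h1 ?_
        rw [Finset.ssubset_iff_of_subset]
        · refine ⟨a, ha, ?_⟩
          rw [MvPolynomial.mem_support_iff, MvPolynomial.coeff_sub, MvPolynomial.coeff_map, hqa]
          simp
        · intro m hm
          rw [MvPolynomial.mem_support_iff, MvPolynomial.coeff_sub, MvPolynomial.coeff_map] at hm
          refine hqs ?_
          rw [MvPolynomial.mem_support_iff]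
          intro h2
          apply hm
          rw [h2, map_zero, sub_zero]
      obtain ⟨u, hu⟩ := dz_fixed hfix
      refine ⟨u, by rw [hu]; exact hqV, ?_, by rw [hu]; exact hqs⟩
      rw [hu]
      intro h2
      rw [h2, MvPolynomial.coeff_zero] at hqa
      exact zero_ne_one hqa

/-- A subspace of the polynomials which is stable under the automorphisms of `ℂ` is spanned by its rational elements. -/
theorem span_rat_poly (V : Submodule ℂ (MvPolynomial ι ℂ))
    (hV : ∀ t : ℂ ≃+* ℂ, ∀ p ∈ V, MvPolynomial.map (t : ℂ →+* ℂ) p ∈ V) :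
    ∀ p ∈ V, p ∈ Submodule.span ℂ {q | ∃ u : MvPolynomial ι ℚ,
      MvPolynomial.map (algebraMap ℚ ℂ) u = q ∧ q ∈ V} := by
  suffices h : ∀ k : ℕ, ∀ p ∈ V, p.support.card ≤ k → p ∈ Submodule.span ℂ
      {q | ∃ u : MvPolynomial ι ℚ, MvPolynomial.map (algebraMap ℚ ℂ) u = q ∧ q ∈ V} from
    fun p hp => h _ p hp le_rfl
  intro k
  induction k with
  | zero =>
    intro p hp hk
    rw [Nat.le_zero, Finset.card_eq_zero, MvPolynomial.support_eq_empty] at hk
    rw [hk]
    exact Submodule.zero_mem _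
  | succ k ih =>
    intro p hp hk
    by_cases h0 : p = 0
    · rw [h0]
      exact Submodule.zero_mem _
    obtain ⟨u, h1, h2, h3⟩ := dz_min V hV _ p hp h0 le_rfl
    set w : MvPolynomial ι ℂ := MvPolynomial.map (algebraMap ℚ ℂ) u with hw
    obtain ⟨a, ha⟩ := MvPolynomial.support_nonempty.2 h2
    have ha0 : w.coeff a ≠ 0 := MvPolynomial.mem_support_iff.1 ha
    set c : ℂ := p.coeff a / w.coeff a with hc
    have h4 : p - c • w ∈ V := V.sub_mem hp (V.smul_mem _ h1)
    have h5 : (p - c • w).support ⊂ p.support := by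
      rw [Finset.ssubset_iff_of_subset]
      · refine ⟨a, h3 ha, ?_⟩
        rw [MvPolynomial.mem_support_iff, MvPolynomial.coeff_sub, MvPolynomial.coeff_smul,
          smul_eq_mul, hc, div_mul_cancel₀ _ ha0]
        simp
      · intro m hm
        rw [MvPolynomial.mem_support_iff, MvPolynomial.coeff_sub, MvPolynomial.coeff_smul,
          smul_eq_mul] at hm
        rw [MvPolynomial.mem_support_iff]
        intro h6
        apply hm
        have h7 : w.coeff m = 0 := by
          by_contra h8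
          exact MvPolynomial.mem_support_iff.1 (h3 (MvPolynomial.mem_support_iff.2 h8)) h6
        rw [h6, h7, mul_zero, sub_zero]
    have h6 := Finset.card_lt_card h5
    have h7 := ih _ h4 (by omega)
    have h8 : c • w ∈ Submodule.span ℂ {q | ∃ u : MvPolynomial ι ℚ,
        MvPolynomial.map (algebraMap ℚ ℂ) u = q ∧ q ∈ V} :=
      Submodule.smul_mem _ _ (Submodule.subset_span ⟨u, rfl, h1⟩)
    have h9 := Submodule.add_mem _ h7 h8
    rwa [sub_add_cancel] at h9

private theorem dz_aeval_map (t : ℂ ≃+* ℂ) (x : ι → ℂ) (p : MvPolynomial ι ℂ) :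
    MvPolynomial.aeval (fun i => t (x i)) (MvPolynomial.map (t : ℂ →+* ℂ) p) =
      t (MvPolynomial.aeval x p) := by
  induction p using MvPolynomial.induction_on with
  | C a => simp
  | add p q hp hq => rw [map_add, map_add, hp, hq, map_add, map_add]
  | mul_X p i hp =>
    rw [map_mul, map_mul, hp, map_mul, map_mul, MvPolynomial.map_X, MvPolynomial.aeval_X,
      MvPolynomial.aeval_X]

/-- DESCENT. `e x` are the coordinates of the point `x`. If every point outside `S` is separated from `S` by a complex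
polynomial and `S` is stable under the automorphisms of `ℂ`, then rational polynomials suffice. -/
theorem descent {X : Type*} (e : X → ι → ℂ) (S : Set X)
    (hT : ∀ x, x ∉ S → ∃ p : MvPolynomial ι ℂ, (∀ y ∈ S, MvPolynomial.aeval (e y) p = 0) ∧
      MvPolynomial.aeval (e x) p ≠ 0)
    (hσ : ∀ t : ℂ ≃+* ℂ, ∀ x ∈ S, ∃ y ∈ S, ∀ i, e y i = t (e x i)) (x : X) :
    x ∈ S ↔ ∀ p : MvPolynomial ι ℚ, (∀ y ∈ S, MvPolynomial.aeval (e y) p = 0) →
      MvPolynomial.aeval (e x) p = 0 := by
  refine ⟨fun hx p hp => hp x hx, fun h => ?_⟩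
  by_contra hx
  obtain ⟨p, hp, hpx⟩ := hT x hx
  let V : Submodule ℂ (MvPolynomial ι ℂ) :=
    { carrier := {p | ∀ y ∈ S, MvPolynomial.aeval (e y) p = 0}
      add_mem' := by
        intro a b ha hb y hy
        rw [map_add, ha y hy, hb y hy, add_zero]
      zero_mem' := by
        intro y _
        rw [map_zero]
      smul_mem' := by
        intro c a ha y hy
        rw [map_smul, ha y hy, smul_zero] }
  have hV : ∀ t : ℂ ≃+* ℂ, ∀ p ∈ V, MvPolynomial.map (t : ℂ →+* ℂ) p ∈ V := by
    intro t p hp y hy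
    obtain ⟨y', hy', he⟩ := hσ t.symm y hy
    have h1 : e y = fun i => t (e y' i) := by
      funext i
      rw [he, RingEquiv.apply_symm_apply]
    rw [h1, dz_aeval_map, hp y' hy', map_zero]
  apply hpx
  refine Submodule.span_induction (p := fun q _ => MvPolynomial.aeval (e x) q = 0)
    ?_ ?_ ?_ ?_ (span_rat_poly V hV p hp)
  · rintro q ⟨u, rfl, hu⟩
    rw [MvPolynomial.aeval_map_algebraMap]
    refine h u fun y hy => ?_
    have h2 := hu y hy
    rwa [MvPolynomial.aeval_map_algebraMap] at h2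
  · rw [map_zero]
  · intro a b _ _ ha hb
    rw [map_add, ha, hb, add_zero]
  · intro c a _ ha
    rw [map_smul, ha, smul_zero]

/-- The same for zero sets of complex polynomials in `ℂ^ι`. -/
theorem descent_zero (T : Set (MvPolynomial ι ℂ))
    (hσ : ∀ (t : ℂ ≃+* ℂ) (x : ι → ℂ), (∀ p ∈ T, MvPolynomial.aeval x p = 0) →
      ∀ p ∈ T, MvPolynomial.aeval (fun i => t (x i)) p = 0) (x : ι → ℂ) :
    (∀ p ∈ T, MvPolynomial.aeval x p = 0) ↔ ∀ p : MvPolynomial ι ℚ,
      (∀ y : ι → ℂ, (∀ p ∈ T, MvPolynomial.aeval y p = 0) → MvPolynomial.aeval y p = 0) →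
      MvPolynomial.aeval x p = 0 := by
  refine descent (fun x : ι → ℂ => x) {x | ∀ p ∈ T, MvPolynomial.aeval x p = 0} ?_ ?_ x
  · intro x hx
    have h1 : ¬ ∀ p ∈ T, MvPolynomial.aeval x p = 0 := hx
    push Not at h1
    obtain ⟨p, hp, hpx⟩ := h1
    exact ⟨p, fun y hy => hy p hp, hpx⟩
  · intro t x hx
    exact ⟨fun i => t (x i), hσ t x hx, fun i => rfl⟩

/-- The algebraic group over `ℚ` given by a closed subgroup of `GL_N(ℂ)` which is stable under the automorphisms of `ℂ`. -/
def AlgGroup.ofStable {N : ℕ} (P : Subgroup (GL (Fin N) ℂ))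
    (hT : ∀ g : GL (Fin N) ℂ, g ∉ P → ∃ p : MvPolynomial (Fin N × Fin N) ℂ,
      (∀ y ∈ P, MvPolynomial.aeval (fun x : Fin N × Fin N => y.1 x.1 x.2) p = 0) ∧
        MvPolynomial.aeval (fun x : Fin N × Fin N => g.1 x.1 x.2) p ≠ 0)
    (hσ : ∀ t : ℂ ≃+* ℂ, ∀ g ∈ P, GeneralLinearGroup.map (t : ℂ →+* ℂ) g ∈ P) : AlgGroup N where
  polys := {p | ∀ y ∈ P, MvPolynomial.aeval (fun x : Fin N × Fin N => y.1 x.1 x.2) p = 0}
  pts := P
  mem_pts := fun g => descent (X := GL (Fin N) ℂ)
    (fun (y : GL (Fin N) ℂ) (x : Fin N × Fin N) => y.1 x.1 x.2) P hT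
    (fun t y hy => ⟨GeneralLinearGroup.map (t : ℂ →+* ℂ) y, hσ t y hy, fun _ => rfl⟩) g

theorem AlgGroup.ofStable_pts {N : ℕ} (P : Subgroup (GL (Fin N) ℂ)) (hT) (hσ) :
    (AlgGroup.ofStable P hT hσ).pts = P := rfl

/-- A subspace of `ℂ^ι` which is stable under the automorphisms of `ℂ` is spanned by its rational vectors. -/
theorem span_rat [Fintype ι] (W : Submodule ℂ (ι → ℂ))
    (hW : ∀ t : ℂ ≃+* ℂ, ∀ v ∈ W, (fun i => t (v i)) ∈ W) :
    W = Submodule.span ℂ {v | v ∈ W ∧ ∃ r : ι → ℚ, v = fun i => (r i : ℂ)} := by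
  classical
  apply le_antisymm
  · let L : (ι → ℂ) →ₗ[ℂ] MvPolynomial ι ℂ :=
      { toFun := fun v => ∑ i, MvPolynomial.C (v i) * MvPolynomial.X i
        map_add' := by
          intro v w
          rw [← Finset.sum_add_distrib]
          refine Finset.sum_congr rfl fun i _ => ?_
          rw [Pi.add_apply, MvPolynomial.C_add, add_mul]
        map_smul' := by
          intro c v
          rw [RingHom.id_apply, Finset.smul_sum]
          refine Finset.sum_congr rfl fun i _ => ?_
          rw [Pi.smul_apply, smul_eq_mul, MvPolynomial.C_mul, MvPolynomial.smul_eq_C_mul, mul_assoc] }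
    have hL : ∀ v, L v = ∑ i, MvPolynomial.C (v i) * MvPolynomial.X i := fun v => rfl
    let M : MvPolynomial ι ℂ →ₗ[ℂ] (ι → ℂ) :=
      { toFun := fun p i => p.coeff (Finsupp.single i 1)
        map_add' := fun p q => by
          funext i
          rw [MvPolynomial.coeff_add, Pi.add_apply]
        map_smul' := fun c p => by
          funext i
          rw [MvPolynomial.coeff_smul, RingHom.id_apply, Pi.smul_apply] }
    have hM : ∀ p i, M p i = p.coeff (Finsupp.single i 1) := fun p i => rfl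
    have hML : ∀ v, M (L v) = v := by
      intro v
      funext i
      rw [hM, hL, MvPolynomial.coeff_sum, Finset.sum_eq_single i]
      · rw [MvPolynomial.coeff_C_mul, MvPolynomial.coeff_X, if_pos rfl, mul_one]
      · intro j _ hj
        rw [MvPolynomial.coeff_C_mul, MvPolynomial.coeff_X, if_neg, mul_zero]
        intro h
        rw [Finsupp.single_left_inj one_ne_zero] at h
        exact hj h
      · intro h
        exact absurd (Finset.mem_univ i) h
    have hV : ∀ t : ℂ ≃+* ℂ, ∀ p ∈ W.map L, MvPolynomial.map (t : ℂ →+* ℂ) p ∈ W.map L := by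
      rintro t _ ⟨v, hv, rfl⟩
      refine ⟨fun i => t (v i), hW t v hv, ?_⟩
      rw [hL, hL, map_sum]
      refine Finset.sum_congr rfl fun i _ => ?_
      rw [map_mul, MvPolynomial.map_C, MvPolynomial.map_X]
      rfl
    intro v hv
    have h1 := span_rat_poly (W.map L) hV (L v) ⟨v, hv, rfl⟩
    rw [← hML v]
    refine Submodule.span_induction (p := fun q _ => M q ∈ Submodule.span ℂ
      {v | v ∈ W ∧ ∃ r : ι → ℚ, v = fun i => (r i : ℂ)}) ?_ ?_ ?_ ?_ h1
    · rintro q ⟨u, hu, ⟨w, hw, hwq⟩⟩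
      refine Submodule.subset_span ⟨?_, fun i => u.coeff (Finsupp.single i 1), ?_⟩
      · rw [← hwq, hML]
        exact hw
      · funext i
        rw [hM, ← hu, MvPolynomial.coeff_map]
        rfl
    · rw [map_zero]
      exact Submodule.zero_mem _
    · intro a b _ _ ha hb
      rw [map_add]
      exact Submodule.add_mem _ ha hb
    · intro c a _ ha
      rw [map_smul]
      exact Submodule.smul_mem _ c ha
  · rw [Submodule.span_le]
    exact fun v hv => hv.1

end Pool.Agent.Lib.MP_5d4057_al.VB
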