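import Mathlib

/-!
# VERB V1.9: the dichotomy for an automorphism of the complex numbers, linear algebra (owner: helper7)

`𝔤` is a complex space of matrices stable under the automorphisms of `ℂ`, `π` maps it onto the
matrices of trace zero, equivariantly for pairs `(G i, x i)` with `G i` rational, and the action by
the `x i` on the matrices of trace zero is irreducible.  For every automorphism `σ` of `ℂ`: either the
kernel of `π` on `𝔤` is stable under `σ` and `σ⁻¹` (and then `σ` induces a semilinear map `T` of the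
matrices of trace zero which commutes with the action), or the action by the `(x i)^σ` on the
matrices of trace zero is bounded.
-/

set_option autoImplicit false

namespace Pool.Agent.Lib.MP_5d4057_al.VB

open Matrix

variable {ι : Type*} {N n : ℕ}

/-- The data of the dichotomy. -/
structure DichD (𝔤 : Submodule ℂ (Matrix (Fin N) (Fin N) ℂ))
    (π : Matrix (Fin N) (Fin N) ℂ →ₗ[ℂ] Matrix (Fin n) (Fin n) ℂ)
    (G G' : ι → Matrix (Fin N) (Fin N) ℂ) (x x' : ι → Matrix (Fin n) (Fin n) ℂ) : Prop where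
  two : 2 ≤ n
  st : ∀ (t : ℂ ≃+* ℂ), ∀ X ∈ 𝔤, X.map t ∈ 𝔤
  tr : ∀ X ∈ 𝔤, (π X).trace = 0
  onto : ∀ Z : Matrix (Fin n) (Fin n) ℂ, Z.trace = 0 → ∃ X ∈ 𝔤, π X = Z
  rat : ∀ (i : ι) (t : ℂ ≃+* ℂ), (G i).map t = G i
  rat' : ∀ (i : ι) (t : ℂ ≃+* ℂ), (G' i).map t = G' i
  ad : ∀ (i : ι), ∀ X ∈ 𝔤, G i * X * G' i ∈ 𝔤
  eqv : ∀ (i : ι), ∀ X ∈ 𝔤, π (G i * X * G' i) = x i * π X * x' i
  irr : ∀ S : Submodule ℂ (Matrix (Fin n) (Fin n) ℂ), (∀ X ∈ S, X.trace = 0) →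
    (∀ i, ∀ X ∈ S, x i * X * x' i ∈ S) → S = ⊥ ∨ ∀ X : Matrix (Fin n) (Fin n) ℂ, X.trace = 0 → X ∈ S

namespace DichD

variable {𝔤 : Submodule ℂ (Matrix (Fin N) (Fin N) ℂ)}
  {π : Matrix (Fin N) (Fin N) ℂ →ₗ[ℂ] Matrix (Fin n) (Fin n) ℂ}
  {G G' : ι → Matrix (Fin N) (Fin N) ℂ} {x x' : ι → Matrix (Fin n) (Fin n) ℂ}

theorem map_ad (d : DichD 𝔤 π G G' x x') (i : ι) (t : ℂ ≃+* ℂ) (X : Matrix (Fin N) (Fin N) ℂ) :
    (G i * X * G' i).map t = G i * X.map t * G' i := by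
  rw [Matrix.map_mul, Matrix.map_mul, d.rat, d.rat']

theorem map_add' (t : ℂ ≃+* ℂ) {a b : ℕ} (X Y : Matrix (Fin a) (Fin b) ℂ) :
    (X + Y).map t = X.map t + Y.map t := by
  ext i j
  simp

theorem map_sub' (t : ℂ ≃+* ℂ) {a b : ℕ} (X Y : Matrix (Fin a) (Fin b) ℂ) :
    (X - Y).map t = X.map t - Y.map t := by
  ext i j
  simp

theorem map_smul' (t : ℂ ≃+* ℂ) {a b : ℕ} (c : ℂ) (X : Matrix (Fin a) (Fin b) ℂ) :
    (c • X).map t = t c • X.map t := by
  ext i j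
  simp

theorem map_zero' (t : ℂ ≃+* ℂ) {a b : ℕ} : (0 : Matrix (Fin a) (Fin b) ℂ).map t = 0 := by
  ext i j
  simp

theorem map_symm (t : ℂ ≃+* ℂ) {a b : ℕ} (X : Matrix (Fin a) (Fin b) ℂ) :
    (X.map t).map t.symm = X := by
  ext i j
  simp

theorem symm_map (t : ℂ ≃+* ℂ) {a b : ℕ} (X : Matrix (Fin a) (Fin b) ℂ) :
    (X.map t.symm).map t = X := by
  ext i j
  simp

/-- A nonzero matrix of trace zero. -/
theorem exists_ne (h : 2 ≤ n) : ∃ Z : Matrix (Fin n) (Fin n) ℂ, Z.trace = 0 ∧ Z ≠ 0 := by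
  obtain ⟨k, rfl⟩ : ∃ k, n = k + 2 := ⟨n - 2, by omega⟩
  refine ⟨Matrix.single 0 1 1, ?_, ?_⟩
  · rw [Matrix.trace_single_eq_of_ne]
    simp
  · intro h0
    have := congrFun (congrFun h0 0) 1
    simp at this

/-- The image under `π` of the `t`-transform of the kernel of `π`. -/
def img (_d : DichD 𝔤 π G G' x x') (t : ℂ ≃+* ℂ) : Submodule ℂ (Matrix (Fin n) (Fin n) ℂ) where
  carrier := {Z | ∃ X ∈ 𝔤, π X = 0 ∧ π (X.map t) = Z}
  add_mem' := by
    rintro _ _ ⟨X, hX, hX0, rfl⟩ ⟨Y, hY, hY0, rfl⟩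
    exact ⟨X + Y, 𝔤.add_mem hX hY, by rw [map_add, hX0, hY0, add_zero],
      by rw [map_add', map_add]⟩
  zero_mem' := ⟨0, 𝔤.zero_mem, map_zero _, by rw [map_zero', map_zero]⟩
  smul_mem' := by
    rintro c _ ⟨X, hX, hX0, rfl⟩
    refine ⟨t.symm c • X, 𝔤.smul_mem _ hX, by rw [map_smul, hX0, smul_zero], ?_⟩
    rw [map_smul', RingEquiv.apply_symm_apply, map_smul]

theorem img_dich (d : DichD 𝔤 π G G' x x') (t : ℂ ≃+* ℂ) :
    (∀ X ∈ 𝔤, π X = 0 → π (X.map t) = 0) ∨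
      ∀ Z : Matrix (Fin n) (Fin n) ℂ, Z.trace = 0 → ∃ X ∈ 𝔤, π X = 0 ∧ π (X.map t) = Z := by
  have ha : ∀ Z ∈ d.img t, Z.trace = 0 := by
    rintro _ ⟨X, hX, -, rfl⟩
    exact d.tr _ (d.st t X hX)
  have hb : ∀ i, ∀ Z ∈ d.img t, x i * Z * x' i ∈ d.img t := by
    rintro i _ ⟨X, hX, h0, rfl⟩
    refine ⟨G i * X * G' i, d.ad i X hX, ?_, ?_⟩
    · rw [d.eqv i X hX, h0, mul_zero, zero_mul]
    · rw [d.map_ad, d.eqv i _ (d.st t X hX)]
  rcases d.irr (d.img t) ha hb with h | h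
  · left
    intro X hX h0
    have hm : π (X.map t) ∈ d.img t := ⟨X, hX, h0, rfl⟩
    rw [h] at hm
    exact (Submodule.mem_bot ℂ).1 hm
  · right
    intro Z hZ
    exact h Z hZ

/-- The space of the `π X` with `π (X.map t) = 0`. -/
def coi (_d : DichD 𝔤 π G G' x x') (t : ℂ ≃+* ℂ) : Submodule ℂ (Matrix (Fin n) (Fin n) ℂ) where
  carrier := {Z | ∃ X ∈ 𝔤, π (X.map t) = 0 ∧ π X = Z}
  add_mem' := by
    rintro _ _ ⟨X, hX, hX0, rfl⟩ ⟨Y, hY, hY0, rfl⟩
    exact ⟨X + Y, 𝔤.add_mem hX hY, by rw [map_add', map_add, hX0, hY0, add_zero],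
      by rw [map_add]⟩
  zero_mem' := ⟨0, 𝔤.zero_mem, by rw [map_zero', map_zero], map_zero _⟩
  smul_mem' := by
    rintro c _ ⟨X, hX, hX0, rfl⟩
    exact ⟨c • X, 𝔤.smul_mem _ hX, by rw [map_smul', map_smul, hX0, smul_zero], by rw [map_smul]⟩

/-- If the kernel of `π` is stable under `t`, then `π X` is zero as soon as `π (X.map t)` is. -/
theorem inj (d : DichD 𝔤 π G G' x x') (t : ℂ ≃+* ℂ) (h : ∀ X ∈ 𝔤, π X = 0 → π (X.map t) = 0) :
    ∀ X ∈ 𝔤, π (X.map t) = 0 → π X = 0 := by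
  have ha : ∀ Z ∈ d.coi t, Z.trace = 0 := by
    rintro _ ⟨X, hX, -, rfl⟩
    exact d.tr X hX
  have hb : ∀ i, ∀ Z ∈ d.coi t, x i * Z * x' i ∈ d.coi t := by
    rintro i _ ⟨X, hX, h0, rfl⟩
    refine ⟨G i * X * G' i, d.ad i X hX, ?_, d.eqv i X hX⟩
    rw [d.map_ad, d.eqv i _ (d.st t X hX), h0, mul_zero, zero_mul]
  rcases d.irr (d.coi t) ha hb with h1 | h1
  · intro X hX h0
    have hm : π X ∈ d.coi t := ⟨X, hX, h0, rfl⟩
    rw [h1] at hm
    exact (Submodule.mem_bot ℂ).1 hm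
  · exfalso
    have hall : ∀ X ∈ 𝔤, π (X.map t) = 0 := by
      intro X hX
      obtain ⟨Y, hY, hY0, hYX⟩ := h1 (π X) (d.tr X hX)
      have h2 := h (X - Y) (𝔤.sub_mem hX hY) (by rw [map_sub, hYX, sub_self])
      rw [map_sub', map_sub, hY0, sub_zero] at h2
      exact h2
    obtain ⟨Z, hZ, hZ0⟩ := exists_ne d.two
    obtain ⟨X, hX, rfl⟩ := d.onto Z hZ
    apply hZ0
    have := hall (X.map t.symm) (d.st t.symm X hX)
    rwa [symm_map] at this

/-- **The dichotomy.**  Either the kernel of `π` is stable under `t` and its inverse, or every matrix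
of trace zero is `π (X.map t.symm)` for some `X` with `π X = 0`. -/
theorem dich (d : DichD 𝔤 π G G' x x') (t : ℂ ≃+* ℂ) :
    (∀ X ∈ 𝔤, π (X.map t) = 0 ↔ π X = 0) ∨
      ∀ Z : Matrix (Fin n) (Fin n) ℂ, Z.trace = 0 → ∃ X ∈ 𝔤, π X = 0 ∧ π (X.map t.symm) = Z := by
  rcases d.img_dich t.symm with h | h
  · left
    have h1 := d.inj t.symm h
    intro X hX
    constructor
    · intro h0
      have := h (X.map t) (d.st t X hX) h0
      rwa [map_symm] at this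
    · intro h0
      refine h1 (X.map t) (d.st t X hX) ?_
      rwa [map_symm]
  · exact Or.inr h

/-- The semilinear map of the matrices of trace zero induced by `t`, in the first case. -/
theorem exists_T (d : DichD 𝔤 π G G' x x') (t : ℂ ≃+* ℂ)
    (h : ∀ X ∈ 𝔤, π (X.map t) = 0 ↔ π X = 0) :
    ∃ T : Matrix (Fin n) (Fin n) ℂ → Matrix (Fin n) (Fin n) ℂ,
      (∀ X ∈ 𝔤, T (π X) = π (X.map t)) ∧
      (∀ X Y, X.trace = 0 → Y.trace = 0 → T (X + Y) = T X + T Y) ∧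
      (∀ (c : ℂ) X, X.trace = 0 → T (c • X) = t c • T X) ∧
      (∀ X, X.trace = 0 → (T X).trace = 0) ∧
      ((∀ X ∈ 𝔤, ∀ Y ∈ 𝔤, X * Y - Y * X ∈ 𝔤 ∧ π (X * Y - Y * X) = π X * π Y - π Y * π X) →
        ∀ X Y, X.trace = 0 → Y.trace = 0 → T (X * Y - Y * X) = T X * T Y - T Y * T X) ∧
      (∀ X, X.trace = 0 → T X = 0 → X = 0) ∧
      (∀ i X, X.trace = 0 → T (x i * X * x' i) = x i * T X * x' i) := by
  classical
  choose! u hu hu' using d.onto
  have hT : ∀ X ∈ 𝔤, π ((u (π X)).map t) = π (X.map t) := by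
    intro X hX
    have h1 := (h (u (π X) - X) (𝔤.sub_mem (hu _ (d.tr X hX)) hX)).2
      (by rw [map_sub, hu' _ (d.tr X hX), sub_self])
    rw [map_sub', map_sub, sub_eq_zero] at h1
    exact h1
  refine ⟨fun Z => π ((u Z).map t), hT, ?_, ?_, ?_, ?_, ?_, ?_⟩
  · intro X Y hX hY
    obtain ⟨X, hX', rfl⟩ := d.onto X hX
    obtain ⟨Y, hY', rfl⟩ := d.onto Y hY
    beta_reduce
    rw [hT X hX', hT Y hY', ← map_add π, hT _ (𝔤.add_mem hX' hY'), map_add', map_add]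
  · intro c X hX
    obtain ⟨X, hX', rfl⟩ := d.onto X hX
    beta_reduce
    rw [hT X hX', ← map_smul π, hT _ (𝔤.smul_mem _ hX'), map_smul', map_smul]
  · intro X hX
    exact d.tr _ (d.st t _ (hu X hX))
  · intro hbr X Y hX hY
    obtain ⟨X, hX', rfl⟩ := d.onto X hX
    obtain ⟨Y, hY', rfl⟩ := d.onto Y hY
    beta_reduce
    rw [hT X hX', hT Y hY', ← (hbr X hX' Y hY').2, hT _ (hbr X hX' Y hY').1, map_sub',
      Matrix.map_mul, Matrix.map_mul, (hbr _ (d.st t X hX') _ (d.st t Y hY')).2]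
  · intro X hX h0
    obtain ⟨X, hX', rfl⟩ := d.onto X hX
    beta_reduce at h0
    rw [hT X hX'] at h0
    exact (h X hX').1 h0
  · intro i X hX
    obtain ⟨X, hX', rfl⟩ := d.onto X hX
    beta_reduce
    rw [hT X hX', ← d.eqv i X hX', hT _ (d.ad i X hX'), d.map_ad, d.eqv i _ (d.st t X hX')]

/-- The conjugated representation is bounded on the matrices of trace zero, in the second case. -/
theorem bdd (d : DichD 𝔤 π G G' x x') (t : ℂ ≃+* ℂ)
    (h : ∀ Z : Matrix (Fin n) (Fin n) ℂ, Z.trace = 0 → ∃ X ∈ 𝔤, π X = 0 ∧ π (X.map t.symm) = Z)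
    (hb : ∀ X ∈ 𝔤, π X = 0 → ∃ C : ℝ, ∀ i a b, ‖(G i * X * G' i) a b‖ ≤ C) :
    ∀ Z : Matrix (Fin n) (Fin n) ℂ, Z.trace = 0 →
      ∃ C : ℝ, ∀ i a b, ‖((x i).map t * Z * (x' i).map t) a b‖ ≤ C := by
  intro Z hZ
  have hZ' : (Z.map t.symm).trace = 0 := by
    have : (Z.map t.symm).trace = t.symm Z.trace := by
      simp [Matrix.trace, map_sum]
    rw [this, hZ, map_zero]
  obtain ⟨X, hX, hX0, hXZ⟩ := h (Z.map t.symm) hZ'
  obtain ⟨C, hC⟩ := hb X hX hX0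
  -- the linear map `Y ↦ (π (Y.map t.symm)).map t`
  let L : Matrix (Fin N) (Fin N) ℂ →ₗ[ℂ] Matrix (Fin n) (Fin n) ℂ :=
    { toFun := fun Y => (π (Y.map t.symm)).map t
      map_add' := fun Y Y' => by rw [map_add', map_add, map_add']
      map_smul' := fun c Y => by
        rw [map_smul', map_smul, map_smul', RingEquiv.apply_symm_apply, RingHom.id_apply] }
  have hL : ∀ i, L (G i * X * G' i) = (x i).map t * Z * (x' i).map t := by
    intro i
    change (π ((G i * X * G' i).map t.symm)).map t = _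
    rw [d.map_ad, d.eqv i _ (d.st t.symm X hX), hXZ, Matrix.map_mul, Matrix.map_mul, symm_map]
  -- the entries of `L Y` are bounded by the entries of `Y`
  have hLs : ∀ (Y : Matrix (Fin N) (Fin N) ℂ) (a b : Fin n),
      L Y a b = ∑ p, ∑ q, Y p q * L (Matrix.single p q 1) a b := by
    intro Y a b
    conv_lhs => rw [Matrix.matrix_eq_sum_single Y]
    rw [map_sum, Matrix.sum_apply]
    refine Finset.sum_congr rfl fun p _ => ?_
    rw [map_sum, Matrix.sum_apply]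
    refine Finset.sum_congr rfl fun q _ => ?_
    have : Matrix.single p q (Y p q) = Y p q • (Matrix.single p q (1 : ℂ)) := by
      rw [Matrix.smul_single, smul_eq_mul, mul_one]
    rw [this, map_smul, Matrix.smul_apply, smul_eq_mul]
  refine ⟨∑ a, ∑ b, ∑ p, ∑ q, C * ‖L (Matrix.single p q 1) a b‖, fun i a b => ?_⟩
  have hC0 : ∀ p q : Fin N, 0 ≤ C := fun p q => le_trans (norm_nonneg _) (hC i p q)
  have h1 : ‖((x i).map t * Z * (x' i).map t) a b‖ ≤
      ∑ p, ∑ q, C * ‖L (Matrix.single p q 1) a b‖ := by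
    rw [← hL i, hLs]
    refine (norm_sum_le _ _).trans (Finset.sum_le_sum fun p _ => ?_)
    refine (norm_sum_le _ _).trans (Finset.sum_le_sum fun q _ => ?_)
    rw [norm_mul]
    exact mul_le_mul_of_nonneg_right (hC i p q) (norm_nonneg _)
  have hnn : ∀ a b : Fin n, 0 ≤ ∑ p, ∑ q, C * ‖L (Matrix.single p q 1) a b‖ := fun a b =>
    Finset.sum_nonneg fun p _ => Finset.sum_nonneg fun q _ =>
      mul_nonneg (hC0 p q) (norm_nonneg _)
  refine h1.trans ?_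
  refine (Finset.single_le_sum (f := fun b => ∑ p, ∑ q, C * ‖L (Matrix.single p q 1) a b‖)
    (fun b _ => hnn a b) (Finset.mem_univ b)).trans ?_
  exact Finset.single_le_sum (f := fun a => ∑ b, ∑ p, ∑ q, C * ‖L (Matrix.single p q 1) a b‖)
    (fun a _ => Finset.sum_nonneg fun b _ => hnn a b) (Finset.mem_univ a)

end DichD

end Pool.Agent.Lib.MP_5d4057_al.VB
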