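import Pool.Agent.Lib.MP_5d4057_al.VB.LieD
import Pool.Agent.Lib.MP_5d4057_al.VB.DichA
import Pool.Agent.Lib.MP_5d4057_al.VB.AdIrr

/-!
# VB, V1: the dichotomy for an automorphism t of ℂ

PROOF. Let π' X = (π (X.map t⁻¹)).map t on 𝔤: ℂ-linear (σ-conjugate twice), bracket-compatible, onto trace 0, and
π' (g X h) = γ.map t * π' X * (γ⁻¹).map t, because g, h are integral. Let 𝔨 = {X ∈ 𝔤 | π X = 0}. The image π' 𝔨 is stable
under the group of the γ.map t, so by ad_irr (twisted form; all its elements have trace 0) it is 0 or all of trace 0.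
If it is 0, π' factors through π: θ (π X) = π' X, X ∈ 𝔤 (θ extended by anything to scalars), θ is a homomorphism of Lie algebras
and injective on trace 0 (its kernel is stable). If it is everything, Y = π' X with X ∈ 𝔨, and
γ.map t * Y * (γ⁻¹).map t = π' (g X h) is bounded: g X h is bounded (H.bdd) and stays in 𝔤, and π' is linear.
-/

set_option autoImplicit false

namespace Pool.Agent.Lib.MP_5d4057_al.VB

open Matrix Pool.Agent.Lib.MP_5d4057_al Pool.Agent.Lib.MP_5d4057_al.Hyb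
  Pool.Agent.Lib.MP_5d4057_al.HM Pool.Agent.Lib.MP_5d4057_al.NU

variable {m N : ℕ} {Γ : Subgroup (SUGroup m)} {𝔤 : Submodule ℂ (Mat N)}
  {π : Mat N →ₗ[ℂ] Mat (m + 1)} {g h : SUGroup m → Mat N}

theorem map_of_int {k : ℕ} {A : Mat k} (hA : ∀ i j, ∃ z : ℤ, A i j = z) (t : ℂ ≃+* ℂ) :
    A.map t = A := by
  ext i j
  obtain ⟨z, hz⟩ := hA i j
  rw [Matrix.map_apply, hz, map_intCast]

theorem trace_map_eq {k : ℕ} (A : Mat k) (t : ℂ ≃+* ℂ) : (A.map t).trace = t A.trace := by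
  simp [Matrix.trace, map_sum]

theorem LieD.dichD (hm : 1 ≤ m) (hΓ : IsLattice Γ) (H : LieD Γ N 𝔤 π g h) :
    DichD 𝔤 π (fun γ : Γ => g γ) (fun γ : Γ => h γ) (fun γ : Γ => (γ : SUGroup m).toMatrix)
      (fun γ : Γ => ((γ : SUGroup m)⁻¹).toMatrix) where
  two := by omega
  st := H.gal
  tr := H.ptr
  onto := H.surj
  rat := fun γ t => map_of_int (H.intg γ γ.2) t
  rat' := fun γ t => map_of_int (H.inth γ γ.2) t
  ad := fun γ X hX => H.stab γ γ.2 X hX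
  eqv := fun γ X hX => H.equi γ γ.2 X hX
  irr := fun S h0 hS => ad_irr hm hΓ (fun γ hγ X hX => hS ⟨γ, hγ⟩ X hX) h0

/-- The conjugate of `π`. -/
theorem LieD.exists_conj (H : LieD Γ N 𝔤 π g h) (t : ℂ ≃+* ℂ) :
    ∃ π' : Mat N →ₗ[ℂ] Mat (m + 1), (∀ X ∈ 𝔤, π' (X.map t) = (π X).map t) ∧
      (∀ X ∈ 𝔤, ∀ Y ∈ 𝔤, π' (X * Y - Y * X) = π' X * π' Y - π' Y * π' X) ∧
      (∀ X ∈ 𝔤, (π' X).trace = 0) ∧ (∀ Y : Mat (m + 1), Y.trace = 0 → ∃ X ∈ 𝔤, π' X = Y) ∧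
      ∀ γ ∈ Γ, ∀ X ∈ 𝔤, π' (g γ * X * h γ) = γ.toMatrix.map t * π' X * (γ⁻¹).toMatrix.map t := by
  let L : Mat N →ₗ[ℂ] Mat (m + 1) :=
    { toFun := fun Y => (π (Y.map t.symm)).map t
      map_add' := fun Y Y' => by rw [DichD.map_add', map_add, DichD.map_add']
      map_smul' := fun c Y => by
        rw [DichD.map_smul', map_smul, DichD.map_smul', RingEquiv.apply_symm_apply,
          RingHom.id_apply] }
  have hLd : ∀ Y, L Y = (π (Y.map t.symm)).map t := fun _ => rfl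
  refine ⟨L, ?_, ?_, ?_, ?_, ?_⟩
  · intro X _
    rw [hLd, DichD.map_symm]
  · intro X hX Y hY
    rw [hLd, hLd, hLd, DichD.map_sub', Matrix.map_mul, Matrix.map_mul,
      H.pbr _ (H.gal t.symm X hX) _ (H.gal t.symm Y hY), DichD.map_sub', Matrix.map_mul,
      Matrix.map_mul]
  · intro X hX
    rw [hLd, trace_map_eq, H.ptr _ (H.gal t.symm X hX), map_zero]
  · intro Y hY
    obtain ⟨X, hX, hXY⟩ := H.surj (Y.map t.symm) (by rw [trace_map_eq, hY, map_zero])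
    refine ⟨X.map t, H.gal t X hX, ?_⟩
    rw [hLd, DichD.map_symm, hXY, DichD.symm_map]
  · intro γ hγ X hX
    rw [hLd, hLd, Matrix.map_mul, Matrix.map_mul, map_of_int (H.intg γ hγ), map_of_int (H.inth γ hγ),
      H.equi γ hγ _ (H.gal t.symm X hX), Matrix.map_mul, Matrix.map_mul]

/-- The dichotomy, with a `t`-semilinear map in the first case. -/
theorem LieD.dichT (hm : 1 ≤ m) (hΓ : IsLattice Γ) (H : LieD Γ N 𝔤 π g h) (t : ℂ ≃+* ℂ) :
    (∃ T : Mat (m + 1) → Mat (m + 1),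
      (∀ X Y, X.trace = 0 → Y.trace = 0 → T (X + Y) = T X + T Y) ∧
      (∀ (c : ℂ) X, X.trace = 0 → T (c • X) = t c • T X) ∧
      (∀ X, X.trace = 0 → (T X).trace = 0) ∧
      (∀ X Y, X.trace = 0 → Y.trace = 0 → T (X * Y - Y * X) = T X * T Y - T Y * T X) ∧
      (∀ X, X.trace = 0 → T X = 0 → X = 0) ∧
      ∀ γ ∈ Γ, ∀ X, X.trace = 0 →
        T (γ.toMatrix * X * (γ⁻¹).toMatrix) = γ.toMatrix * T X * (γ⁻¹).toMatrix) ∨
    ∀ Y : Mat (m + 1), Y.trace = 0 → ∃ C : ℝ, ∀ γ ∈ Γ, ∀ i j,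
      ‖(γ.toMatrix.map t * Y * (γ⁻¹).toMatrix.map t) i j‖ ≤ C := by
  have d := H.dichD hm hΓ
  rcases d.dich t with h1 | h1
  · left
    obtain ⟨T, -, hadd, hsmul, htr, hbr, hinj, heq⟩ := d.exists_T t h1
    exact ⟨T, hadd, hsmul, htr, hbr fun X hX Y hY => ⟨H.br X hX Y hY, H.pbr X hX Y hY⟩, hinj,
      fun γ hγ X hX => heq ⟨γ, hγ⟩ X hX⟩
  · right
    intro Y hY
    obtain ⟨C, hC⟩ := d.bdd t h1 (fun X hX h0 => by
      obtain ⟨C, hC⟩ := H.bdd X hX h0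
      exact ⟨C, fun γ a b => hC γ γ.2 a b⟩) Y hY
    exact ⟨C, fun γ hγ a b => hC ⟨γ, hγ⟩ a b⟩

theorem LieD.dich (hm : 1 ≤ m) (hΓ : IsLattice Γ) (H : LieD Γ N 𝔤 π g h) (t : ℂ ≃+* ℂ) :
    (∃ θ : Mat (m + 1) →ₗ[ℂ] Mat (m + 1), IsAut θ ∧ ∀ γ ∈ Γ, ∀ Y : Mat (m + 1), Y.trace = 0 →
      θ (γ.toMatrix * Y * (γ⁻¹).toMatrix) = γ.toMatrix.map t * θ Y * (γ⁻¹).toMatrix.map t) ∨
    ∀ Y : Mat (m + 1), Y.trace = 0 → ∃ C : ℝ, ∀ γ ∈ Γ, ∀ i j,
      ‖(γ.toMatrix.map t * Y * (γ⁻¹).toMatrix.map t) i j‖ ≤ C := by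
  have d := H.dichD hm hΓ
  rcases d.dich t with h1 | h1
  · left
    have h2 : ∀ X ∈ 𝔤, π (X.map t.symm) = 0 ↔ π X = 0 := by
      intro X hX
      have h3 := h1 (X.map t.symm) (H.gal t.symm X hX)
      rw [DichD.symm_map] at h3
      exact h3.symm
    obtain ⟨T, -, hadd, hsmul, htr, hbr, hinj, heq⟩ := d.exists_T t.symm h2
    replace hbr := hbr fun X hX Y hY => ⟨H.br X hX Y hY, H.pbr X hX Y hY⟩
    have hm0 : ((m : ℂ) + 1) ≠ 0 := by exact_mod_cast (Nat.succ_ne_zero m)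
    let pr : Mat (m + 1) → Mat (m + 1) := fun Y => Y - (Y.trace / ((m : ℂ) + 1)) • 1
    have hpr : ∀ Y, pr Y = Y - (Y.trace / ((m : ℂ) + 1)) • 1 := fun _ => rfl
    have hpr0 : ∀ Y, (pr Y).trace = 0 := by
      intro Y
      rw [hpr, Matrix.trace_sub, Matrix.trace_smul, Matrix.trace_one, Fintype.card_fin, smul_eq_mul]
      push_cast
      rw [div_mul_cancel₀ _ hm0, sub_self]
    have hpr1 : ∀ Y, Y.trace = 0 → pr Y = Y := by
      intro Y hY
      rw [hpr, hY, zero_div, zero_smul, sub_zero]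
    have hpra : ∀ Y Y', pr (Y + Y') = pr Y + pr Y' := by
      intro Y Y'
      rw [hpr, hpr, hpr, Matrix.trace_add, add_div, add_smul]
      abel
    have hprs : ∀ (c : ℂ) Y, pr (c • Y) = c • pr Y := by
      intro c Y
      rw [hpr, hpr, Matrix.trace_smul, smul_sub, smul_smul, smul_eq_mul, mul_div_assoc]
    let θ : Mat (m + 1) →ₗ[ℂ] Mat (m + 1) :=
      { toFun := fun Y => (T (pr Y)).map t
        map_add' := fun Y Y' => by
          rw [hpra, hadd _ _ (hpr0 Y) (hpr0 Y'), DichD.map_add']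
        map_smul' := fun c Y => by
          rw [hprs, hsmul c _ (hpr0 Y), DichD.map_smul', RingEquiv.apply_symm_apply,
            RingHom.id_apply] }
    have hθ : ∀ Y, Y.trace = 0 → θ Y = (T Y).map t := by
      intro Y hY
      change (T (pr Y)).map t = _
      rw [hpr1 Y hY]
    have hcomm : ∀ X Y : Mat (m + 1), (X * Y - Y * X).trace = 0 := by
      intro X Y
      rw [Matrix.trace_sub, Matrix.trace_mul_comm, sub_self]
    refine ⟨θ, ⟨?_, ?_, ?_⟩, ?_⟩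
    · intro X hX
      rw [hθ X hX, trace_map_eq, htr X hX, map_zero]
    · intro X hX h0
      rw [hθ X hX] at h0
      apply hinj X hX
      have h3 := congrArg (fun M : Mat (m + 1) => M.map t.symm) h0
      beta_reduce at h3
      rwa [DichD.map_symm, DichD.map_zero'] at h3
    · intro X Y hX hY
      rw [hθ _ (hcomm X Y), hbr X Y hX hY, DichD.map_sub', Matrix.map_mul, Matrix.map_mul, hθ X hX,
        hθ Y hY]
    · intro γ hγ Y hY
      have hγY : (γ.toMatrix * Y * (γ⁻¹).toMatrix).trace = 0 := by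
        rw [Matrix.trace_mul_comm, ← Matrix.mul_assoc, toMatrix_inv_mul, Matrix.one_mul, hY]
      rw [hθ _ hγY, heq ⟨γ, hγ⟩ Y hY, Matrix.map_mul, Matrix.map_mul, hθ Y hY]
  · right
    intro Y hY
    obtain ⟨C, hC⟩ := d.bdd t h1 (fun X hX h0 => by
      obtain ⟨C, hC⟩ := H.bdd X hX h0
      exact ⟨C, fun γ a b => hC γ γ.2 a b⟩) Y hY
    exact ⟨C, fun γ hγ a b => hC ⟨γ, hγ⟩ a b⟩

end Pool.Agent.Lib.MP_5d4057_al.VB
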