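import Pool.Agent.Lib.MP_5d4057_al.VB.Trot

/-!
# VERB V1.3: the differential of a continuous homomorphism, abstract form (helper35)

`ρ : G → 𝔸` a faithful representation of a topological group (a topological embedding), `V` a real subspace of `𝔸` all of whose
elements generate one parameter groups in `G`, `ψ : G → 𝔹` a continuous representation. There is a linear map `D` with
`ψ (exp (tX)) = exp (t D X)`; it is equivariant and preserves commutators; if it vanishes and `G` is connected, then `ψ = 1`.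
-/

set_option autoImplicit false

namespace Pool.Agent.Lib.MP_5d4057_al.VB

open Filter Topology NormedSpace

section trot

variable {𝔸 : Type*} [NormedRing 𝔸] [NormedAlgebra ℝ 𝔸] [CompleteSpace 𝔸]

theorem hasDerivAt_exp_mul_exp (X Y : 𝔸) :
    HasDerivAt (fun u : ℝ => exp (u • X) * exp (u • Y)) (X + Y) 0 := by
  have hd : ∀ X : 𝔸, HasDerivAt (fun u : ℝ => exp (u • X)) X 0 := by
    intro X
    have h := hasDerivAt_exp_smul_const X (0 : ℝ)
    rwa [zero_smul, exp_zero, one_mul] at h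
  have h := (hd X).mul (hd Y)
  rw [zero_smul, zero_smul, exp_zero, mul_one, one_mul] at h
  exact h

/-- The product formula. -/
theorem trotter (h1 : ‖(1 : 𝔸)‖ ≤ 1) (X Y : 𝔸) :
    Tendsto (fun n : ℕ => (exp ((n : ℝ)⁻¹ • X) * exp ((n : ℝ)⁻¹ • Y)) ^ n) atTop
      (𝓝 (exp (X + Y))) := by
  have hs : Tendsto (fun n : ℕ => ((n : ℝ))⁻¹) atTop (𝓝 0) := tendsto_inv_atTop_nhds_zero_nat
  have hs0 : ∀ᶠ n : ℕ in atTop, 0 < ((n : ℝ))⁻¹ := by
    filter_upwards [eventually_gt_atTop 0] with n hn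
    positivity
  have h := tendsto_pow_exp (X := X + Y) (t := 1) h1 hs hs0
    (g := fun n : ℕ => exp ((n : ℝ)⁻¹ • X) * exp ((n : ℝ)⁻¹ • Y)) (n := fun n => n) ?_ ?_
  · rwa [one_smul] at h
  · have h2 := hasDerivAt_iff_tendsto_slope_zero.1 (hasDerivAt_exp_mul_exp X Y)
    have h3 : Tendsto (fun n : ℕ => ((n : ℝ))⁻¹) atTop (𝓝[≠] 0) := by
      rw [tendsto_nhdsWithin_iff]
      refine ⟨hs, ?_⟩
      filter_upwards [hs0] with i hi
      exact hi.ne'
    have h4 := h2.comp h3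
    refine h4.congr fun i => ?_
    simp
  · refine tendsto_const_nhds.congr' ?_
    filter_upwards [eventually_gt_atTop 0] with n hn
    rw [mul_inv_cancel₀ (by positivity)]

end trot

section dif

variable {𝔸 𝔹 : Type*} [NormedRing 𝔸] [NormedAlgebra ℝ 𝔸] [CompleteSpace 𝔸] [NormedRing 𝔹]
  [NormedAlgebra ℝ 𝔹] [CompleteSpace 𝔹] {G : Type*} [Group G] [TopologicalSpace G]
  {ρ : G →* 𝔸} {ψ : G →* 𝔹} {V : Submodule ℝ 𝔸}

/-- The generator of the image of a one parameter group. -/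
theorem exists_gen_map (hρ : IsEmbedding ρ) (hψ : Continuous ψ) {X : 𝔸}
    (hX : ∀ t : ℝ, ∃ g : G, ρ g = exp (t • X)) :
    ∃ Y : 𝔹, ∀ (t : ℝ) (g : G), ρ g = exp (t • X) → ψ g = exp (t • Y) := by
  choose e he using hX
  have hec : Continuous e := by
    rw [hρ.isInducing.continuous_iff]
    have h1 : (ρ ∘ e : ℝ → 𝔸) = fun t => exp (t • X) := funext he
    rw [h1]
    exact exp_cont.comp (continuous_id.smul continuous_const)
  have he0 : e 0 = 1 := hρ.injective (by rw [he, zero_smul, exp_zero, map_one])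
  have hea : ∀ s t, e (s + t) = e s * e t := fun s t => hρ.injective (by
    rw [map_mul, he, he, he, add_smul]
    exact exp_add_comm (((Commute.refl X).smul_left s).smul_right t))
  obtain ⟨Y, hY⟩ := one_param (f := fun t => ψ (e t)) (hψ.comp hec)
    (by rw [he0, map_one]) (fun s t => by rw [hea, map_mul])
  refine ⟨Y, fun t g hg => ?_⟩
  have h1 : g = e t := hρ.injective (by rw [hg, he])
  rw [h1]
  exact hY t

/-- **The differential.** -/
theorem exists_diff (h1A : ‖(1 : 𝔸)‖ ≤ 1) (h1B : ‖(1 : 𝔹)‖ ≤ 1) (hρ : IsEmbedding ρ)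
    (hψ : Continuous ψ) (hV : ∀ X ∈ V, ∀ t : ℝ, ∃ g : G, ρ g = exp (t • X)) :
    ∃ D : 𝔸 →ₗ[ℝ] 𝔹, ∀ X ∈ V, ∀ (t : ℝ) (g : G), ρ g = exp (t • X) → ψ g = exp (t • D X) := by
  have hex : ∀ X : V, ∃ Y : 𝔹, ∀ (t : ℝ) (g : G), ρ g = exp (t • (X : 𝔸)) → ψ g = exp (t • Y) :=
    fun X => exists_gen_map hρ hψ (hV X X.2)
  choose d hd using hex
  have huniq : ∀ (X : V) (Y : 𝔹),
      (∀ (t : ℝ) (g : G), ρ g = exp (t • (X : 𝔸)) → ψ g = exp (t • Y)) → d X = Y := by
    intro X Y hY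
    refine exp_smul_inj fun t => ?_
    obtain ⟨g, hg⟩ := hV X X.2 t
    rw [← hd X t g hg, hY t g hg]
  let D0 : V →ₗ[ℝ] 𝔹 :=
    { toFun := d
      map_add' := by
        intro X Y
        refine huniq _ _ fun t g hg => ?_
        -- the product formula
        have hc : ∀ n : ℕ, ∃ a b : G, ρ a = exp ((n : ℝ)⁻¹ • (t • (X : 𝔸))) ∧
            ρ b = exp ((n : ℝ)⁻¹ • (t • (Y : 𝔸))) := by
          intro n
          obtain ⟨a, ha⟩ := hV X X.2 ((n : ℝ)⁻¹ * t)
          obtain ⟨b, hb⟩ := hV Y Y.2 ((n : ℝ)⁻¹ * t)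
          exact ⟨a, b, by rw [ha, mul_smul], by rw [hb, mul_smul]⟩
        choose a b ha hb using hc
        have h1 : Tendsto (fun n : ℕ => (a n * b n) ^ n) atTop (𝓝 g) := by
          rw [hρ.isInducing.tendsto_nhds_iff]
          have h2 : (ρ ∘ fun n : ℕ => (a n * b n) ^ n) =
              fun n : ℕ => (exp ((n : ℝ)⁻¹ • (t • (X : 𝔸))) *
                exp ((n : ℝ)⁻¹ • (t • (Y : 𝔸)))) ^ n := by
            funext n
            simp only [Function.comp_apply]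
            rw [map_pow, map_mul, ha, hb]
          rw [h2, hg, Submodule.coe_add, smul_add]
          exact trotter h1A _ _
        have h3 : Tendsto (fun n : ℕ => ψ ((a n * b n) ^ n)) atTop (𝓝 (ψ g)) :=
          (hψ.tendsto g).comp h1
        have h4 : (fun n : ℕ => ψ ((a n * b n) ^ n)) =
            fun n : ℕ => (exp ((n : ℝ)⁻¹ • (t • d X)) * exp ((n : ℝ)⁻¹ • (t • d Y))) ^ n := by
          funext n
          rw [map_pow, map_mul, hd X ((n : ℝ)⁻¹ * t) (a n) (by rw [ha, mul_smul]),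
            hd Y ((n : ℝ)⁻¹ * t) (b n) (by rw [hb, mul_smul]), mul_smul, mul_smul]
        rw [h4] at h3
        have h5 := tendsto_nhds_unique h3 (trotter h1B (t • d X) (t • d Y))
        rw [h5, smul_add]
      map_smul' := by
        intro c X
        refine huniq _ _ fun t g hg => ?_
        rw [RingHom.id_apply, smul_smul]
        refine hd X (t * c) g ?_
        rw [hg, Submodule.coe_smul, smul_smul] }
  obtain ⟨D, hD⟩ := LinearMap.exists_extend D0
  refine ⟨D, fun X hX t g hg => ?_⟩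
  have h1 : D X = d ⟨X, hX⟩ := LinearMap.congr_fun hD ⟨X, hX⟩
  rw [h1]
  exact hd ⟨X, hX⟩ t g hg

omit [CompleteSpace 𝔸] [NormedAlgebra ℝ 𝔸] [TopologicalSpace G] in
theorem map_mul_map_inv (f : G →* 𝔸) (h : G) : f h * f h⁻¹ = 1 ∧ f h⁻¹ * f h = 1 := by
  rw [← map_mul, ← map_mul, mul_inv_cancel, inv_mul_cancel, map_one]
  exact ⟨rfl, rfl⟩

/-- Equivariance. -/
theorem diff_conj {D : 𝔸 →ₗ[ℝ] 𝔹}
    (hD : ∀ X ∈ V, ∀ (t : ℝ) (g : G), ρ g = exp (t • X) → ψ g = exp (t • D X))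
    (hV : ∀ X ∈ V, ∀ t : ℝ, ∃ g : G, ρ g = exp (t • X)) (h : G) {X : 𝔸} (hX : X ∈ V)
    (hc : ρ h * X * ρ h⁻¹ ∈ V) : D (ρ h * X * ρ h⁻¹) = ψ h * D X * ψ h⁻¹ := by
  obtain ⟨hA1, hA2⟩ := map_mul_map_inv ρ h
  obtain ⟨hB1, hB2⟩ := map_mul_map_inv ψ h
  refine exp_smul_inj fun t => ?_
  obtain ⟨g, hg⟩ := hV X hX t
  have h1 : ρ (h * g * h⁻¹) = exp (t • (ρ h * X * ρ h⁻¹)) := by
    rw [map_mul, map_mul, hg]
    have h2 := exp_conj ⟨ρ h, ρ h⁻¹, hA1, hA2⟩ (t • X)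
    have h3 : t • (ρ h * X * ρ h⁻¹) = ρ h * (t • X) * ρ h⁻¹ := by
      rw [mul_smul_comm, smul_mul_assoc]
    rw [h3]
    exact h2.symm
  have h4 := hD _ hc t _ h1
  rw [← h4, map_mul, map_mul, hD X hX t g hg]
  have h2 := exp_conj ⟨ψ h, ψ h⁻¹, hB1, hB2⟩ (t • D X)
  have h3 : t • (ψ h * D X * ψ h⁻¹) = ψ h * (t • D X) * ψ h⁻¹ := by
    rw [mul_smul_comm, smul_mul_assoc]
  rw [h3]
  exact h2.symm

theorem hasDerivAt_conj (X Y : 𝔸) :
    HasDerivAt (fun u : ℝ => exp (u • X) * Y * exp (u • (-X))) (X * Y - Y * X) 0 := by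
  have hd : ∀ X : 𝔸, HasDerivAt (fun u : ℝ => exp (u • X)) X 0 := by
    intro X
    have h := hasDerivAt_exp_smul_const X (0 : ℝ)
    rwa [zero_smul, exp_zero, one_mul] at h
  have h := ((hd X).mul_const Y).mul (hd (-X))
  refine h.congr_deriv ?_
  rw [zero_smul, zero_smul, exp_zero, mul_one, one_mul, mul_neg, sub_eq_add_neg]

/-- Commutators. -/
theorem diff_brk [FiniteDimensional ℝ 𝔸] {D : 𝔸 →ₗ[ℝ] 𝔹}
    (hD : ∀ X ∈ V, ∀ (t : ℝ) (g : G), ρ g = exp (t • X) → ψ g = exp (t • D X))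
    (hV : ∀ X ∈ V, ∀ t : ℝ, ∃ g : G, ρ g = exp (t • X)) {X Y : 𝔸} (hX : X ∈ V) (hY : Y ∈ V)
    (hc : ∀ h : G, ρ h * Y * ρ h⁻¹ ∈ V) : D (X * Y - Y * X) = D X * D Y - D Y * D X := by
  have h1 : ∀ t : ℝ, D (exp (t • X) * Y * exp (t • (-X))) =
      exp (t • D X) * D Y * exp (t • (-(D X))) := by
    intro t
    obtain ⟨g, hg⟩ := hV X hX t
    have hg' : ρ g⁻¹ = exp (t • (-X)) := by
      have h2 : ρ g⁻¹ * ρ g = 1 := by rw [← map_mul, inv_mul_cancel, map_one]
      calc ρ g⁻¹ = ρ g⁻¹ * (exp (t • X) * exp (t • (-X))) := by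
            rw [smul_neg, exp_mul_neg, mul_one]
        _ = exp (t • (-X)) := by rw [← hg, ← mul_assoc, h2, one_mul]
    have h3 := diff_conj hD hV g hY (hc g)
    rw [hg, hg'] at h3
    rw [h3, hD X hX t g hg, hD _ (V.neg_mem hX) t g⁻¹ hg', map_neg]
  have h2 : HasDerivAt (fun u : ℝ => D (exp (u • X) * Y * exp (u • (-X)))) (D (X * Y - Y * X)) 0 := by
    have h3 := (LinearMap.toContinuousLinearMap D).hasFDerivAt.comp_hasDerivAt (0 : ℝ)
      (hasDerivAt_conj X Y)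
    exact h3
  have h4 : (fun u : ℝ => D (exp (u • X) * Y * exp (u • (-X)))) =
      fun u : ℝ => exp (u • D X) * D Y * exp (u • (-(D X))) := funext h1
  rw [h4] at h2
  exact h2.unique (hasDerivAt_conj (D X) (D Y))

omit [CompleteSpace 𝔸] [NormedAlgebra ℝ 𝔸] [NormedAlgebra ℝ 𝔹] [CompleteSpace 𝔹] in
/-- A homomorphism which is trivial near `1` is trivial on a connected group. -/
theorem eq_one_of_near [IsTopologicalGroup G] [ConnectedSpace G] (hψ : Continuous ψ)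
    (h : ∀ᶠ g in 𝓝 (1 : G), ψ g = 1) (g : G) : ψ g = 1 := by
  have h1 : IsOpen ((ψ.ker : Subgroup G) : Set G) := Subgroup.isOpen_of_mem_nhds _ (g := 1) h
  have h2 : IsClosed ((ψ.ker : Subgroup G) : Set G) := by
    have h3 : ((ψ.ker : Subgroup G) : Set G) = ψ ⁻¹' {1} := by
      ext x
      simp [MonoidHom.mem_ker]
    rw [h3]
    exact isClosed_singleton.preimage hψ
  have h3 := IsClopen.eq_univ ⟨h2, h1⟩ ⟨1, ψ.ker.one_mem⟩
  have h4 : g ∈ ((ψ.ker : Subgroup G) : Set G) := by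
    rw [h3]
    exact Set.mem_univ g
  exact h4

end dif

end Pool.Agent.Lib.MP_5d4057_al.VB
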