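import Pool.Agent.Lib.MP_5d4057_al.VB.Lie
import Pool.Agent.Lib.MP_5d4057_al.VB.Dif
import Pool.Agent.Lib.MP_5d4057_al.Hyb.Top

/-!
# VB V1.3: the differential of `φ : H(ℝ)⁰ → SU(m,1)` (helper35)
-/

set_option autoImplicit false

namespace Pool.Agent.Lib.MP_5d4057_al.VB

open Matrix Filter Topology Pool.Agent.Lib.MP_5d4057_al Pool.Agent.Lib.MP_5d4057_al.Hyb

variable {N m : ℕ}

theorem perm_eq_one {n : ℕ} {σ : Equiv.Perm (Fin n)} {i : Fin n} (h : ∀ j, j ≠ i → σ j = j) :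
    σ = 1 := by
  have hi : σ i = i := by
    by_contra hne
    exact hne (σ.injective (h (σ i) hne))
  ext j
  by_cases hj : j = i
  · rw [hj, hi]
    rfl
  · rw [h j hj]
    rfl

/-- The derivative of the determinant at `1` is the trace. -/
theorem hasDerivAt_det {n : ℕ} {A : ℝ → Matrix (Fin n) (Fin n) ℂ} {Y : Matrix (Fin n) (Fin n) ℂ}
    (h0 : A 0 = 1) (hA : ∀ i j, HasDerivAt (fun t => A t i j) (Y i j) 0) :
    HasDerivAt (fun t => (A t).det) Y.trace 0 := by
  have h1 : (fun t => (A t).det) =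
      fun t => ∑ σ : Equiv.Perm (Fin n), ((Equiv.Perm.sign σ : ℤ) : ℂ) * ∏ i, A t (σ i) i := by
    funext t
    rw [det_apply']
  rw [h1]
  have h2 : ∀ σ : Equiv.Perm (Fin n), HasDerivAt
      (fun t => ((Equiv.Perm.sign σ : ℤ) : ℂ) * ∏ i, A t (σ i) i)
      (((Equiv.Perm.sign σ : ℤ) : ℂ) *
        ∑ i, (∏ j ∈ Finset.univ.erase i, A 0 (σ j) j) • Y (σ i) i) 0 := fun σ =>
    (HasDerivAt.fun_finsetProd fun i _ => hA (σ i) i).const_mul _
  have h3 := HasDerivAt.fun_sum (u := Finset.univ) fun (σ : Equiv.Perm (Fin n)) _ => h2 σ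
  refine h3.congr_deriv ?_
  rw [Finset.sum_eq_single (1 : Equiv.Perm (Fin n))]
  · rw [Equiv.Perm.sign_one, h0, trace, Units.val_one, Int.cast_one, one_mul]
    refine Finset.sum_congr rfl fun i _ => ?_
    have h5 : ∏ j ∈ Finset.univ.erase i, (1 : Matrix (Fin n) (Fin n) ℂ)
        ((1 : Equiv.Perm (Fin n)) j) j = 1 :=
      Finset.prod_eq_one fun j _ => by rw [Equiv.Perm.one_apply, one_apply_eq]
    rw [h5, one_smul]
    rfl
  · intro σ _ hσ
    have h4 : ∑ i, (∏ j ∈ Finset.univ.erase i, A 0 (σ j) j) • Y (σ i) i = 0 := by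
      refine Finset.sum_eq_zero fun i _ => ?_
      obtain ⟨j, hj, hj'⟩ : ∃ j, j ≠ i ∧ σ j ≠ j := by
        by_contra hcon
        push Not at hcon
        exact hσ (perm_eq_one hcon)
      have h5 : ∏ j ∈ Finset.univ.erase i, A 0 (σ j) j = 0 := by
        refine Finset.prod_eq_zero (i := j) (Finset.mem_erase.2 ⟨hj, Finset.mem_univ _⟩) ?_
        rw [h0, one_apply_ne hj']
      rw [h5, zero_smul]
    rw [h4, mul_zero]
  · intro h
    exact absurd (Finset.mem_univ _) h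

/-- If all `exp (tY)` have determinant one, then the trace of `Y` is zero. -/
theorem trace_eq_zero_of_det {n : ℕ} {Y : Matrix (Fin n) (Fin n) ℂ}
    (h : ∀ t : ℝ, (NormedSpace.exp (t • Y)).det = 1) : Y.trace = 0 := by
  let _ : NormedRing (Matrix (Fin n) (Fin n) ℂ) := Matrix.linftyOpNormedRing
  let _ : NormedAlgebra ℝ (Matrix (Fin n) (Fin n) ℂ) := Matrix.linftyOpNormedAlgebra
  have hd : HasDerivAt (fun u : ℝ => NormedSpace.exp (u • Y)) Y 0 := by
    have h := hasDerivAt_exp_smul_const (𝕂 := ℝ) Y (0 : ℝ)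
    rwa [zero_smul, NormedSpace.exp_zero, one_mul] at h
  have h1 : ∀ i j, HasDerivAt (fun t : ℝ => (NormedSpace.exp (t • Y)) i j) (Y i j) 0 := by
    intro i j
    have h2 := (LinearMap.toContinuousLinearMap
      (Matrix.entryLinearMap ℝ ℂ i j)).hasFDerivAt.comp_hasDerivAt (0 : ℝ) hd
    exact h2
  have h2 := hasDerivAt_det (A := fun t : ℝ => NormedSpace.exp (t • Y))
    (by rw [zero_smul, NormedSpace.exp_zero]) h1
  have h3 : (fun t : ℝ => (NormedSpace.exp (t • Y)).det) = fun _ => 1 := funext h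
  rw [h3] at h2
  exact h2.unique (hasDerivAt_const _ _)

/-- If all `exp (tY)` preserve the form `J` (a matrix with `J * J = 1`), then `Yᴴ J = - J Y`. -/
theorem skew_of_pres {n : ℕ} {J Y : Matrix (Fin n) (Fin n) ℂ} (hJ : J * J = 1)
    (h : ∀ t : ℝ, (NormedSpace.exp (t • Y))ᴴ * J * NormedSpace.exp (t • Y) = J) :
    Yᴴ * J = -(J * Y) := by
  let _ : NormedRing (Matrix (Fin n) (Fin n) ℂ) := Matrix.linftyOpNormedRing
  let _ : NormedAlgebra ℝ (Matrix (Fin n) (Fin n) ℂ) := Matrix.linftyOpNormedAlgebra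
  have hcomp : CompleteSpace (Matrix (Fin n) (Fin n) ℂ) := FiniteDimensional.complete ℝ _
  have h1 : Yᴴ = J * (-Y) * J := by
    refine exp_smul_inj fun t => ?_
    have h2 : NormedSpace.exp (t • Yᴴ) = (NormedSpace.exp (t • Y))ᴴ := by
      rw [← Matrix.exp_conjTranspose, conjTranspose_smul, star_trivial]
    have h3 : NormedSpace.exp (t • (J * (-Y) * J)) = J * NormedSpace.exp (t • (-Y)) * J := by
      have h4 := exp_conj (𝔸 := Matrix (Fin n) (Fin n) ℂ) ⟨J, J, hJ, hJ⟩ (t • (-Y))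
      have h5 : t • (J * (-Y) * J) = J * (t • (-Y)) * J := by
        rw [Matrix.mul_smul, Matrix.smul_mul]
      rw [h5]
      exact h4
    have h6 : NormedSpace.exp (t • Y) * NormedSpace.exp (t • (-Y)) = 1 := by
      rw [smul_neg]
      exact exp_mul_neg _
    refine Eq.trans h2 (Eq.trans ?_ h3.symm)
    calc (NormedSpace.exp (t • Y))ᴴ = (NormedSpace.exp (t • Y))ᴴ * J * (NormedSpace.exp (t • Y) *
          NormedSpace.exp (t • (-Y))) * J := by rw [h6, mul_one, mul_assoc, hJ, mul_one]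
      _ = (NormedSpace.exp (t • Y))ᴴ * J * NormedSpace.exp (t • Y) *
          NormedSpace.exp (t • (-Y)) * J := by noncomm_ring
      _ = J * NormedSpace.exp (t • (-Y)) * J := by rw [h t]
  rw [h1, mul_assoc, hJ, mul_one, mul_neg]

theorem J_mul_J' (m : ℕ) : J m * J m = 1 := by
  rw [J, diagonal_mul_diagonal, ← diagonal_one]
  congr 1
  funext i
  by_cases h : i = Fin.last m
  · simp [h]
  · simp [h]

theorem isEmbedding_mr (H : AlgGroup N) : IsEmbedding (mr (H := H)) := by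
  let _ : NormedRing (Matrix (Fin N) (Fin N) ℝ) := Matrix.linftyOpNormedRing
  let _ : NormedAlgebra ℝ (Matrix (Fin N) (Fin N) ℝ) := Matrix.linftyOpNormedAlgebra
  have hcomp : CompleteSpace (Matrix (Fin N) (Fin N) ℝ) := FiniteDimensional.complete ℝ _
  have h1 : IsEmbedding (Units.val : (Matrix (Fin N) (Fin N) ℝ)ˣ → Matrix (Fin N) (Fin N) ℝ) :=
    Units.isOpenEmbedding_val.isEmbedding
  exact h1.comp (IsEmbedding.subtypeVal.comp IsEmbedding.subtypeVal)

/-- `mr` as a homomorphism. -/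
def mrHom (H : AlgGroup N) : H.real0 →* Matrix (Fin N) (Fin N) ℝ where
  toFun := mr
  map_one' := rfl
  map_mul' _ _ := rfl

@[simp] theorem mrHom_apply (H : AlgGroup N) (h : H.real0) : mrHom H h = mr h := rfl

/-- `toMatrix` as a homomorphism. -/
def tmHom (m : ℕ) : SUGroup m →* Matrix (Fin (m + 1)) (Fin (m + 1)) ℂ where
  toFun := SUGroup.toMatrix
  map_one' := rfl
  map_mul' _ _ := rfl

@[simp] theorem tmHom_apply (m : ℕ) (g : SUGroup m) : tmHom m g = g.toMatrix := rfl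

/-- **The differential of `φ`.** -/
theorem exists_dphi {H : AlgGroup N} {φ : H.real0 →* SUGroup m} (hφ : Continuous φ) :
    ∃ D : H.lieR →ₗ[ℝ] Matrix (Fin (m + 1)) (Fin (m + 1)) ℂ,
      (∀ (X : H.lieR) (t : ℝ) (g : H.real0),
        mr g = NormedSpace.exp (t • (X : Matrix (Fin N) (Fin N) ℝ)) →
          (φ g).toMatrix = NormedSpace.exp (t • D X)) ∧
      (∀ X Y Z : H.lieR, (Z : Matrix (Fin N) (Fin N) ℝ) = X * Y - Y * X →
        D Z = D X * D Y - D Y * D X) ∧
      (∀ X, (D X)ᴴ * J m = -(J m * D X)) ∧ (∀ X, (D X).trace = 0) ∧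
      ∀ (h : H.real0) (X Y : H.lieR), (Y : Matrix (Fin N) (Fin N) ℝ) = mr h * X * mr h⁻¹ →
        D Y = (φ h).toMatrix * D X * ((φ h)⁻¹).toMatrix := by
  let _ : NormedRing (Matrix (Fin N) (Fin N) ℝ) := Matrix.linftyOpNormedRing
  let _ : NormedAlgebra ℝ (Matrix (Fin N) (Fin N) ℝ) := Matrix.linftyOpNormedAlgebra
  have hcomp : CompleteSpace (Matrix (Fin N) (Fin N) ℝ) := FiniteDimensional.complete ℝ _
  let _ : NormedRing (Matrix (Fin (m + 1)) (Fin (m + 1)) ℂ) := Matrix.linftyOpNormedRing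
  let _ : NormedAlgebra ℝ (Matrix (Fin (m + 1)) (Fin (m + 1)) ℂ) := Matrix.linftyOpNormedAlgebra
  have hcomp' : CompleteSpace (Matrix (Fin (m + 1)) (Fin (m + 1)) ℂ) :=
    FiniteDimensional.complete ℝ _
  have h1A : ‖(1 : Matrix (Fin N) (Fin N) ℝ)‖ ≤ 1 := by
    rw [← Matrix.diagonal_one]
    have h := Matrix.linfty_opNorm_diagonal (fun _ : Fin N => (1 : ℝ))
    rw [h]
    exact (pi_norm_const_le (1 : ℝ)).trans (le_of_eq norm_one)
  have h1B : ‖(1 : Matrix (Fin (m + 1)) (Fin (m + 1)) ℂ)‖ ≤ 1 := by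
    rw [← Matrix.diagonal_one]
    have h := Matrix.linfty_opNorm_diagonal (fun _ : Fin (m + 1) => (1 : ℂ))
    rw [h]
    exact (pi_norm_const_le (1 : ℂ)).trans (le_of_eq norm_one)
  have hρ : IsEmbedding (mrHom H) := isEmbedding_mr H
  have hψ : Continuous ((tmHom m).comp φ) := (continuous_toMatrix m).comp hφ
  have hV : ∀ X ∈ H.lieR, ∀ t : ℝ, ∃ g : H.real0, mrHom H g = NormedSpace.exp (t • X) := by
    intro X hX t
    obtain ⟨e, _, _, _, he⟩ := exists_exp0 hX
    exact ⟨e t, he t⟩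
  obtain ⟨D, hD⟩ := exists_diff h1A h1B hρ hψ hV
  refine ⟨D ∘ₗ H.lieR.subtype, fun X t g hg => hD X X.2 t g hg, ?_, ?_, ?_, ?_⟩
  · intro X Y Z hZ
    show D Z = D X * D Y - D Y * D X
    rw [hZ]
    exact diff_brk hD hV X.2 Y.2 fun h => lieR_conj Y.2 h
  · intro X
    refine skew_of_pres (J_mul_J' m) fun t => ?_
    obtain ⟨g, hg⟩ := hV X X.2 t
    have h1 := hD X X.2 t g hg
    have h2 : (φ g).toMatrix = NormedSpace.exp (t • D X) := h1
    show (NormedSpace.exp (t • D X))ᴴ * J m * NormedSpace.exp (t • D X) = J m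
    rw [← h2]
    exact pres (φ g)
  · intro X
    refine trace_eq_zero_of_det fun t => ?_
    obtain ⟨g, hg⟩ := hV X X.2 t
    have h2 : (φ g).toMatrix = NormedSpace.exp (t • D X) := hD X X.2 t g hg
    show (NormedSpace.exp (t • D X)).det = 1
    rw [← h2]
    exact det_toMatrix (φ g)
  · intro h X Y hY
    show D Y = _
    rw [hY]
    have h1 := diff_conj hD hV h X.2 (lieR_conj X.2 h)
    rw [← map_inv]
    exact h1

end Pool.Agent.Lib.MP_5d4057_al.VB
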