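import Mathlib

/-!
# Integrality of the traces from integrality of the adjoint action (project VERB, helper7)
-/

set_option autoImplicit false

namespace Pool.Agent.Lib.MP_5d4057_al.VB

open Matrix Polynomial

/-- `X ↦ A X B` as a `ℤ`-linear map. -/
def cjz {R : Type*} [CommRing R] {k : ℕ} (A B : Matrix (Fin k) (Fin k) R) :
    Module.End ℤ (Matrix (Fin k) (Fin k) R) where
  toFun X := A * X * B
  map_add' X Y := by rw [Matrix.mul_add, Matrix.add_mul]
  map_smul' c X := by
    simp only [Matrix.mul_smul, Matrix.smul_mul, RingHom.id_apply]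

@[simp] theorem cjz_apply {R : Type*} [CommRing R] {k : ℕ} (A B X : Matrix (Fin k) (Fin k) R) :
    cjz A B X = A * X * B := rfl

theorem aeval_comm {M N : Type*} [AddCommGroup M] [AddCommGroup N] (T : Module.End ℤ M)
    (S : Module.End ℤ N) (L : M →ₗ[ℤ] N) (h : ∀ x, L (T x) = S (L x)) (p : ℤ[X]) (x : M) :
    L (aeval T p x) = aeval S p (L x) := by
  induction p using Polynomial.induction_on' generalizing x with
  | add p q hp hq => simp only [map_add, LinearMap.add_apply, hp, hq]
  | monomial n a =>
    have hpow : ∀ (n : ℕ) (x : M), L ((T ^ n) x) = (S ^ n) (L x) := by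
      intro n
      induction n with
      | zero => intro x; rfl
      | succ n ih =>
        intro x
        rw [pow_succ, pow_succ, Module.End.mul_apply, Module.End.mul_apply, ih, h]
    simp only [aeval_monomial, Module.End.mul_apply]
    simp [hpow]

/-- Conjugation by an integral matrix is integral. -/
theorem int_poly {R : Type*} [CommRing R] {N : ℕ} {G G' : Matrix (Fin N) (Fin N) R}
    (hG : ∀ i j, ∃ z : ℤ, G i j = z) (hG' : ∀ i j, ∃ z : ℤ, G' i j = z) :
    ∃ p : ℤ[X], p.Monic ∧ ∀ X, aeval (cjz G G') p X = 0 := by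
  classical
  choose A hA using hG
  choose B hB using hG'
  let φ : Matrix (Fin N) (Fin N) ℤ →ₗ[ℤ] Matrix (Fin N) (Fin N) R :=
    { toFun := fun X => X.map (Int.cast : ℤ → R)
      map_add' := fun X Y => by ext i j; simp
      map_smul' := fun c X => by
        ext i j
        rw [Matrix.map_apply, Matrix.smul_apply]
        simp [zsmul_eq_mul] }
  have hφ : ∀ X, φ (cjz (Matrix.of A) (Matrix.of B) X) = cjz G G' (φ X) := by
    intro X
    ext i j
    simp only [φ, LinearMap.coe_mk, AddHom.coe_mk, cjz_apply, Matrix.map_apply, Matrix.mul_apply,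
      Matrix.of_apply, hA, hB]
    push_cast
    rfl
  refine ⟨LinearMap.charpoly (cjz (Matrix.of A) (Matrix.of B)), LinearMap.charpoly_monic _, ?_⟩
  set p := LinearMap.charpoly (cjz (Matrix.of A) (Matrix.of B)) with hp
  have h0 : aeval (cjz (Matrix.of A) (Matrix.of B)) p = 0 := LinearMap.aeval_self_charpoly _
  -- multiplication by a scalar commutes
  have hs : ∀ (c : R) X, aeval (cjz G G') p (c • X) = c • aeval (cjz G G') p X := by
    intro c X
    let L : Matrix (Fin N) (Fin N) R →ₗ[ℤ] Matrix (Fin N) (Fin N) R :=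
      { toFun := fun X => c • X
        map_add' := fun X Y => smul_add c X Y
        map_smul' := fun k X => by rw [RingHom.id_apply, smul_comm] }
    have := aeval_comm (cjz G G') (cjz G G') L (fun X => by
      simp only [L, LinearMap.coe_mk, AddHom.coe_mk, cjz_apply, Matrix.mul_smul, Matrix.smul_mul]) p X
    exact this.symm
  intro X
  have h1 : ∀ i j : Fin N, aeval (cjz G G') p (Matrix.single i j (1 : R)) = 0 := by
    intro i j
    have h2 := aeval_comm _ _ φ hφ p (Matrix.single i j 1)
    rw [h0] at h2
    have h3 : φ (Matrix.single i j 1) = Matrix.single i j 1 := by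
      ext a b
      simp [φ, Matrix.single_apply]
    rw [h3] at h2
    rw [← h2]
    simp
  rw [Matrix.matrix_eq_sum_single X, map_sum]
  refine Finset.sum_eq_zero fun i _ => ?_
  rw [map_sum]
  refine Finset.sum_eq_zero fun j _ => ?_
  have h4 : Matrix.single i j (X i j) = X i j • Matrix.single i j (1 : R) := by
    rw [Matrix.smul_single]; simp
  rw [h4, hs, h1, smul_zero]

/-- If a monic integral polynomial kills `Ad g` on the traceless matrices, the trace of `g` is an
algebraic integer. -/
theorem isIntegral_trace_of_ad {k : ℕ} {g g' : Matrix (Fin k) (Fin k) ℂ} (hg : g * g' = 1)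
    (hdet : g.det = 1) {p : ℤ[X]} (hp : p.Monic)
    (h : ∀ X, X.trace = 0 → aeval (cjz g g') p X = 0) : IsIntegral ℤ g.trace := by
  classical
  have hg' : g' * g = 1 := mul_eq_one_comm.1 hg
  -- `(t - 1) p` kills everything
  set P : ℤ[X] := p * (X - 1) with hP
  have hPm : P.Monic := hp.mul (by simpa using monic_X_sub_C (1 : ℤ))
  have hPX : ∀ X, aeval (cjz g g') P X = 0 := by
    intro X
    rw [hP, map_mul, Module.End.mul_apply]
    apply h
    rw [map_sub, aeval_X, map_one, LinearMap.sub_apply, Module.End.one_apply, cjz_apply, trace_sub,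
      Matrix.trace_mul_comm, ← Matrix.mul_assoc, hg', Matrix.one_mul, sub_self]
  -- eigenvalues of the adjoint action
  have heig : ∀ (X : Matrix (Fin k) (Fin k) ℂ) (c : ℂ), X ≠ 0 → g * X * g' = c • X →
      IsIntegral ℤ c := by
    intro X c hX hc
    refine ⟨P, hPm, ?_⟩
    have h1 : ∀ q : ℤ[X], aeval (cjz g g') q X = (aeval c q) • X := by
      intro q
      induction q using Polynomial.induction_on' with
      | add q r hq hr => simp only [map_add, LinearMap.add_apply, hq, hr, add_smul]
      | monomial n a =>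
        have hpow : ∀ n : ℕ, ((cjz g g') ^ n) X = c ^ n • X := by
          intro n
          induction n with
          | zero => simp
          | succ n ih =>
            rw [pow_succ', Module.End.mul_apply, ih, cjz_apply, Matrix.mul_smul, Matrix.smul_mul, hc,
              smul_smul, pow_succ]
        simp only [aeval_monomial, Module.End.mul_apply, hpow, Module.algebraMap_end_apply]
        rw [← Int.cast_smul_eq_zsmul ℂ, smul_smul]
        simp
    have h2 := h1 P
    rw [hPX] at h2
    have h3 : aeval c P = 0 := by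
      by_contra h3
      exact hX ((smul_eq_zero.1 h2.symm).resolve_left h3)
    rw [aeval_def] at h3
    exact h3
  -- quotients of eigenvalues
  have hroots : ∀ l ∈ g.charpoly.roots, ∃ v : Fin k → ℂ, v ≠ 0 ∧ g *ᵥ v = l • v := by
    intro l hl
    have hr : g.charpoly.IsRoot l := isRoot_of_mem_roots hl
    have h1 : Module.End.HasEigenvalue (Matrix.toLin' g) l := by
      rw [Module.End.hasEigenvalue_iff_isRoot_charpoly]
      rwa [Matrix.charpoly_toLin']
    obtain ⟨v, hv⟩ := h1.exists_hasEigenvector
    exact ⟨v, hv.2, by simpa [Matrix.toLin'_apply] using hv.apply_eq_smul⟩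
  have hroots' : ∀ l ∈ g.charpoly.roots, ∃ f : Fin k → ℂ, f ≠ 0 ∧ f ᵥ* g = l • f := by
    intro l hl
    have hr : g.charpoly.IsRoot l := isRoot_of_mem_roots hl
    have h1 : Module.End.HasEigenvalue (Matrix.toLin' gᵀ) l := by
      rw [Module.End.hasEigenvalue_iff_isRoot_charpoly]
      rwa [Matrix.charpoly_toLin', Matrix.charpoly_transpose]
    obtain ⟨v, hv⟩ := h1.exists_hasEigenvector
    refine ⟨v, hv.2, ?_⟩
    have := hv.apply_eq_smul
    rwa [Matrix.toLin'_apply, Matrix.mulVec_transpose] at this
  have hne : ∀ l ∈ g.charpoly.roots, l ≠ 0 := by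
    intro l hl h0
    have h1 : g.charpoly.roots.prod = 1 := by rw [← Matrix.det_eq_prod_roots_charpoly, hdet]
    rw [h0] at hl
    rw [Multiset.prod_eq_zero hl] at h1
    exact zero_ne_one h1
  have hq : ∀ l ∈ g.charpoly.roots, ∀ l' ∈ g.charpoly.roots, IsIntegral ℤ (l / l') := by
    intro l hl l' hl'
    obtain ⟨v, hv, hgv⟩ := hroots l hl
    obtain ⟨f, hf, hfg⟩ := hroots' l' hl'
    have hl0 := hne l' hl'
    refine heig (vecMulVec v f) (l / l') ?_ ?_
    · intro h0
      obtain ⟨i, hi⟩ := Function.ne_iff.1 hv
      obtain ⟨j, hj⟩ := Function.ne_iff.1 hf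
      have := congrFun (congrFun h0 i) j
      rw [vecMulVec_apply] at this
      exact mul_ne_zero hi hj this
    · have h1 : f ᵥ* g' = l'⁻¹ • f := by
        have h2 : (f ᵥ* g) ᵥ* g' = f := by rw [vecMul_vecMul, hg, vecMul_one]
        rw [hfg, smul_vecMul] at h2
        calc f ᵥ* g' = l'⁻¹ • (l' • (f ᵥ* g')) := by
              rw [smul_smul, inv_mul_cancel₀ hl0, one_smul]
          _ = _ := by rw [h2]
      rw [mul_vecMulVec, hgv, vecMulVec_mul, h1, smul_vecMulVec, vecMulVec_smul, smul_smul,
        div_eq_mul_inv]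
  have hint : ∀ l ∈ g.charpoly.roots, IsIntegral ℤ l := by
    intro l hl
    have hc : Multiset.card g.charpoly.roots = k := by
      have h1 := (IsAlgClosed.splits g.charpoly).natDegree_eq_card_roots
      rw [← h1, Matrix.charpoly_natDegree_eq_dim, Fintype.card_fin]
    have h1 : (g.charpoly.roots.map (fun l' => l / l')).prod = l ^ k := by
      rw [Multiset.prod_map_div, Multiset.map_const', Multiset.prod_replicate, hc, Multiset.map_id',
        ← Matrix.det_eq_prod_roots_charpoly, hdet, div_one]
    have h2 : IsIntegral ℤ (l ^ k) := by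
      rw [← h1]
      refine IsIntegral.multiset_prod fun x hx => ?_
      obtain ⟨l', hl', rfl⟩ := Multiset.mem_map.1 hx
      exact hq l hl l' hl'
    have hk : 0 < k := by
      rw [← hc]
      exact Multiset.card_pos_iff_exists_mem.2 ⟨l, hl⟩
    exact h2.of_pow hk
  rw [Matrix.trace_eq_sum_roots_charpoly]
  exact IsIntegral.multiset_sum hint

/-- **Integrality of traces.** `W` is an additive group of `N × N` matrices, stable under
conjugation by an integral matrix `G` (with integral inverse `G'`), `L` is an additive map from `W`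
to the `k × k` matrices, whose image spans the traceless matrices, and `L` intertwines conjugation
by `G` with conjugation by `g`. -/
theorem trace_int {R : Type*} [CommRing R] {N k : ℕ} (W : AddSubgroup (Matrix (Fin N) (Fin N) R))
    (L : W →+ Matrix (Fin k) (Fin k) ℂ)
    (hL : ∀ Y : Matrix (Fin k) (Fin k) ℂ, Y.trace = 0 → Y ∈ Submodule.span ℂ (Set.range L))
    {G G' : Matrix (Fin N) (Fin N) R} (hG : ∀ i j, ∃ z : ℤ, G i j = z)
    (hG' : ∀ i j, ∃ z : ℤ, G' i j = z) {g g' : Matrix (Fin k) (Fin k) ℂ} (hg : g * g' = 1)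
    (hdet : g.det = 1)
    (hW : ∀ X : W, ∃ Y : W, (Y : Matrix (Fin N) (Fin N) R) = G * X * G' ∧ L Y = g * L X * g') :
    IsIntegral ℤ g.trace := by
  obtain ⟨p, hp, hp0⟩ := int_poly hG hG'
  refine isIntegral_trace_of_ad hg hdet hp ?_
  choose T hT hLT using hW
  let T' : Module.End ℤ W :=
    { toFun := T
      map_add' := fun X Y => Subtype.ext (by
        rw [hT, AddSubgroup.coe_add, AddSubgroup.coe_add, hT, hT, Matrix.mul_add, Matrix.add_mul])
      map_smul' := fun c X => Subtype.ext (by
        rw [hT, RingHom.id_apply, AddSubgroup.coe_zsmul, AddSubgroup.coe_zsmul, hT, Matrix.mul_smul,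
          Matrix.smul_mul]) }
  have h1 : ∀ X : W, aeval T' p X = 0 := by
    intro X
    apply Subtype.ext
    have h2 := aeval_comm T' (cjz G G') W.subtype.toIntLinearMap (fun X => hT X) p X
    have h3 : W.subtype.toIntLinearMap (aeval T' p X) = ((aeval T' p X : W) : Matrix _ _ R) := rfl
    rw [← h3, h2, hp0]
    rfl
  have h2 : ∀ X : W, aeval (cjz g g') p (L X) = 0 := by
    intro X
    have := aeval_comm T' (cjz g g') L.toIntLinearMap (fun X => hLT X) p X
    rw [h1, map_zero] at this
    exact this.symm
  have hs : ∀ (c : ℂ) X, aeval (cjz g g') p (c • X) = c • aeval (cjz g g') p X := by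
    intro c X
    let L : Matrix (Fin k) (Fin k) ℂ →ₗ[ℤ] Matrix (Fin k) (Fin k) ℂ :=
      { toFun := fun X => c • X
        map_add' := fun X Y => smul_add c X Y
        map_smul' := fun k X => by rw [RingHom.id_apply, smul_comm] }
    have := aeval_comm (cjz g g') (cjz g g') L (fun X => by
      simp only [L, LinearMap.coe_mk, AddHom.coe_mk, cjz_apply, Matrix.mul_smul, Matrix.smul_mul]) p X
    exact this.symm
  have h3 : ∀ Y ∈ Submodule.span ℂ (Set.range L), aeval (cjz g g') p Y = 0 := by
    intro Y hY
    induction hY using Submodule.span_induction with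
    | mem Y h =>
      obtain ⟨X, rfl⟩ := h
      exact h2 X
    | zero => exact map_zero _
    | add a b _ _ ha hb => rw [map_add, ha, hb, add_zero]
    | smul c a _ ha => rw [hs, ha, smul_zero]
  exact fun Y hY => h3 Y (hL Y hY)

end Pool.Agent.Lib.MP_5d4057_al.VB
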