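import Pool.Agent.Lib.MP_5d4057_al.VB.LieD
import Pool.Agent.Lib.MP_5d4057_al.VB.Eig

/-!
# VB, V1: the traces are algebraic integers
-/

set_option autoImplicit false

namespace Pool.Agent.Lib.MP_5d4057_al.VB

open Matrix Pool.Agent.Lib.MP_5d4057_al Pool.Agent.Lib.MP_5d4057_al.Hyb
  Pool.Agent.Lib.MP_5d4057_al.HM Pool.Agent.Lib.MP_5d4057_al.NU

variable {m N : ℕ} {Γ : Subgroup (SUGroup m)} {𝔤 : Submodule ℂ (Mat N)}
  {π : Mat N →ₗ[ℂ] Mat (m + 1)} {g h : SUGroup m → Mat N}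

theorem LieD.isIntegral (H : LieD Γ N 𝔤 π g h) {γ : SUGroup m} (hγ : γ ∈ Γ) :
    IsIntegral ℤ γ.toMatrix.trace := by
  let L : 𝔤.toAddSubgroup →+ Matrix (Fin (m + 1)) (Fin (m + 1)) ℂ :=
    { toFun := fun X => π X.1
      map_zero' := map_zero π
      map_add' := fun X Y => map_add π X.1 Y.1 }
  refine trace_int 𝔤.toAddSubgroup L ?_ (H.intg γ hγ) (H.inth γ hγ) (toMatrix_mul_inv γ) (det_toMatrix γ) ?_
  · intro Y hY
    obtain ⟨X, hX, rfl⟩ := H.surj Y hY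
    exact Submodule.subset_span ⟨⟨X, hX⟩, rfl⟩
  · rintro ⟨X, hX⟩
    exact ⟨⟨g γ * X * h γ, H.stab γ hγ X hX⟩, rfl, H.equi γ hγ X hX⟩

end Pool.Agent.Lib.MP_5d4057_al.VB
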