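import Mathlib

/-!
# VERB: Minkowski's lemma modulo 3 (owner: helper3)
-/

set_option autoImplicit false

namespace Pool.Agent.Lib.MP_5d4057_al.VB

open Matrix

variable {N : ℕ}

/-- `(1 + Y)^k = 1 + k Y + Y² Z`. -/
theorem one_add_pow {R : Type*} [Ring R] (Y : R) (k : ℕ) :
    ∃ Z : R, (1 + Y) ^ k = 1 + (k : R) * Y + Y * Y * Z := by
  induction k with
  | zero => exact ⟨0, by simp⟩
  | succ k ih =>
    obtain ⟨Z, hZ⟩ := ih
    refine ⟨(k : R) + Z * (1 + Y), ?_⟩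
    rw [pow_succ, hZ, Nat.cast_succ]
    have h1 : (k : R) * Y * Y = Y * Y * (k : R) := by
      rw [mul_assoc]
      exact (Nat.cast_commute k (Y * Y)).eq
    calc (1 + (k : R) * Y + Y * Y * Z) * (1 + Y)
        = 1 + ((k : R) * Y + Y) + (k : R) * Y * Y + Y * Y * (Z * (1 + Y)) := by noncomm_ring
      _ = 1 + ((k : R) + 1) * Y + Y * Y * ((k : R) + Z * (1 + Y)) := by
          rw [h1]
          noncomm_ring

private theorem mk_cancel {a : ℕ} {X Y : Matrix (Fin N) (Fin N) ℤ}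
    (h : (3 : ℤ) ^ a • X = (3 : ℤ) ^ a • Y) : X = Y := by
  have h3 : (3 : ℤ) ^ a ≠ 0 := pow_ne_zero _ (by norm_num)
  exact smul_right_injective _ h3 h

/-- One step: divisibility by `3^a` improves to `3^(a+1)` (`3` does not divide `k`). -/
private theorem mk_stepA {G : Matrix (Fin N) (Fin N) ℤ} {k a : ℕ} (hk : ¬ 3 ∣ k) (ha : 1 ≤ a)
    (hG : G ^ k = 1) {X : Matrix (Fin N) (Fin N) ℤ} (hX : G = 1 + (3 : ℤ) ^ a • X) :
    ∃ Y, G = 1 + (3 : ℤ) ^ (a + 1) • Y := by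
  obtain ⟨Z, hZ⟩ := one_add_pow ((3 : ℤ) ^ a • X) k
  rw [← hX, hG] at hZ
  have h1 : (3 : ℤ) ^ a • ((k : ℤ) • X) = (3 : ℤ) ^ a • (-((3 : ℤ) ^ a • (X * X * Z))) := by
    have h2 : (0 : Matrix (Fin N) (Fin N) ℤ) = (k : Matrix (Fin N) (Fin N) ℤ) * ((3 : ℤ) ^ a • X) +
        (3 : ℤ) ^ a • X * (3 : ℤ) ^ a • X * Z := by
      have h3 := hZ
      rw [add_assoc] at h3
      exact (left_eq_add.1 h3).symm
    have h4 : (k : Matrix (Fin N) (Fin N) ℤ) * ((3 : ℤ) ^ a • X) = (3 : ℤ) ^ a • ((k : ℤ) • X) := by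
      rw [mul_smul_comm, ← nsmul_eq_mul, natCast_zsmul]
    have h5 : (3 : ℤ) ^ a • X * (3 : ℤ) ^ a • X * Z =
        (3 : ℤ) ^ a • ((3 : ℤ) ^ a • (X * X * Z)) := by
      rw [smul_mul_smul_comm, smul_mul_assoc, mul_smul]
    rw [h4, h5] at h2
    rw [smul_neg]
    exact eq_neg_of_add_eq_zero_left h2.symm
  have h6 := mk_cancel h1
  obtain ⟨u, v, huv⟩ : ∃ u v : ℤ, u * k + v * 3 = 1 := by
    have h7 : IsCoprime (k : ℤ) 3 := by
      have h8 : Nat.Coprime k 3 := ((Nat.Prime.coprime_iff_not_dvd Nat.prime_three).2 hk).symm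
      exact_mod_cast Nat.isCoprime_iff_coprime.2 h8
    obtain ⟨u, v, h⟩ := h7
    exact ⟨u, v, h⟩
  obtain ⟨b, rfl⟩ : ∃ b, a = b + 1 := ⟨a - 1, by omega⟩
  refine ⟨v • X - u • ((3 : ℤ) ^ b • (X * X * Z)), ?_⟩
  have h9 : X = (3 : ℤ) • (v • X - u • ((3 : ℤ) ^ b • (X * X * Z))) := by
    calc X = (u * k + v * 3) • X := by rw [huv, one_smul]
      _ = u • ((k : ℤ) • X) + (3 : ℤ) • (v • X) := by
          rw [add_smul, mul_smul, mul_comm v 3, mul_smul]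
      _ = _ := by
          rw [h6, smul_sub, smul_neg, pow_succ']
          rw [mul_smul, smul_comm u (3 : ℤ), sub_eq_add_neg, add_comm]
  rw [hX]
  congr 1
  conv_lhs => rw [h9]
  rw [smul_smul, ← pow_succ]

private theorem mk_cube {R : Type*} [Ring R] (Y : R) :
    (1 + Y) ^ 3 = 1 + ((3 : ℤ) • Y + (3 : ℤ) • (Y * Y) + Y * Y * Y) := by
  rw [pow_succ, pow_two]
  noncomm_ring

/-- One step for `k = 3`. -/
private theorem mk_stepB {G : Matrix (Fin N) (Fin N) ℤ} {a : ℕ} (ha : 1 ≤ a)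
    (hG : G ^ 3 = 1) {X : Matrix (Fin N) (Fin N) ℤ} (hX : G = 1 + (3 : ℤ) ^ a • X) :
    ∃ Y, G = 1 + (3 : ℤ) ^ (a + 1) • Y := by
  obtain ⟨b, rfl⟩ : ∃ b, a = b + 1 := ⟨a - 1, by omega⟩
  have h1 : (3 : ℤ) ^ (b + 2) • (X + (3 : ℤ) • ((3 : ℤ) ^ b • (X * X)) +
      (3 : ℤ) • ((3 : ℤ) ^ (2 * b) • (X * X * X))) = 0 := by
    have h2 : G ^ 3 = 1 + (3 : ℤ) ^ (b + 2) • (X + (3 : ℤ) • ((3 : ℤ) ^ b • (X * X)) +
      (3 : ℤ) • ((3 : ℤ) ^ (2 * b) • (X * X * X))) := by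
      rw [hX, mk_cube]
      congr 1
      simp only [smul_mul_smul_comm, smul_smul, smul_add]
      congr 1
      · congr 1
        · congr 1
          ring
        · congr 1
          ring
      · congr 1
        ring
    rw [h2] at hG
    exact left_eq_add.1 hG.symm
  have h3 : X + (3 : ℤ) • ((3 : ℤ) ^ b • (X * X)) +
      (3 : ℤ) • ((3 : ℤ) ^ (2 * b) • (X * X * X)) = 0 := by
    have h4 : (3 : ℤ) ^ (b + 2) ≠ 0 := pow_ne_zero _ (by norm_num)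
    exact (smul_eq_zero.1 h1).resolve_left h4
  refine ⟨-((3 : ℤ) ^ b • (X * X) + (3 : ℤ) ^ (2 * b) • (X * X * X)), ?_⟩
  have h9 : X = (3 : ℤ) • (-((3 : ℤ) ^ b • (X * X) + (3 : ℤ) ^ (2 * b) • (X * X * X))) := by
    rw [add_assoc] at h3
    conv_lhs => rw [eq_neg_of_add_eq_zero_left h3]
    rw [smul_neg, smul_add]
  rw [hX]
  congr 1
  conv_lhs => rw [h9]
  rw [smul_smul, ← pow_succ]

/-- If all powers of `3` divide `G - 1` then `G = 1`. -/
private theorem mk_one {G : Matrix (Fin N) (Fin N) ℤ}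
    (h : ∀ a : ℕ, ∃ X, G = 1 + (3 : ℤ) ^ (a + 1) • X) : G = 1 := by
  ext i j
  have h1 : ∀ a : ℕ, (3 : ℤ) ^ (a + 1) ∣ (G - 1) i j := fun a => by
    obtain ⟨X, hX⟩ := h a
    refine ⟨X i j, ?_⟩
    rw [hX, add_sub_cancel_left, Matrix.smul_apply, smul_eq_mul]
  have h2 : (G - 1) i j = 0 := by
    refine Int.eq_zero_of_abs_lt_dvd (h1 ((G - 1) i j).natAbs) ?_
    have h3 : ((G - 1) i j).natAbs < 3 ^ (((G - 1) i j).natAbs + 1) :=
      (Nat.lt_pow_self (by norm_num)).trans (Nat.pow_lt_pow_right (by norm_num) (Nat.lt_succ_self _))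
    rw [Int.abs_eq_natAbs]
    exact_mod_cast h3
  rw [Matrix.sub_apply] at h2
  exact sub_eq_zero.1 h2

private theorem mk_all {G : Matrix (Fin N) (Fin N) ℤ} {X : Matrix (Fin N) (Fin N) ℤ}
    (hX : G = 1 + (3 : ℤ) • X)
    (hs : ∀ a : ℕ, 1 ≤ a → ∀ X, G = 1 + (3 : ℤ) ^ a • X → ∃ Y, G = 1 + (3 : ℤ) ^ (a + 1) • Y) :
    G = 1 := by
  refine mk_one fun a => ?_
  induction a with
  | zero => exact ⟨X, by rw [hX, zero_add, pow_one]⟩
  | succ a ih =>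
    obtain ⟨Y, hY⟩ := ih
    exact hs (a + 1) (by omega) Y hY

/-- **Minkowski's lemma.** An integral matrix of finite order which is congruent to `1` modulo `3` is `1`. -/
theorem minkowski3 {G : Matrix (Fin N) (Fin N) ℤ} {X : Matrix (Fin N) (Fin N) ℤ}
    (hX : G = 1 + (3 : ℤ) • X) {k : ℕ} (hk : 0 < k) (hG : G ^ k = 1) : G = 1 := by
  induction k using Nat.strong_induction_on generalizing G X with
  | _ k ih =>
    by_cases h3 : 3 ∣ k
    · obtain ⟨l, rfl⟩ := h3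
      have hl : 0 < l := by omega
      obtain ⟨Z, hZ⟩ := one_add_pow ((3 : ℤ) • X) l
      have h1 : G ^ l = 1 + (3 : ℤ) • ((l : ℤ) • X + X * ((3 : ℤ) • X) * Z) := by
        rw [hX, hZ, add_assoc]
        congr 1
        rw [smul_add]
        congr 1
        · rw [mul_smul_comm, ← nsmul_eq_mul, natCast_zsmul]
        · rw [smul_mul_assoc, smul_mul_assoc]
      have h2 : (G ^ l) ^ 3 = 1 := by rw [← pow_mul, mul_comm, hG]
      have h4 : G ^ l = 1 := mk_all h1 fun a ha X hX => mk_stepB ha h2 hX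
      exact ih l (by omega) hX hl h4
    · exact mk_all hX fun a ha X hX => mk_stepA h3 ha hG hX

end Pool.Agent.Lib.MP_5d4057_al.VB
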