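import Pool.Agent.Lib.MP_5d4057_al.VB.Defs
import Pool.Agent.Lib.MP_5d4057_al.VB.Mink
import Pool.Agent.Lib.MP_5d4057_al.RG.FGN
import Pool.Agent.Lib.MP_5d4057_al.RC.WideD

/-!
# VERB V1, step 10: finite generation through the congruence subgroup modulo 3 (owner: helper3)
-/

set_option autoImplicit false

namespace Pool.Agent.Lib.MP_5d4057_al.VB

open Matrix Pool.Agent.Lib.MP_5d4057_al Pool.Agent.Lib.MP_5d4057_al.Hyb
  Pool.Agent.Lib.MP_5d4057_al.HM Pool.Agent.Lib.MP_5d4057_al.NU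

variable {N m : ℕ}

/-- The matrix of an element of `H(ℝ)⁰`. -/
def rmat {H : AlgGroup N} (h : H.real0) : Matrix (Fin N) (Fin N) ℝ :=
  ((h : H.real) : GL (Fin N) ℝ).1

theorem rmat_mul {H : AlgGroup N} (h k : H.real0) : rmat (h * k) = rmat h * rmat k := rfl

theorem rmat_one {H : AlgGroup N} : rmat (1 : H.real0) = 1 := rfl

theorem rmat_pow {H : AlgGroup N} (h : H.real0) (k : ℕ) : rmat (h ^ k) = rmat h ^ k := by
  induction k with
  | zero => rw [pow_zero, pow_zero, rmat_one]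
  | succ k ih => rw [pow_succ, pow_succ, rmat_mul, ih]

theorem rmat_inj {H : AlgGroup N} {h k : H.real0} (e : rmat h = rmat k) : h = k :=
  Subtype.ext (Subtype.ext (Units.ext e))

theorem continuous_rmat {H : AlgGroup N} : Continuous (rmat (H := H)) :=
  Units.continuous_val.comp (continuous_subtype_val.comp continuous_subtype_val)

theorem mem_int0 {H : AlgGroup N} {h : H.real0} (hh : h ∈ H.int0) :
    ∃ G : GL (Fin N) ℤ, rmat h = G.1.map (Int.castRingHom ℝ) := by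
  obtain ⟨G, hG⟩ := hh
  exact ⟨G, by
    have h1 := congrArg (fun g : GL (Fin N) ℝ => g.1) hG
    exact h1.symm⟩

/-- A compact set contains only finitely many elements of `H(ℤ)`. -/
theorem finite_int0 {H : AlgGroup N} {S : Set H.real0} (hS : IsCompact S) :
    (S ∩ (H.int0 : Set H.real0)).Finite := by
  obtain ⟨B, hB⟩ : ∃ B : ℝ, ∀ h ∈ S, ∀ i j, |rmat h i j| ≤ B := by
    have h1 : IsCompact (rmat '' S) := hS.image continuous_rmat
    have h2 : ∀ i j, ∃ B : ℝ, ∀ h ∈ S, |rmat h i j| ≤ B := fun i j => by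
      have h3 : IsCompact ((fun M : Matrix (Fin N) (Fin N) ℝ => |M i j|) '' (rmat '' S)) :=
        h1.image ((continuous_apply_apply i j).abs)
      obtain ⟨B, hB⟩ := h3.bddAbove
      exact ⟨B, fun h hh => hB ⟨_, ⟨h, hh, rfl⟩, rfl⟩⟩
    choose B hB using h2
    refine ⟨∑ i, ∑ j, |B i j|, fun h hh i j => ?_⟩
    calc |rmat h i j| ≤ B i j := hB i j h hh
      _ ≤ |B i j| := le_abs_self _
      _ ≤ ∑ j, |B i j| := Finset.single_le_sum (f := fun j => |B i j|)
          (fun _ _ => abs_nonneg _) (Finset.mem_univ j)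
      _ ≤ ∑ i, ∑ j, |B i j| := Finset.single_le_sum (f := fun i => ∑ j, |B i j|)
          (fun _ _ => Finset.sum_nonneg fun _ _ => abs_nonneg _) (Finset.mem_univ i)
  have hf : {M : Fin N → Fin N → ℤ | M ∈ Set.Icc (fun _ _ => -⌊B⌋) (fun _ _ => ⌊B⌋)}.Finite :=
    Set.finite_Icc _ _
  refine Set.Finite.of_finite_image (f := rmat) ?_ fun h _ k _ e => rmat_inj e
  refine (hf.image fun M : Fin N → Fin N → ℤ =>
    (Matrix.of M).map (Int.castRingHom ℝ)).subset ?_
  rintro _ ⟨h, ⟨hh, hi⟩, rfl⟩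
  obtain ⟨G, hG⟩ := mem_int0 hi
  refine ⟨G.1, ⟨fun i j => ?_, fun i j => ?_⟩, by rw [hG]; rfl⟩
  · have h1 := hB h hh i j
    rw [hG] at h1
    change |((G.1 i j : ℤ) : ℝ)| ≤ B at h1
    have h2 : -G.1 i j ≤ ⌊B⌋ := Int.le_floor.2 (by
      push_cast
      exact (neg_le_abs _).trans h1)
    change -⌊B⌋ ≤ G.1 i j
    omega
  · have h1 := hB h hh i j
    rw [hG] at h1
    change |((G.1 i j : ℤ) : ℝ)| ≤ B at h1
    exact Int.le_floor.2 ((le_abs_self _).trans h1)

/-- The congruence subgroup modulo `3`. -/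
def cong3 (H : AlgGroup N) : Subgroup H.real0 :=
  (((GeneralLinearGroup.map (n := Fin N) (Int.castRingHom (ZMod 3))).ker).map
    (GeneralLinearGroup.map (n := Fin N) (Int.castRingHom ℝ))).comap
    (H.real.subtype.comp H.real0.subtype)

theorem cong3_le (H : AlgGroup N) : cong3 H ≤ H.int0 :=
  Subgroup.comap_mono (by
    rintro _ ⟨G, -, rfl⟩
    exact ⟨G, rfl⟩)

theorem cong3_relIndex (H : AlgGroup N) : (cong3 H).relIndex H.int0 ≠ 0 := by
  rw [cong3, Subgroup.relIndex_comap]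
  intro h0
  have h1 : H.int0.map (H.real.subtype.comp H.real0.subtype) ≤
      (GeneralLinearGroup.map (n := Fin N) (Int.castRingHom ℝ)).range := by
    rw [Subgroup.map_le_iff_le_comap]
    exact le_rfl
  have h2 := Subgroup.relIndex_eq_zero_of_le_right h1 h0
  rw [MonoidHom.range_eq_map, ← Subgroup.relIndex_comap] at h2
  have h3 := Subgroup.relIndex_eq_zero_of_le_left (Subgroup.le_comap_map
    (GeneralLinearGroup.map (n := Fin N) (Int.castRingHom ℝ))
    (GeneralLinearGroup.map (n := Fin N) (Int.castRingHom (ZMod 3))).ker) h2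
  rw [Subgroup.relIndex_top_right] at h3
  have h4 : (GeneralLinearGroup.map (n := Fin N) (Int.castRingHom (ZMod 3))).ker.FiniteIndex :=
    inferInstance
  exact h4.index_ne_zero h3

/-- An element of the congruence subgroup with a power in a compact subgroup is trivial. -/
theorem cong3_tor {H : AlgGroup N} {K : Subgroup H.real0} (hK : IsCompact (K : Set H.real0))
    {h : H.real0} (hh : h ∈ cong3 H) {k : ℕ} (hk : 0 < k) (hp : h ^ k ∈ K) : h = 1 := by
  have hi : h ∈ H.int0 := cong3_le H hh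
  obtain ⟨G, hG3, hG⟩ := hh
  have hG' : rmat h = G.1.map (Int.castRingHom ℝ) := (congrArg (fun g : GL (Fin N) ℝ => g.1) hG).symm
  have hfin := finite_int0 hK
  obtain ⟨i, j, hij, he⟩ : ∃ i j : ℕ, i < j ∧ (h ^ k) ^ i = (h ^ k) ^ j := by
    have h1 : ∀ i : ℕ, (h ^ k) ^ i ∈ (K : Set H.real0) ∩ (H.int0 : Set H.real0) := fun i =>
      ⟨pow_mem hp i, pow_mem (pow_mem hi k) i⟩
    have : Finite ↥((K : Set H.real0) ∩ (H.int0 : Set H.real0)) := hfin
    obtain ⟨i, j, hne, he⟩ := Finite.exists_ne_map_eq_of_infinite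
      fun i : ℕ => (⟨(h ^ k) ^ i, h1 i⟩ : ↥((K : Set H.real0) ∩ (H.int0 : Set H.real0)))
    have he' : (h ^ k) ^ i = (h ^ k) ^ j := congrArg Subtype.val he
    rcases lt_or_gt_of_ne hne with hl | hl
    · exact ⟨i, j, hl, he'⟩
    · exact ⟨j, i, hl, he'.symm⟩
  have hpow : h ^ (k * (j - i)) = 1 := by
    have h1 : (h ^ k) ^ i * (h ^ k) ^ (j - i) = (h ^ k) ^ i * 1 := by
      rw [← pow_add, Nat.add_sub_cancel' hij.le, mul_one, he]
    rw [pow_mul]
    exact mul_left_cancel h1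
  have hGp : G.1 ^ (k * (j - i)) = 1 := by
    have h1 : rmat (h ^ (k * (j - i))) = 1 := by rw [hpow, rmat_one]
    rw [rmat_pow, hG', ← Matrix.map_pow, ← Matrix.map_one (Int.castRingHom ℝ) (map_zero _)
      (map_one _)] at h1
    exact Matrix.map_injective (Int.cast_injective) h1
  obtain ⟨X, hX⟩ : ∃ X : Matrix (Fin N) (Fin N) ℤ, G.1 = 1 + (3 : ℤ) • X := by
    have h1 : G.1.map (Int.castRingHom (ZMod 3)) = 1 := congrArg (fun g : GL (Fin N) (ZMod 3) => g.1)
      hG3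
    have h2 : ∀ i j, ∃ x : ℤ, (G.1 - 1) i j = 3 * x := fun i j => by
      have h3 : ((G.1 i j : ℤ) : ZMod 3) = (1 : Matrix (Fin N) (Fin N) (ZMod 3)) i j :=
        congrFun (congrFun h1 i) j
      have h4 : (((G.1 - 1) i j : ℤ) : ZMod 3) = 0 := by
        rw [Matrix.sub_apply, Int.cast_sub, h3, Matrix.one_apply, Matrix.one_apply]
        split_ifs <;> simp
      exact (ZMod.intCast_zmod_eq_zero_iff_dvd _ 3).1 h4
    choose X hX using h2
    refine ⟨Matrix.of X, ?_⟩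
    ext i j
    have h3 := hX i j
    rw [Matrix.sub_apply] at h3
    rw [Matrix.add_apply, Matrix.smul_apply, Matrix.of_apply, smul_eq_mul, ← h3]
    ring
  have hG1 : G.1 = 1 := minkowski3 hX (Nat.mul_pos hk (by omega)) hGp
  refine rmat_inj ?_
  rw [hG', hG1, rmat_one]
  exact Matrix.map_one _ (map_zero _) (map_one _)

/-- **Step 10.** A torsion free, finitely generated subgroup of finite index. -/
theorem exists_fg (hm : 2 ≤ m) {Γ : Subgroup (SUGroup m)} (hΓ : IsLattice Γ) {H : AlgGroup N}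
    {φ : H.real0 →* SUGroup m} (hk : IsCompact (φ.ker : Set H.real0))
    (hco : Subgroup.Commensurable Γ (H.int0.map φ)) :
    ∃ Δ : Subgroup (SUGroup m), Δ ≤ Γ ∧ Δ.relIndex Γ ≠ 0 ∧ Δ ≤ (cong3 H).map φ ∧ IsLattice Δ ∧
      Tor Δ ∧ Group.FG Δ := by
  obtain ⟨D, hD⟩ : ∃ D : Subgroup (SUGroup m), D = (cong3 H).map φ := ⟨_, rfl⟩
  have h1 : D.relIndex (H.int0.map φ) ≠ 0 := by
    intro h0
    rw [hD, ← Subgroup.relIndex_comap] at h0
    exact cong3_relIndex H (Subgroup.relIndex_eq_zero_of_le_left (Subgroup.le_comap_map φ _) h0)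
  have h2 : D.relIndex Γ ≠ 0 := Subgroup.relIndex_ne_zero_trans h1 hco.2
  have hle : Γ ⊓ D ≤ Γ := inf_le_left
  have hfi : (Γ ⊓ D).relIndex Γ ≠ 0 := by rwa [Subgroup.inf_relIndex_left]
  have hL : IsLattice (Γ ⊓ D) := RC.isLattice_of_relIndex hΓ hle hfi
  have hT : Tor (Γ ⊓ D) := by
    rintro δ ⟨-, hδ⟩ k hk0 hp
    rw [hD] at hδ
    obtain ⟨h, hh, rfl⟩ := hδ
    have h3 : h ^ k ∈ φ.ker := by
      rw [MonoidHom.mem_ker, map_pow]
      exact hp
    rw [cong3_tor hk hh hk0 h3, map_one]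
  obtain ⟨χ, hχ⟩ := exists_lat hL
  refine ⟨Γ ⊓ D, hle, hfi, hD ▸ inf_le_right, hL, hT, ?_⟩
  exact RG.fg_of_tor hm hχ (tf_of_tor hχ.disc hT) hT

end Pool.Agent.Lib.MP_5d4057_al.VB
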