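import Pool.Agent.Lib.MP_5d4057_al.VB.Newt
import Pool.Agent.Lib.MP_5d4057_al.HM.Aut
import Pool.Agent.Lib.MP_5d4057_al.Hyb.Arith

/-!
# VERB V2 (a): the algebra after extension of scalars is a product of matrix algebras
-/

set_option autoImplicit false

namespace Pool.Agent.Lib.MP_5d4057_al.VB

open Matrix Pool.Agent.Lib.MP_5d4057_al Pool.Agent.Lib.MP_5d4057_al.Hyb
  Pool.Agent.Lib.MP_5d4057_al.HM

variable {m N : ℕ} {K : Subfield ℂ} {A : Subalgebra K (Matrix (Fin (m + 1)) (Fin (m + 1)) ℂ)}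

/-! ### the matrix of the embeddings -/

/-- A system with the matrix of the embeddings of a basis can be solved. -/
theorem comp_surj {ι K : Type*} [Field K] [NumberField K] [Fintype ι]
    (b : Module.Basis ι ℚ K) (x : (K →+* ℂ) → ℂ) :
    ∃ w : ι → ℂ, ∀ τ : K →+* ℂ, ∑ j, τ (b j) * w j = x τ := by
  classical
  have hc : Fintype.card (K →+* ℂ) = Module.finrank ℚ K := NumberField.Embeddings.card K ℂ
  let F : (ι → ℂ) →ₗ[ℂ] ((K →+* ℂ) → ℂ) :=
    { toFun := fun w τ => ∑ j, τ (b j) * w j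
      map_add' := fun v w => by
        funext τ
        simp only [Pi.add_apply, mul_add, Finset.sum_add_distrib]
      map_smul' := fun c w => by
        funext τ
        simp only [Pi.smul_apply, smul_eq_mul, RingHom.id_apply, Finset.mul_sum]
        exact Finset.sum_congr rfl fun j _ => by ring }
  have hi : Function.Injective F := by
    rw [← LinearMap.ker_eq_bot, LinearMap.ker_eq_bot']
    intro w hw
    exact comp_zero b w fun τ => congrFun hw τ
  have hd : Module.finrank ℂ (ι → ℂ) = Module.finrank ℂ ((K →+* ℂ) → ℂ) := by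
    rw [Module.finrank_fintype_fun_eq_card, Module.finrank_fintype_fun_eq_card, hc,
      Module.finrank_eq_card_basis b]
  obtain ⟨w, hw⟩ := (LinearMap.injective_iff_surjective_of_finrank_eq_finrank hd).1 hi x
  exact ⟨w, fun τ => congrFun hw τ⟩

/-! ### a basis of `A` over `K` -/

/-- A basis of `A` over `K` is a basis of the matrices, also after a field automorphism. -/
theorem exists_kb (hrank : Module.finrank K A = (m + 1) ^ 2)
    (hsp : Submodule.span ℂ (A : Set (Matrix (Fin (m + 1)) (Fin (m + 1)) ℂ)) = ⊤) :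
    ∃ (n' : ℕ) (g : Fin n' → Matrix (Fin (m + 1)) (Fin (m + 1)) ℂ), (∀ l, g l ∈ A) ∧
      (∀ a ∈ A, ∃ r : Fin n' → K, a = ∑ l, (r l : ℂ) • g l) ∧
      ∀ t : ℂ ≃+* ℂ, LinearIndependent ℂ (fun l => (g l).map t) ∧
        Submodule.span ℂ (Set.range fun l => (g l).map t) = ⊤ := by
  have hf : Module.Finite K A := Module.finite_of_finrank_pos (by rw [hrank]; positivity)
  let a := Module.finBasis K A
  let g : Fin (Module.finrank K A) → Matrix (Fin (m + 1)) (Fin (m + 1)) ℂ := fun l => (a l : A)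
  have h1 : ∀ x ∈ A, ∃ r : Fin (Module.finrank K A) → K, x = ∑ l, (r l : ℂ) • g l := by
    intro x hx
    refine ⟨fun l => a.repr ⟨x, hx⟩ l, ?_⟩
    have h2 := congrArg (fun y : A => (y : Matrix (Fin (m + 1)) (Fin (m + 1)) ℂ))
      (a.sum_repr ⟨x, hx⟩)
    simp only [AddSubmonoidClass.coe_finsetSum, SetLike.val_smul] at h2
    exact h2.symm
  have h3 : Submodule.span ℂ (Set.range g) = ⊤ := by
    rw [eq_top_iff, ← hsp, Submodule.span_le]
    intro x hx
    obtain ⟨r, hr⟩ := h1 x hx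
    rw [hr]
    exact Submodule.sum_mem _ fun l _ => Submodule.smul_mem _ _ (Submodule.subset_span ⟨l, rfl⟩)
  refine ⟨_, g, fun l => (a l).2, h1, fun t => ?_⟩
  have h4 : Submodule.span ℂ (Set.range fun l => (g l).map t) = ⊤ := by
    have h5 := span_image_map t _ h3
    rwa [← Set.range_comp] at h5
  refine ⟨linearIndependent_of_top_le_span_of_card_eq_finrank h4.ge ?_, h4⟩
  rw [Fintype.card_fin, hrank, Module.finrank_matrix]
  simp [sq]

/-- A rational basis of `A` of the form `κ_i g_l`. -/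
theorem exists_qb (hK : NumberField K) (hrank : Module.finrank K A = (m + 1) ^ 2)
    (hsp : Submodule.span ℂ (A : Set (Matrix (Fin (m + 1)) (Fin (m + 1)) ℂ)) = ⊤) :
    ∃ (r n' : ℕ) (κ : Fin r → K) (g : Fin n' → Matrix (Fin (m + 1)) (Fin (m + 1)) ℂ),
      (∀ i l, (κ i : ℂ) • g l ∈ A) ∧
      (∀ a ∈ A, ∃ ρ : Fin r → Fin n' → ℚ, a = ∑ l, ∑ i, (ρ i l : ℂ) • ((κ i : ℂ) • g l)) ∧
      (∀ t : ℂ ≃+* ℂ, LinearIndependent ℂ (fun l => (g l).map t) ∧
        Submodule.span ℂ (Set.range fun l => (g l).map t) = ⊤) ∧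
      (∀ y : Fin r → ℂ, (∀ τ : K →+* ℂ, ∑ i, τ (κ i) * y i = 0) → y = 0) ∧
      ∀ x : (K →+* ℂ) → ℂ, ∃ w : Fin r → ℂ, ∀ τ : K →+* ℂ, ∑ i, τ (κ i) * w i = x τ := by
  obtain ⟨n', g, hg, h1, h2⟩ := exists_kb hrank hsp
  let κ := Module.finBasis ℚ K
  refine ⟨_, n', fun i => κ i, g, fun i l => ?_, fun a ha => ?_, h2, comp_zero κ, comp_surj κ⟩
  · exact A.smul_mem (hg l) (κ i)
  · obtain ⟨r, hr⟩ := h1 a ha
    refine ⟨fun i l => κ.repr (r l) i, ?_⟩
    conv_lhs => rw [hr]
    refine Finset.sum_congr rfl fun l _ => ?_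
    have h3 := congrArg (fun y : K => (y : ℂ)) (κ.sum_repr (r l))
    simp only [AddSubmonoidClass.coe_finsetSum] at h3
    rw [← h3, Finset.sum_smul]
    refine Finset.sum_congr rfl fun i _ => ?_
    rw [smul_smul]
    congr 1

/-! ### the isomorphism -/

variable {b : Fin N → Matrix (Fin (m + 1)) (Fin (m + 1)) ℂ}

private theorem map_csum {n' : ℕ} (t : ℂ ≃+* ℂ) (c : Fin n' → ℂ)
    (g : Fin n' → Matrix (Fin (m + 1)) (Fin (m + 1)) ℂ) :
    (∑ l, c l • g l).map t = ∑ l, t (c l) • (g l).map t := by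
  ext i j
  simp [Matrix.sum_apply, Matrix.map_apply, Matrix.smul_apply, map_sum, map_mul]

private theorem map_csmul (t : ℂ ≃+* ℂ) (c : ℂ) (x : Matrix (Fin (m + 1)) (Fin (m + 1)) ℂ) :
    (c • x).map t = t c • x.map t := by
  ext i j
  simp [Matrix.map_apply, Matrix.smul_apply, map_mul]

/-- **The isomorphism, injectivity**: `s τ` is any extension of the embedding `τ` to an automorphism of `ℂ`. -/
theorem iso_inj (hK : NumberField K) (hrank : Module.finrank K A = (m + 1) ^ 2)
    (hsp : Submodule.span ℂ (A : Set (Matrix (Fin (m + 1)) (Fin (m + 1)) ℂ)) = ⊤)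
    (hmem : ∀ j, b j ∈ A)
    (hspan : ∀ a ∈ A, ∃ c : Fin N → ℚ, a = ∑ j, (c j : ℂ) • b j)
    (hind : ∀ c : Fin N → ℚ, ∑ j, (c j : ℂ) • b j = 0 → c = 0)
    (s : (K →+* ℂ) → (ℂ ≃+* ℂ)) (hs : ∀ τ (x : K), s τ x = τ x) (z : Fin N → ℂ)
    (h : ∀ τ, ∑ j, z j • (b j).map (s τ) = 0) : z = 0 := by
  obtain ⟨r, n', κ, g, hm, hex, hli, h0, -⟩ := exists_qb hK hrank hsp
  choose ρ hρ using fun j => hex (b j) (hmem j)
  choose q hq using fun i l => hspan _ (hm i l)
  -- the coordinates of `z`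
  have h1 : ∀ i l, ∑ j, z j * (ρ j i l : ℂ) = 0 := by
    intro i l
    have h2 : (fun i => ∑ j, z j * (ρ j i l : ℂ)) = 0 := by
      refine h0 _ fun τ => ?_
      have h3 : ∑ l, (∑ i, τ (κ i) * ∑ j, z j * (ρ j i l : ℂ)) • (g l).map (s τ) = 0 := by
        rw [← h τ]
        have h4 : ∀ j, (b j).map (s τ) =
            ∑ l, ∑ i, ((ρ j i l : ℂ) * τ (κ i)) • (g l).map (s τ) := by
          intro j
          conv_lhs => rw [hρ j]
          have h5 : ∀ l, ∑ i, (ρ j i l : ℂ) • ((κ i : ℂ) • g l) =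
              (∑ i, (ρ j i l : ℂ) * (κ i : ℂ)) • g l := by
            intro l
            rw [Finset.sum_smul]
            exact Finset.sum_congr rfl fun i _ => smul_smul _ _ _
          simp only [h5]
          rw [map_csum]
          refine Finset.sum_congr rfl fun l _ => ?_
          rw [← Finset.sum_smul]
          congr 1
          rw [map_sum]
          refine Finset.sum_congr rfl fun i _ => ?_
          rw [map_mul, hs, map_ratCast]
        simp only [h4, Finset.smul_sum, Finset.sum_smul, Finset.mul_sum, smul_smul]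
        conv_rhs => rw [Finset.sum_comm]
        refine Finset.sum_congr rfl fun l _ => ?_
        conv_rhs => rw [Finset.sum_comm]
        refine Finset.sum_congr rfl fun i _ => Finset.sum_congr rfl fun j _ => ?_
        congr 1
        ring
      exact Fintype.linearIndependent_iff.1 (hli (s τ)).1 _ h3 l
    exact congrFun h2 i
  -- the dual basis
  have h6 : ∀ j k, ∑ l, ∑ i, ρ j i l * q i l k = if j = k then 1 else 0 := by
    intro j k
    have h7 : (fun k => (∑ l, ∑ i, ρ j i l * q i l k) - if j = k then 1 else 0) = 0 := by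
      refine hind _ ?_
      have h8 : ∑ k, ((∑ l, ∑ i, ρ j i l * q i l k : ℚ) : ℂ) • b k = b j := by
        conv_rhs => rw [hρ j]
        simp only [hq]
        push_cast
        simp only [Finset.smul_sum, Finset.sum_smul, smul_smul]
        rw [Finset.sum_comm]
        refine Finset.sum_congr rfl fun l _ => ?_
        rw [Finset.sum_comm]
      simp only [Rat.cast_sub, sub_smul, Finset.sum_sub_distrib, h8]
      rw [Finset.sum_eq_single j]
      · rw [if_pos rfl, Rat.cast_one, one_smul, sub_self]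
      · intro k _ hk
        rw [if_neg (Ne.symm hk), Rat.cast_zero, zero_smul]
      · intro hk
        exact absurd (Finset.mem_univ j) hk
    have := congrFun h7 k
    simpa [sub_eq_zero] using this
  funext k
  have h9 : z k = ∑ j, z j * ((∑ l, ∑ i, ρ j i l * q i l k : ℚ) : ℂ) := by
    simp only [h6]
    rw [Finset.sum_eq_single k]
    · rw [if_pos rfl, Rat.cast_one, mul_one]
    · intro j _ hj
      rw [if_neg hj, Rat.cast_zero, mul_zero]
    · intro hk
      exact absurd (Finset.mem_univ k) hk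
  rw [h9]
  have h10 : ∑ j, z j * ((∑ l, ∑ i, ρ j i l * q i l k : ℚ) : ℂ) =
      ∑ l, ∑ i, (∑ j, z j * (ρ j i l : ℂ)) * (q i l k : ℂ) := by
    push_cast
    simp only [Finset.mul_sum, Finset.sum_mul]
    rw [Finset.sum_comm]
    refine Finset.sum_congr rfl fun l _ => ?_
    rw [Finset.sum_comm]
    exact Finset.sum_congr rfl fun i _ => Finset.sum_congr rfl fun j _ => by ring
  rw [h10]
  simp [h1]

/-- **The isomorphism, surjectivity.** -/
theorem iso_surj (hK : NumberField K) (hrank : Module.finrank K A = (m + 1) ^ 2)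
    (hsp : Submodule.span ℂ (A : Set (Matrix (Fin (m + 1)) (Fin (m + 1)) ℂ)) = ⊤)
    (hspan : ∀ a ∈ A, ∃ c : Fin N → ℚ, a = ∑ j, (c j : ℂ) • b j)
    (s : (K →+* ℂ) → (ℂ ≃+* ℂ)) (hs : ∀ τ (x : K), s τ x = τ x)
    (X : (K →+* ℂ) → Matrix (Fin (m + 1)) (Fin (m + 1)) ℂ) :
    ∃ z : Fin N → ℂ, ∀ τ, ∑ j, z j • (b j).map (s τ) = X τ := by
  obtain ⟨r, n', κ, g, hm, -, hli, -, hw⟩ := exists_qb hK hrank hsp
  choose q hq using fun i l => hspan _ (hm i l)
  have h1 : ∀ τ, ∃ x : Fin n' → ℂ, ∑ l, x l • (g l).map (s τ) = X τ := by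
    intro τ
    have h2 : X τ ∈ Submodule.span ℂ (Set.range fun l => (g l).map (s τ)) := by
      rw [(hli (s τ)).2]
      trivial
    exact (Submodule.mem_span_range_iff_exists_fun ℂ).1 h2
  choose x hx using h1
  choose w hw using fun l => hw fun τ => x τ l
  refine ⟨fun j => ∑ l, ∑ i, w l i * (q i l j : ℂ), fun τ => ?_⟩
  rw [← hx τ]
  have h3 : ∀ i l, ∑ j, (q i l j : ℂ) • (b j).map (s τ) = τ (κ i) • (g l).map (s τ) := by
    intro i l
    rw [← hs, ← map_csmul, hq, map_csum]
    exact Finset.sum_congr rfl fun j _ => by rw [map_ratCast]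
  calc ∑ j, (∑ l, ∑ i, w l i * (q i l j : ℂ)) • (b j).map (s τ)
      = ∑ l, ∑ i, w l i • ∑ j, (q i l j : ℂ) • (b j).map (s τ) := by
        simp only [Finset.sum_smul, Finset.smul_sum, smul_smul]
        rw [Finset.sum_comm]
        refine Finset.sum_congr rfl fun l _ => ?_
        rw [Finset.sum_comm]
    _ = ∑ l, x τ l • (g l).map (s τ) := by
        refine Finset.sum_congr rfl fun l _ => ?_
        simp only [h3, smul_smul]
        rw [← Finset.sum_smul]
        congr 1
        rw [← hw l τ]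
        exact Finset.sum_congr rfl fun i _ => mul_comm _ _

end Pool.Agent.Lib.MP_5d4057_al.VB
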