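import Pool.Agent.Lib.MP_5d4057_al.HM.Aut
import Mathlib.Analysis.Normed.Algebra.MatrixExponential
import Mathlib.Analysis.SpecialFunctions.Exponential
import Mathlib.Algebra.MvPolynomial.PDeriv
import Mathlib.Analysis.Complex.TaylorSeries

/-!
# VERB: the Lie algebra of a linear algebraic group, algebraically

`tn Z` is the tangent space at `1` of the set `Z` of matrices: all `X` which are killed by the differentials at `1` of
the polynomials vanishing on `Z`. If `Z` is closed under multiplication and contains `1`, then `exp (t X)` is a zero of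
all these polynomials. No dimension theory, no smoothness.
-/

set_option autoImplicit false

namespace Pool.Agent.Lib.MP_5d4057_al.VB

open Matrix Pool.Agent.Lib.MP_5d4057_al Pool.Agent.Lib.MP_5d4057_al.HM

variable {N : ℕ}

/-- The entries of a matrix. -/
def ent {R : Type} (x : Matrix (Fin N) (Fin N) R) (ij : Fin N × Fin N) : R := x ij.1 ij.2

/-- The polynomials vanishing on `Z`. -/
def van (Z : Set (Matrix (Fin N) (Fin N) ℂ)) : Set (MvPolynomial (Fin N × Fin N) ℂ) :=
  {P | ∀ x ∈ Z, MvPolynomial.eval (ent x) P = 0}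

/-- The derivative of `P` at `x` in the direction `X`. -/
noncomputable def dv (X x : Matrix (Fin N) (Fin N) ℂ) (P : MvPolynomial (Fin N × Fin N) ℂ) : ℂ :=
  ∑ ij, ent X ij * MvPolynomial.eval (ent x) (MvPolynomial.pderiv ij P)

/-- The tangent space at `1`. -/
noncomputable def tn (Z : Set (Matrix (Fin N) (Fin N) ℂ)) : Submodule ℂ (Matrix (Fin N) (Fin N) ℂ) where
  carrier := {X | ∀ P ∈ van Z, dv X 1 P = 0}
  add_mem' {X Y} hX hY P hP := by
    have h : dv (X + Y) 1 P = dv X 1 P + dv Y 1 P := by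
      simp only [dv, ← Finset.sum_add_distrib]
      exact Finset.sum_congr rfl fun ij _ => by simp only [ent, Matrix.add_apply]; ring
    rw [h, hX P hP, hY P hP, add_zero]
  zero_mem' P _ := by simp [dv, ent]
  smul_mem' c X hX P hP := by
    have h : dv (c • X) 1 P = c * dv X 1 P := by
      simp only [dv, Finset.mul_sum]
      exact Finset.sum_congr rfl fun ij _ => by
        simp only [ent, Matrix.smul_apply, smul_eq_mul]; ring
    rw [h, hX P hP, mul_zero]

theorem mem_tn {Z : Set (Matrix (Fin N) (Fin N) ℂ)} {X : Matrix (Fin N) (Fin N) ℂ} :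
    X ∈ tn Z ↔ ∀ P ∈ van Z, dv X 1 P = 0 := Iff.rfl

/-- The chain rule along a curve. -/
theorem hasDerivAt_eval {ι : Type} [Fintype ι] {c : ℂ → ι → ℂ} {c' : ι → ℂ} {t : ℂ}
    (hc : ∀ i, HasDerivAt (fun s => c s i) (c' i) t) (P : MvPolynomial ι ℂ) :
    HasDerivAt (fun s => MvPolynomial.eval (c s) P)
      (∑ i, c' i * MvPolynomial.eval (c t) (MvPolynomial.pderiv i P)) t := by
  classical
  induction P using MvPolynomial.induction_on with
  | C a => simpa using hasDerivAt_const t a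
  | add p q hp hq =>
    have h := hp.add hq
    simp only [map_add, mul_add, Finset.sum_add_distrib]
    exact h
  | mul_X p i hp =>
    have h := hp.mul (hc i)
    have e : (fun s => MvPolynomial.eval (c s) (p * MvPolynomial.X i)) =
        fun s => MvPolynomial.eval (c s) p * c s i := by
      funext s
      simp
    rw [e]
    refine h.congr_deriv ?_
    have h1 : ∀ x, c' x * MvPolynomial.eval (c t) (MvPolynomial.pderiv x (p * MvPolynomial.X i)) =
        c' x * MvPolynomial.eval (c t) (MvPolynomial.pderiv x p) * c t i +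
          (if x = i then c' x * MvPolynomial.eval (c t) p else 0) := by
      intro x
      rw [Derivation.leibniz, MvPolynomial.pderiv_X, smul_eq_mul, smul_eq_mul, map_add, map_mul,
        map_mul, MvPolynomial.eval_X]
      by_cases hx : x = i
      · subst hx
        rw [Pi.single_eq_same, if_pos rfl, map_one]
        ring
      · rw [Pi.single_eq_of_ne (Ne.symm hx), if_neg hx, map_zero]
        ring
    rw [Finset.sum_congr rfl fun x _ => h1 x, Finset.sum_add_distrib, ← Finset.sum_mul,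
      Finset.sum_ite_eq' Finset.univ i, if_pos (Finset.mem_univ i)]
    ring

theorem hasDerivAt_ent {c : ℂ → Matrix (Fin N) (Fin N) ℂ} {c' : Matrix (Fin N) (Fin N) ℂ} {t : ℂ}
    (hc : ∀ i j, HasDerivAt (fun s => c s i j) (c' i j) t) (P : MvPolynomial (Fin N × Fin N) ℂ) :
    HasDerivAt (fun s => MvPolynomial.eval (ent (c s)) P) (dv c' (c t) P) t :=
  hasDerivAt_eval (c := fun s => ent (c s)) (c' := ent c') (fun ij => hc ij.1 ij.2) P

/-- The line `x + t X`. -/
theorem hasDerivAt_line (X x : Matrix (Fin N) (Fin N) ℂ) (P : MvPolynomial (Fin N × Fin N) ℂ) :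
    HasDerivAt (fun s : ℂ => MvPolynomial.eval (ent (x + s • X)) P) (dv X x P) 0 := by
  have h := hasDerivAt_ent (c := fun s : ℂ => x + s • X) (c' := X) (t := 0) (fun i j => by
    have h1 : HasDerivAt (fun s : ℂ => x i j + s * X i j) (1 * X i j) 0 :=
      ((hasDerivAt_id (0 : ℂ)).mul_const (X i j)).const_add (x i j)
    rw [one_mul] at h1
    exact h1) P
  simpa using h

/-- The substitution `y ↦ g y h`. -/
noncomputable def sb (g h : Matrix (Fin N) (Fin N) ℂ) (P : MvPolynomial (Fin N × Fin N) ℂ) :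
    MvPolynomial (Fin N × Fin N) ℂ :=
  MvPolynomial.aeval (fun ij : Fin N × Fin N => ∑ l, (∑ k, MvPolynomial.C (g ij.1 k) *
    MvPolynomial.X (k, l)) * MvPolynomial.C (h l ij.2)) P

theorem eval_sb (g h y : Matrix (Fin N) (Fin N) ℂ) (P : MvPolynomial (Fin N × Fin N) ℂ) :
    MvPolynomial.eval (ent y) (sb g h P) = MvPolynomial.eval (ent (g * y * h)) P := by
  rw [sb, ← MvPolynomial.coe_aeval_eq_eval, ← MvPolynomial.coe_aeval_eq_eval]
  simp only [RingHom.coe_coe]
  rw [← AlgHom.comp_apply, MvPolynomial.comp_aeval]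
  congr 2
  funext ij
  simp [ent, Matrix.mul_apply, Finset.sum_mul]

theorem dv_sb (g h y X : Matrix (Fin N) (Fin N) ℂ) (P : MvPolynomial (Fin N × Fin N) ℂ) :
    dv X y (sb g h P) = dv (g * X * h) (g * y * h) P := by
  have h1 := hasDerivAt_line X y (sb g h P)
  have h2 := hasDerivAt_line (g * X * h) (g * y * h) P
  have e : (fun s : ℂ => MvPolynomial.eval (ent (y + s • X)) (sb g h P)) =
      fun s : ℂ => MvPolynomial.eval (ent (g * y * h + s • (g * X * h))) P := by
    funext s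
    rw [eval_sb]
    congr 2
    rw [Matrix.mul_add, Matrix.add_mul, Matrix.mul_smul, Matrix.smul_mul]
  rw [e] at h1
  exact h1.unique h2

/-- The left invariant vector field of `X`. -/
noncomputable def DX (X : Matrix (Fin N) (Fin N) ℂ) (P : MvPolynomial (Fin N × Fin N) ℂ) :
    MvPolynomial (Fin N × Fin N) ℂ :=
  ∑ ij : Fin N × Fin N, (∑ k, MvPolynomial.X (ij.1, k) * MvPolynomial.C (X k ij.2)) *
    MvPolynomial.pderiv ij P

theorem eval_DX (X x : Matrix (Fin N) (Fin N) ℂ) (P : MvPolynomial (Fin N × Fin N) ℂ) :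
    MvPolynomial.eval (ent x) (DX X P) = dv (x * X) x P := by
  simp only [DX, dv, map_sum, map_mul, MvPolynomial.eval_X, MvPolynomial.eval_C, ent,
    Matrix.mul_apply]

variable {Z : Set (Matrix (Fin N) (Fin N) ℂ)}

theorem sb_van {g h : Matrix (Fin N) (Fin N) ℂ} (hg : ∀ x ∈ Z, g * x * h ∈ Z)
    {P : MvPolynomial (Fin N × Fin N) ℂ} (hP : P ∈ van Z) : sb g h P ∈ van Z := by
  intro x hx
  rw [eval_sb]
  exact hP _ (hg x hx)

theorem DX_van (hm : ∀ x ∈ Z, ∀ y ∈ Z, x * y ∈ Z) {X : Matrix (Fin N) (Fin N) ℂ}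
    (hX : X ∈ tn Z) {P : MvPolynomial (Fin N × Fin N) ℂ} (hP : P ∈ van Z) : DX X P ∈ van Z := by
  intro x hx
  rw [eval_DX]
  have h := mem_tn.1 hX (sb x 1 P) (sb_van (fun y hy => by rw [mul_one]; exact hm x hx y hy) hP)
  rw [dv_sb, mul_one, mul_one, mul_one] at h
  exact h

open scoped Matrix.Norms.L2Operator

/-- `(d/dt) P(exp tX) = (DX X P)(exp tX)`. -/
theorem hasDerivAt_exp_ent (X : Matrix (Fin N) (Fin N) ℂ) (P : MvPolynomial (Fin N × Fin N) ℂ)
    (t : ℂ) : HasDerivAt (fun s : ℂ => MvPolynomial.eval (ent (NormedSpace.exp (s • X))) P)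
      (MvPolynomial.eval (ent (NormedSpace.exp (t • X))) (DX X P)) t := by
  rw [eval_DX]
  refine hasDerivAt_ent (c := fun s : ℂ => NormedSpace.exp (s • X)) (fun i j => ?_) P
  have h := hasDerivAt_exp_smul_const (𝕂 := ℂ) X t
  have hL : HasFDerivAt (fun A : Matrix (Fin N) (Fin N) ℂ => A i j)
      (LinearMap.toContinuousLinearMap (Matrix.entryLinearMap ℂ ℂ i j)) (NormedSpace.exp (t • X)) :=
    (LinearMap.toContinuousLinearMap (Matrix.entryLinearMap ℂ ℂ i j)).hasFDerivAt
  exact hL.comp_hasDerivAt t h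

theorem iter_van (hm : ∀ x ∈ Z, ∀ y ∈ Z, x * y ∈ Z) {X : Matrix (Fin N) (Fin N) ℂ}
    (hX : X ∈ tn Z) {P : MvPolynomial (Fin N × Fin N) ℂ} (hP : P ∈ van Z) (k : ℕ) :
    (DX X)^[k] P ∈ van Z := by
  induction k with
  | zero => exact hP
  | succ k ih =>
    rw [Function.iterate_succ_apply']
    exact DX_van hm hX ih

/-- The polynomials vanishing on `Z` vanish at `exp (t X)` for `X` in the tangent space. -/
theorem exp_van (h1 : (1 : Matrix (Fin N) (Fin N) ℂ) ∈ Z) (hm : ∀ x ∈ Z, ∀ y ∈ Z, x * y ∈ Z)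
    {X : Matrix (Fin N) (Fin N) ℂ} (hX : X ∈ tn Z) {P : MvPolynomial (Fin N × Fin N) ℂ}
    (hP : P ∈ van Z) (t : ℂ) : MvPolynomial.eval (ent (NormedSpace.exp (t • X))) P = 0 := by
  have hd : ∀ k : ℕ, iteratedDeriv k
      (fun s : ℂ => MvPolynomial.eval (ent (NormedSpace.exp (s • X))) P) =
      fun s : ℂ => MvPolynomial.eval (ent (NormedSpace.exp (s • X))) ((DX X)^[k] P) := by
    intro k
    induction k with
    | zero => simp
    | succ k ih =>
      rw [iteratedDeriv_succ, ih]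
      funext s
      rw [Function.iterate_succ_apply']
      exact (hasDerivAt_exp_ent X _ s).deriv
  have hdiff : Differentiable ℂ
      (fun s : ℂ => MvPolynomial.eval (ent (NormedSpace.exp (s • X))) P) :=
    fun s => (hasDerivAt_exp_ent X P s).differentiableAt
  have h := Complex.taylorSeries_eq_of_entire hdiff 0 t
  rw [← h]
  refine (tsum_congr fun k => ?_).trans tsum_zero
  rw [hd k]
  have h0 : MvPolynomial.eval (ent (NormedSpace.exp ((0 : ℂ) • X))) ((DX X)^[k] P) = 0 := by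
    rw [zero_smul, NormedSpace.exp_zero]
    exact iter_van hm hX hP k 1 h1
  simp only [h0, smul_zero]

/-- Zero sets in `GL_N`: `exp (t X)` is in the group. -/
theorem exp_mem_tn {S : Set (MvPolynomial (Fin N × Fin N) ℚ)}
    (hZ : Z = {x | IsUnit x.det ∧ ∀ p ∈ S, MvPolynomial.aeval (ent x) p = 0})
    (h1 : (1 : Matrix (Fin N) (Fin N) ℂ) ∈ Z) (hm : ∀ x ∈ Z, ∀ y ∈ Z, x * y ∈ Z)
    {X : Matrix (Fin N) (Fin N) ℂ} (hX : X ∈ tn Z) (t : ℂ) : NormedSpace.exp (t • X) ∈ Z := by
  have hS : ∀ p ∈ S, MvPolynomial.map (algebraMap ℚ ℂ) p ∈ van Z := by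
    intro p hp x hx
    rw [MvPolynomial.eval_map, ← MvPolynomial.aeval_def]
    rw [hZ] at hx
    exact hx.2 p hp
  rw [hZ]
  refine ⟨(Matrix.isUnit_iff_isUnit_det _).1 (Matrix.isUnit_exp _), fun p hp => ?_⟩
  have h := exp_van h1 hm hX (hS p hp) t
  rwa [MvPolynomial.eval_map, ← MvPolynomial.aeval_def] at h

/-- The converse: the tangent vectors of one-parameter subgroups are in the tangent space. -/
theorem mem_tn_of_exp {X : Matrix (Fin N) (Fin N) ℂ}
    (h : ∀ t : ℝ, NormedSpace.exp ((t : ℂ) • X) ∈ Z) : X ∈ tn Z := by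
  intro P hP
  have h1 := hasDerivAt_exp_ent X P 0
  rw [eval_DX, zero_smul, NormedSpace.exp_zero, one_mul] at h1
  have h2 : HasDerivAt (fun t : ℝ => MvPolynomial.eval
      (ent (NormedSpace.exp ((t : ℂ) • X))) P) (dv X 1 P) 0 := by
    have h3 := HasDerivAt.comp_ofReal (z := 0) (e := fun s : ℂ => MvPolynomial.eval
      (ent (NormedSpace.exp (s • X))) P) (e' := dv X 1 P) (by simpa using h1)
    exact h3
  have h4 : (fun t : ℝ => MvPolynomial.eval (ent (NormedSpace.exp ((t : ℂ) • X))) P) = fun _ => 0 :=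
    funext fun t => hP _ (h t)
  rw [h4] at h2
  exact h2.unique (hasDerivAt_const 0 0)

/-- Stability under conjugation. -/
theorem conj_mem_tn {g h : Matrix (Fin N) (Fin N) ℂ} (hgh : g * h = 1)
    (hg : ∀ x ∈ Z, g * x * h ∈ Z) {X : Matrix (Fin N) (Fin N) ℂ} (hX : X ∈ tn Z) :
    g * X * h ∈ tn Z := by
  intro P hP
  have h1 := hX (sb g h P) (sb_van hg hP)
  rwa [dv_sb, mul_one, hgh] at h1

theorem eval_map_ent (t : ℂ ≃+* ℂ) (x : Matrix (Fin N) (Fin N) ℂ)
    (P : MvPolynomial (Fin N × Fin N) ℂ) :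
    MvPolynomial.eval (ent (x.map t)) (MvPolynomial.map (t : ℂ →+* ℂ) P) =
      t (MvPolynomial.eval (ent x) P) := by
  have h := MvPolynomial.eval₂_comp_left (t : ℂ →+* ℂ) (RingHom.id ℂ) (ent x) P
  rw [MvPolynomial.eval_map]
  simp only [MvPolynomial.eval, MvPolynomial.coe_eval₂Hom]
  rw [RingHom.comp_id] at h
  exact h.symm

/-- Stability under the automorphisms of `ℂ`. -/
theorem map_mem_tn {t : ℂ ≃+* ℂ} (ht : ∀ x ∈ Z, x.map t ∈ Z) {X : Matrix (Fin N) (Fin N) ℂ}
    (hX : X ∈ tn Z) : X.map t ∈ tn Z := by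
  intro P hP
  have hQ : MvPolynomial.map (t.symm : ℂ →+* ℂ) P ∈ van Z := by
    intro x hx
    have h := hP _ (ht x hx)
    have h1 := eval_map_ent t.symm (x.map t) P
    rw [h, map_zero] at h1
    have h2 : (x.map t).map t.symm = x := by
      ext i j
      simp
    rwa [h2] at h1
  have h3 := hX _ hQ
  have h4 : dv (X.map t) 1 P = t (dv X 1 (MvPolynomial.map (t.symm : ℂ →+* ℂ) P)) := by
    rw [dv, dv, map_sum]
    refine Finset.sum_congr rfl fun ij _ => ?_
    rw [map_mul, MvPolynomial.pderiv_map, ← eval_map_ent, MvPolynomial.map_map]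
    have h5 : ((t : ℂ →+* ℂ).comp (t.symm : ℂ →+* ℂ)) = RingHom.id ℂ := by
      ext x
      simp
    rw [h5, MvPolynomial.map_id, Matrix.map_one t (map_zero t) (map_one t)]
    rfl
  rw [h4, h3, map_zero]

/-- The zero set of rational polynomials is stable under the automorphisms of `ℂ`. -/
theorem map_mem_of_rat {S : Set (MvPolynomial (Fin N × Fin N) ℚ)} (t : ℂ ≃+* ℂ)
    {x : Matrix (Fin N) (Fin N) ℂ}
    (hx : IsUnit x.det ∧ ∀ p ∈ S, MvPolynomial.aeval (ent x) p = 0) :
    IsUnit (x.map t).det ∧ ∀ p ∈ S, MvPolynomial.aeval (ent (x.map t)) p = 0 := by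
  constructor
  · have h : (x.map t).det = t x.det := (RingHom.map_det (t : ℂ →+* ℂ) x).symm
    rw [h]
    exact hx.1.map (t : ℂ →+* ℂ)
  · intro p hp
    have h := hx.2 p hp
    have h1 := eval_map_ent t x (MvPolynomial.map (algebraMap ℚ ℂ) p)
    rw [MvPolynomial.eval_map (algebraMap ℚ ℂ), ← MvPolynomial.aeval_def, h, map_zero,
      MvPolynomial.map_map] at h1
    have h2 : ((t : ℂ →+* ℂ).comp (algebraMap ℚ ℂ)) = algebraMap ℚ ℂ := Subsingleton.elim _ _
    rwa [h2, MvPolynomial.eval_map, ← MvPolynomial.aeval_def] at h1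

end Pool.Agent.Lib.MP_5d4057_al.VB
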