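import Pool.Agent.Lib.MP_5d4057_al.VB.Defs
import Pool.Agent.Lib.MP_5d4057_al.VB.Tan

/-!
# VERB V1.1: the Lie algebra of an algebraic group over `ℚ` (owner: helper1)

`lie H` = the complex tangent space at `1` of the ideal of all complex polynomials vanishing on `H(ℂ)`. PROOFS (helper1, note 6036):
for `X ∈ lie`, `P` in the ideal, `g ∈ H(ℂ)`: `P (g ·)` is in the ideal, so `D_X P : g ↦ dP_g (g X)` vanishes on `H(ℂ)`, so all derivatives of
`t ↦ P (exp tX)` vanish at `0`. The ideal is stable under automorphisms of `ℂ` applied to the coefficients.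
-/

set_option autoImplicit false

namespace Pool.Agent.Lib.MP_5d4057_al.VB

open Matrix Pool.Agent.Lib.MP_5d4057_al Pool.Agent.Lib.MP_5d4057_al.Hyb

variable {N : ℕ}

/-- The derivative at `1` of a polynomial function on matrices in the direction `X`. -/
noncomputable def dP (P : MvPolynomial (Fin N × Fin N) ℂ) (X : Matrix (Fin N) (Fin N) ℂ) : ℂ :=
  ∑ x : Fin N × Fin N, X x.1 x.2 * MvPolynomial.eval
    (fun y : Fin N × Fin N => (1 : Matrix (Fin N) (Fin N) ℂ) y.1 y.2) (MvPolynomial.pderiv x P)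

/-- `P` vanishes on `H(ℂ)`. -/
def AlgGroup.Van (H : AlgGroup N) (P : MvPolynomial (Fin N × Fin N) ℂ) : Prop :=
  ∀ g ∈ H.pts, MvPolynomial.eval (fun y : Fin N × Fin N => g.1 y.1 y.2) P = 0

/-- The complex Lie algebra of `H`. -/
def AlgGroup.lie (H : AlgGroup N) : Submodule ℂ (Matrix (Fin N) (Fin N) ℂ) where
  carrier := {X | ∀ P, H.Van P → dP P X = 0}
  add_mem' := by
    intro X Y hX hY P hP
    have h1 : dP P (X + Y) = dP P X + dP P Y := by
      simp only [dP, Matrix.add_apply, add_mul, Finset.sum_add_distrib]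
    rw [h1, hX P hP, hY P hP, add_zero]
  zero_mem' := by
    intro P _
    simp [dP]
  smul_mem' := by
    intro c X hX P hP
    have h1 : dP P (c • X) = c * dP P X := by
      simp only [dP, Matrix.smul_apply, smul_eq_mul, mul_assoc, Finset.mul_sum]
    rw [h1, hX P hP, mul_zero]

/-- The matrices of the elements of `H(ℂ)`. -/
def AlgGroup.Zs (H : AlgGroup N) : Set (Matrix (Fin N) (Fin N) ℂ) :=
  {x | ∃ g ∈ H.pts, (g : Matrix (Fin N) (Fin N) ℂ) = x}

theorem Zs_eq (H : AlgGroup N) : H.Zs =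
    {x | IsUnit x.det ∧ ∀ p ∈ H.polys, MvPolynomial.aeval (ent x) p = 0} := by
  ext x
  constructor
  · rintro ⟨g, hg, rfl⟩
    exact ⟨(Matrix.isUnit_iff_isUnit_det _).1 g.isUnit, (H.mem_pts g).1 hg⟩
  · rintro ⟨h1, h2⟩
    obtain ⟨g, hg⟩ := (Matrix.isUnit_iff_isUnit_det _).2 h1
    refine ⟨g, (H.mem_pts g).2 ?_, hg⟩
    intro p hp
    have := h2 p hp
    rw [← hg] at this
    exact this

theorem one_mem_Zs (H : AlgGroup N) : (1 : Matrix (Fin N) (Fin N) ℂ) ∈ H.Zs :=
  ⟨1, H.pts.one_mem, rfl⟩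

theorem mul_mem_Zs (H : AlgGroup N) : ∀ x ∈ H.Zs, ∀ y ∈ H.Zs, x * y ∈ H.Zs := by
  rintro _ ⟨g, hg, rfl⟩ _ ⟨h, hh, rfl⟩
  exact ⟨g * h, H.pts.mul_mem hg hh, rfl⟩

theorem lie_eq_tn (H : AlgGroup N) : H.lie = tn H.Zs := by
  ext X
  constructor
  · intro h P hP
    exact h P fun g hg => hP g.1 ⟨g, hg, rfl⟩
  · intro h P hP
    refine h P ?_
    rintro _ ⟨g, hg, rfl⟩
    exact hP g hg

theorem exp_mem {H : AlgGroup N} {X : Matrix (Fin N) (Fin N) ℂ} (hX : X ∈ H.lie) (t : ℂ) :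
    ∃ g ∈ H.pts, (g : Matrix (Fin N) (Fin N) ℂ) = NormedSpace.exp (t • X) := by
  rw [lie_eq_tn] at hX
  exact exp_mem_tn (Zs_eq H) (one_mem_Zs H) (mul_mem_Zs H) hX t

theorem mem_lie_of_exp {H : AlgGroup N} {X : Matrix (Fin N) (Fin N) ℂ}
    (h : ∀ t : ℝ, ∃ g ∈ H.pts, (g : Matrix (Fin N) (Fin N) ℂ) = NormedSpace.exp (t • X)) :
    X ∈ H.lie := by
  rw [lie_eq_tn]
  refine mem_tn_of_exp fun t => ?_
  obtain ⟨g, hg, h1⟩ := h t
  refine ⟨g, hg, ?_⟩
  rw [h1]
  congr 1

theorem lie_conj {H : AlgGroup N} {X : Matrix (Fin N) (Fin N) ℂ} (hX : X ∈ H.lie)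
    {g : GL (Fin N) ℂ} (hg : g ∈ H.pts) : g.1 * X * (g⁻¹).1 ∈ H.lie := by
  rw [lie_eq_tn] at hX ⊢
  refine conj_mem_tn (by rw [← Units.val_mul, mul_inv_cancel, Units.val_one]) ?_ hX
  intro x hx
  exact mul_mem_Zs H _ (mul_mem_Zs H _ ⟨g, hg, rfl⟩ _ hx) _ ⟨g⁻¹, H.pts.inv_mem hg, rfl⟩

open scoped Matrix.Norms.L2Operator in
theorem lie_brk {H : AlgGroup N} {X Y : Matrix (Fin N) (Fin N) ℂ} (hX : X ∈ H.lie)
    (hY : Y ∈ H.lie) : X * Y - Y * X ∈ H.lie := by
  intro P hP
  have hc : ∀ t : ℂ, NormedSpace.exp (t • X) * Y * NormedSpace.exp ((-t) • X) ∈ H.lie := by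
    intro t
    obtain ⟨g, hg, h1⟩ := exp_mem hX t
    have h2 := lie_conj hY hg
    have h3 : (g⁻¹).1 = NormedSpace.exp ((-t) • X) := by
      have h4 : g.1 * NormedSpace.exp ((-t) • X) = 1 := by
        have h5 : Commute (t • X) ((-t) • X) :=
          ((Commute.refl X).smul_left t).smul_right (-t)
        rw [h1, ← Matrix.exp_add_of_commute _ _ h5, ← add_smul, add_neg_cancel, zero_smul,
          NormedSpace.exp_zero]
      exact Units.inv_eq_of_mul_eq_one_right h4
    rw [h3] at h2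
    rw [← h1]
    exact h2
  have e1 : HasDerivAt (fun t : ℂ => NormedSpace.exp (t • X)) X 0 := by
    have := hasDerivAt_exp_smul_const (𝕂 := ℂ) X 0
    rwa [zero_smul, NormedSpace.exp_zero, one_mul] at this
  have e2 : HasDerivAt (fun t : ℂ => NormedSpace.exp ((-t) • X)) (-X) 0 := by
    have h6 : HasDerivAt (fun t : ℂ => -t) (-1) 0 := hasDerivAt_neg 0
    have h7 : HasDerivAt (fun t : ℂ => NormedSpace.exp (t • X)) X (-0) := by rwa [neg_zero]
    have := h7.scomp (0 : ℂ) h6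
    rwa [neg_smul, one_smul] at this
  have e3 : HasDerivAt (fun t : ℂ => NormedSpace.exp (t • X) * Y * NormedSpace.exp ((-t) • X))
      (X * Y - Y * X) 0 := by
    have h8 := (e1.mul_const Y).mul e2
    simp only [zero_smul, NormedSpace.exp_zero, neg_zero, one_mul, mul_one] at h8
    refine h8.congr_deriv ?_
    rw [mul_neg, sub_eq_add_neg]
  let L : Matrix (Fin N) (Fin N) ℂ →ₗ[ℂ] ℂ :=
    { toFun := dP P
      map_add' := fun A B => by
        simp only [dP, Matrix.add_apply, add_mul, Finset.sum_add_distrib]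
      map_smul' := fun c A => by
        simp only [dP, Matrix.smul_apply, smul_eq_mul, mul_assoc, Finset.mul_sum,
          RingHom.id_apply] }
  have hL : HasFDerivAt (fun A : Matrix (Fin N) (Fin N) ℂ => dP P A)
      (LinearMap.toContinuousLinearMap L)
      (NormedSpace.exp ((0 : ℂ) • X) * Y * NormedSpace.exp ((-(0 : ℂ)) • X)) :=
    (LinearMap.toContinuousLinearMap L).hasFDerivAt
  have e4 := hL.comp_hasDerivAt (0 : ℂ) e3
  have e5 : ((fun A : Matrix (Fin N) (Fin N) ℂ => dP P A) ∘ fun t : ℂ =>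
      NormedSpace.exp (t • X) * Y * NormedSpace.exp ((-t) • X)) = fun _ => 0 :=
    funext fun t => hc t P hP
  rw [e5] at e4
  exact e4.unique (hasDerivAt_const 0 0)

theorem map_mem_Zs (H : AlgGroup N) (σ : ℂ ≃+* ℂ) : ∀ x ∈ H.Zs, x.map σ ∈ H.Zs := by
  intro x hx
  rw [Zs_eq] at hx ⊢
  exact map_mem_of_rat σ hx

theorem lie_map {H : AlgGroup N} {X : Matrix (Fin N) (Fin N) ℂ} (hX : X ∈ H.lie)
    (σ : ℂ ≃+* ℂ) : X.map σ ∈ H.lie := by
  rw [lie_eq_tn] at hX ⊢
  exact map_mem_tn (map_mem_Zs H σ) hX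

/-- The real Lie algebra of `H(ℝ)`. -/
def AlgGroup.lieR (H : AlgGroup N) : Submodule ℝ (Matrix (Fin N) (Fin N) ℝ) where
  carrier := {X | X.map Complex.ofReal ∈ H.lie}
  add_mem' := by
    intro X Y hX hY
    have h1 : (X + Y).map Complex.ofReal = X.map Complex.ofReal + Y.map Complex.ofReal := by
      ext i j
      simp
    show (X + Y).map Complex.ofReal ∈ H.lie
    rw [h1]
    exact H.lie.add_mem hX hY
  zero_mem' := by
    have h1 : (0 : Matrix (Fin N) (Fin N) ℝ).map Complex.ofReal = 0 := by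
      ext i j
      simp
    show (0 : Matrix (Fin N) (Fin N) ℝ).map Complex.ofReal ∈ H.lie
    rw [h1]
    exact H.lie.zero_mem
  smul_mem' := by
    intro c X hX
    have h1 : (c • X).map Complex.ofReal = (c : ℂ) • X.map Complex.ofReal := by
      ext i j
      simp
    show (c • X).map Complex.ofReal ∈ H.lie
    rw [h1]
    exact H.lie.smul_mem _ hX

theorem mem_lieR {H : AlgGroup N} {X : Matrix (Fin N) (Fin N) ℝ} :
    X ∈ H.lieR ↔ X.map Complex.ofReal ∈ H.lie := Iff.rfl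

/-- `lie = lieR ⊗ ℂ`. -/
theorem exists_re_im {H : AlgGroup N} {X : Matrix (Fin N) (Fin N) ℂ} (hX : X ∈ H.lie) :
    ∃ A ∈ H.lieR, ∃ B ∈ H.lieR,
      X = A.map Complex.ofReal + Complex.I • B.map Complex.ofReal := by
  have hc : X.map HM.cj ∈ H.lie := lie_map hX HM.cj
  have hre : (X.map Complex.re).map Complex.ofReal = (1 / 2 : ℂ) • (X + X.map HM.cj) := by
    ext i j
    simp only [Matrix.map_apply, Matrix.smul_apply, Matrix.add_apply, HM.cj_apply, smul_eq_mul]
    rw [Complex.add_conj]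
    push_cast
    ring
  have him : (X.map Complex.im).map Complex.ofReal =
      (-Complex.I / 2 : ℂ) • (X - X.map HM.cj) := by
    ext i j
    simp only [Matrix.map_apply, Matrix.smul_apply, Matrix.sub_apply, HM.cj_apply, smul_eq_mul]
    rw [Complex.sub_conj]
    push_cast
    linear_combination ((X i j).im : ℂ) * Complex.I_sq
  refine ⟨X.map Complex.re, ?_, X.map Complex.im, ?_, ?_⟩
  · rw [mem_lieR, hre]
    exact H.lie.smul_mem _ (H.lie.add_mem hX hc)
  · rw [mem_lieR, him]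
    exact H.lie.smul_mem _ (H.lie.sub_mem hX hc)
  · ext i j
    simp only [Matrix.map_apply, Matrix.smul_apply, Matrix.add_apply, smul_eq_mul]
    rw [mul_comm]
    exact (Complex.re_add_im _).symm

/-- The matrix of an element of `H(ℝ)⁰`. -/
def mr {H : AlgGroup N} (h : H.real0) : Matrix (Fin N) (Fin N) ℝ := (h.1.1 : GL (Fin N) ℝ).1

open scoped Matrix.Norms.L2Operator in
theorem exp_map_real (X : Matrix (Fin N) (Fin N) ℝ) :
    (NormedSpace.exp X).map Complex.ofReal = NormedSpace.exp (X.map Complex.ofReal) := by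
  have hc : Continuous (Complex.ofRealHom.mapMatrix : Matrix (Fin N) (Fin N) ℝ →+* _) :=
    continuous_id.matrix_map Complex.continuous_ofReal
  exact NormedSpace.map_exp_of_mem_ball (𝕂 := ℝ)
    (Complex.ofRealHom.mapMatrix : Matrix (Fin N) (Fin N) ℝ →+* _) hc X
    ((NormedSpace.expSeries_radius_eq_top ℝ (Matrix (Fin N) (Fin N) ℝ)).symm ▸ edist_lt_top _ _)

/-- `exp (t X)` as an element of `GL_N(ℝ)`. -/
noncomputable def eGL (X : Matrix (Fin N) (Fin N) ℝ) (t : ℝ) : GL (Fin N) ℝ where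
  val := NormedSpace.exp (t • X)
  inv := NormedSpace.exp ((-t) • X)
  val_inv := by
    have h5 : Commute (t • X) ((-t) • X) := ((Commute.refl X).smul_left t).smul_right (-t)
    rw [← Matrix.exp_add_of_commute _ _ h5, ← add_smul, add_neg_cancel, zero_smul,
      NormedSpace.exp_zero]
  inv_val := by
    have h5 : Commute ((-t) • X) (t • X) := ((Commute.refl X).smul_left (-t)).smul_right t
    rw [← Matrix.exp_add_of_commute _ _ h5, ← add_smul, neg_add_cancel, zero_smul,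
      NormedSpace.exp_zero]

theorem eGL_mem {H : AlgGroup N} {X : Matrix (Fin N) (Fin N) ℝ} (hX : X ∈ H.lieR) (t : ℝ) :
    eGL X t ∈ H.real := by
  obtain ⟨g, hg, h1⟩ := exp_mem (mem_lieR.1 hX) (t : ℂ)
  have h2 : GeneralLinearGroup.map Complex.ofRealHom (eGL X t) = g := by
    refine Units.ext ?_
    rw [h1]
    show (NormedSpace.exp (t • X)).map Complex.ofReal = _
    rw [exp_map_real]
    congr 1
    ext i j
    simp
  show GeneralLinearGroup.map Complex.ofRealHom (eGL X t) ∈ H.pts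
  rw [h2]
  exact hg

open scoped Matrix.Norms.L2Operator in
theorem continuous_eGL (X : Matrix (Fin N) (Fin N) ℝ) : Continuous (eGL X) := by
  have h1 : Continuous fun t : ℝ => NormedSpace.exp (t • X) :=
    continuous_iff_continuousAt.2 fun t => (hasDerivAt_exp_smul_const (𝕂 := ℝ) X t).continuousAt
  have h2 : Continuous fun t : ℝ => NormedSpace.exp ((-t) • X) := h1.comp continuous_neg
  exact Units.continuous_iff.2 ⟨h1, h2⟩

/-- One-parameter groups in `H(ℝ)⁰`. -/
theorem exists_exp0 {H : AlgGroup N} {X : Matrix (Fin N) (Fin N) ℝ} (hX : X ∈ H.lieR) :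
    ∃ e : ℝ → H.real0, Continuous e ∧ e 0 = 1 ∧ (∀ s t, e (s + t) = e s * e t) ∧
      ∀ t, mr (e t) = NormedSpace.exp (t • X) := by
  let c : ℝ → H.real := fun t => ⟨eGL X t, eGL_mem hX t⟩
  have hc : Continuous c := (continuous_eGL X).subtype_mk _
  have h0 : c 0 = 1 := by
    refine Subtype.ext (Units.ext ?_)
    show NormedSpace.exp ((0 : ℝ) • X) = 1
    rw [zero_smul, NormedSpace.exp_zero]
  have hm : ∀ t, c t ∈ H.real0 := by
    intro t
    have h1 : IsPreconnected (Set.range c) := isPreconnected_range hc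
    have h2 : (1 : H.real) ∈ Set.range c := ⟨0, h0⟩
    exact h1.subset_connectedComponent h2 ⟨t, rfl⟩
  refine ⟨fun t => ⟨c t, hm t⟩, hc.subtype_mk _, Subtype.ext h0, ?_, fun t => rfl⟩
  intro s t
  refine Subtype.ext (Subtype.ext (Units.ext ?_))
  show NormedSpace.exp ((s + t) • X) = NormedSpace.exp (s • X) * NormedSpace.exp (t • X)
  have h5 : Commute (s • X) (t • X) := ((Commute.refl X).smul_left s).smul_right t
  rw [add_smul, Matrix.exp_add_of_commute _ _ h5]

theorem lieR_conj {H : AlgGroup N} {X : Matrix (Fin N) (Fin N) ℝ} (hX : X ∈ H.lieR)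
    (h : H.real0) : mr h * X * mr h⁻¹ ∈ H.lieR := by
  have h1 := lie_conj (mem_lieR.1 hX) (g := GeneralLinearGroup.map Complex.ofRealHom h.1.1) h.1.2
  rw [mem_lieR]
  have h2 : (mr h * X * mr h⁻¹).map Complex.ofReal =
      (mr h).map Complex.ofReal * X.map Complex.ofReal * (mr h⁻¹).map Complex.ofReal :=
    (map_mul (Complex.ofRealHom.mapMatrix : Matrix (Fin N) (Fin N) ℝ →+* _) (mr h * X)
      (mr h⁻¹)).trans (congrArg (· * (mr h⁻¹).map Complex.ofReal)
      (map_mul (Complex.ofRealHom.mapMatrix : Matrix (Fin N) (Fin N) ℝ →+* _) (mr h) X))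
  rw [h2]
  exact h1

end Pool.Agent.Lib.MP_5d4057_al.VB
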