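import Mathlib

/-! Extremal elements of `sl_n`: the rank one nilpotent matrices. -/

set_option autoImplicit false

namespace Pool.Agent.Lib.MP_5d4057_al.VB

open Matrix

variable {n : ℕ}

/-- `(ad X)² Y` is a multiple of `X` for all `Y`. -/
def Extr (X : Matrix (Fin n) (Fin n) ℂ) : Prop :=
  ∀ Y : Matrix (Fin n) (Fin n) ℂ, ∃ c : ℂ, X * (X * Y - Y * X) - (X * Y - Y * X) * X = c • X

theorem vm_mul_mul (u f v g : Fin n → ℂ) (Y : Matrix (Fin n) (Fin n) ℂ) :
    vecMulVec u f * Y * vecMulVec v g = (f ⬝ᵥ (Y *ᵥ v)) • vecMulVec u g := by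
  rw [Matrix.mul_assoc, Matrix.mul_vecMulVec, vecMulVec_mul_vecMulVec, vecMulVec_smul]

theorem vm_mul (u f v g : Fin n → ℂ) :
    vecMulVec u f * vecMulVec v g = (f ⬝ᵥ v) • vecMulVec u g := by
  rw [vecMulVec_mul_vecMulVec, vecMulVec_smul]

theorem trace_vm (u f : Fin n → ℂ) : (vecMulVec u f).trace = f ⬝ᵥ u := by
  rw [trace_vecMulVec, dotProduct_comm]

theorem vm_eq_zero {u f : Fin n → ℂ} (h : vecMulVec u f = 0) : u = 0 ∨ f = 0 := by
  by_contra h1
  push Not at h1
  obtain ⟨i, hi⟩ := Function.ne_iff.1 h1.1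
  obtain ⟨j, hj⟩ := Function.ne_iff.1 h1.2
  have := congrFun (congrFun h i) j
  rw [vecMulVec_apply] at this
  rcases mul_eq_zero.1 this with h | h
  · exact hi h
  · exact hj h

theorem extr_vm {u f : Fin n → ℂ} (h : f ⬝ᵥ u = 0) : Extr (vecMulVec u f) := by
  intro Y
  refine ⟨-2 * (f ⬝ᵥ (Y *ᵥ u)), ?_⟩
  have h1 : vecMulVec u f * vecMulVec u f = 0 := by rw [vm_mul, h, zero_smul]
  have h2 : vecMulVec u f * (vecMulVec u f * Y - Y * vecMulVec u f) -
      (vecMulVec u f * Y - Y * vecMulVec u f) * vecMulVec u f =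
      vecMulVec u f * vecMulVec u f * Y - vecMulVec u f * Y * vecMulVec u f -
      vecMulVec u f * Y * vecMulVec u f + Y * (vecMulVec u f * vecMulVec u f) := by
    noncomm_ring
  rw [h2, h1, vm_mul_mul, zero_mul, mul_zero]
  module

/-- The third power of `ad X` is zero. -/
theorem cube {X : Matrix (Fin n) (Fin n) ℂ} (hX : Extr X) (Y : Matrix (Fin n) (Fin n) ℂ) :
    X * X * X * Y * 1 - (3 : ℂ) • (X * X * Y * X) + (3 : ℂ) • (X * Y * (X * X)) -
      1 * Y * (X * X * X) = 0 := by
  obtain ⟨c, hc⟩ := hX Y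
  have h : X * (X * (X * Y - Y * X) - (X * Y - Y * X) * X) -
      (X * (X * Y - Y * X) - (X * Y - Y * X) * X) * X = 0 := by
    rw [hc, mul_smul_comm, smul_mul_assoc, sub_self]
  rw [← h]
  have h3 : ∀ Z : Matrix (Fin n) (Fin n) ℂ, (3 : ℂ) • Z = Z + Z + Z := fun Z => by module
  rw [h3, h3]
  noncomm_ring

theorem mul_single_mul (A B : Matrix (Fin n) (Fin n) ℂ) (i j k l : Fin n) :
    (A * Matrix.single j k (1 : ℂ) * B) i l = A i j * B k l := by
  rw [Matrix.mul_assoc, Matrix.mul_apply, Finset.sum_eq_single j]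
  · rw [Matrix.single_mul_apply_same, one_mul]
  · intro b _ hb
    rw [Matrix.single_mul_apply_of_ne _ _ _ _ _ hb, mul_zero]
  · intro h
    exact absurd (Finset.mem_univ _) h

theorem functional (l : Matrix (Fin n) (Fin n) ℂ →ₗ[ℂ] ℂ) (A : Matrix (Fin n) (Fin n) ℂ) :
    l A = ∑ i, ∑ j, A i j * l (Matrix.single i j 1) := by
  conv_lhs => rw [Matrix.matrix_eq_sum_single A]
  rw [map_sum]
  refine Finset.sum_congr rfl fun i _ => ?_
  rw [map_sum]
  refine Finset.sum_congr rfl fun j _ => ?_
  rw [← smul_eq_mul, ← map_smul, Matrix.smul_single, smul_eq_mul, mul_one]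

/-- `X` satisfies a quadratic equation. -/
theorem quad {X : Matrix (Fin n) (Fin n) ℂ} (hX : Extr X)
    (h1 : ∀ a : ℂ, X ≠ a • (1 : Matrix (Fin n) (Fin n) ℂ)) :
    ∃ a b : ℂ, X * X = a • X + b • (1 : Matrix (Fin n) (Fin n) ℂ) := by
  by_contra hcon
  push Not at hcon
  have hmem : X * X ∉ Submodule.span ℂ {X, (1 : Matrix (Fin n) (Fin n) ℂ)} := by
    intro h
    obtain ⟨a, b, hab⟩ := Submodule.mem_span_pair.1 h
    exact hcon a b hab.symm
  obtain ⟨l, hl, hker⟩ := Submodule.exists_le_ker_of_notMem hmem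
  have hlX : l X = 0 := hker (Submodule.subset_span (by simp))
  have hl1 : l 1 = 0 := hker (Submodule.subset_span (by simp))
  have key : ∀ i j, (3 * l (X * X)) * X i j = l (X * X * X) * (1 : Matrix (Fin n) (Fin n) ℂ) i j := by
    intro i j
    have e : ∀ k m, (X * X * X) i j * (1 : Matrix (Fin n) (Fin n) ℂ) k m - 3 * ((X * X) i j * X k m) +
        3 * (X i j * (X * X) k m) - (1 : Matrix (Fin n) (Fin n) ℂ) i j * (X * X * X) k m = 0 := by
      intro k m
      have h := congrFun (congrFun (cube hX (Matrix.single j k 1)) i) m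
      simp only [Matrix.sub_apply, Matrix.add_apply, Matrix.smul_apply, mul_single_mul,
        smul_eq_mul, Matrix.zero_apply] at h
      exact h
    have e2 : ∑ k, ∑ m, ((X * X * X) i j * (1 : Matrix (Fin n) (Fin n) ℂ) k m -
        3 * ((X * X) i j * X k m) + 3 * (X i j * (X * X) k m) -
        (1 : Matrix (Fin n) (Fin n) ℂ) i j * (X * X * X) k m) * l (Matrix.single k m 1) = 0 :=
      Finset.sum_eq_zero fun k _ => Finset.sum_eq_zero fun m _ => by rw [e, zero_mul]
    have e3 : (X * X * X) i j * l 1 - 3 * ((X * X) i j * l X) + 3 * (X i j * l (X * X)) -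
        (1 : Matrix (Fin n) (Fin n) ℂ) i j * l (X * X * X) = 0 := by
      rw [functional l 1, functional l X, functional l (X * X), functional l (X * X * X), ← e2]
      simp only [Finset.mul_sum, ← Finset.sum_sub_distrib, ← Finset.sum_add_distrib]
      refine Finset.sum_congr rfl fun k _ => Finset.sum_congr rfl fun m _ => ?_
      ring
    rw [hl1, hlX] at e3
    linear_combination e3
  have hl' : (3 * l (X * X)) ≠ 0 := mul_ne_zero (by norm_num) hl
  refine h1 (l (X * X * X) / (3 * l (X * X))) ?_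
  ext i j
  rw [Matrix.smul_apply, smul_eq_mul, div_mul_eq_mul_div, eq_div_iff hl', mul_comm, key]

/-- Extremal elements of trace zero are the rank one nilpotent matrices. -/
theorem extr_decode {X : Matrix (Fin n) (Fin n) ℂ} (hX : Extr X) (h0 : X ≠ 0)
    (htr : X.trace = 0) : ∃ u f : Fin n → ℂ, X = vecMulVec u f ∧ f ⬝ᵥ u = 0 := by
  have hn : (n : ℂ) ≠ 0 := by
    rintro h
    have : n = 0 := by exact_mod_cast h
    subst this
    exact h0 (Subsingleton.elim _ _)
  have h1 : ∀ a : ℂ, X ≠ a • (1 : Matrix (Fin n) (Fin n) ℂ) := by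
    rintro a rfl
    rw [trace_smul, trace_one, Fintype.card_fin, smul_eq_mul] at htr
    rcases mul_eq_zero.1 htr with h | h
    · exact h0 (by rw [h, zero_smul])
    · exact hn h
  obtain ⟨a, b, hab⟩ := quad hX h1
  -- the roots
  obtain ⟨r, hr⟩ : ∃ r : ℂ, r * r = a * r + b := by
    obtain ⟨s, hs⟩ := IsAlgClosed.exists_pow_nat_eq (a ^ 2 / 4 + b) (n := 2) (by norm_num)
    refine ⟨a / 2 + s, ?_⟩
    linear_combination hs
  -- the other root is `a - r`
  set P := X - r • (1 : Matrix (Fin n) (Fin n) ℂ) with hP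
  set Q := X - (a - r) • (1 : Matrix (Fin n) (Fin n) ℂ) with hQ
  have hPQ : P * Q = 0 := by
    rw [hP, hQ]
    have : (X - r • (1 : Matrix (Fin n) (Fin n) ℂ)) * (X - (a - r) • 1) =
      X * X - a • X + (r * (a - r)) • 1 := by
      simp only [sub_mul, mul_sub, smul_mul_assoc, mul_smul_comm, mul_one, one_mul, smul_smul]
      module
    rw [this, hab]
    have : r * (a - r) = -b := by linear_combination -hr
    rw [this]
    module
  have hQP : Q * P = 0 := by
    rw [← hPQ, hP, hQ]
    simp only [sub_mul, mul_sub, smul_mul_assoc, mul_smul_comm, mul_one, one_mul, smul_smul]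
    module
  have hP0 : P ≠ 0 := fun h => h1 r (sub_eq_zero.1 h)
  have hQ0 : Q ≠ 0 := fun h => h1 (a - r) (sub_eq_zero.1 h)
  have hPQd : P = Q + (a - 2 * r) • (1 : Matrix (Fin n) (Fin n) ℂ) := by
    rw [hP, hQ]
    module
  have hXP : X = P + r • (1 : Matrix (Fin n) (Fin n) ℂ) := by
    rw [hP]
    module
  by_cases hd : a - 2 * r = 0
  · -- `X² = 0`
    have hPP : P * P = 0 := by
      conv_lhs => rw [hPQd, hd, zero_smul, add_zero]
      rw [hd, zero_smul, add_zero] at hPQd
      rw [← hPQd] at hPQ ⊢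
      exact hPQ
    have htP : P.trace = 0 :=
      (Matrix.isNilpotent_trace_of_isNilpotent ⟨2, by rw [pow_two, hPP]⟩).eq_zero
    have hr0 : r = 0 := by
      rw [hXP, trace_add, htP, trace_smul, trace_one, Fintype.card_fin, smul_eq_mul,
        zero_add] at htr
      exact (mul_eq_zero.1 htr).resolve_right hn
    rw [hr0, zero_smul, add_zero] at hXP
    have hXX : X * X = 0 := by rw [hXP, hPP]
    obtain ⟨i, hi⟩ := Function.ne_iff.1 h0
    obtain ⟨j, hj⟩ := Function.ne_iff.1 hi
    have hij : X i j ≠ 0 := hj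
    obtain ⟨c, hc⟩ := hX (Matrix.single j i 1)
    have h2 : X * (X * Matrix.single j i 1 - Matrix.single j i 1 * X) -
        (X * Matrix.single j i 1 - Matrix.single j i 1 * X) * X =
        X * X * Matrix.single j i 1 - X * Matrix.single j i 1 * X -
          X * Matrix.single j i 1 * X + Matrix.single j i 1 * (X * X) := by
      noncomm_ring
    rw [h2, hXX, zero_mul, mul_zero, add_zero, zero_sub] at hc
    have h3 : ∀ k l, -(2 * (X k j * X i l)) = c * X k l := by
      intro k l
      have h := congrFun (congrFun hc k) l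
      simp only [Matrix.sub_apply, Matrix.neg_apply, mul_single_mul, Matrix.smul_apply,
        smul_eq_mul] at h
      linear_combination h
    have hcv : c = -(2 * X i j) := by
      have h := h3 i j
      have : c * X i j = -(2 * X i j) * X i j := by linear_combination -h
      exact mul_right_cancel₀ hij this
    have hX' : X = vecMulVec (fun k => X k j) (fun l => X i l / X i j) := by
      ext k l
      rw [vecMulVec_apply]
      have h := h3 k l
      rw [hcv] at h
      field_simp
      linear_combination h / 2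
    refine ⟨_, _, hX', ?_⟩
    rw [hX', vm_mul] at hXX
    rcases smul_eq_zero.1 hXX with h | h
    · exact h
    · exact absurd (hX'.trans h) h0
  · exfalso
    -- choose `Y` with `Q Y P ≠ 0`
    obtain ⟨i, hi⟩ := Function.ne_iff.1 hQ0
    obtain ⟨j, hj⟩ := Function.ne_iff.1 hi
    obtain ⟨k, hk⟩ := Function.ne_iff.1 hP0
    obtain ⟨l, hl⟩ := Function.ne_iff.1 hk
    set Y := Matrix.single j k (1 : ℂ) with hY
    obtain ⟨c, hc⟩ := hX Y
    have hPP : P * P = (a - 2 * r) • P := by
      conv_lhs =>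
        rhs
        rw [hPQd]
      rw [mul_add, hPQ, zero_add, mul_smul_comm, mul_one]
    have hQQ : Q * Q = -(a - 2 * r) • Q := by
      have : Q = P - (a - 2 * r) • (1 : Matrix (Fin n) (Fin n) ℂ) := by rw [hPQd]; module
      conv_lhs =>
        rhs
        rw [this]
      rw [mul_sub, hQP, zero_sub, mul_smul_comm, mul_one, neg_smul]
    have e1 : X * (X * Y - Y * X) - (X * Y - Y * X) * X =
        P * P * Y - (2 : ℂ) • (P * Y * P) + Y * (P * P) := by
      have h2 : (2 : ℂ) • (P * Y * P) = P * Y * P + P * Y * P := by module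
      have hXY : X * Y - Y * X = P * Y - Y * P := by
        rw [hXP]
        simp only [add_mul, mul_add, smul_mul_assoc, mul_smul_comm, mul_one, one_mul]
        abel
      rw [h2, hXY]
      have hXZ : ∀ Z, X * Z - Z * X = P * Z - Z * P := by
        intro Z
        rw [hXP]
        simp only [add_mul, mul_add, smul_mul_assoc, mul_smul_comm, mul_one, one_mul]
        abel
      rw [hXZ]
      noncomm_ring
    rw [e1, hPP] at hc
    -- multiply by `Q` on the left
    have e2 : (a - 2 * r) • (Q * Y * P) = (c * r) • Q := by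
      have h := congrArg (fun Z => Q * Z) hc
      simp only [mul_add, mul_sub, mul_smul_comm, smul_mul_assoc] at h
      rw [← Matrix.mul_assoc Q P Y, hQP, zero_mul, smul_zero, Matrix.mul_assoc P Y P,
        ← Matrix.mul_assoc Q P, hQP, zero_mul, smul_zero, sub_zero, zero_add,
        ← Matrix.mul_assoc Q Y P] at h
      rw [h]
      conv_lhs => rw [hXP]
      rw [mul_add, hQP, zero_add, mul_smul_comm, mul_one, smul_smul]
    have e3 : c * r = 0 := by
      have h := congrArg (fun Z => Z * Q) e2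
      simp only [smul_mul_assoc] at h
      rw [Matrix.mul_assoc, hPQ, mul_zero, smul_zero, hQQ, smul_smul] at h
      rcases smul_eq_zero.1 h.symm with h | h
      · rcases mul_eq_zero.1 h with h | h
        · exact h
        · exact absurd (neg_eq_zero.1 h) hd
      · exact absurd h hQ0
    rw [e3, zero_smul] at e2
    have e4 := (smul_eq_zero.1 e2).resolve_left hd
    have e5 := congrFun (congrFun e4 i) l
    rw [hY, mul_single_mul] at e5
    rcases mul_eq_zero.1 e5 with h | h
    · exact hj h
    · exact hl h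

end Pool.Agent.Lib.MP_5d4057_al.VB
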