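import Pool.Agent.Lib.MP_5d4057_al.VB.LieAutA

/-! Injective endomorphisms of the Lie algebra `sl_n` preserve the rank one nilpotent matrices. -/

set_option autoImplicit false

namespace Pool.Agent.Lib.MP_5d4057_al.VB

open Matrix

variable {n : ℕ}

/-- `M` is an injective endomorphism of the Lie algebra of matrices of trace zero. -/
structure LM (M : Matrix (Fin n) (Fin n) ℂ →ₗ[ℂ] Matrix (Fin n) (Fin n) ℂ) : Prop where
  tr : ∀ X, X.trace = 0 → (M X).trace = 0
  inj : ∀ X, X.trace = 0 → M X = 0 → X = 0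
  br : ∀ X Y, X.trace = 0 → Y.trace = 0 → M (X * Y - Y * X) = M X * M Y - M Y * M X

/-- Minus the transpose of `M`. -/
noncomputable def negT (M : Matrix (Fin n) (Fin n) ℂ →ₗ[ℂ] Matrix (Fin n) (Fin n) ℂ) :
    Matrix (Fin n) (Fin n) ℂ →ₗ[ℂ] Matrix (Fin n) (Fin n) ℂ where
  toFun X := -(M X)ᵀ
  map_add' X Y := by rw [map_add, transpose_add, neg_add]
  map_smul' c X := by rw [map_smul, transpose_smul, RingHom.id_apply, smul_neg]

theorem negT_apply (M : Matrix (Fin n) (Fin n) ℂ →ₗ[ℂ] Matrix (Fin n) (Fin n) ℂ)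
    (X : Matrix (Fin n) (Fin n) ℂ) : negT M X = -(M X)ᵀ := rfl

theorem LM.negT {M : Matrix (Fin n) (Fin n) ℂ →ₗ[ℂ] Matrix (Fin n) (Fin n) ℂ} (h : LM M) :
    LM (negT M) where
  tr X hX := by rw [negT_apply, trace_neg, trace_transpose, h.tr X hX, neg_zero]
  inj X hX hM := by
    rw [negT_apply, neg_eq_zero, transpose_eq_zero] at hM
    exact h.inj X hX hM
  br X Y hX hY := by
    simp only [negT_apply, h.br X Y hX hY, transpose_sub, transpose_mul, neg_mul_neg]
    abel

/-- `M` maps onto the matrices of trace zero. -/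
theorem LM.surj {M : Matrix (Fin n) (Fin n) ℂ →ₗ[ℂ] Matrix (Fin n) (Fin n) ℂ} (h : LM M)
    {Z : Matrix (Fin n) (Fin n) ℂ} (hZ : Z.trace = 0) : ∃ X, X.trace = 0 ∧ M X = Z := by
  let S : Submodule ℂ (Matrix (Fin n) (Fin n) ℂ) := LinearMap.ker (traceLinearMap (Fin n) ℂ ℂ)
  have hmem : ∀ X, X ∈ S ↔ X.trace = 0 := fun X => by
    rw [LinearMap.mem_ker, traceLinearMap_apply]
  let M' : S →ₗ[ℂ] S := M.restrict (p := S) (q := S) fun X hX => by
    rw [hmem] at hX ⊢
    exact h.tr X hX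
  have hi : Function.Injective M' := by
    rw [← LinearMap.ker_eq_bot, LinearMap.ker_eq_bot']
    rintro ⟨X, hX⟩ h0
    have h1 : M X = 0 := congrArg Subtype.val h0
    exact Subtype.ext (h.inj X ((hmem X).1 hX) h1)
  obtain ⟨⟨X, hX⟩, h1⟩ := (LinearMap.injective_iff_surjective.1 hi) ⟨Z, (hmem Z).2 hZ⟩
  exact ⟨X, (hmem X).1 hX, congrArg Subtype.val h1⟩

/-- `M` preserves extremal elements. -/
theorem LM.extr {M : Matrix (Fin n) (Fin n) ℂ →ₗ[ℂ] Matrix (Fin n) (Fin n) ℂ} (h : LM M)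
    {X : Matrix (Fin n) (Fin n) ℂ} (hX : X.trace = 0) (hE : Extr X) : Extr (M X) := by
  intro Y
  by_cases hn : (n : ℂ) = 0
  · have : n = 0 := by exact_mod_cast hn
    subst this
    exact ⟨0, Subsingleton.elim _ _⟩
  obtain ⟨Z, hZ, hMZ⟩ := h.surj (Z := Y - (Y.trace / n) • (1 : Matrix (Fin n) (Fin n) ℂ)) (by
    rw [trace_sub, trace_smul, trace_one, Fintype.card_fin, smul_eq_mul, div_mul_cancel₀ _ hn,
      sub_self])
  obtain ⟨c, hc⟩ := hE Z
  refine ⟨c, ?_⟩
  have h1 : M X * Y - Y * M X = M X * M Z - M Z * M X := by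
    rw [hMZ]
    simp only [mul_sub, sub_mul, smul_mul_assoc, mul_smul_comm, mul_one, one_mul]
    abel
  have h2 : (X * Z - Z * X).trace = 0 := by
    rw [trace_sub, trace_mul_comm, sub_self]
  rw [h1, ← h.br X Z hX hZ, ← h.br _ _ hX h2, hc, map_smul]

/-- The image of a rank one nilpotent matrix. -/
theorem LM.vm {M : Matrix (Fin n) (Fin n) ℂ →ₗ[ℂ] Matrix (Fin n) (Fin n) ℂ} (h : LM M)
    {u f : Fin n → ℂ} (hf : f ⬝ᵥ u = 0) : ∃ u' f' : Fin n → ℂ,
      M (vecMulVec u f) = vecMulVec u' f' ∧ f' ⬝ᵥ u' = 0 := by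
  by_cases h0 : M (vecMulVec u f) = 0
  · refine ⟨0, 0, ?_, by simp⟩
    rw [h0, vecMulVec_zero]
  have ht : (vecMulVec u f).trace = 0 := by rw [trace_vm, hf]
  exact extr_decode (h.extr ht (extr_vm hf)) h0 (h.tr _ ht)

/-- Parallel vectors. -/
def Par (u v : Fin n → ℂ) : Prop := ∀ i j, u i * v j = u j * v i

theorem Par.smul {u v : Fin n → ℂ} (h : Par u v) (hu : u ≠ 0) : ∃ c : ℂ, v = c • u := by
  obtain ⟨i, hi⟩ := Function.ne_iff.1 hu
  refine ⟨v i / u i, ?_⟩
  funext j
  have hi' : u i ≠ 0 := hi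
  rw [Pi.smul_apply, smul_eq_mul, div_mul_eq_mul_div, eq_div_iff hi', mul_comm, h i j, mul_comm]

theorem par_of_smul {u v : Fin n → ℂ} {c : ℂ} (h : v = c • u) : Par u v := by
  intro i j
  rw [h, Pi.smul_apply, Pi.smul_apply, smul_eq_mul, smul_eq_mul]
  ring

/-- The sum of two rank one matrices is of rank one only if they have the same column or row. -/
theorem par_of_sum {u f u' f' u'' f'' : Fin n → ℂ}
    (h : vecMulVec u f + vecMulVec u' f' = vecMulVec u'' f'') : Par u u' ∨ Par f f' := by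
  by_contra hcon
  push Not at hcon
  obtain ⟨h1, h2⟩ := hcon
  simp only [Par, not_forall] at h1 h2
  obtain ⟨i, j, hij⟩ := h1
  obtain ⟨k, l, hkl⟩ := h2
  have e : ∀ a b, u a * f b + u' a * f' b = u'' a * f'' b := by
    intro a b
    have := congrFun (congrFun h a) b
    rwa [Matrix.add_apply, vecMulVec_apply, vecMulVec_apply, vecMulVec_apply] at this
  have key : (u i * u' j - u j * u' i) * (f k * f' l - f l * f' k) = 0 := by
    have e1 : (u i * f k + u' i * f' k) * (u j * f l + u' j * f' l) =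
        (u i * f l + u' i * f' l) * (u j * f k + u' j * f' k) := by
      rw [e, e, e, e]
      ring
    linear_combination e1
  rcases mul_eq_zero.1 key with h | h
  · exact hij (sub_eq_zero.1 h)
  · exact hkl (sub_eq_zero.1 h)

/-- The matrix unit. -/
noncomputable abbrev EE (j k : Fin n) : Matrix (Fin n) (Fin n) ℂ := Matrix.single j k 1

theorem EE_eq (j k : Fin n) : EE j k = vecMulVec (Pi.single j 1) (Pi.single k 1) := by
  ext a b
  rw [EE, Matrix.single_apply, vecMulVec_apply, Pi.single_apply, Pi.single_apply]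
  by_cases h1 : a = j
  · by_cases h2 : b = k
    · rw [if_pos ⟨h1.symm, h2.symm⟩, if_pos h1, if_pos h2, one_mul]
    · rw [if_neg (fun h => h2 h.2.symm), if_neg h2, mul_zero]
  · rw [if_neg (fun h => h1 h.1.symm), if_neg h1, zero_mul]

theorem EE_mul (i j k l : Fin n) : EE i j * EE k l = if j = k then EE i l else 0 := by
  split_ifs with h
  · subst h
    rw [Matrix.single_mul_single_same, one_mul]
  · rw [Matrix.single_mul_single_of_ne _ _ _ _ h]

theorem trace_EE {j k : Fin n} (h : j ≠ k) : (EE j k).trace = 0 := by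
  rw [EE_eq, trace_vm, single_dotProduct, one_mul, Pi.single_apply, if_neg h.symm]

theorem EE_ne (j k : Fin n) : EE j k ≠ 0 := by
  intro h
  have := congrFun (congrFun h j) k
  rw [EE, Matrix.single_apply_same] at this
  exact one_ne_zero this

end Pool.Agent.Lib.MP_5d4057_al.VB
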