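import Pool.Agent.Lib.MP_5d4057_al.CF.Crit
import Pool.Agent.Lib.MP_5d4057_al.NU.CuspD

/-!
# VB, V1: the data obtained from the Lie algebras

`LieD Γ N 𝔤 π g h`: a Lie algebra `𝔤` of complex `N x N` matrices, stable under all automorphisms of `ℂ`, a homomorphism
`π` of `𝔤` onto the matrices of trace `0`, and integral matrices `g γ`, with inverse `h γ`, for `γ ∈ Γ`, which act on `𝔤`
by conjugation, compatibly with `π`, and boundedly on the kernel of `π`.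
-/

set_option autoImplicit false

namespace Pool.Agent.Lib.MP_5d4057_al.VB

open Matrix Pool.Agent.Lib.MP_5d4057_al Pool.Agent.Lib.MP_5d4057_al.Hyb
  Pool.Agent.Lib.MP_5d4057_al.HM Pool.Agent.Lib.MP_5d4057_al.NU

/-- The output of the Lie part. -/
structure LieD {m : ℕ} (Γ : Subgroup (SUGroup m)) (N : ℕ) (𝔤 : Submodule ℂ (Mat N))
    (π : Mat N →ₗ[ℂ] Mat (m + 1)) (g h : SUGroup m → Mat N) : Prop where
  gal : ∀ t : ℂ ≃+* ℂ, ∀ X ∈ 𝔤, X.map t ∈ 𝔤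
  br : ∀ X ∈ 𝔤, ∀ Y ∈ 𝔤, X * Y - Y * X ∈ 𝔤
  pbr : ∀ X ∈ 𝔤, ∀ Y ∈ 𝔤, π (X * Y - Y * X) = π X * π Y - π Y * π X
  ptr : ∀ X ∈ 𝔤, (π X).trace = 0
  surj : ∀ Y : Mat (m + 1), Y.trace = 0 → ∃ X ∈ 𝔤, π X = Y
  inv : ∀ γ ∈ Γ, g γ * h γ = 1
  intg : ∀ γ ∈ Γ, ∀ i j, ∃ k : ℤ, g γ i j = k
  inth : ∀ γ ∈ Γ, ∀ i j, ∃ k : ℤ, h γ i j = k
  stab : ∀ γ ∈ Γ, ∀ X ∈ 𝔤, g γ * X * h γ ∈ 𝔤
  equi : ∀ γ ∈ Γ, ∀ X ∈ 𝔤, π (g γ * X * h γ) = γ.toMatrix * π X * (γ⁻¹).toMatrix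
  bdd : ∀ X ∈ 𝔤, π X = 0 → ∃ C : ℝ, ∀ γ ∈ Γ, ∀ i j, ‖(g γ * X * h γ) i j‖ ≤ C

variable {m N : ℕ} {Γ Γ' : Subgroup (SUGroup m)} {𝔤 : Submodule ℂ (Mat N)}
  {π : Mat N →ₗ[ℂ] Mat (m + 1)} {g h : SUGroup m → Mat N}

theorem LieD.mono (H : LieD Γ N 𝔤 π g h) (hle : Γ' ≤ Γ) : LieD Γ' N 𝔤 π g h where
  gal := H.gal
  br := H.br
  pbr := H.pbr
  ptr := H.ptr
  surj := H.surj
  inv := fun γ hγ => H.inv γ (hle hγ)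
  intg := fun γ hγ => H.intg γ (hle hγ)
  inth := fun γ hγ => H.inth γ (hle hγ)
  stab := fun γ hγ => H.stab γ (hle hγ)
  equi := fun γ hγ => H.equi γ (hle hγ)
  bdd := fun X hX h0 => by
    obtain ⟨C, hC⟩ := H.bdd X hX h0
    exact ⟨C, fun γ hγ => hC γ (hle hγ)⟩

/-- `θ` induces an automorphism of the Lie algebra of matrices of trace `0`. -/
structure IsAut {n : ℕ} (θ : Mat n →ₗ[ℂ] Mat n) : Prop where
  tr : ∀ X : Mat n, X.trace = 0 → (θ X).trace = 0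
  inj : ∀ X : Mat n, X.trace = 0 → θ X = 0 → X = 0
  br : ∀ X Y : Mat n, X.trace = 0 → Y.trace = 0 → θ (X * Y - Y * X) = θ X * θ Y - θ Y * θ X

end Pool.Agent.Lib.MP_5d4057_al.VB
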