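import Mathlib

/-!
# VERB: the determinant is a rational polynomial in the traces of the powers (N1), and
polynomials over a number field by their rational components (N2)
-/

set_option autoImplicit false

namespace Pool.Agent.Lib.MP_5d4057_al.VB

open Matrix

/-! ### the traces of the powers -/

private theorem nt_eval {m : ℕ} (A : Matrix (Fin m) (Fin m) ℂ) (y : ℂ) :
    A.charpoly.eval y = (A.charpoly.roots.map fun l => y - l).prod := by
  have h1 := (IsAlgClosed.splits A.charpoly).eq_prod_roots_of_monic A.charpoly_monic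
  conv_lhs => rw [h1]
  rw [Polynomial.eval_multiset_prod, Multiset.map_map]
  congr 1
  exact Multiset.map_congr rfl fun l _ => by simp

private theorem nt_card {m : ℕ} (A : Matrix (Fin m) (Fin m) ℂ) :
    Multiset.card A.charpoly.roots = m := by
  rw [← (IsAlgClosed.splits A.charpoly).natDegree_eq_card_roots, charpoly_natDegree_eq_dim,
    Fintype.card_fin]

/-- The determinant of a polynomial in `A`. -/
private theorem nt_det {m : ℕ} (A : Matrix (Fin m) (Fin m) ℂ) (g : Polynomial ℂ) :
    (Polynomial.aeval A g).det = (A.charpoly.roots.map fun l => g.eval l).prod := by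
  have hC : ∀ c : ℂ, (Polynomial.aeval A (Polynomial.C c)).det =
      (A.charpoly.roots.map fun l => (Polynomial.C c).eval l).prod := by
    intro c
    simp only [Polynomial.eval_C, Multiset.map_const', Multiset.prod_replicate]
    rw [nt_card, Polynomial.aeval_C, Matrix.algebraMap_eq_diagonal, Matrix.det_diagonal]
    simp
  have hX : ∀ μ : ℂ, (Polynomial.aeval A (Polynomial.X - Polynomial.C μ)).det =
      (A.charpoly.roots.map fun l => (Polynomial.X - Polynomial.C μ).eval l).prod := by
    intro μ
    have h1 : A.charpoly.eval μ = (scalar (Fin m) μ - A).det := Matrix.eval_charpoly A μ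
    have h2 : (Polynomial.aeval A (Polynomial.X - Polynomial.C μ)) = -(scalar (Fin m) μ - A) := by
      rw [map_sub, Polynomial.aeval_X, Polynomial.aeval_C]
      rw [neg_sub]
      rfl
    rw [h2, Matrix.det_neg, ← h1, nt_eval, Fintype.card_fin]
    have h3 : (A.charpoly.roots.map fun l => (Polynomial.X - Polynomial.C μ).eval l) =
        A.charpoly.roots.map fun l => (-1) * (μ - l) :=
      Multiset.map_congr rfl fun l _ => by simp
    rw [h3, Multiset.prod_map_mul, Multiset.map_const', Multiset.prod_replicate, nt_card]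
  have hmul : ∀ g h : Polynomial ℂ,
      (Polynomial.aeval A g).det = (A.charpoly.roots.map fun l => g.eval l).prod →
      (Polynomial.aeval A h).det = (A.charpoly.roots.map fun l => h.eval l).prod →
      (Polynomial.aeval A (g * h)).det = (A.charpoly.roots.map fun l => (g * h).eval l).prod := by
    intro g h hg hh
    rw [map_mul, Matrix.det_mul, hg, hh, ← Multiset.prod_map_mul]
    congr 1
    exact Multiset.map_congr rfl fun l _ => by simp
  have hP : ∀ s : Multiset ℂ,
      (Polynomial.aeval A (s.map fun a => Polynomial.X - Polynomial.C a).prod).det =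
      (A.charpoly.roots.map fun l =>
        ((s.map fun a => Polynomial.X - Polynomial.C a).prod).eval l).prod := by
    intro s
    induction s using Multiset.induction with
    | empty =>
      have := hC 1
      rw [Polynomial.C_1] at this
      rw [Multiset.map_zero, Multiset.prod_zero]
      exact this
    | cons a s ih =>
      rw [Multiset.map_cons, Multiset.prod_cons]
      exact hmul _ _ (hX a) ih
  have hg := (IsAlgClosed.splits g).eq_prod_roots
  rw [hg]
  exact hmul _ _ (hC _) (hP _)

/-- The characteristic polynomial of a power. -/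
private theorem nt_roots_pow {m : ℕ} (A : Matrix (Fin m) (Fin m) ℂ) (k : ℕ) :
    (A ^ k).charpoly.roots = A.charpoly.roots.map (· ^ k) := by
  have h1 : (A ^ k).charpoly =
      ((A.charpoly.roots.map (· ^ k)).map fun a => Polynomial.X - Polynomial.C a).prod := by
    refine Polynomial.funext fun y => ?_
    have h2 := nt_det A (Polynomial.C y - Polynomial.X ^ k)
    have h3 : (Polynomial.aeval A (Polynomial.C y - Polynomial.X ^ k)) =
        scalar (Fin m) y - A ^ k := by
      rw [map_sub, map_pow, Polynomial.aeval_X, Polynomial.aeval_C]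
      rfl
    rw [h3, ← Matrix.eval_charpoly] at h2
    rw [h2, Polynomial.eval_multiset_prod, Multiset.map_map, Multiset.map_map]
    congr 1
    exact Multiset.map_congr rfl fun l _ => by simp
  rw [h1, Polynomial.roots_multiset_prod_X_sub_C]

/-- The trace of a power is the power sum of the eigenvalues. -/
theorem trace_pow_eq {m : ℕ} (A : Matrix (Fin m) (Fin m) ℂ) (k : ℕ) :
    (A ^ k).trace = (A.charpoly.roots.map (· ^ k)).sum := by
  rw [Matrix.trace_eq_sum_roots_charpoly, nt_roots_pow]

/-- The eigenvalues, enumerated. -/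
theorem exists_eig {m : ℕ} (A : Matrix (Fin m) (Fin m) ℂ) :
    ∃ r : Fin m → ℂ, A.det = ∏ i, r i ∧ ∀ k : ℕ, (A ^ k).trace = ∑ i, r i ^ k := by
  obtain ⟨l, hl⟩ := Quot.exists_rep A.charpoly.roots
  have hl' : (l : Multiset ℂ) = A.charpoly.roots := hl
  have hc : l.length = m := by
    have := nt_card A
    rw [← hl', Multiset.coe_card] at this
    exact this
  subst hc
  refine ⟨fun i => l.get i, ?_, fun k => ?_⟩
  · rw [Matrix.det_eq_prod_roots_charpoly, ← hl', Multiset.prod_coe]
    conv_lhs => rw [← List.ofFn_get l]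
    rw [List.prod_ofFn]
  · rw [trace_pow_eq, ← hl', Multiset.map_coe, Multiset.sum_coe]
    conv_lhs => rw [← List.ofFn_get l]
    rw [List.map_ofFn, List.sum_ofFn]
    rfl

/-! ### Newton's identities -/

/-- The elementary symmetric functions as rational polynomials in the power sums. -/
theorem exists_esymm (n k : ℕ) (hk : k ≤ n) :
    ∃ E : MvPolynomial (Fin n) ℚ, ∀ r : Fin n → ℂ,
      MvPolynomial.aeval (fun j : Fin n => ∑ i, r i ^ ((j : ℕ) + 1)) E =
      MvPolynomial.aeval r (MvPolynomial.esymm (Fin n) ℚ k) := by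
  induction k using Nat.strong_induction_on with
  | _ k ih =>
  cases k with
  | zero => exact ⟨1, fun r => by simp [MvPolynomial.esymm_zero]⟩
  | succ k =>
    choose E hE using ih
    let S : Finset (ℕ × ℕ) :=
      {a ∈ Finset.HasAntidiagonal.antidiagonal (k + 1) | a.1 < k + 1}
    have hS : ∀ a ∈ S, a.1 + a.2 = k + 1 ∧ a.1 < k + 1 := by
      intro a ha
      have := Finset.mem_filter.1 ha
      rw [Finset.HasAntidiagonal.mem_antidiagonal] at this
      exact this
    refine ⟨MvPolynomial.C (((k + 1 : ℕ) : ℚ)⁻¹) *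
      ((-1 : MvPolynomial (Fin n) ℚ) ^ (k + 1 + 1) * ∑ a ∈ S.attach,
      (-1 : MvPolynomial (Fin n) ℚ) ^ a.1.1 * E a.1.1 (hS _ a.2).2 (by have := (hS _ a.2).2; omega) *
      MvPolynomial.X (⟨a.1.2 - 1, by have := hS _ a.2; omega⟩ : Fin n)), fun r => ?_⟩
    have h1 := congrArg (MvPolynomial.aeval r) (MvPolynomial.mul_esymm_eq_sum (Fin n) ℚ (k + 1))
    rw [map_mul, map_mul, map_sum, map_natCast] at h1
    have h0 : ((k + 1 : ℕ) : ℂ) ≠ 0 := by exact_mod_cast Nat.succ_ne_zero k
    have h2 : MvPolynomial.aeval r (MvPolynomial.esymm (Fin n) ℚ (k + 1)) =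
        ((k + 1 : ℕ) : ℂ)⁻¹ * (MvPolynomial.aeval r ((-1 : MvPolynomial (Fin n) ℚ) ^ (k + 1 + 1)) *
        ∑ a ∈ S, MvPolynomial.aeval r ((-1 : MvPolynomial (Fin n) ℚ) ^ a.1 * MvPolynomial.esymm (Fin n) ℚ a.1 *
          MvPolynomial.psum (Fin n) ℚ a.2)) := by
      rw [eq_inv_mul_iff_mul_eq₀ h0]
      exact h1
    rw [h2, map_mul, map_mul, map_sum, MvPolynomial.aeval_C]
    congr 1
    · simp
    · congr 1
      · simp
      · rw [← Finset.sum_attach S]
        refine Finset.sum_congr rfl fun a _ => ?_
        rw [map_mul, map_mul, map_mul, map_mul, hE, MvPolynomial.aeval_X]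
        congr 1
        · simp
        · have h3 : a.1.2 - 1 + 1 = a.1.2 := by
            have := hS _ a.2
            omega
          simp [MvPolynomial.psum, h3]

/-- **(N1)** The determinant is a rational polynomial in the traces of the powers. -/
theorem newton_det (n : ℕ) : ∃ D : MvPolynomial (Fin n) ℚ, ∀ x : Matrix (Fin n) (Fin n) ℂ,
    MvPolynomial.aeval (fun k : Fin n => (x ^ ((k : ℕ) + 1)).trace) D = x.det := by
  obtain ⟨E, hE⟩ := exists_esymm n n le_rfl
  refine ⟨E, fun x => ?_⟩
  obtain ⟨r, hr, ht⟩ := exists_eig x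
  simp only [ht]
  rw [hE, hr]
  have h1 : Finset.powersetCard n (Finset.univ : Finset (Fin n)) = {Finset.univ} := by
    have h2 := Finset.powersetCard_self (Finset.univ : Finset (Fin n))
    rw [Finset.card_fin] at h2
    exact h2
  simp [MvPolynomial.esymm, h1]

/-! ### rational components -/

/-- **(N2)** The rational components of a polynomial over a number field. -/
theorem exists_comp {σ ι K : Type*} [Field K] [CharZero K] [Fintype ι]
    (b : Module.Basis ι ℚ K) (p : MvPolynomial σ K) :
    ∃ q : ι → MvPolynomial σ ℚ, ∀ (τ : K →+* ℂ) (x : σ → ℂ),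
      ∑ j, τ (b j) * MvPolynomial.aeval x (q j) = MvPolynomial.eval₂ τ x p := by
  refine ⟨fun j => ∑ m ∈ p.support, MvPolynomial.monomial m (b.repr (p.coeff m) j),
    fun τ x => ?_⟩
  have h1 : ∀ c : K, τ c = ∑ j, τ (b j) * ((b.repr c j : ℚ) : ℂ) := by
    intro c
    conv_lhs => rw [← b.sum_repr c]
    rw [map_sum]
    refine Finset.sum_congr rfl fun j _ => ?_
    rw [Algebra.smul_def, map_mul, mul_comm]
    congr 1
    exact (map_ratCast τ _)
  rw [MvPolynomial.eval₂_eq]
  simp only [map_sum, MvPolynomial.aeval_monomial, Finset.mul_sum]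
  rw [Finset.sum_comm]
  refine Finset.sum_congr rfl fun m _ => ?_
  rw [h1 (p.coeff m), Finset.sum_mul]
  refine Finset.sum_congr rfl fun j _ => ?_
  rw [← mul_assoc]
  congr 1

/-- A vector killed by all the embeddings of a basis is zero. -/
theorem comp_zero {ι K : Type*} [Field K] [NumberField K] [Fintype ι]
    (b : Module.Basis ι ℚ K) (y : ι → ℂ) (h : ∀ τ : K →+* ℂ, ∑ j, τ (b j) * y j = 0) :
    y = 0 := by
  classical
  have hc : Fintype.card ι = Fintype.card (K →ₐ[ℚ] ℂ) := by
    rw [AlgHom.card, Module.finrank_eq_card_basis b]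
  let e : ι ≃ (K →ₐ[ℚ] ℂ) := Fintype.equivOfCardEq hc
  have h1 : (Algebra.embeddingsMatrixReindex ℚ ℂ b e).det ≠ 0 := by
    have h2 := Algebra.discr_eq_det_embeddingsMatrixReindex_pow_two ℚ ℂ b e
    have h3 := Algebra.discr_not_zero_of_basis ℚ b
    intro h0
    rw [h0, zero_pow two_ne_zero] at h2
    exact h3 ((algebraMap ℚ ℂ).injective (h2.trans (map_zero _).symm))
  have h4 : (Algebra.embeddingsMatrixReindex ℚ ℂ b e).transpose.mulVec y = 0 := by
    funext i
    exact h ((e i : K →ₐ[ℚ] ℂ) : K →+* ℂ)
  exact Matrix.eq_zero_of_mulVec_eq_zero (by rwa [Matrix.det_transpose]) h4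

/-- **(N2)** A family of conjugate polynomial equations is a family of rational ones. -/
theorem exists_comp_iff {σ ι K : Type*} [Field K] [NumberField K] [Fintype ι]
    (b : Module.Basis ι ℚ K) (p : MvPolynomial σ K) :
    ∃ q : ι → MvPolynomial σ ℚ, (∀ (τ : K →+* ℂ) (x : σ → ℂ),
      ∑ j, τ (b j) * MvPolynomial.aeval x (q j) = MvPolynomial.eval₂ τ x p) ∧
      ∀ x : σ → ℂ, (∀ τ : K →+* ℂ, MvPolynomial.eval₂ τ x p = 0) ↔
        ∀ j, MvPolynomial.aeval x (q j) = 0 := by
  obtain ⟨q, hq⟩ := exists_comp b p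
  refine ⟨q, hq, fun x => ⟨fun h j => ?_, fun h τ => ?_⟩⟩
  · have h1 := comp_zero b (fun j => MvPolynomial.aeval x (q j)) fun τ => by rw [hq, h]
    exact congrFun h1 j
  · rw [← hq]
    exact Finset.sum_eq_zero fun j _ => by rw [h j, mul_zero]

end Pool.Agent.Lib.MP_5d4057_al.VB
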