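import Pool.Agent.Lib.MP_5d4057_al.VB.Dphi
import Pool.Agent.Lib.MP_5d4057_al.VB.ClosedSub
import Pool.Agent.Lib.MP_5d4057_al.VB.AdIrr

/-!
# VB V1.5: the differential of `φ : H(ℝ)⁰ → SU(m,1)` is onto (helper35)
-/

set_option autoImplicit false

namespace Pool.Agent.Lib.MP_5d4057_al.VB

open Matrix Filter Topology Pool.Agent.Lib.MP_5d4057_al Pool.Agent.Lib.MP_5d4057_al.Hyb

variable {N m : ℕ}

theorem continuous_eval_pts (p : MvPolynomial (Fin N × Fin N) ℚ) :
    Continuous fun g : GL (Fin N) ℂ =>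
      MvPolynomial.aeval (fun x : Fin N × Fin N => g.1 x.1 x.2) p := by
  have h1 : (fun g : GL (Fin N) ℂ =>
      MvPolynomial.aeval (fun x : Fin N × Fin N => g.1 x.1 x.2) p) =
      fun g : GL (Fin N) ℂ => MvPolynomial.eval (fun x : Fin N × Fin N => g.1 x.1 x.2)
        (MvPolynomial.map (algebraMap ℚ ℂ) p) := by
    funext g
    rw [MvPolynomial.aeval_def, MvPolynomial.eval_map]
  rw [h1]
  refine (MvPolynomial.continuous_eval _).comp (continuous_pi fun x => ?_)
  have h2 : Continuous fun g : GL (Fin N) ℂ => (g : Matrix (Fin N) (Fin N) ℂ) :=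
    Units.continuous_val
  exact h2.matrix_elem x.1 x.2

theorem isClosed_pts (H : AlgGroup N) : IsClosed (H.pts : Set (GL (Fin N) ℂ)) := by
  have h1 : (H.pts : Set (GL (Fin N) ℂ)) = ⋂ p ∈ H.polys, {g : GL (Fin N) ℂ |
      MvPolynomial.aeval (fun x : Fin N × Fin N => g.1 x.1 x.2) p = 0} := by
    ext g
    simp only [SetLike.mem_coe, H.mem_pts, Set.mem_iInter]
    exact Iff.rfl
  rw [h1]
  exact isClosed_biInter fun p _ => isClosed_eq (continuous_eval_pts p) continuous_const

theorem continuous_map_real : Continuous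
    (GeneralLinearGroup.map Complex.ofRealHom : GL (Fin N) ℝ →* GL (Fin N) ℂ) := by
  refine Units.continuous_iff.2 ⟨?_, ?_⟩
  · exact (Units.continuous_val (M := Matrix (Fin N) (Fin N) ℝ)).matrix_map
      Complex.continuous_ofReal
  · exact ((Units.continuous_val (M := Matrix (Fin N) (Fin N) ℝ)).comp
      continuous_inv).matrix_map Complex.continuous_ofReal

theorem isClosed_real (H : AlgGroup N) : IsClosed (H.real : Set (GL (Fin N) ℝ)) :=
  (isClosed_pts H).preimage continuous_map_real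

/-- `H(ℝ)⁰` as a subgroup of `GL_N(ℝ)`. -/
def AlgGroup.real0G (H : AlgGroup N) : Subgroup (GL (Fin N) ℝ) := H.real0.map H.real.subtype

theorem isClosed_real0G (H : AlgGroup N) : IsClosed (H.real0G : Set (GL (Fin N) ℝ)) := by
  have h1 : IsClosedEmbedding (Subtype.val : H.real → GL (Fin N) ℝ) :=
    (isClosed_real H).isClosedEmbedding_subtypeVal
  have h2 : IsClosed (H.real0 : Set H.real) := isClosed_connectedComponent
  exact h1.isClosedMap _ h2

theorem mem_real0G {H : AlgGroup N} (h : H.real0) : (h.1.1 : GL (Fin N) ℝ) ∈ H.real0G :=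
  ⟨h.1, h.2, rfl⟩

/-- Near `1` all elements of `H(ℝ)⁰` are exponentials of elements of the Lie algebra. -/
theorem near_one (H : AlgGroup N) : ∀ᶠ g in 𝓝 (1 : H.real0), ∃ X ∈ H.lieR,
    mr g = NormedSpace.exp X := by
  have hV : ∀ X : Matrix (Fin N) (Fin N) ℝ, X ∈ H.lieR ↔
      ∀ t : ℝ, ∃ g ∈ H.real0G, (g : Matrix (Fin N) (Fin N) ℝ) = NormedSpace.exp (t • X) := by
    intro X
    constructor
    · intro hX t
      obtain ⟨e, _, _, _, he⟩ := exists_exp0 hX
      exact ⟨(e t).1.1, mem_real0G (e t), he t⟩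
    · intro h
      rw [mem_lieR]
      refine mem_lie_of_exp fun t => ?_
      obtain ⟨g, hg, h1⟩ := h t
      obtain ⟨g', hg', rfl⟩ := hg
      refine ⟨GeneralLinearGroup.map Complex.ofRealHom g'.1, g'.2, ?_⟩
      have h2 : (t • X).map Complex.ofReal = t • X.map Complex.ofReal := by
        ext i j
        simp
      rw [← h2, ← exp_map_real, ← h1]
      rfl
  have h1 := closed_sub (isClosed_real0G H) hV
  have hc : Continuous fun g : H.real0 => (g.1.1 : GL (Fin N) ℝ) :=
    continuous_subtype_val.comp continuous_subtype_val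
  have h2 : Tendsto (fun g : H.real0 => (g.1.1 : GL (Fin N) ℝ)) (𝓝 1) (𝓝 1) := hc.tendsto 1
  filter_upwards [h2.eventually h1] with g hg
  exact hg (mem_real0G g)

theorem connected_real0 (H : AlgGroup N) : ConnectedSpace H.real0 :=
  isConnected_iff_connectedSpace.1 (isConnected_connectedComponent (x := (1 : H.real)))

/-- If the differential vanishes then `φ` is trivial. -/
theorem phi_eq_one {H : AlgGroup N} {φ : H.real0 →* SUGroup m} (hφ : Continuous φ)
    {D : H.lieR →ₗ[ℝ] Matrix (Fin (m + 1)) (Fin (m + 1)) ℂ}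
    (hD : ∀ (X : H.lieR) (t : ℝ) (g : H.real0),
      mr g = NormedSpace.exp (t • (X : Matrix (Fin N) (Fin N) ℝ)) →
        (φ g).toMatrix = NormedSpace.exp (t • D X)) (h0 : ∀ X, D X = 0) (g : H.real0) :
    φ g = 1 := by
  have hcon : ConnectedSpace H.real0 := connected_real0 H
  let _ : NormedRing (Matrix (Fin (m + 1)) (Fin (m + 1)) ℂ) := Matrix.linftyOpNormedRing
  have hψ : Continuous ((tmHom m).comp φ) := (continuous_toMatrix m).comp hφ
  have h1 : ∀ᶠ g in 𝓝 (1 : H.real0), ((tmHom m).comp φ) g = 1 := by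
    filter_upwards [near_one H] with g hg
    obtain ⟨X, hX, h⟩ := hg
    have h2 := hD ⟨X, hX⟩ 1 g (by rw [one_smul]; exact h)
    rw [h0, smul_zero, NormedSpace.exp_zero] at h2
    exact h2
  have h2 := eq_one_of_near hψ h1 g
  exact toMatrix_injective h2

theorem nontrivial_SU (hm : 1 ≤ m) : ∃ g : SUGroup m, g ≠ 1 := by
  by_contra hcon
  push Not at hcon
  have h0 : (0 : Fin (m + 1)) ≠ Fin.last m := by
    intro h
    have := congrArg Fin.val h
    simp at this
    omega
  have htr : (Matrix.single (0 : Fin (m + 1)) (Fin.last m) (1 : ℂ)).trace = 0 :=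
    Matrix.trace_single_eq_of_ne _ _ _ h0
  have htr' : (Matrix.single (Fin.last m) (0 : Fin (m + 1)) (1 : ℂ)).trace = 0 :=
    Matrix.trace_single_eq_of_ne _ _ _ h0.symm
  rcases ad_irr_top hm (S := Submodule.span ℂ {Matrix.single (0 : Fin (m + 1)) (Fin.last m) (1 : ℂ)})
    (fun γ X hX => by
      rw [hcon γ, hcon (1 : SUGroup m)⁻¹, toMatrix_one, Matrix.one_mul, Matrix.mul_one]
      exact hX)
    (fun X hX => by
      obtain ⟨c, rfl⟩ := Submodule.mem_span_singleton.1 hX
      rw [trace_smul, htr, smul_zero]) with h | h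
  · rw [Submodule.span_singleton_eq_bot] at h
    have h1 := congrFun (congrFun h 0) (Fin.last m)
    simp at h1
  · obtain ⟨c, hc⟩ := Submodule.mem_span_singleton.1 (h _ htr')
    have h1 := congrFun (congrFun hc (Fin.last m)) 0
    rw [Matrix.smul_apply, Matrix.single_apply_of_ne, Matrix.single_apply_same, smul_zero] at h1
    · exact zero_ne_one h1
    · exact fun h => h0 h.1

/-- **The differential is onto** (the complex span of its image is the space of matrices of trace zero). -/
theorem dphi_onto (hm : 1 ≤ m) {H : AlgGroup N} {φ : H.real0 →* SUGroup m} (hφ : Continuous φ)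
    (hs : Function.Surjective φ) {D : H.lieR →ₗ[ℝ] Matrix (Fin (m + 1)) (Fin (m + 1)) ℂ}
    (hD : ∀ (X : H.lieR) (t : ℝ) (g : H.real0),
      mr g = NormedSpace.exp (t • (X : Matrix (Fin N) (Fin N) ℝ)) →
        (φ g).toMatrix = NormedSpace.exp (t • D X))
    (htr : ∀ X, (D X).trace = 0)
    (hcj : ∀ (h : H.real0) (X Y : H.lieR), (Y : Matrix (Fin N) (Fin N) ℝ) = mr h * X * mr h⁻¹ →
        D Y = (φ h).toMatrix * D X * ((φ h)⁻¹).toMatrix) (Y : Matrix (Fin (m + 1)) (Fin (m + 1)) ℂ)
    (hY : Y.trace = 0) : Y ∈ Submodule.span ℂ (Set.range D) := by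
  have hst : ∀ γ : SUGroup m, ∀ X ∈ Submodule.span ℂ (Set.range D),
      γ.toMatrix * X * (γ⁻¹).toMatrix ∈ Submodule.span ℂ (Set.range D) := by
    intro γ X hX
    obtain ⟨h, rfl⟩ := hs γ
    induction hX using Submodule.span_induction with
    | mem X hX =>
      obtain ⟨Z, rfl⟩ := hX
      rw [← hcj h Z ⟨mr h * Z * mr h⁻¹, lieR_conj Z.2 h⟩ rfl]
      exact Submodule.subset_span ⟨_, rfl⟩
    | zero =>
      rw [Matrix.mul_zero, Matrix.zero_mul]
      exact Submodule.zero_mem _
    | add A B _ _ hA hB =>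
      rw [Matrix.mul_add, Matrix.add_mul]
      exact Submodule.add_mem _ hA hB
    | smul c A _ hA =>
      rw [Matrix.mul_smul, Matrix.smul_mul]
      exact Submodule.smul_mem _ c hA
  have hst0 : ∀ X ∈ Submodule.span ℂ (Set.range D), X.trace = 0 := by
    intro X hX
    induction hX using Submodule.span_induction with
    | mem X hX =>
      obtain ⟨Z, rfl⟩ := hX
      exact htr Z
    | zero => exact trace_zero _ _
    | add A B _ _ hA hB => rw [trace_add, hA, hB, add_zero]
    | smul c A _ hA => rw [trace_smul, hA, smul_zero]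
  rcases ad_irr_top hm hst hst0 with h | h
  · exfalso
    have h0 : ∀ X, D X = 0 := fun X => by
      have h1 : D X ∈ Submodule.span ℂ (Set.range D) := Submodule.subset_span ⟨X, rfl⟩
      rw [h] at h1
      exact (Submodule.mem_bot ℂ).1 h1
    obtain ⟨g, hg⟩ := nontrivial_SU hm
    obtain ⟨a, rfl⟩ := hs g
    exact hg (phi_eq_one hφ hD h0 a)
  · exact h Y hY

end Pool.Agent.Lib.MP_5d4057_al.VB
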