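import Pool.Agent.Lib.MP_5d4057_al.VB.Alg

/-!
# VERB V2: the real points
-/

set_option autoImplicit false

namespace Pool.Agent.Lib.MP_5d4057_al.VB

open Matrix Pool.Agent.Lib.MP_5d4057_al Pool.Agent.Lib.MP_5d4057_al.Hyb

open scoped ComplexOrder

namespace Dat

variable {m r N : ℕ} (D : Dat m r N)

/-- The component at the place `i` of a real point. -/
noncomputable def XR (x : Fin N → ℝ) (i : Fin (r + 1)) : Matrix (Fin (m + 1)) (Fin (m + 1)) ℂ :=
  D.X (fun k => (x k : ℂ)) i

/-- The real points of the group. -/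
def PtR (x : Fin N → ℝ) : Prop :=
  ∀ i, (D.XR x i)ᴴ * D.Z i * D.XR x i = D.Z i ∧ (D.XR x i).det = 1

/-- The component at the place conjugate to `i` of a real point. -/
theorem Y_real (x : Fin N → ℝ) (i : Fin (r + 1)) :
    D.Y (fun k => (x k : ℂ)) i = (D.XR x i).map (starRingEnd ℂ) := by
  rw [Y_eq, XR]
  congr 2
  funext k
  exact Complex.conj_ofReal (x k)

theorem ptR_iff (x : Fin N → ℝ) : D.PtR x ↔ D.Pt fun k => (x k : ℂ) := by
  have h : ∀ i, (D.Y (fun k => (x k : ℂ)) i)ᵀ = (D.XR x i)ᴴ := fun i => by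
    rw [Y_real]
    rfl
  constructor
  · intro hx i
    rw [h]
    exact hx i
  · intro hx i
    rw [← h]
    exact hx i

/-- `XR` as a real linear map. -/
noncomputable def XRl :
    (Fin N → ℝ) →ₗ[ℝ] (Fin (r + 1) → Matrix (Fin (m + 1)) (Fin (m + 1)) ℂ) where
  toFun := D.XR
  map_add' x y := by
    funext i
    simp only [XR, X, Pi.add_apply, Complex.ofReal_add, add_smul, Finset.sum_add_distrib]
  map_smul' c x := by
    funext i
    simp only [XR, X, Pi.smul_apply, smul_eq_mul, Complex.ofReal_mul, RingHom.id_apply, mul_smul,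
      Finset.smul_sum, Complex.coe_smul]

theorem XRl_bijective : Function.Bijective D.XRl := by
  constructor
  · intro x y hxy
    have h1 : ∀ i, D.XR x i = D.XR y i := fun i => congrFun hxy i
    have h2 : (fun k => (x k : ℂ)) = fun k => (y k : ℂ) :=
      D.ext' h1 fun i => by rw [Y_real, Y_real, h1]
    funext k
    exact Complex.ofReal_injective (congrFun h2 k)
  · intro U
    obtain ⟨z, ⟨hX, hY⟩, huniq⟩ := D.bij U fun i => (U i).map (starRingEnd ℂ)
    have hz : (fun k => (starRingEnd ℂ) (z k)) = z := by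
      apply huniq
      constructor
      · intro i
        have h1 := D.Y_star z i
        rw [show D.Y z i = (U i).map (starRingEnd ℂ) from hY i] at h1
        rw [show (∑ k, (starRingEnd ℂ) (z k) • D.b k i) =
          D.X (fun k => (starRingEnd ℂ) (z k)) i from rfl, ← h1]
        ext a b
        simp
      · intro i
        have h1 := D.X_star z i
        rw [show D.X z i = U i from hX i] at h1
        exact h1.symm
    refine ⟨fun k => (z k).re, ?_⟩
    funext i
    have h3 : (fun k => (((z k).re : ℝ) : ℂ)) = z := by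
      funext k
      exact Complex.conj_eq_iff_re.1 (congrFun hz k)
    show D.X (fun k => (((z k).re : ℝ) : ℂ)) i = U i
    rw [h3]
    exact hX i

/-- The real linear bijection of `ℝ^N` with the product of the matrix algebras. -/
theorem exists_real : ∃ T : (Fin (r + 1) → Matrix (Fin (m + 1)) (Fin (m + 1)) ℂ) →ₗ[ℝ] (Fin N → ℝ),
    (∀ U i, D.XR (T U) i = U i) ∧ ∀ x, T (D.XR x) = x := by
  let E := LinearEquiv.ofBijective D.XRl D.XRl_bijective
  refine ⟨E.symm.toLinearMap, fun U i => ?_, fun x => ?_⟩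
  · exact congrFun (E.apply_symm_apply U) i
  · exact E.symm_apply_apply x

variable {H : AlgGroup N} (hH : ∀ g : GL (Fin N) ℂ, g ∈ H.pts ↔
    ∃ x, D.Pt x ∧ (g : Matrix (Fin N) (Fin N) ℂ) = D.L x)

include hH

theorem mem_real (g : GL (Fin N) ℝ) :
    g ∈ H.real ↔ ∃ x, D.PtR x ∧ (g : Matrix (Fin N) (Fin N) ℝ) = D.L x := by
  have h0 : g ∈ H.real ↔ ∃ z, D.Pt z ∧
      (g : Matrix (Fin N) (Fin N) ℝ).map Complex.ofRealHom = D.L z := hH _
  rw [h0]
  constructor
  · rintro ⟨z, hz, hg⟩
    have h1 : z = fun k => ((((g : Matrix (Fin N) (Fin N) ℝ) *ᵥ D.u) k : ℝ) : ℂ) := by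
      funext k
      have h2 := congrFun (D.L_mulVec_u z) k
      rw [← h2, ← hg]
      simp [mulVec, dotProduct, u]
    refine ⟨(g : Matrix (Fin N) (Fin N) ℝ) *ᵥ D.u, ?_, ?_⟩
    · rw [ptR_iff, ← h1]
      exact hz
    · ext i j
      have h3 := congrFun (congrFun hg i) j
      rw [h1] at h3
      have h4 := congrFun (congrFun
        (D.L_map Complex.ofRealHom ((g : Matrix (Fin N) (Fin N) ℝ) *ᵥ D.u)) i) j
      exact Complex.ofReal_injective (h3.trans h4.symm)
  · rintro ⟨x, hx, hg⟩
    refine ⟨fun k => (x k : ℂ), (D.ptR_iff x).1 hx, ?_⟩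
    rw [hg, L_map]
    rfl

end Dat

end Pool.Agent.Lib.MP_5d4057_al.VB
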