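import Pool.Agent.Lib.MP_5d4057_al.HM.Aut
import Pool.Agent.Lib.MP_5d4057_al.Hyb.Arith
import Pool.Agent.Lib.MP_5d4057_al.Hyb.Rk

/-!
# VERB V2: conjugates of a unitary form (Skolem - Noether, traces, positive forms)

`A` is an algebra as in `IsUnitaryForm m K A`. Every semilinear ring homomorphism from `A` to the matrices is conjugate to the
entrywise application of an automorphism of `ℂ`; traces and determinants of the elements of `A` lie in `K`; at the
embeddings of `K` other than the identity and conjugation the involution is `X ↦ Z⁻¹ Xᴴ Z` with `Z` positive definite.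
-/

set_option autoImplicit false

namespace Pool.Agent.Lib.MP_5d4057_al.VB.Sk

open Matrix Pool.Agent.Lib.MP_5d4057_al Pool.Agent.Lib.MP_5d4057_al.Hyb Pool.Agent.Lib.MP_5d4057_al.HM

open scoped ComplexOrder

variable {m : ℕ}

/-- Skolem - Noether for complex matrix algebras. -/
theorem alg_conj (F : Matrix (Fin (m + 1)) (Fin (m + 1)) ℂ →ₐ[ℂ] Matrix (Fin (m + 1)) (Fin (m + 1)) ℂ) :
    ∃ W W' : Matrix (Fin (m + 1)) (Fin (m + 1)) ℂ, W * W' = 1 ∧ W' * W = 1 ∧
      ∀ X, F X = W * X * W' := by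
  let F' := AlgEquiv.ofBijective F F.bijective
  let G : ((Fin (m + 1) → ℂ) →ₗ[ℂ] (Fin (m + 1) → ℂ)) ≃ₐ[ℂ]
      ((Fin (m + 1) → ℂ) →ₗ[ℂ] (Fin (m + 1) → ℂ)) :=
    (Matrix.toLinAlgEquiv'.symm.trans F').trans Matrix.toLinAlgEquiv'
  obtain ⟨T, hT⟩ := G.eq_linearEquivConjAlgEquiv
  refine ⟨LinearMap.toMatrix' T.toLinearMap, LinearMap.toMatrix' T.symm.toLinearMap, ?_, ?_, ?_⟩
  · rw [← LinearMap.toMatrix'_comp, LinearEquiv.comp_symm, LinearMap.toMatrix'_id]
  · rw [← LinearMap.toMatrix'_comp, LinearEquiv.symm_comp, LinearMap.toMatrix'_id]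
  · intro X
    have h1 : G (Matrix.toLinAlgEquiv' X) = Matrix.toLinAlgEquiv' (F X) := by
      show Matrix.toLinAlgEquiv' (F' (Matrix.toLinAlgEquiv'.symm (Matrix.toLinAlgEquiv' X))) = _
      rw [AlgEquiv.symm_apply_apply]
      rfl
    have h2 : F X = LinearMap.toMatrix' (Matrix.toLinAlgEquiv' (F X)) := by
      exact (LinearMap.toMatrix'_toLin' (F X)).symm
    rw [h2, ← h1, hT, LinearEquiv.conjAlgEquiv_apply, LinearMap.toMatrix'_comp,
      LinearMap.toMatrix'_comp]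
    have h3 : LinearMap.toMatrix' (Matrix.toLinAlgEquiv' X) = X := LinearMap.toMatrix'_toLin' X
    rw [h3, Matrix.mul_assoc]

variable {K : Subfield ℂ} {A : Subalgebra K (Matrix (Fin (m + 1)) (Fin (m + 1)) ℂ)}

theorem map_smul_mat (t : ℂ ≃+* ℂ) (c : ℂ) {l : ℕ} (X : Matrix (Fin l) (Fin l) ℂ) :
    (c • X).map t = t c • X.map t := by
  ext i j
  simp [Matrix.map_apply]

theorem map_ksmul_mat (t : ℂ ≃+* ℂ) (c : K) {l : ℕ} (X : Matrix (Fin l) (Fin l) ℂ) :
    (c • X).map t = t (c : ℂ) • X.map t := by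
  have h : c • X = (c : ℂ) • X := rfl
  rw [h, map_smul_mat]

theorem map_sum_mat (t : ℂ ≃+* ℂ) {l : ℕ} {ι : Type} (s : Finset ι)
    (X : ι → Matrix (Fin l) (Fin l) ℂ) : (∑ i ∈ s, X i).map t = ∑ i ∈ s, (X i).map t := by
  have h := map_sum (t.toRingHom.mapMatrix (m := Fin l)) X s
  exact h

theorem finite_form (hA : IsUnitaryForm m K A) : Module.Finite K A :=
  Module.finite_of_finrank_pos (by rw [hA.rank]; positivity)

/-- A `K`-basis of `A` is a complex basis of the matrices, also after an automorphism of `ℂ`. -/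
theorem basis_form (hA : IsUnitaryForm m K A) {ι : Type} [Fintype ι] (v : Module.Basis ι K A)
    (t : ℂ ≃+* ℂ) :
    ∃ b : Module.Basis ι ℂ (Matrix (Fin (m + 1)) (Fin (m + 1)) ℂ),
      ∀ i, b i = ((v i : A) : Matrix (Fin (m + 1)) (Fin (m + 1)) ℂ).map t := by
  have hs : Submodule.span ℂ (Set.range fun i =>
      ((v i : A) : Matrix (Fin (m + 1)) (Fin (m + 1)) ℂ)) = ⊤ := by
    rw [eq_top_iff, ← hA.span, Submodule.span_le]
    intro a ha
    have h1 : a = ∑ i, (v.repr ⟨a, ha⟩ i) • ((v i : A) : Matrix (Fin (m + 1)) (Fin (m + 1)) ℂ) := by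
      have h := congrArg (Subtype.val) (v.sum_repr ⟨a, ha⟩)
      rw [← Subalgebra.coe_val] at h
      rw [map_sum] at h
      simpa using h.symm
    rw [h1]
    refine Submodule.sum_mem _ fun i _ => ?_
    have h2 : (v.repr ⟨a, ha⟩ i) • ((v i : A) : Matrix (Fin (m + 1)) (Fin (m + 1)) ℂ) =
        ((v.repr ⟨a, ha⟩ i : K) : ℂ) • ((v i : A) : Matrix (Fin (m + 1)) (Fin (m + 1)) ℂ) := rfl
    rw [h2]
    exact Submodule.smul_mem _ _ (Submodule.subset_span ⟨i, rfl⟩)
  have ht : ⊤ ≤ Submodule.span ℂ (Set.range fun i =>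
      ((v i : A) : Matrix (Fin (m + 1)) (Fin (m + 1)) ℂ).map t) := by
    have h := span_image_map t _ hs
    rw [← Set.range_comp] at h
    exact h.ge
  have hc : Fintype.card ι = Module.finrank ℂ (Matrix (Fin (m + 1)) (Fin (m + 1)) ℂ) := by
    have h1 := Module.finrank_eq_card_basis v
    rw [hA.rank] at h1
    rw [Module.finrank_matrix, ← h1]
    simp [pow_two]
  exact ⟨basisOfTopLeSpanOfCardEqFinrank _ ht hc, fun i => by
    rw [coe_basisOfTopLeSpanOfCardEqFinrank]⟩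

theorem coe_repr {ι : Type} [Fintype ι] (v : Module.Basis ι K A) (a : A) :
    (a : Matrix (Fin (m + 1)) (Fin (m + 1)) ℂ) =
      ∑ i, ((v.repr a i : K) : ℂ) • ((v i : A) : Matrix (Fin (m + 1)) (Fin (m + 1)) ℂ) := by
  have h := congrArg (Subtype.val) (v.sum_repr a)
  rw [← Subalgebra.coe_val] at h
  rw [map_sum] at h
  have h2 := h.symm
  simp only [map_smul] at h2
  exact h2

/-- Skolem - Noether for `A`. -/
theorem exists_conj (hA : IsUnitaryForm m K A) (t : ℂ ≃+* ℂ)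
    (f : A →+* Matrix (Fin (m + 1)) (Fin (m + 1)) ℂ)
    (hf : ∀ (c : K) (a : A), f (c • a) = t (c : ℂ) • f a) :
    ∃ W W' : Matrix (Fin (m + 1)) (Fin (m + 1)) ℂ, W * W' = 1 ∧ W' * W = 1 ∧
      ∀ a : A, f a = W * (a : Matrix (Fin (m + 1)) (Fin (m + 1)) ℂ).map t * W' := by
  have := finite_form hA
  let v := Module.finBasis K A
  obtain ⟨b, hb⟩ := basis_form hA v t
  let F : Matrix (Fin (m + 1)) (Fin (m + 1)) ℂ →ₗ[ℂ] Matrix (Fin (m + 1)) (Fin (m + 1)) ℂ :=
    b.constr ℂ fun i => f (v i)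
  have hF0 : ∀ i, F (((v i : A) : Matrix (Fin (m + 1)) (Fin (m + 1)) ℂ).map t) = f (v i) := by
    intro i
    rw [← hb i]
    exact b.constr_basis ℂ _ i
  have hF : ∀ a : A, F ((a : Matrix (Fin (m + 1)) (Fin (m + 1)) ℂ).map t) = f a := by
    intro a
    conv_lhs => rw [coe_repr v a, map_sum_mat]
    conv_rhs => rw [← v.sum_repr a]
    rw [map_sum, map_sum]
    refine Finset.sum_congr rfl fun i _ => ?_
    rw [map_smul_mat, map_smul, hF0, hf]
  have hm : ∀ X Y, F (X * Y) = F X * F Y := by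
    have h : (LinearMap.mul ℂ (Matrix (Fin (m + 1)) (Fin (m + 1)) ℂ)).compr₂ F =
        (LinearMap.mul ℂ (Matrix (Fin (m + 1)) (Fin (m + 1)) ℂ)).compl₁₂ F F := by
      refine b.ext fun i => b.ext fun j => ?_
      show F (b i * b j) = F (b i) * F (b j)
      rw [hb, hb, ← Matrix.map_mul (f := t), hF0, hF0, ← map_mul, ← hF (v i * v j)]
      rfl
    intro X Y
    exact congrArg (fun L : _ →ₗ[ℂ] _ →ₗ[ℂ] Matrix (Fin (m + 1)) (Fin (m + 1)) ℂ => L X Y) h
  have h1 : F 1 = 1 := by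
    have h := hF 1
    have h2 : ((1 : A) : Matrix (Fin (m + 1)) (Fin (m + 1)) ℂ).map t = 1 :=
      Matrix.map_one (n := Fin (m + 1)) t (map_zero t) (map_one t)
    rw [map_one, h2] at h
    exact h
  obtain ⟨W, W', h2, h3, h4⟩ := alg_conj (AlgHom.ofLinearMap F h1 hm)
  refine ⟨W, W', h2, h3, fun a => ?_⟩
  rw [← hF a]
  exact h4 _

theorem adj_mul (a b : Matrix (Fin (m + 1)) (Fin (m + 1)) ℂ) :
    adjoint m (a * b) = adjoint m b * adjoint m a := by
  have hJ := J_mul_J m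
  calc adjoint m (a * b) = J m * (bᴴ * aᴴ) * J m := by rw [adjoint, conjTranspose_mul]
    _ = J m * bᴴ * (J m * J m) * aᴴ * J m := by
        rw [hJ, Matrix.mul_one]
        simp only [Matrix.mul_assoc]
    _ = adjoint m b * adjoint m a := by
        rw [adjoint, adjoint]
        simp only [Matrix.mul_assoc]

theorem adj_adj (a : Matrix (Fin (m + 1)) (Fin (m + 1)) ℂ) : adjoint m (adjoint m a) = a := by
  have hJ := J_mul_J m
  rw [adjoint, adjoint, conjTranspose_mul, conjTranspose_mul, conjTranspose_conjTranspose,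
    J_conjTranspose]
  calc J m * (J m * (a * J m)) * J m = (J m * J m) * a * (J m * J m) := by
        simp only [Matrix.mul_assoc]
    _ = a := by rw [hJ, Matrix.one_mul, Matrix.mul_one]

theorem adj_one : adjoint m 1 = 1 := by
  rw [adjoint, conjTranspose_one, Matrix.mul_one, J_mul_J]

theorem adj_zero : adjoint m 0 = 0 := by
  rw [adjoint, conjTranspose_zero, Matrix.mul_zero, Matrix.zero_mul]

theorem adj_add (x y : Matrix (Fin (m + 1)) (Fin (m + 1)) ℂ) :
    adjoint m (x + y) = adjoint m x + adjoint m y := by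
  rw [adjoint, adjoint, adjoint, conjTranspose_add, Matrix.mul_add, Matrix.add_mul]

theorem adj_smul (k : ℂ) (x : Matrix (Fin (m + 1)) (Fin (m + 1)) ℂ) :
    adjoint m (k • x) = (starRingEnd ℂ) k • adjoint m x := by
  rw [adjoint, adjoint, conjTranspose_smul, Matrix.mul_smul, Matrix.smul_mul]
  rfl

theorem mapT_mul (t : ℂ ≃+* ℂ) {l : ℕ} (X Y : Matrix (Fin l) (Fin l) ℂ) :
    (X * Y).map t = X.map t * Y.map t := Matrix.map_mul (f := t)

theorem mapT_one (t : ℂ ≃+* ℂ) {l : ℕ} : (1 : Matrix (Fin l) (Fin l) ℂ).map t = 1 :=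
  Matrix.map_one (n := Fin l) t (map_zero t) (map_one t)

theorem mapT_add (t : ℂ ≃+* ℂ) {l : ℕ} (X Y : Matrix (Fin l) (Fin l) ℂ) :
    (X + Y).map t = X.map t + Y.map t := Matrix.map_add t (map_add t) X Y

theorem mapT_zero (t : ℂ ≃+* ℂ) {l : ℕ} : (0 : Matrix (Fin l) (Fin l) ℂ).map t = 0 :=
  Matrix.map_zero (n := Fin l) (m := Fin l) t (map_zero t)

theorem mapT_trace (t : ℂ ≃+* ℂ) {l : ℕ} (X : Matrix (Fin l) (Fin l) ℂ) :
    (X.map t).trace = t X.trace := by
  rw [Matrix.trace, Matrix.trace, map_sum]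
  rfl

theorem mapT_det (t : ℂ ≃+* ℂ) {l : ℕ} (X : Matrix (Fin l) (Fin l) ℂ) :
    (X.map t).det = t X.det := by
  exact (RingHom.map_det t.toRingHom X).symm

/-- Two automorphisms of `ℂ` which agree on `K`. -/
theorem conj_same (hA : IsUnitaryForm m K A) {t t' : ℂ ≃+* ℂ} (h : ∀ c : K, t' (c : ℂ) = t (c : ℂ)) :
    ∃ W W' : Matrix (Fin (m + 1)) (Fin (m + 1)) ℂ, W * W' = 1 ∧ W' * W = 1 ∧
      ∀ a ∈ A, a.map t' = W * a.map t * W' := by
  let f : A →+* Matrix (Fin (m + 1)) (Fin (m + 1)) ℂ :=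
    { toFun := fun a => (a : Matrix (Fin (m + 1)) (Fin (m + 1)) ℂ).map t'
      map_one' := mapT_one t'
      map_mul' := fun a b => mapT_mul t' _ _
      map_zero' := mapT_zero t'
      map_add' := fun a b => mapT_add t' _ _ }
  obtain ⟨W, W', h1, h2, h3⟩ := exists_conj hA t f (by
    intro c a
    show (c • (a : Matrix (Fin (m + 1)) (Fin (m + 1)) ℂ)).map t' = _
    rw [map_ksmul_mat, h]
    rfl)
  exact ⟨W, W', h1, h2, fun a ha => h3 ⟨a, ha⟩⟩

/-- The embedding conjugate to a given one. -/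
theorem conj_adj (hA : IsUnitaryForm m K A) {t t' : ℂ ≃+* ℂ}
    (h : ∀ c : K, t' (c : ℂ) = t ((starRingEnd ℂ) (c : ℂ))) :
    ∃ W W' : Matrix (Fin (m + 1)) (Fin (m + 1)) ℂ, W * W' = 1 ∧ W' * W = 1 ∧
      ∀ a ∈ A, a.map t' = W * ((adjoint m a).map t)ᵀ * W' := by
  let f : A →+* Matrix (Fin (m + 1)) (Fin (m + 1)) ℂ :=
    { toFun := fun a => ((adjoint m (a : Matrix (Fin (m + 1)) (Fin (m + 1)) ℂ)).map t)ᵀ
      map_one' := by
        show ((adjoint m 1).map t)ᵀ = 1
        rw [adj_one, mapT_one, transpose_one]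
      map_mul' := fun a b => by
        show ((adjoint m ((a : Matrix (Fin (m + 1)) (Fin (m + 1)) ℂ) * b)).map t)ᵀ = _
        rw [adj_mul, mapT_mul, transpose_mul]
      map_zero' := by
        show ((adjoint m 0).map t)ᵀ = 0
        rw [adj_zero, mapT_zero, transpose_zero]
      map_add' := fun a b => by
        show ((adjoint m ((a : Matrix (Fin (m + 1)) (Fin (m + 1)) ℂ) + b)).map t)ᵀ = _
        rw [adj_add, mapT_add, transpose_add] }
  obtain ⟨W, W', h1, h2, h3⟩ := exists_conj hA t' f (by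
    intro c a
    show ((adjoint m ((c : ℂ) • (a : Matrix (Fin (m + 1)) (Fin (m + 1)) ℂ))).map t)ᵀ = _
    rw [adj_smul, map_smul_mat, transpose_smul, h]
    rfl)
  refine ⟨W', W, h2, h1, fun a ha => ?_⟩
  have h4 : ((adjoint m a).map t)ᵀ = W * a.map t' * W' := h3 ⟨a, ha⟩
  rw [h4]
  calc a.map t' = (W' * W) * a.map t' * (W' * W) := by rw [h2, Matrix.one_mul, Matrix.mul_one]
    _ = _ := by simp only [Matrix.mul_assoc]

theorem trace_mem (hA : IsUnitaryForm m K A) {a : Matrix (Fin (m + 1)) (Fin (m + 1)) ℂ}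
    (ha : a ∈ A) : a.trace ∈ K := by
  have := hA.cm.1
  refine mem_of_fixed K _ fun t ht => ?_
  obtain ⟨W, W', -, h2, h3⟩ := conj_same hA (t := RingEquiv.refl ℂ) (t' := t) (by
    intro c
    rw [ht c]
    rfl)
  have h4 := h3 a ha
  have h5 : a.map (RingEquiv.refl ℂ) = a := by
    ext i j
    rfl
  rw [h5] at h4
  rw [← mapT_trace, h4, Matrix.trace_mul_cycle, h2, Matrix.one_mul]

theorem det_mem (hA : IsUnitaryForm m K A) {a : Matrix (Fin (m + 1)) (Fin (m + 1)) ℂ}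
    (ha : a ∈ A) : a.det ∈ K := by
  have := hA.cm.1
  refine mem_of_fixed K _ fun t ht => ?_
  obtain ⟨W, W', h1, h2, h3⟩ := conj_same hA (t := RingEquiv.refl ℂ) (t' := t) (by
    intro c
    rw [ht c]
    rfl)
  have h4 := h3 a ha
  have h5 : a.map (RingEquiv.refl ℂ) = a := by
    ext i j
    rfl
  rw [h5] at h4
  have h6 : W.det * W'.det = 1 := by rw [← det_mul, h1, det_one]
  rw [← mapT_det, h4, det_mul, det_mul]
  calc W.det * a.det * W'.det = (W.det * W'.det) * a.det := by ring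
    _ = a.det := by rw [h6, one_mul]

/-- The conjugates of `A` are dense in the matrices. -/
theorem dense_map (hA : IsUnitaryForm m K A) (t : ℂ ≃+* ℂ)
    (X : Matrix (Fin (m + 1)) (Fin (m + 1)) ℂ) :
    X ∈ closure ((fun a : Matrix (Fin (m + 1)) (Fin (m + 1)) ℂ => a.map t) ''
      (A : Set (Matrix (Fin (m + 1)) (Fin (m + 1)) ℂ))) := by
  set S := (fun a : Matrix (Fin (m + 1)) (Fin (m + 1)) ℂ => a.map t) ''
      (A : Set (Matrix (Fin (m + 1)) (Fin (m + 1)) ℂ)) with hS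
  -- stability of the closure
  have hadd : ∀ X ∈ closure S, ∀ Y ∈ closure S, X + Y ∈ closure S := by
    intro X hX Y hY
    refine map_mem_closure₂ continuous_add hX hY ?_
    rintro _ ⟨a, ha, rfl⟩ _ ⟨b, hb, rfl⟩
    exact ⟨a + b, A.add_mem ha hb, mapT_add t a b⟩
  have hsmulK : ∀ c : K, ∀ X ∈ closure S, t (c : ℂ) • X ∈ closure S := by
    intro c X hX
    refine map_mem_closure (continuous_const_smul (t (c : ℂ))) hX ?_
    rintro _ ⟨a, ha, rfl⟩
    exact ⟨c • a, A.smul_mem ha c, map_ksmul_mat t c a⟩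
  have hreal : ∀ r : ℝ, ∀ X ∈ closure S, (r : ℂ) • X ∈ closure S := by
    intro r X hX
    have hcl : IsClosed {r : ℝ | (r : ℂ) • X ∈ closure S} := by
      refine isClosed_closure.preimage ?_
      exact (Complex.continuous_ofReal.smul continuous_const)
    refine Rat.denseRange_cast.induction_on (p := fun r : ℝ => (r : ℂ) • X ∈ closure S) r hcl ?_
    intro q
    have h1 := hsmulK (q : K) X hX
    have h2 : t (((q : K) : ℂ)) = ((q : ℝ) : ℂ) := by
      push_cast
      exact map_ratCast t q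
    rwa [h2] at h1
  obtain ⟨-, ⟨κ, hκ, hκ'⟩, hst, hcm⟩ := hA.cm
  have hnr : (t κ).im ≠ 0 := by
    intro h0
    have h1 := hcm (t.toRingHom.comp K.subtype) ⟨κ, hκ⟩ ⟨_, hst κ hκ⟩ rfl
    have h2 : t ((starRingEnd ℂ) κ) = (starRingEnd ℂ) (t κ) := h1
    have h3 : (starRingEnd ℂ) (t κ) = t κ := Complex.conj_eq_iff_im.2 h0
    rw [h3] at h2
    exact hκ' (t.injective h2)
  have hcomp : ∀ z : ℂ, ∀ X ∈ closure S, z • X ∈ closure S := by
    intro z X hX
    have h1 : z = ((z.re - z.im / (t κ).im * (t κ).re : ℝ) : ℂ) +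
        ((z.im / (t κ).im : ℝ) : ℂ) * t κ := by
      apply Complex.ext
      · simp
      · simp
        field_simp
    rw [h1, add_smul, mul_smul]
    exact hadd _ (hreal _ _ hX) _ (hreal _ _ (hsmulK ⟨κ, hκ⟩ X hX))
  let N : Submodule ℂ (Matrix (Fin (m + 1)) (Fin (m + 1)) ℂ) :=
    { carrier := closure S
      add_mem' := fun {X Y} hX hY => hadd X hX Y hY
      zero_mem' := subset_closure ⟨0, A.zero_mem, mapT_zero t⟩
      smul_mem' := fun c X hX => hcomp c X hX }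
  have hN : N = ⊤ := by
    rw [eq_top_iff, ← span_image_map t _ hA.span, Submodule.span_le]
    exact subset_closure
  have : X ∈ N := by
    rw [hN]
    trivial
  exact this

/-- A Hermitian matrix `Z` for which `X ↦ tr (Z⁻¹ Xᴴ Z X)` is nonnegative is definite. -/
theorem def_of_nonneg {l : ℕ} {Z Z' : Matrix (Fin l) (Fin l) ℂ} (hZ : Zᴴ = Z) (hZ' : Z' * Z = 1)
    (h : ∀ X : Matrix (Fin l) (Fin l) ℂ, 0 ≤ (Z' * Xᴴ * Z * X).trace.re) :
    Z.PosDef ∨ (-Z).PosDef := by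
  have hu : IsUnit Z := IsUnit.of_mul_eq_one_right Z' hZ'
  have hreal : ∀ u : Fin l → ℂ, (star u ⬝ᵥ (Z *ᵥ u)).im = 0 := by
    intro u
    rw [← Complex.conj_eq_iff_im]
    have h1 : star (star u ⬝ᵥ (Z *ᵥ u)) = star u ⬝ᵥ (Z *ᵥ u) := by
      calc star (star u ⬝ᵥ (Z *ᵥ u)) = star (Z *ᵥ u) ⬝ᵥ u := by
            rw [Matrix.star_dotProduct u, star_star]
        _ = star u ⬝ᵥ (Z *ᵥ u) := by rw [star_mulVec, hZ, ← dotProduct_mulVec]
    exact h1
  have key : ∀ u w : Fin l → ℂ,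
      0 ≤ (star u ⬝ᵥ (Z *ᵥ u)).re * (star w ⬝ᵥ (Z *ᵥ w)).re := by
    intro u w
    have h1 := h (vecMulVec u (star (Z *ᵥ w)))
    have h2 : Z' * (vecMulVec u (star (Z *ᵥ w)))ᴴ * Z * vecMulVec u (star (Z *ᵥ w)) =
        (star u ⬝ᵥ (Z *ᵥ u)) • vecMulVec w (star (Z *ᵥ w)) := by
      have h0 : Z' * vecMulVec (Z *ᵥ w) (star u) = vecMulVec w (star u) := by
        rw [mul_vecMulVec, mulVec_mulVec, hZ', one_mulVec]
      rw [conjTranspose_vecMulVec, star_star, h0,
        vecMulVec_mul, vecMulVec_mul_vecMulVec, ← dotProduct_mulVec, vecMulVec_smul]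
    have h3 : (vecMulVec w (star (Z *ᵥ w))).trace = star w ⬝ᵥ (Z *ᵥ w) := by
      rw [trace_vecMulVec, star_mulVec, hZ, dotProduct_comm, ← dotProduct_mulVec]
    rw [h2, trace_smul, h3, smul_eq_mul, Complex.mul_re, hreal, hreal, mul_zero, sub_zero] at h1
    exact h1
  by_cases hp : ∀ u : Fin l → ℂ, 0 ≤ (star u ⬝ᵥ (Z *ᵥ u)).re
  · left
    have hs : Z.PosSemidef := PosSemidef.of_dotProduct_mulVec_nonneg hZ fun u => by
      rw [Complex.nonneg_iff]
      exact ⟨hp u, (hreal u).symm⟩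
    exact hs.posDef_iff_isUnit.2 hu
  · right
    push Not at hp
    obtain ⟨w, hw⟩ := hp
    have hs : (-Z).PosSemidef := PosSemidef.of_dotProduct_mulVec_nonneg
      (by rw [IsHermitian, conjTranspose_neg, hZ]) fun u => by
      rw [neg_mulVec, dotProduct_neg, Complex.nonneg_iff, Complex.neg_re, Complex.neg_im, hreal u]
      refine ⟨?_, by simp⟩
      have h1 := key u w
      nlinarith
    exact hs.posDef_iff_isUnit.2 hu.neg

/-- The positive form at an embedding of `K` other than the identity and conjugation. -/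
theorem exists_pos (hA : IsUnitaryForm m K A) (t : ℂ ≃+* ℂ) (h1 : ¬ ∀ c : K, t (c : ℂ) = c)
    (h2 : ¬ ∀ c : K, t (c : ℂ) = (starRingEnd ℂ) (c : ℂ)) :
    ∃ Z : Matrix (Fin (m + 1)) (Fin (m + 1)) ℂ, Z.PosDef ∧
      ∀ a ∈ A, (adjoint m a).map t = Z⁻¹ * (a.map t)ᴴ * Z := by
  let f : A →+* Matrix (Fin (m + 1)) (Fin (m + 1)) ℂ :=
    { toFun := fun a => ((adjoint m (a : Matrix (Fin (m + 1)) (Fin (m + 1)) ℂ)).map t)ᴴ
      map_one' := by
        show ((adjoint m 1).map t)ᴴ = 1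
        rw [adj_one, mapT_one, conjTranspose_one]
      map_mul' := fun a b => by
        show ((adjoint m ((a : Matrix (Fin (m + 1)) (Fin (m + 1)) ℂ) * b)).map t)ᴴ = _
        rw [adj_mul, mapT_mul, conjTranspose_mul]
      map_zero' := by
        show ((adjoint m 0).map t)ᴴ = 0
        rw [adj_zero, mapT_zero, conjTranspose_zero]
      map_add' := fun a b => by
        show ((adjoint m ((a : Matrix (Fin (m + 1)) (Fin (m + 1)) ℂ) + b)).map t)ᴴ = _
        rw [adj_add, mapT_add, conjTranspose_add] }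
  have hcm : ∀ c : K, (starRingEnd ℂ) (t ((starRingEnd ℂ) (c : ℂ))) = t (c : ℂ) := by
    intro c
    have h3 := hA.cm.2.2.2 (t.toRingHom.comp K.subtype) c ⟨_, hA.cm.2.2.1 c c.2⟩ rfl
    have h4 : t ((starRingEnd ℂ) (c : ℂ)) = (starRingEnd ℂ) (t (c : ℂ)) := h3
    rw [h4, Complex.conj_conj]
  obtain ⟨W, W', hW, hW', hf⟩ := exists_conj hA t f (by
    intro c a
    show ((adjoint m ((c : ℂ) • (a : Matrix (Fin (m + 1)) (Fin (m + 1)) ℂ))).map t)ᴴ = _
    rw [adj_smul, map_smul_mat, conjTranspose_smul]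
    show (starRingEnd ℂ) (t ((starRingEnd ℂ) (c : ℂ))) • _ = _
    rw [hcm]
    rfl)
  -- `(adjoint a)^t = Y' (a^t)ᴴ Y`
  have hY : ∀ a ∈ A, (adjoint m a).map t = W'ᴴ * (a.map t)ᴴ * Wᴴ := by
    intro a ha
    have h3 : ((adjoint m a).map t)ᴴ = W * a.map t * W' := hf ⟨a, ha⟩
    have h4 := congrArg conjTranspose h3
    rw [conjTranspose_conjTranspose] at h4
    rw [h4, conjTranspose_mul, conjTranspose_mul]
    simp only [Matrix.mul_assoc]
  have e1 : W'ᴴ * Wᴴ = 1 := by rw [← conjTranspose_mul, hW, conjTranspose_one]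
  have e2 : Wᴴ * W'ᴴ = 1 := by rw [← conjTranspose_mul, hW', conjTranspose_one]
  -- `W'ᴴ W` is scalar
  have hcomm : ∀ X : Matrix (Fin (m + 1)) (Fin (m + 1)) ℂ, (W'ᴴ * W) * X = X * (W'ᴴ * W) := by
    have h3 : ∀ a ∈ A, (W'ᴴ * W) * a.map t = a.map t * (W'ᴴ * W) := by
      intro a ha
      have h4 := hY (adjoint m a) (hA.adj a ha)
      rw [adj_adj, hY a ha, conjTranspose_mul, conjTranspose_mul, conjTranspose_conjTranspose,
        conjTranspose_conjTranspose, conjTranspose_conjTranspose] at h4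
      have h5 : a.map t * (W'ᴴ * W) = (W'ᴴ * W) * a.map t * ((W' * Wᴴ) * (W'ᴴ * W)) := by
        conv_lhs => rw [h4]
        simp only [Matrix.mul_assoc]
      have h6 : (W' * Wᴴ) * (W'ᴴ * W) = 1 := by
        calc (W' * Wᴴ) * (W'ᴴ * W) = W' * (Wᴴ * W'ᴴ) * W := by simp only [Matrix.mul_assoc]
          _ = 1 := by rw [e2, Matrix.mul_one, hW']
      rw [h5, h6, Matrix.mul_one]
    intro X
    have h7 : X ∈ Submodule.span ℂ ((fun a : Matrix (Fin (m + 1)) (Fin (m + 1)) ℂ => a.map t) ''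
        (A : Set (Matrix (Fin (m + 1)) (Fin (m + 1)) ℂ))) := by
      rw [span_image_map t _ hA.span]
      trivial
    induction h7 using Submodule.span_induction with
    | mem x hx =>
      obtain ⟨a, ha, rfl⟩ := hx
      exact h3 a ha
    | zero => rw [Matrix.mul_zero, Matrix.zero_mul]
    | add x y _ _ hx hy => rw [Matrix.mul_add, Matrix.add_mul, hx, hy]
    | smul c x _ hx => rw [Matrix.mul_smul, Matrix.smul_mul, hx]
  obtain ⟨c, hc⟩ : ∃ c : ℂ, W'ᴴ * W = c • (1 : Matrix (Fin (m + 1)) (Fin (m + 1)) ℂ) := by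
    have h3 : W'ᴴ * W ∈ Set.center (Matrix (Fin (m + 1)) (Fin (m + 1)) ℂ) := by
      rw [Semigroup.mem_center_iff]
      intro X
      exact (hcomm X).symm
    rw [Matrix.center_eq_range] at h3
    obtain ⟨c, hc⟩ := h3
    exact ⟨c, by rw [← hc, Matrix.smul_one_eq_diagonal]; rfl⟩
  -- `W = c Wᴴ`, `|c| = 1`
  have hWc : W = c • Wᴴ := by
    calc W = (Wᴴ * W'ᴴ) * W := by rw [e2, Matrix.one_mul]
      _ = Wᴴ * (W'ᴴ * W) := by rw [Matrix.mul_assoc]
      _ = c • Wᴴ := by rw [hc, Matrix.mul_smul, Matrix.mul_one]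
  have hW0 : W ≠ 0 := by
    intro h0
    rw [h0, Matrix.zero_mul] at hW
    exact zero_ne_one hW
  have hc1 : c * (starRingEnd ℂ) c = 1 := by
    have h3 : W = (c * (starRingEnd ℂ) c) • W := by
      conv_lhs => rw [hWc]
      conv_lhs => rw [hWc]
      rw [conjTranspose_smul, conjTranspose_conjTranspose, smul_smul]
      rfl
    have h4 : (c * (starRingEnd ℂ) c - 1) • W = 0 := by
      rw [sub_smul, one_smul, ← h3, sub_self]
    rcases smul_eq_zero.1 h4 with h5 | h5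
    · linear_combination h5
    · exact absurd h5 hW0
  have hc0 : c ≠ 0 := by
    rintro rfl
    rw [zero_mul] at hc1
    exact zero_ne_one hc1
  -- a square root of `c` makes the form Hermitian
  obtain ⟨d, hd⟩ := IsAlgClosed.exists_pow_nat_eq c (n := 2) (by norm_num)
  have hd0 : d ≠ 0 := by
    rintro rfl
    apply hc0
    rw [← hd]
    norm_num
  have hdn : d * (starRingEnd ℂ) d = 1 := by
    have h3 : (d * (starRingEnd ℂ) d) ^ 2 = 1 := by
      rw [mul_pow, ← map_pow, hd, hc1]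
    have h4 : d * (starRingEnd ℂ) d = ((Complex.normSq d : ℝ) : ℂ) := Complex.mul_conj d
    rw [h4] at h3 ⊢
    norm_cast at h3 ⊢
    nlinarith [Complex.normSq_nonneg d]
  set Z : Matrix (Fin (m + 1)) (Fin (m + 1)) ℂ := d • Wᴴ with hZdef
  set Z' : Matrix (Fin (m + 1)) (Fin (m + 1)) ℂ := (starRingEnd ℂ) d • W'ᴴ with hZ'def
  have hZ'Z : Z' * Z = 1 := by
    rw [hZdef, hZ'def, Matrix.smul_mul, Matrix.mul_smul, smul_smul, e1, mul_comm, hdn, one_smul]
  have hZh : Zᴴ = Z := by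
    rw [hZdef, conjTranspose_smul, conjTranspose_conjTranspose]
    conv_lhs => rw [hWc]
    rw [smul_smul]
    congr 1
    show (starRingEnd ℂ) d * c = d
    rw [← hd]
    calc (starRingEnd ℂ) d * d ^ 2 = (d * (starRingEnd ℂ) d) * d := by ring
      _ = d := by rw [hdn, one_mul]
  have hZA : ∀ a ∈ A, (adjoint m a).map t = Z' * (a.map t)ᴴ * Z := by
    intro a ha
    rw [hY a ha, hZdef, hZ'def, Matrix.smul_mul, Matrix.mul_smul, Matrix.smul_mul, smul_smul, hdn,
      one_smul]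
  have hpos : ∀ X : Matrix (Fin (m + 1)) (Fin (m + 1)) ℂ, 0 ≤ (Z' * Xᴴ * Z * X).trace.re := by
    intro X
    have hcl : IsClosed {X : Matrix (Fin (m + 1)) (Fin (m + 1)) ℂ |
        0 ≤ (Z' * Xᴴ * Z * X).trace.re} := by
      refine isClosed_le continuous_const (Complex.continuous_re.comp ?_)
      refine Continuous.matrix_trace ?_
      refine Continuous.matrix_mul ?_ continuous_id
      refine Continuous.matrix_mul ?_ continuous_const
      exact Continuous.matrix_mul continuous_const continuous_id.matrix_conjTranspose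
    refine hcl.closure_subset_iff.2 ?_ (dense_map hA t X)
    rintro _ ⟨a, ha, rfl⟩
    show 0 ≤ (Z' * (a.map t)ᴴ * Z * a.map t).trace.re
    rw [← hZA a ha, ← mapT_mul, mapT_trace]
    have h3 := trace_mem hA (A.mul_mem (hA.adj a ha) ha)
    rcases hA.pos (t.toRingHom.comp K.subtype) with h4 | h4 | h4
    · exact absurd h4 h1
    · exact absurd h4 h2
    · exact h4 a ha ⟨_, h3⟩ rfl
  rcases def_of_nonneg hZh hZ'Z hpos with h3 | h3
  · refine ⟨Z, h3, fun a ha => ?_⟩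
    rw [hZA a ha, Matrix.inv_eq_left_inv hZ'Z]
  · refine ⟨-Z, h3, fun a ha => ?_⟩
    have h4 : (-Z') * (-Z) = 1 := by rw [Matrix.neg_mul, Matrix.mul_neg, neg_neg, hZ'Z]
    rw [hZA a ha, Matrix.inv_eq_left_inv h4, Matrix.neg_mul, Matrix.neg_mul, Matrix.mul_neg, neg_neg]

end Pool.Agent.Lib.MP_5d4057_al.VB.Sk
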