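import Pool.Agent.Lib.MP_5d4057_al.VB.LieD
import Pool.Agent.Lib.MP_5d4057_al.VB.AutSl

/-!
# VB, V1: the automorphisms of the Lie algebra of matrices of trace 0

The theorem is `SlA.LA.aut` of `VB.AutSl`.
-/

set_option autoImplicit false

namespace Pool.Agent.Lib.MP_5d4057_al.VB

open Matrix Pool.Agent.Lib.MP_5d4057_al Pool.Agent.Lib.MP_5d4057_al.Hyb
  Pool.Agent.Lib.MP_5d4057_al.HM Pool.Agent.Lib.MP_5d4057_al.NU

variable {n : ℕ}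

theorem IsAut.inner (hn : 3 ≤ n) {θ : Mat n →ₗ[ℂ] Mat n} (hθ : IsAut θ) :
    ∃ T : Mat n, IsUnit T ∧ ((∀ X : Mat n, X.trace = 0 → θ X * T = T * X) ∨
      ∀ X : Mat n, X.trace = 0 → θ X * T = -(T * Xᵀ)) := by
  have h : SlA.LA fun X => θ X :=
    ⟨fun X Y _ _ => map_add θ X Y, fun c X _ => map_smul θ c X, hθ.tr, hθ.br, hθ.inj⟩
  obtain ⟨g, g', hg, hg', h1 | h1⟩ := h.aut hn
  · refine ⟨g, ⟨⟨g, g', hg, hg'⟩, rfl⟩, Or.inl fun X hX => ?_⟩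
    rw [h1 X hX, mul_assoc, hg', mul_one]
  · refine ⟨g, ⟨⟨g, g', hg, hg'⟩, rfl⟩, Or.inr fun X hX => ?_⟩
    rw [h1 X hX, neg_mul, mul_assoc (g * Xᵀ), hg', mul_one]

end Pool.Agent.Lib.MP_5d4057_al.VB
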