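import Pool.Agent.Lib.MP_5d4057_al.CF.Crit

/-!
# VERB, V1: the trace field of a finitely generated irreducible group with algebraic traces is a number field
-/

set_option autoImplicit false

namespace Pool.Agent.Lib.MP_5d4057_al.VB

open Matrix Pool.Agent.Lib.MP_5d4057_al Pool.Agent.Lib.MP_5d4057_al.Hyb
  Pool.Agent.Lib.MP_5d4057_al.HM

variable {m : ℕ} {Γ : Subgroup (SUGroup m)}

/-- Finitely many algebraic numbers lie in a number field. -/
theorem trf_field {A : Set ℂ} (hf : A.Finite) (hA : ∀ x ∈ A, IsAlgebraic ℚ x) :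
    ∃ K : Subfield ℂ, NumberField K ∧ A ⊆ K := by
  have hfd : FiniteDimensional ℚ (IntermediateField.adjoin ℚ A) := by
    have := hf.to_subtype
    exact IntermediateField.finiteDimensional_adjoin fun x hx => (hA x hx).isIntegral
  refine ⟨(IntermediateField.adjoin ℚ A).toSubfield, ?_, fun x hx =>
    IntermediateField.subset_adjoin ℚ A hx⟩
  refine { to_charZero := inferInstance, to_finiteDimensional := ?_ }
  let E := IntermediateField.adjoin ℚ A
  let e : E ≃ₗ[ℚ] E.toSubfield :=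
    { toFun := fun x => ⟨x.1, x.2⟩
      invFun := fun x => ⟨x.1, x.2⟩
      left_inv := fun _ => rfl
      right_inv := fun _ => rfl
      map_add' := fun _ _ => rfl
      map_smul' := fun c x => by
        refine Subtype.ext ?_
        change ((c • x : E) : ℂ) = ((c • (⟨x.1, x.2⟩ : E.toSubfield) : E.toSubfield) : ℂ)
        rw [IntermediateField.coe_smul]
        rfl }
  exact Module.Finite.equiv e

/-- A subfield of a number field is a number field. -/
theorem trf_sub {F K : Subfield ℂ} (hK : NumberField K) (h : F ≤ K) : NumberField F := by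
  refine { to_charZero := inferInstance, to_finiteDimensional := ?_ }
  have hfd : FiniteDimensional ℚ K := hK.to_finiteDimensional
  let e : F →ₗ[ℚ] K :=
    { toFun := fun x => ⟨x.1, h x.2⟩
      map_add' := fun _ _ => rfl
      map_smul' := fun c x => by
        refine Subtype.ext ?_
        change ((c • x : F) : ℂ) = ((c • (⟨x.1, h x.2⟩ : K) : K) : ℂ)
        rfl }
  exact Module.Finite.of_injective e fun x y hxy =>
    Subtype.ext (congrArg (fun z : K => (z : ℂ)) hxy)

/-- The traces of a finitely generated irreducible group with algebraic traces lie in a number field. -/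
theorem trf_exists (hspan : Submodule.span ℂ (SUGroup.toMatrix '' (Γ : Set (SUGroup m))) = ⊤)
    (hfg : Γ.FG) (halg : ∀ γ ∈ Γ, IsAlgebraic ℚ γ.toMatrix.trace) :
    ∃ K : Subfield ℂ, NumberField K ∧ ∀ γ ∈ Γ, γ.toMatrix.trace ∈ K := by
  classical
  obtain ⟨ι, _, b, g, hg, hb⟩ := CF.exists_basis hspan
  obtain ⟨S, hS⟩ := hfg
  have hSΓ : ∀ x ∈ S, x ∈ Γ := fun x hx => by
    rw [← hS]
    exact Subgroup.subset_closure hx
  -- the finite set of numbers
  let A : Set ℂ := Set.range (fun i : ι => (g i).toMatrix.trace) ∪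
    (Set.range (fun p : ι × ι => (g p.1 * g p.2).toMatrix.trace) ∪
    (Set.range (fun p : ι × S × ι => (g p.1 * (p.2.1 : SUGroup m) * g p.2.2).toMatrix.trace) ∪
    Set.range (fun p : ι × S × ι => (g p.1 * (p.2.1 : SUGroup m)⁻¹ * g p.2.2).toMatrix.trace)))
  have hAf : A.Finite := (Set.finite_range _).union
    ((Set.finite_range _).union ((Set.finite_range _).union (Set.finite_range _)))
  have hA : ∀ x ∈ A, IsAlgebraic ℚ x := by
    rintro x (⟨i, rfl⟩ | ⟨p, rfl⟩ | ⟨p, rfl⟩ | ⟨p, rfl⟩)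
    · exact halg _ (hg i)
    · exact halg _ (mul_mem (hg _) (hg _))
    · exact halg _ (mul_mem (mul_mem (hg _) (hSΓ _ p.2.1.2)) (hg _))
    · exact halg _ (mul_mem (mul_mem (hg _) (inv_mem (hSΓ _ p.2.1.2))) (hg _))
  obtain ⟨K, hK, hAK⟩ := trf_field hAf hA
  have h1 : ∀ i, (b i).trace ∈ K := fun i => by
    rw [hb]
    exact hAK (Or.inl ⟨i, rfl⟩)
  have h2 : ∀ i j, (b i * b j).trace ∈ K := fun i j => by
    rw [hb, hb, ← toMatrix_mul]
    exact hAK (Or.inr (Or.inl ⟨(i, j), rfl⟩))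
  have h3 : ∀ i, ∀ x ∈ S, ∀ j, (b i * (x.toMatrix * b j)).trace ∈ K := fun i x hx j => by
    rw [hb, hb, ← Matrix.mul_assoc, ← toMatrix_mul, ← toMatrix_mul]
    exact hAK (Or.inr (Or.inr (Or.inl ⟨(i, ⟨x, hx⟩, j), rfl⟩)))
  have h4 : ∀ i, ∀ x ∈ S, ∀ j, (b i * (x⁻¹.toMatrix * b j)).trace ∈ K := fun i x hx j => by
    rw [hb, hb, ← Matrix.mul_assoc, ← toMatrix_mul, ← toMatrix_mul]
    exact hAK (Or.inr (Or.inr (Or.inr ⟨(i, ⟨x, hx⟩, j), rfl⟩)))
  obtain ⟨T, hT⟩ := CF.exists_coord h2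
  -- matrices with coordinates in K
  let W : Set (Matrix (Fin (m + 1)) (Fin (m + 1)) ℂ) := {X | ∀ j, b.repr X j ∈ K}
  have hcoord : ∀ X : Matrix (Fin (m + 1)) (Fin (m + 1)) ℂ, (∀ i, (b i * X).trace ∈ K) → X ∈ W := by
    intro X hX j
    rw [hT X j]
    exact K.sum_mem fun i _ => K.mul_mem (T j i).2 (hX i)
  have hcomb : ∀ X ∈ W, ∀ Y : Matrix (Fin (m + 1)) (Fin (m + 1)) ℂ, (∀ j, Y * b j ∈ W) → Y * X ∈ W := by
    intro X hX Y hY j
    have h5 : X = ∑ i, b.repr X i • b i := (b.sum_repr X).symm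
    rw [h5, Finset.mul_sum, map_sum, Finset.sum_apply']
    refine K.sum_mem fun i _ => ?_
    rw [Matrix.mul_smul, map_smul, Finsupp.smul_apply, smul_eq_mul]
    exact K.mul_mem (hX i) (hY i j)
  let G : Subgroup (SUGroup m) :=
    { carrier := {x | (∀ X ∈ W, x.toMatrix * X ∈ W) ∧ ∀ X ∈ W, x⁻¹.toMatrix * X ∈ W}
      mul_mem' := by
        rintro x y ⟨hx, hx'⟩ ⟨hy, hy'⟩
        refine ⟨fun X hX => ?_, fun X hX => ?_⟩
        · rw [toMatrix_mul, Matrix.mul_assoc]
          exact hx _ (hy _ hX)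
        · rw [_root_.mul_inv_rev, toMatrix_mul, Matrix.mul_assoc]
          exact hy' _ (hx' _ hX)
      one_mem' := by
        refine ⟨fun X hX => ?_, fun X hX => ?_⟩
        · rw [toMatrix_one, Matrix.one_mul]
          exact hX
        · rw [inv_one, toMatrix_one, Matrix.one_mul]
          exact hX
      inv_mem' := by
        rintro x ⟨hx, hx'⟩
        refine ⟨hx', ?_⟩
        rw [inv_inv]
        exact hx }
  have hG : Γ ≤ G := by
    rw [← hS, Subgroup.closure_le]
    intro x hx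
    exact ⟨fun X hX => hcomb X hX _ fun j => hcoord _ fun i => h3 i x hx j,
      fun X hX => hcomb X hX _ fun j => hcoord _ fun i => h4 i x hx j⟩
  refine ⟨K, hK, fun γ hγ => ?_⟩
  have h5 : (1 : Matrix (Fin (m + 1)) (Fin (m + 1)) ℂ) ∈ W :=
    hcoord _ fun i => by rw [Matrix.mul_one]; exact h1 i
  have h6 := (hG hγ).1 _ h5
  rw [Matrix.mul_one] at h6
  rw [← b.sum_repr γ.toMatrix, Matrix.trace_sum]
  refine K.sum_mem fun i _ => ?_
  rw [Matrix.trace_smul, smul_eq_mul]
  exact K.mul_mem (h6 i) (h1 i)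

/-- **The trace field of a finitely generated irreducible group with algebraic traces is a number field.** -/
theorem numberField_traceField
    (hspan : Submodule.span ℂ (SUGroup.toMatrix '' (Γ : Set (SUGroup m))) = ⊤)
    (hfg : Γ.FG) (halg : ∀ γ ∈ Γ, IsAlgebraic ℚ γ.toMatrix.trace) :
    NumberField (traceField Γ) := by
  obtain ⟨K, hK, h⟩ := trf_exists hspan hfg halg
  refine trf_sub hK ?_
  unfold traceField
  rw [Subfield.closure_le]
  rintro t ⟨γ, hγ, rfl⟩
  exact h γ hγ

end Pool.Agent.Lib.MP_5d4057_al.VB
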