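import Mathlib

/-!
# VB: exponentials in Banach algebras: products of many small factors, one-parameter groups
-/

set_option autoImplicit false

namespace Pool.Agent.Lib.MP_5d4057_al.VB

open Filter Topology NormedSpace

section

variable {𝔸 : Type*} [NormedRing 𝔸]

theorem norm_pow_mul_le (a d : 𝔸) (i : ℕ) : ‖a ^ i * d‖ ≤ ‖a‖ ^ i * ‖d‖ := by
  induction i with
  | zero => simp
  | succ i ih =>
    rw [pow_succ', pow_succ', mul_assoc, mul_assoc]
    exact (norm_mul_le _ _).trans (mul_le_mul_of_nonneg_left ih (norm_nonneg _))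

theorem norm_pow_sub_pow_le {a b : 𝔸} {M : ℝ} (ha : ‖a‖ ≤ M) (hb : ‖b‖ ≤ M) (n : ℕ) :
    ‖a ^ n - b ^ n‖ ≤ n * M ^ (n - 1) * ‖a - b‖ := by
  have hM : 0 ≤ M := (norm_nonneg _).trans ha
  induction n with
  | zero => simp
  | succ n ih =>
    have h1 : a ^ (n + 1) - b ^ (n + 1) = a ^ n * (a - b) + (a ^ n - b ^ n) * b := by
      rw [pow_succ, pow_succ]
      noncomm_ring
    have h2 : ‖a ^ n * (a - b)‖ ≤ M ^ n * ‖a - b‖ :=
      (norm_pow_mul_le a (a - b) n).trans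
        (mul_le_mul_of_nonneg_right (pow_le_pow_left₀ (norm_nonneg _) ha n) (norm_nonneg _))
    have h3 : ‖(a ^ n - b ^ n) * b‖ ≤ (n * M ^ (n - 1) * ‖a - b‖) * M :=
      (norm_mul_le _ _).trans (mul_le_mul ih hb (norm_nonneg _) (by positivity))
    have h4 : (n : ℝ) * M ^ (n - 1) * M = n * M ^ n := by
      rcases Nat.eq_zero_or_pos n with h | h
      · subst h
        simp
      · obtain ⟨j, rfl⟩ : ∃ j, n = j + 1 := ⟨n - 1, by omega⟩
        rw [Nat.add_sub_cancel, mul_assoc, ← pow_succ]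
    rw [h1, Nat.add_sub_cancel]
    calc ‖a ^ n * (a - b) + (a ^ n - b ^ n) * b‖ ≤ M ^ n * ‖a - b‖ + n * M ^ (n - 1) * ‖a - b‖ * M :=
          (norm_add_le _ _).trans (add_le_add h2 h3)
      _ = (1 + n) * M ^ n * ‖a - b‖ := by
          rw [show n * M ^ (n - 1) * ‖a - b‖ * M = (n * M ^ (n - 1) * M) * ‖a - b‖ by ring, h4]
          ring
      _ = ((n + 1 : ℕ) : ℝ) * M ^ n * ‖a - b‖ := by
          push_cast
          ring

end

variable {𝔸 : Type*} [NormedRing 𝔸] [NormedAlgebra ℝ 𝔸] [CompleteSpace 𝔸]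

theorem exp_cont : Continuous (exp : 𝔸 → 𝔸) := by
  let : NormedAlgebra ℚ 𝔸 := .restrictScalars ℚ ℝ 𝔸
  exact exp_continuous

theorem exp_add_comm {x y : 𝔸} (h : Commute x y) : exp (x + y) = exp x * exp y := by
  let : NormedAlgebra ℚ 𝔸 := .restrictScalars ℚ ℝ 𝔸
  exact exp_add_of_commute h

theorem exp_nat_smul (n : ℕ) (x : 𝔸) : exp (n • x) = exp x ^ n := by
  let : NormedAlgebra ℚ 𝔸 := .restrictScalars ℚ ℝ 𝔸
  exact exp_nsmul n x

theorem exp_mul_neg (x : 𝔸) : exp x * exp (-x) = 1 := by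
  rw [← exp_add_comm (Commute.refl x).neg_right, add_neg_cancel, exp_zero]

theorem exp_neg_mul (x : 𝔸) : exp (-x) * exp x = 1 := by
  rw [← exp_add_comm (Commute.refl x).neg_left, neg_add_cancel, exp_zero]

theorem exp_conj (y : 𝔸ˣ) (x : 𝔸) : exp (y * x * ↑y⁻¹ : 𝔸) = y * exp x * ↑y⁻¹ := by
  let : NormedAlgebra ℚ 𝔸 := .restrictScalars ℚ ℝ 𝔸
  exact exp_units_conj y x

/-- The unit `exp x`. -/
noncomputable def expU (x : 𝔸) : 𝔸ˣ where
  val := exp x
  inv := exp (-x)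
  val_inv := exp_mul_neg x
  inv_val := exp_neg_mul x

@[simp] theorem expU_val (x : 𝔸) : (expU x : 𝔸) = exp x := rfl

/-- **Products of many small factors.** -/
theorem tendsto_pow_exp (h1 : ‖(1 : 𝔸)‖ ≤ 1) {ι : Type*} {l : Filter ι} {g : ι → 𝔸} {s : ι → ℝ}
    {n : ι → ℕ} {X : 𝔸} {t : ℝ} (hs : Tendsto s l (𝓝 0)) (hs0 : ∀ᶠ i in l, 0 < s i)
    (hg : Tendsto (fun i => (s i)⁻¹ • (g i - 1)) l (𝓝 X))
    (hn : Tendsto (fun i => (n i : ℝ) * s i) l (𝓝 t)) :
    Tendsto (fun i => g i ^ n i) l (𝓝 (exp (t • X))) := by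
  -- the exponential
  have hd : HasDerivAt (fun u : ℝ => exp (u • X)) X 0 := by
    have h := hasDerivAt_exp_smul_const X (0 : ℝ)
    rwa [zero_smul, exp_zero, one_mul] at h
  have he : Tendsto (fun i => (s i)⁻¹ • (exp (s i • X) - 1)) l (𝓝 X) := by
    have h2 := hasDerivAt_iff_tendsto_slope_zero.1 hd
    have h3 : Tendsto s l (𝓝[≠] 0) := by
      rw [tendsto_nhdsWithin_iff]
      refine ⟨hs, ?_⟩
      filter_upwards [hs0] with i hi
      exact hi.ne'
    have h4 := h2.comp h3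
    refine h4.congr fun i => ?_
    simp
  have hen : ∀ i, exp (s i • X) ^ n i = exp (((n i : ℝ) * s i) • X) := by
    intro i
    rw [← exp_nat_smul, mul_smul, Nat.cast_smul_eq_nsmul]
  have hlim : Tendsto (fun i => exp (s i • X) ^ n i) l (𝓝 (exp (t • X))) := by
    simp only [hen]
    exact (exp_cont.tendsto _).comp (hn.smul_const X)
  -- the difference
  obtain ⟨C, hC⟩ : ∃ C : ℝ, C = ‖X‖ + 1 := ⟨_, rfl⟩
  have hC0 : 0 ≤ C := by
    rw [hC]
    positivity
  have hgb : ∀ᶠ i in l, ‖(s i)⁻¹ • (g i - 1)‖ ≤ C := by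
    filter_upwards [hg.norm.eventually_lt_const (show ‖X‖ < C by rw [hC]; linarith)] with i hi
    exact hi.le
  have heb : ∀ᶠ i in l, ‖(s i)⁻¹ • (exp (s i • X) - 1)‖ ≤ C := by
    filter_upwards [he.norm.eventually_lt_const (show ‖X‖ < C by rw [hC]; linarith)] with i hi
    exact hi.le
  have hnorm : ∀ (x : 𝔸) (r : ℝ), 0 < r → ‖r⁻¹ • (x - 1)‖ ≤ C → ‖x‖ ≤ Real.exp (r * C) := by
    intro x r hr hx
    have h2 : ‖x - 1‖ ≤ r * C := by
      rw [norm_smul, Real.norm_eq_abs, abs_of_pos (inv_pos.2 hr), inv_mul_le_iff₀ hr] at hx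
      exact hx
    calc ‖x‖ = ‖(x - 1) + 1‖ := by rw [sub_add_cancel]
      _ ≤ ‖x - 1‖ + ‖(1 : 𝔸)‖ := norm_add_le _ _
      _ ≤ r * C + 1 := add_le_add h2 h1
      _ ≤ Real.exp (r * C) := Real.add_one_le_exp _
  have hdiff : Tendsto (fun i => g i ^ n i - exp (s i • X) ^ n i) l (𝓝 0) := by
    have hδ : Tendsto (fun i => ‖(s i)⁻¹ • (g i - 1) - (s i)⁻¹ • (exp (s i • X) - 1)‖) l (𝓝 0) := by
      have h2 := (hg.sub he).norm
      rwa [sub_self, norm_zero] at h2
    have hup : Tendsto (fun i => ((n i : ℝ) * s i) * Real.exp ((n i * s i) * C) *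
        ‖(s i)⁻¹ • (g i - 1) - (s i)⁻¹ • (exp (s i • X) - 1)‖) l (𝓝 0) := by
      have h2 : Tendsto (fun i => Real.exp (((n i : ℝ) * s i) * C)) l (𝓝 (Real.exp (t * C))) :=
        (Real.continuous_exp.tendsto _).comp (hn.mul_const C)
      have h3 := (hn.mul h2).mul hδ
      rwa [mul_zero] at h3
    refine squeeze_zero_norm' ?_ hup
    filter_upwards [hs0, hgb, heb] with i hi h2 h3
    have h4 := hnorm _ _ hi h2
    have h5 := hnorm _ _ hi h3
    have h6 := norm_pow_sub_pow_le h4 h5 (n i)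
    have h7 : g i - exp (s i • X) =
        s i • ((s i)⁻¹ • (g i - 1) - (s i)⁻¹ • (exp (s i • X) - 1)) := by
      rw [← smul_sub, smul_smul, mul_inv_cancel₀ hi.ne', one_smul]
      abel
    have h8 : Real.exp (s i * C) ^ (n i - 1) ≤ Real.exp ((n i * s i) * C) := by
      rw [← Real.exp_nat_mul]
      apply Real.exp_le_exp.2
      have h9 : ((n i - 1 : ℕ) : ℝ) ≤ n i := by exact_mod_cast Nat.sub_le _ _
      nlinarith [mul_nonneg hi.le hC0]
    refine h6.trans ?_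
    rw [h7, norm_smul, Real.norm_eq_abs, abs_of_pos hi]
    have h9 : (0 : ℝ) ≤ n i := Nat.cast_nonneg _
    have h10 : 0 ≤ s i * ‖(s i)⁻¹ • (g i - 1) - (s i)⁻¹ • (exp (s i • X) - 1)‖ := by positivity
    calc (n i : ℝ) * Real.exp (s i * C) ^ (n i - 1) *
          (s i * ‖(s i)⁻¹ • (g i - 1) - (s i)⁻¹ • (exp (s i • X) - 1)‖)
        ≤ (n i : ℝ) * Real.exp ((n i * s i) * C) *
          (s i * ‖(s i)⁻¹ • (g i - 1) - (s i)⁻¹ • (exp (s i • X) - 1)‖) :=
          mul_le_mul_of_nonneg_right (mul_le_mul_of_nonneg_left h8 h9) h10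
      _ = _ := by ring
  have h2 := hdiff.add hlim
  rw [zero_add] at h2
  refine h2.congr fun i => ?_
  abel

/-- The one-parameter group determines its generator. -/
theorem exp_smul_inj {X Y : 𝔸} (h : ∀ t : ℝ, exp (t • X) = exp (t • Y)) : X = Y := by
  have hd : ∀ X : 𝔸, HasDerivAt (fun u : ℝ => exp (u • X)) X 0 := by
    intro X
    have h := hasDerivAt_exp_smul_const X (0 : ℝ)
    rwa [zero_smul, exp_zero, one_mul] at h
  have h1 := hd X
  rw [funext h] at h1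
  exact h1.unique (hd Y)

/-- **Continuous one-parameter groups are exponentials.** -/
theorem one_param {f : ℝ → 𝔸} (hf : Continuous f) (h0 : f 0 = 1)
    (hadd : ∀ s t, f (s + t) = f s * f t) : ∃ Y : 𝔸, ∀ t : ℝ, f t = exp (t • Y) := by
  obtain ⟨F, hF⟩ : ∃ F : ℝ → 𝔸, F = fun t => ∫ x in (0 : ℝ)..t, f x := ⟨_, rfl⟩
  have hFd : ∀ t, HasDerivAt F (f t) t := by
    intro t
    rw [hF]
    exact intervalIntegral.integral_hasDerivAt_right (hf.intervalIntegrable _ _)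
      hf.aestronglyMeasurable.stronglyMeasurableAtFilter hf.continuousAt
  have hF0 : F 0 = 0 := by
    rw [hF]
    exact intervalIntegral.integral_same
  have hmul : ∀ t a, f t * F a = F (t + a) - F t := by
    intro t a
    have h1 : F (t + a) - F t = ∫ x in t..(t + a), f x := by
      rw [hF]
      exact intervalIntegral.integral_interval_sub_left (hf.intervalIntegrable _ _)
        (hf.intervalIntegrable _ _)
    have h2 : ∫ x in t..(t + a), f x = ∫ x in (0 : ℝ)..a, f (t + x) := by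
      have h3 := intervalIntegral.integral_comp_add_left (a := 0) (b := a) f t
      rw [h3, add_zero]
    rw [h1, h2, hF]
    simp only [hadd]
    exact ((ContinuousLinearMap.mul ℝ 𝔸 (f t)).intervalIntegral_comp_comm
      (hf.intervalIntegrable _ _)).symm
  obtain ⟨a, ha⟩ : ∃ a : ℝ, IsUnit (F a) := by
    have h1 := hasDerivAt_iff_tendsto_slope_zero.1 (hFd 0)
    rw [h0] at h1
    have h2 : ∀ᶠ t in 𝓝[≠] (0 : ℝ), IsUnit (t⁻¹ • (F (0 + t) - F 0)) :=
      h1.eventually (Units.isOpen.mem_nhds isUnit_one)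
    have h3 : ∀ᶠ t in 𝓝[≠] (0 : ℝ), t ≠ 0 := eventually_mem_nhdsWithin
    obtain ⟨t, h4, h5⟩ := (h2.and h3).exists
    refine ⟨t, ?_⟩
    rw [zero_add, hF0, sub_zero] at h4
    have h6 : F t = t • (t⁻¹ • F t) := by rw [smul_smul, mul_inv_cancel₀ h5, one_smul]
    rw [h6]
    exact (IsUnit.smul (Units.mk0 t h5) h4 : _)
  obtain ⟨u, hu⟩ := ha
  obtain ⟨Y, hY⟩ : ∃ Y : 𝔸, Y = (f a - 1) * (↑u⁻¹ : 𝔸) := ⟨_, rfl⟩
  have hft : ∀ t, f t = (F (t + a) - F t) * (↑u⁻¹ : 𝔸) := by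
    intro t
    rw [← hmul, ← hu, mul_assoc, Units.mul_inv, mul_one]
  have hfd : ∀ t, HasDerivAt f (f t * Y) t := by
    intro t
    have h1 : HasDerivAt (fun t => F (t + a)) (f (t + a)) t := by
      have h2 := (hFd (t + a)).scomp t ((hasDerivAt_id t).add_const a)
      rw [one_smul] at h2
      exact h2
    have h2 : HasDerivAt (fun t => (F (t + a) - F t) * (↑u⁻¹ : 𝔸))
        ((f (t + a) - f t) * (↑u⁻¹ : 𝔸)) t := (h1.sub (hFd t)).mul_const _
    have h3 : f t * Y = (f (t + a) - f t) * (↑u⁻¹ : 𝔸) := by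
      rw [hY, hadd, ← mul_assoc, mul_sub, mul_one]
    rw [h3]
    exact h2.congr_of_eventuallyEq (Eventually.of_forall hft)
  refine ⟨Y, ?_⟩
  have hg : ∀ t, HasDerivAt (fun t : ℝ => f t * exp (t • (-Y))) 0 t := by
    intro t
    have h1 := (hfd t).mul (hasDerivAt_exp_smul_const' (-Y) t)
    refine h1.congr_deriv ?_
    rw [mul_assoc, ← mul_add, ← add_mul, add_neg_cancel, zero_mul, mul_zero]
  have hc : ∀ t, f t * exp (t • (-Y)) = 1 := by
    intro t
    have h1 := is_const_of_deriv_eq_zero (fun t => (hg t).differentiableAt)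
      (fun t => (hg t).deriv) t 0
    rw [h1, h0, zero_smul, exp_zero, one_mul]
  intro t
  have h1 := hc t
  calc f t = f t * (exp (t • (-Y)) * exp (t • Y)) := by
        rw [smul_neg, exp_neg_mul, mul_one]
    _ = exp (t • Y) := by rw [← mul_assoc, h1, one_mul]

end Pool.Agent.Lib.MP_5d4057_al.VB
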