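import Pool.Agent.Lib.MP_5d4057_al.VB.CaseA
import Pool.Agent.Lib.MP_5d4057_al.VB.CaseB
import Pool.Agent.Lib.MP_5d4057_al.VB.Dich
import Pool.Agent.Lib.MP_5d4057_al.VB.EigL
import Pool.Agent.Lib.MP_5d4057_al.VB.Chi
import Pool.Agent.Lib.MP_5d4057_al.VB.TrF
import Pool.Agent.Lib.MP_5d4057_al.Hyb.Tr
import Pool.Agent.Lib.MP_5d4057_al.RC.WideD

/-!
# VB, V1: assembly of the second half
-/

set_option autoImplicit false

namespace Pool.Agent.Lib.MP_5d4057_al.VB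

open Matrix Pool.Agent.Lib.MP_5d4057_al Pool.Agent.Lib.MP_5d4057_al.Hyb
  Pool.Agent.Lib.MP_5d4057_al.HM Pool.Agent.Lib.MP_5d4057_al.NU

open scoped ComplexOrder

variable {m N : ℕ} {Γ : Subgroup (SUGroup m)} {𝔤 : Submodule ℂ (Mat N)}
  {π : Mat N →ₗ[ℂ] Mat (m + 1)} {g h : SUGroup m → Mat N}

/-- The three possibilities for `t` on a subgroup. -/
def Tri (Γ₁ : Subgroup (SUGroup m)) (t : ℂ ≃+* ℂ) : Prop :=
  (∀ γ ∈ Γ₁, t γ.toMatrix.trace = γ.toMatrix.trace) ∨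
  (∀ γ ∈ Γ₁, t γ.toMatrix.trace = cj γ.toMatrix.trace) ∨
  ∃ Z : Mat (m + 1), Z.PosDef ∧ ∀ γ ∈ Γ₁, γ.toMatrix.map t * Z * (γ.toMatrix.map t)ᴴ = Z

private theorem tr_map (t : ℂ ≃+* ℂ) {T : Mat (m + 1)} (hT : IsUnit T) {x : SUGroup m}
    (h : x.toMatrix.map t * T = (1 : ℂ) • (T * x.toMatrix)) : t x.toMatrix.trace = x.toMatrix.trace := by
  have hd : IsUnit T.det := (Matrix.isUnit_iff_isUnit_det T).1 hT
  have h1 : (x.toMatrix.map t).trace = t x.toMatrix.trace := by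
    rw [Matrix.trace, Matrix.trace, map_sum]
    rfl
  rw [← h1]
  calc (x.toMatrix.map t).trace = (x.toMatrix.map t * T * T⁻¹).trace := by
        rw [Matrix.mul_assoc, Matrix.mul_nonsing_inv T hd, Matrix.mul_one]
    _ = (T * x.toMatrix * T⁻¹).trace := by rw [h, one_smul]
    _ = x.toMatrix.trace := by
        rw [Matrix.trace_mul_comm, ← Matrix.mul_assoc, Matrix.nonsing_inv_mul T hd, Matrix.one_mul]

/-- A subgroup of finite index on which all automorphisms of `ℂ` fall in one of the three cases. -/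
theorem LieD.exists_tri (hm : 2 ≤ m) (hΓ : IsLattice Γ) (hfg : Group.FG Γ) (H : LieD Γ N 𝔤 π g h) :
    ∃ Γ₁ : Subgroup (SUGroup m), Γ₁ ≤ Γ ∧ Γ₁.relIndex Γ ≠ 0 ∧ ∀ t : ℂ ≃+* ℂ, Tri Γ₁ t := by
  obtain ⟨Γ₁, hle, hfi, -, hchi⟩ := chi_sub ((Group.fg_iff_subgroup_fg Γ).1 hfg) (N := m + 1) (by omega)
  have hch : ∀ (s : ℂ ≃+* ℂ) (T : Mat (m + 1)), IsUnit T →
      (∀ γ ∈ Γ, ∃ α : ℂ, γ.toMatrix.map s * T = α • (T * γ.toMatrix)) →
      ∀ γ ∈ Γ₁, s γ.toMatrix.trace = γ.toMatrix.trace := by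
    intro s T hT hα γ hγ
    obtain ⟨φ, h1, h2⟩ := CF.exists_char s hT hα
    have h3 : ((φ ⟨γ, hle hγ⟩ : ℂˣ) : ℂ) = 1 := by
      refine hchi (fun x => (φ x : ℂ)) ?_ ?_ ?_ ⟨γ, hle hγ⟩ hγ
      · show ((φ 1 : ℂˣ) : ℂ) = 1
        rw [map_one, Units.val_one]
      · intro x y
        show ((φ (x * y) : ℂˣ) : ℂ) = _
        rw [map_mul, Units.val_mul]
      · intro x
        show ((φ x : ℂˣ) : ℂ) ^ (m + 1) = 1
        rw [← Units.val_pow_eq_pow_val, h2 x, Units.val_one]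
    have h4 := h1 ⟨γ, hle hγ⟩
    rw [h3] at h4
    exact tr_map s hT h4
  refine ⟨Γ₁, hle, hfi, fun t => ?_⟩
  rcases H.dich (by omega) hΓ t with ⟨θ, hθ, he⟩ | hb
  · obtain ⟨T, hT, h1 | h1⟩ := caseA hm t hθ he
    · exact Or.inl (hch t T hT h1)
    · refine Or.inr (Or.inl fun γ hγ => ?_)
      have h2 : cj (t γ.toMatrix.trace) = γ.toMatrix.trace := hch (t.trans cj) T hT h1 γ hγ
      have h3 := congrArg cj h2
      rwa [cj_apply, cj_apply, Complex.conj_conj] at h3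
  · refine Or.inr (Or.inr ?_)
    obtain ⟨C, hC⟩ := bounded_of_ad t hb
    let ρ : Γ →* Mat (m + 1) :=
      { toFun := fun x => (x : SUGroup m).toMatrix.map t
        map_one' := by
          show (1 : SUGroup m).toMatrix.map t = 1
          rw [toMatrix_one]
          exact Matrix.map_one t (map_zero t) (map_one t)
        map_mul' := fun x y => by
          show ((x : SUGroup m) * (y : SUGroup m)).toMatrix.map t = _
          rw [toMatrix_mul, Matrix.map_mul] }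
    obtain ⟨Z, hZ, h2⟩ := exists_posDef_of_bounded ρ (C := C) fun x i j => hC x x.2 i j
    exact ⟨Z, hZ, fun γ hγ => h2 ⟨γ, hle hγ⟩⟩

private theorem trf_ind {Γ₁ : Subgroup (SUGroup m)} {f f' : ℂ →+* ℂ}
    (h : ∀ γ ∈ Γ₁, f γ.toMatrix.trace = f' γ.toMatrix.trace) {x : ℂ} (hx : x ∈ traceField Γ₁) :
    f x = f' x := by
  have h1 : traceField Γ₁ ≤ RingHom.eqLocusField f f' := by
    rw [traceField, Subfield.closure_le]
    rintro _ ⟨γ, hγ, rfl⟩
    exact h γ hγ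
  exact h1 hx

theorem LieD.isArith (hm : 2 ≤ m) (hΓ : IsLattice Γ) (hfg : Group.FG Γ) (H : LieD Γ N 𝔤 π g h) :
    IsArith m Γ := by
  obtain ⟨Γ₁, hle, hfi, htri⟩ := H.exists_tri hm hΓ hfg
  have hL : IsLattice Γ₁ := RC.isLattice_of_relIndex hΓ hle hfi
  have hfg₁ : Γ₁.FG := by
    have h1 : Group.FG Γ := hfg
    have h2 : (Γ₁.subgroupOf Γ).FiniteIndex := ⟨hfi⟩
    have h3 : Group.FG (Γ₁.subgroupOf Γ) := inferInstance
    have h4 : Group.FG Γ₁ := Group.fg_of_surjective (f := (Subgroup.subgroupOfEquivOfLe hle).toMonoidHom)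
      (Subgroup.subgroupOfEquivOfLe hle).surjective
    exact (Group.fg_iff_subgroup_fg _).1 h4
  have hint : ∀ γ ∈ Γ₁, IsIntegral ℤ γ.toMatrix.trace := fun γ hγ => H.isIntegral (hle hγ)
  have hmem : ∀ γ ∈ Γ₁, γ.toMatrix.trace ∈ traceField Γ₁ := fun γ hγ =>
    Subfield.subset_closure ⟨γ, hγ, rfl⟩
  have hnf : NumberField (traceField Γ₁) := numberField_traceField (span_top (by omega) Γ₁ hL) hfg₁
    fun γ hγ => ((hint γ hγ).tower_top (A := ℚ)).isAlgebraic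
  have hconj : ∀ γ : SUGroup m, cj γ.toMatrix.trace = (γ⁻¹).toMatrix.trace := by
    intro γ
    have h1 : (γ⁻¹).toMatrix = J m * γ.toMatrixᴴ * J m := (CF.adjoint_coe γ).symm
    have h2 : J m * J m = 1 := by
      rw [J, Matrix.diagonal_mul_diagonal, ← Matrix.diagonal_one]
      congr 1
      funext i
      split_ifs <;> norm_num
    rw [h1, Matrix.mul_assoc, Matrix.trace_mul_comm, Matrix.mul_assoc, h2, Matrix.mul_one,
      Matrix.trace_conjTranspose]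
    rfl
  have hcm : IsCM (traceField Γ₁) := by
    refine ⟨hnf, ?_, ?_, ?_⟩
    · obtain ⟨γ, hγ, h1⟩ := trace_nonreal hm Γ₁ hL
      exact ⟨_, hmem γ hγ, h1⟩
    · have h1 : traceField Γ₁ ≤ (traceField Γ₁).comap (cj : ℂ →+* ℂ) := by
        refine Subfield.closure_le.2 ?_
        rintro _ ⟨γ, hγ, rfl⟩
        show cj γ.toMatrix.trace ∈ traceField Γ₁
        rw [hconj]
        exact hmem _ (Γ₁.inv_mem hγ)
      exact fun x hx => h1 hx
    · intro τ x y hxy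
      obtain ⟨t, ht⟩ := exists_aut (traceField Γ₁) τ
      rw [← ht, ← ht, hxy]
      refine trf_ind (f := (t : ℂ →+* ℂ).comp (cj : ℂ →+* ℂ)) (f' := (cj : ℂ →+* ℂ).comp (t : ℂ →+* ℂ))
        (fun γ hγ => ?_) x.2
      show t (cj γ.toMatrix.trace) = cj (t γ.toMatrix.trace)
      rw [hconj]
      rcases htri t with h1 | h1 | ⟨Z, hZ, h1⟩
      · rw [h1 _ (Γ₁.inv_mem hγ), h1 γ hγ, hconj]
      · rw [h1 _ (Γ₁.inv_mem hγ), h1 γ hγ, hconj, inv_inv, cj_apply, cj_apply, Complex.conj_conj]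
      · have hd : IsUnit Z.det := isUnit_iff_ne_zero.2 hZ.det_pos.ne'
        have h2 : ∀ A : Mat (m + 1), t A.trace = (A.map t).trace := fun A => by
          rw [Matrix.trace, Matrix.trace, map_sum]
          rfl
        have h3 : ((γ⁻¹).toMatrix.map t) * (γ.toMatrix.map t) = 1 := by
          rw [← Matrix.map_mul, toMatrix_inv_mul]
          exact Matrix.map_one t (map_zero t) (map_one t)
        have h4 : (γ⁻¹).toMatrix.map t = Z * (γ.toMatrix.map t)ᴴ * Z⁻¹ := by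
          calc (γ⁻¹).toMatrix.map t = (γ⁻¹).toMatrix.map t * (Z * Z⁻¹) := by
                rw [Matrix.mul_nonsing_inv Z hd, Matrix.mul_one]
            _ = (γ⁻¹).toMatrix.map t * ((γ.toMatrix.map t * Z * (γ.toMatrix.map t)ᴴ) * Z⁻¹) := by
                rw [h1 γ hγ]
            _ = ((γ⁻¹).toMatrix.map t * (γ.toMatrix.map t)) * Z * (γ.toMatrix.map t)ᴴ * Z⁻¹ := by
                simp only [Matrix.mul_assoc]
            _ = _ := by rw [h3, Matrix.one_mul]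
        rw [h2, h4, Matrix.trace_mul_comm, ← Matrix.mul_assoc, Matrix.nonsing_inv_mul Z hd,
          Matrix.one_mul, Matrix.trace_conjTranspose, h2]
        rfl
  have hA : IsArith m Γ₁ := by
    refine CF.isArith_of_traces (by omega) hL hcm hmem hint fun t h1 h2 => ?_
    rcases htri t with h3 | h3 | h3
    · exact absurd (fun x : traceField Γ₁ => trf_ind (f := (t : ℂ →+* ℂ)) (f' := RingHom.id ℂ) h3 x.2) h1
    · exact absurd (fun x : traceField Γ₁ => trf_ind (f := (t : ℂ →+* ℂ)) (f' := (cj : ℂ →+* ℂ)) h3 x.2) h2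
    · exact h3
  obtain ⟨K, A, O, hU, hO, hc⟩ := hA
  refine ⟨K, A, O, hU, hO, Subgroup.Commensurable.trans ⟨?_, hfi⟩ hc⟩
  rw [Subgroup.relIndex_eq_one.2 hle]
  exact one_ne_zero

end Pool.Agent.Lib.MP_5d4057_al.VB
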