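import Pool.Agent.Lib.MP_5d4057_al.VB.V1F
import Pool.Agent.Lib.MP_5d4057_al.VB.V1B

/-!
# VERB V1: arithmetic lattices in the sense of the problem are given by the classification (leader helper50)
-/

set_option autoImplicit false

namespace Pool.Agent.Lib.MP_5d4057_al.VB

open Pool.Agent.Lib.MP_5d4057_al Pool.Agent.Lib.MP_5d4057_al.Hyb

theorem isArith_of_arithmetic {m : ℕ} (hm : 2 ≤ m) {Γ : Subgroup (SUGroup m)} (hΓ : IsLattice Γ)
    (h : Arithmetic m Γ) : IsArith m Γ := by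
  obtain ⟨Δ, N, 𝔤, π, g, k, hle, hfi, hL, hfg, hD⟩ := exists_lieD hm hΓ h
  exact isArith_of_sub (hD.isArith hm hL hfg) hle hfi

end Pool.Agent.Lib.MP_5d4057_al.VB
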