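import Pool.Agent.Lib.MP_5d4057_al.VB.LieD
import Pool.Agent.Lib.MP_5d4057_al.VB.Cx
import Pool.Agent.Lib.MP_5d4057_al.VB.Bd
import Pool.Agent.Lib.MP_5d4057_al.VB.FG

/-!
# VB, V1: assembly of the first half
-/

set_option autoImplicit false

namespace Pool.Agent.Lib.MP_5d4057_al.VB

open Matrix Pool.Agent.Lib.MP_5d4057_al Pool.Agent.Lib.MP_5d4057_al.Hyb
  Pool.Agent.Lib.MP_5d4057_al.HM Pool.Agent.Lib.MP_5d4057_al.NU

variable {m N : ℕ}

/-- The data for a subgroup of the image of the integral points, from the derivative `D` of `φ`. -/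
theorem exists_lieD_of {H : AlgGroup N} {φ : H.real0 →* SUGroup m}
    (hk : IsCompact (φ.ker : Set H.real0))
    (D : H.lieR →ₗ[ℝ] Matrix (Fin (m + 1)) (Fin (m + 1)) ℂ)
    (hexp : ∀ X : H.lieR, D X = 0 → ∀ (h : H.real0) (t : ℝ),
      mr h = NormedSpace.exp (t • (X : Matrix (Fin N) (Fin N) ℝ)) → φ h = 1)
    (hbr : ∀ X Y Z : H.lieR, (Z : Matrix (Fin N) (Fin N) ℝ) = X.1 * Y.1 - Y.1 * X.1 →
      D Z = D X * D Y - D Y * D X)
    (hsk : ∀ X, (D X)ᴴ * J m = -(J m * D X)) (htr : ∀ X, (D X).trace = 0)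
    (hon : ∀ Y : Matrix (Fin (m + 1)) (Fin (m + 1)) ℂ, Y.trace = 0 →
      Y ∈ Submodule.span ℂ (Set.range D))
    (hcj : ∀ (h : H.real0) (X Y : H.lieR), (Y : Matrix (Fin N) (Fin N) ℝ) = mr h * X.1 * mr h⁻¹ →
      D Y = (φ h).toMatrix * D X * ((φ h)⁻¹).toMatrix)
    {Δ : Subgroup (SUGroup m)} (hΔ : Δ ≤ H.int0.map φ) :
    ∃ (π : Mat N →ₗ[ℂ] Mat (m + 1)) (g h : SUGroup m → Mat N), LieD Δ N H.lie π g h := by
  have hbd := bd_ker hk D hexp fun h X Y hY hX => by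
    rw [hcj h X Y hY, hX, Matrix.mul_zero, Matrix.zero_mul]
  obtain ⟨π, -, hπt, hπb, hπs, hπe, hπd⟩ := exists_pi D hbr hsk htr hon hcj hbd
  have hlift : ∀ γ ∈ Δ, ∃ x : H.real0, x ∈ H.int0 ∧ φ x = γ := fun γ hγ => hΔ hγ
  choose! x hx hφ using hlift
  have hint : ∀ y ∈ H.int0, ∀ i j, ∃ k : ℤ, (mr y).map Complex.ofReal i j = (k : ℂ) := by
    intro y hy i j
    obtain ⟨G, hG⟩ := mem_int0 hy
    refine ⟨G.1 i j, ?_⟩
    have h1 : mr y i j = ((G.1 i j : ℤ) : ℝ) := congrFun (congrFun hG i) j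
    rw [Matrix.map_apply, h1, Complex.ofReal_intCast]
  refine ⟨π, fun γ => (mr (x γ)).map Complex.ofReal, fun γ => (mr (x γ)⁻¹).map Complex.ofReal, ?_⟩
  refine ⟨fun t X hX => lie_map hX t, fun X hX Y hY => lie_brk hX hY, hπb, hπt, hπs, ?_, ?_, ?_, ?_, ?_, ?_⟩
  · intro γ _
    have h1 := congrArg (fun A : Matrix (Fin N) (Fin N) ℝ => (Complex.ofRealHom.mapMatrix A)) (mr_mul_inv (x γ))
    simp only [map_mul, map_one] at h1
    exact h1
  · intro γ hγ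
    exact hint _ (hx γ hγ)
  · intro γ hγ
    exact hint _ (H.int0.inv_mem (hx γ hγ))
  · intro γ hγ X hX
    have h1 := lie_conj hX (g := GeneralLinearGroup.map Complex.ofRealHom (x γ).1.1) (x γ).1.2
    exact h1
  · intro γ hγ X hX
    have h1 := hπe (x γ) X hX
    rw [hφ γ hγ] at h1
    exact h1
  · intro X hX h0
    obtain ⟨C, hC⟩ := hπd X hX h0
    exact ⟨C, fun γ _ i j => hC (x γ) i j⟩

end Pool.Agent.Lib.MP_5d4057_al.VB
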