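import Pool.Agent.Lib.MP_5d4057_al.VB.V1A
import Pool.Agent.Lib.MP_5d4057_al.VB.Onto

/-!
# VB, V1: the last step, from the two halves
-/

set_option autoImplicit false

namespace Pool.Agent.Lib.MP_5d4057_al.VB

open Matrix Pool.Agent.Lib.MP_5d4057_al Pool.Agent.Lib.MP_5d4057_al.Hyb
  Pool.Agent.Lib.MP_5d4057_al.HM Pool.Agent.Lib.MP_5d4057_al.NU

variable {m : ℕ}

/-- Passing from a subgroup of finite index to the group. -/
theorem isArith_of_sub {Γ Δ : Subgroup (SUGroup m)} (h : IsArith m Δ) (hle : Δ ≤ Γ)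
    (hfi : Δ.relIndex Γ ≠ 0) : IsArith m Γ := by
  obtain ⟨K, A, O, hU, hO, hc⟩ := h
  refine ⟨K, A, O, hU, hO, Subgroup.Commensurable.trans ?_ hc⟩
  refine ⟨?_, hfi⟩
  rw [Subgroup.relIndex_eq_one.2 hle]
  exact one_ne_zero

/-- The first half: a finitely generated subgroup of finite index with the Lie algebra data. -/
theorem exists_lieD (hm : 2 ≤ m) {Γ : Subgroup (SUGroup m)} (hΓ : IsLattice Γ)
    (hA : Arithmetic m Γ) :
    ∃ (Δ : Subgroup (SUGroup m)) (N : ℕ) (𝔤 : Submodule ℂ (Mat N)) (π : Mat N →ₗ[ℂ] Mat (m + 1))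
      (g h : SUGroup m → Mat N), Δ ≤ Γ ∧ Δ.relIndex Γ ≠ 0 ∧ IsLattice Δ ∧ Group.FG Δ ∧ LieD Δ N 𝔤 π g h := by
  obtain ⟨N, H, φ, -, -, hφ, hs, hk, hco⟩ := hA
  obtain ⟨D, he, hbr, hsk, htr, hcj⟩ := exists_dphi hφ
  obtain ⟨Δ, hΔ, hfi, hle, hL, -, hfg⟩ := exists_fg hm hΓ hk hco
  have hexp : ∀ X : H.lieR, D X = 0 → ∀ (h : H.real0) (t : ℝ),
      mr h = NormedSpace.exp (t • (X : Matrix (Fin N) (Fin N) ℝ)) → φ h = 1 := by
    intro X hX h t hh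
    have h1 := he X t h hh
    rw [hX, smul_zero, NormedSpace.exp_zero] at h1
    exact Subtype.ext (Subtype.ext h1)
  obtain ⟨π, g, k, hD⟩ := exists_lieD_of hk D hexp hbr hsk htr
    (fun Y hY => dphi_onto (by omega) hφ hs he htr hcj Y hY) hcj
    (hle.trans (Subgroup.map_mono (cong3_le H)))
  exact ⟨Δ, N, H.lie, π, g, k, hΔ, hfi, hL, hfg, hD⟩

end Pool.Agent.Lib.MP_5d4057_al.VB
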